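import Mathlib

/-!
Definitions for the hierarchical subshift of finite type of MP_05dae2_an.
Positions are functions from the n+2 axes to the integers.
-/

namespace Helper536

/-- scan states: mark not yet seen, just seen, seen before -/
inductive St
  | U
  | J
  | S
deriving DecidableEq

/-- comparison of the two faces at a corner: same level, own face higher, own face lower -/
inductive K3
  | same
  | hi
  | lo
deriving DecidableEq

/-- the comparison seen from the other face -/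
def K3.swap : K3 → K3
  | K3.same => K3.same
  | K3.hi => K3.lo
  | K3.lo => K3.hi

/-- row values -/
inductive Val
  | one
  | nu (u : Option Bool)
deriving DecidableEq

/-- shares of a box: an ordinary value, or a nursery symbol -/
inductive Share
  | val (a : Val)
  | nur (rho : Bool) (u : Option Bool)
deriving DecidableEq

/-- type of a line of a given index -/
def ty (idx : ℤ) : ℤ := if idx ≤ 2 then idx else if idx % 2 = 1 then 3 else 4

/-- the type of the next line -/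
def nxt (t : ℤ) : ℤ := if t = 1 then 2 else if t = 2 then 3 else if t = 3 then 4 else 3

/-- parity of a type or an index: true for odd -/
def tau (t : ℤ) : Bool := decide (t % 2 = 1)

/-- mark of a coordinate, 0 for none -/
def mark (h X : ℤ) : ℤ := if X = 0 ∨ X = 6 * h + 1 then 0 else (X - 1) % h + 1

/-- phase of a coordinate -/
def phase (h X : ℤ) : ℤ := if X = 0 then 0 else if X = 6 * h + 1 then 5 else (X - 1) / h

/-- scan state at an arm, with mark m -/
def scan (m arm : ℤ) : St := if m = 0 ∨ arm < m then St.U else if arm = m then St.J else St.S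

/-- labels of faces -/
@[ext] structure Lab where
  ty : ℤ
  i : Prop
  o : Prop
  first : Prop
  last : Prop
  fa : Prop
  la : Prop
  fc : Prop
  lc : Prop
  K : K3
  st : St
  g : St
  G : St
  ph : ℤ
  phc : ℤ
  kap : ℤ

/-- the intended label of a face belonging to the line number idx of a box P, in arm number arm,
where Xc is the coordinate of P across the line and Xa the one along it -/
def lineLab (h idx arm Xc Xa : ℤ) (K : K3) : Lab where
  ty := Helper536.ty idx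
  i := idx = mark h Xa
  o := 2 ≤ idx ∧ idx = mark h Xa + 1
  first := arm = 0
  last := arm = h
  fa := Xa = 0
  la := Xa = 6 * h + 1
  fc := Xc = 0
  lc := Xc = 6 * h + 1
  K := K
  st := scan (mark h Xc) arm
  g := scan (mark h Xc) h
  G := scan (mark h Xa) h
  ph := phase h Xa
  phc := phase h Xc
  kap := if Xa = 0 then 1 else Helper536.ty Xa

/-- labels that are well formed on their own -/
structure Wf (b : Lab) : Prop where
  la : b.la ↔ (¬ b.fa ∧ b.G = St.U)
  K0 : ¬ b.la → ¬ b.lc → b.K = K3.same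
  K1 : b.la → ¬ b.lc → b.K = K3.lo
  K2 : ¬ b.la → b.lc → b.K = K3.hi
  ty1 : 1 ≤ b.ty
  ty4 : b.ty ≤ 4
  ph0 : 0 ≤ b.ph
  ph5 : b.ph ≤ 5
  phc0 : 0 ≤ b.phc
  phc5 : b.phc ≤ 5
  kap1 : 1 ≤ b.kap
  kap4 : b.kap ≤ 4

/-- a line passes from b to a through a vertex of its own level, crossing the line of l -/
structure NodeRule (b a l : Lab) : Prop where
  ty : a.ty = b.ty
  i : a.i ↔ b.i
  o : a.o ↔ b.o
  fa : a.fa ↔ b.fa
  la : a.la ↔ b.la
  fc : a.fc ↔ b.fc
  lc : a.lc ↔ b.lc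
  K : a.K = b.K
  g : a.g = b.g
  G : a.G = b.G
  ph : a.ph = b.ph
  phc : a.phc = b.phc
  kap : a.kap = b.kap
  xfc : b.fc ↔ l.fa
  xlc : b.lc ↔ l.la
  xK : b.K = l.K.swap
  xo : b.o ↔ l.st = St.J
  xG : b.G = l.g
  xph : b.phc = l.ph
  scanU : l.i → b.st = St.U
  scanJ : l.i → a.st = St.J
  scanN : ¬ l.i → b.st = St.U → a.st = St.U
  scanS : ¬ l.i → b.st ≠ St.U → a.st = St.S

/-- a line with last arm b ends at the higher line of l; a is the first arm on the other side -/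
structure EndRule (b a l : Lab) : Prop where
  ty : a.ty = b.ty
  fc : a.fc ↔ b.fc
  lc : a.lc ↔ b.lc
  g : b.g = b.st
  st : a.st = St.U
  fala : a.fa ↔ b.la
  i : ¬ b.la → (a.i ↔ (b.o ∨ (b.ty = 1 ∧ (b.fa ∨ (b.G = St.J ∧ b.ph ≠ 5)))))
  ph : ¬ b.la → a.ph = if b.G = St.J ∧ b.ph ≠ 5 then b.ph + 1 else b.ph
  lty1 : ¬ b.la → b.fa → l.ty = 1
  lty2 : ¬ b.la → ¬ b.fa → l.ty = nxt b.kap
  kap : ¬ b.la → a.kap = l.ty
  lfirst : ¬ b.la → (l.first ↔ b.fc)
  llast : ¬ b.la → (l.last ↔ b.lc)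
  i' : b.la → ¬ a.i
  ph' : b.la → a.ph = 0
  kap' : b.la → a.kap = 1
  K : a.la → a.lc → a.K = l.K.swap

/-- the rule at a vertex for one of the two lines -/
def HalfRule (c : K3) (b a l : Lab) : Prop :=
  match c with
  | K3.same => NodeRule b a l
  | K3.hi => a = b
  | K3.lo => EndRule b a l

/-- two-dimensional skeletons: V a b is the label of the face in the first direction at (a,b),
H a b the one in the second direction, c a b the comparison seen from V -/
structure Sk2 (h oi oj : ℤ) (V H : ℤ → ℤ → Lab) (c : ℤ → ℤ → K3) : Prop where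
  wfV : ∀ a b, Wf (V a b)
  wfH : ∀ a b, Wf (H a b)
  hrV : ∀ a b, HalfRule (c a b) (V a b) (V a (b + 1)) (H a b)
  hrH : ∀ a b, HalfRule (c a b).swap (H a b) (H (a + 1) b) (V a b)
  tyV : ∀ a b, (a + oi) % (h + 1) ≠ h → (V a b).ty = ty ((a + oi) % (h + 1) + 1)
  firstV : ∀ a b, (a + oi) % (h + 1) ≠ h → ((V a b).first ↔ (b + oj) % (h + 1) = 0)
  lastV : ∀ a b, (a + oi) % (h + 1) ≠ h → ((V a b).last ↔ (b + oj) % (h + 1) = h)
  tyH : ∀ a b, (b + oj) % (h + 1) ≠ h → (H a b).ty = ty ((b + oj) % (h + 1) + 1)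
  firstH : ∀ a b, (b + oj) % (h + 1) ≠ h → ((H a b).first ↔ (a + oi) % (h + 1) = 0)
  lastH : ∀ a b, (b + oj) % (h + 1) ≠ h → ((H a b).last ↔ (a + oi) % (h + 1) = h)
  c0 : ∀ a b, (a + oi) % (h + 1) ≠ h → (b + oj) % (h + 1) ≠ h → c a b = K3.same
  c1 : ∀ a b, (a + oi) % (h + 1) = h → (b + oj) % (h + 1) ≠ h → c a b = K3.hi
  c2 : ∀ a b, (a + oi) % (h + 1) ≠ h → (b + oj) % (h + 1) = h → c a b = K3.lo
  c3 : ∀ a b, (a + oi) % (h + 1) = h - 1 → (b + oj) % (h + 1) = h → c (a + 1) b = (V a b).K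

/-- the coordinate of the corner site of the block number A -/
def cs (h o A : ℤ) : ℤ := A * (h + 1) + h - o

/-- the label at the place (α,β) of the block number (A,B) -/
def blk (h oi oj : ℤ) (V : ℤ → ℤ → Lab) (A B α β : ℤ) : Lab :=
  V (A * (h + 1) + α - oi) (B * (h + 1) + β - oj)

/-- the labels inside the block (A,B) are as they should be for the coordinate X in the first
direction -/
structure BlkX (h oi oj : ℤ) (V H : ℤ → ℤ → Lab) (A B X : ℤ) : Prop where
  X0 : 0 ≤ X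
  X1 : X ≤ 6 * h + 1
  hfa : ∀ α β, 0 ≤ α → α ≤ h → 0 ≤ β → β < h → ((blk h oi oj H A B α β).fa ↔ X = 0)
  hla : ∀ α β, 0 ≤ α → α ≤ h → 0 ≤ β → β < h → ((blk h oi oj H A B α β).la ↔ X = 6 * h + 1)
  hi : ∀ α β, 0 ≤ α → α ≤ h → 0 ≤ β → β < h → ((blk h oi oj H A B α β).i ↔ β + 1 = mark h X)
  ho : ∀ α β, 0 ≤ α → α ≤ h → 0 ≤ β → β < h →
    ((blk h oi oj H A B α β).o ↔ (2 ≤ β + 1 ∧ β + 1 = mark h X + 1))
  hG : ∀ α β, 0 ≤ α → α ≤ h → 0 ≤ β → β < h → (blk h oi oj H A B α β).G = scan (mark h X) h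
  hph : ∀ α β, 0 ≤ α → α ≤ h → 0 ≤ β → β < h → (blk h oi oj H A B α β).ph = phase h X
  vfc : ∀ α β, 0 ≤ α → α < h → 0 ≤ β → β ≤ h → ((blk h oi oj V A B α β).fc ↔ X = 0)
  vlc : ∀ α β, 0 ≤ α → α < h → 0 ≤ β → β ≤ h → ((blk h oi oj V A B α β).lc ↔ X = 6 * h + 1)
  vst : ∀ α β, 0 ≤ α → α < h → 0 ≤ β → β ≤ h → (blk h oi oj V A B α β).st = scan (mark h X) β
  vg : ∀ α β, 0 ≤ α → α < h → 0 ≤ β → β ≤ h → (blk h oi oj V A B α β).g = scan (mark h X) h
  vphc : ∀ α β, 0 ≤ α → α < h → 0 ≤ β → β ≤ h → (blk h oi oj V A B α β).phc = phase h X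

/-- positions -/
abbrev Pos (n : ℕ) := Fin (n + 2) → ℤ

/-- one step in direction i -/
def up {n : ℕ} (s : Pos n) (i : Fin (n + 2)) : Pos n := s + Pi.single i 1

/-- the symbols -/
@[ext] structure Cell (n : ℕ) where
  dig : Fin (n + 2) → ℤ
  lab : Fin (n + 2) → Fin (n + 2) → Lab
  c : Fin (n + 2) → Fin (n + 2) → K3
  v : Option Val
  w : Option Val

/-- a dummy label -/
def dfl : Lab := lineLab 3 1 0 0 0 K3.same

/-- not in an extreme arm for the passive axes (0-face) -/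
def zc {n : ℕ} (u : Cell n) : Prop :=
  ∀ m, m ≠ 0 → m ≠ 1 → ¬ (u.lab 0 m).first ∧ ¬ (u.lab 0 m).last

/-- the box of the 0-face has an extreme coordinate -/
def isZ {n : ℕ} (u : Cell n) : Prop :=
  (u.lab 0 1).fc ∨ (u.lab 0 1).lc ∨ ∃ m, m ≠ 0 ∧ ((u.lab 0 m).fa ∨ (u.lab 0 m).la)

/-- the box of the 0-face is a nursery -/
def isN {n : ℕ} (u : Cell n) : Prop := ¬ isZ u ∧ (u.lab 0 1).g = St.J

/-- the box of the 0-face is regular -/
def isR {n : ℕ} (u : Cell n) : Prop := ¬ isZ u ∧ (u.lab 0 1).g ≠ St.J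

/-- where v is defined -/
def vdom {n : ℕ} (u : Cell n) : Prop :=
  ∀ m, m ≠ 1 → ¬ (u.lab 1 m).first ∧ ¬ (u.lab 1 m).last

/-- where w is defined -/
def wdom {n : ℕ} (u : Cell n) : Prop :=
  zc u ∧ isR u ∧ (((u.lab 0 1).ty = 1 ∧ ¬ (u.lab 0 1).last) ∨
    ((u.lab 0 1).ty = 2 ∧ ¬ (u.lab 0 1).first))

/-- the nursery symbol of a phase -/
def nurs (p : ℤ) : Share :=
  Share.nur (decide (p % 2 = 1))
    (if p / 2 = 0 then none else if p / 2 = 1 then some true else some false)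

/-- the values allowed on a row of parity t by a share -/
def allowed (σ : Share) (t : Bool) (v : Val) : Prop :=
  match σ with
  | Share.val Val.one => v = Val.one ∨ v = Val.nu none
  | Share.val (Val.nu u) => v = if u = some t then Val.one else Val.nu none
  | Share.nur rho u => v = if t = rho then Val.one else Val.nu u

/-- σ is the share shown by the 0-face -/
def shareIs {n : ℕ} (u : Cell n) (σ : Share) : Prop :=
  (isZ u ∧ σ = Share.val (Val.nu none)) ∨ (isN u ∧ σ = nurs (u.lab 0 1).phc) ∨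
    (isR u ∧ ∃ a, u.w = some a ∧ σ = Share.val a)

/-- the skeleton part of the local rule: u is the symbol at a site, N i the symbol at its neighbour
in direction i -/
structure LSk {n : ℕ} (h : ℤ) (u : Cell n) (N : Fin (n + 2) → Cell n) : Prop where
  dig0 : ∀ i, 0 ≤ u.dig i
  dig1 : ∀ i, u.dig i ≤ h
  digS : ∀ i, (N i).dig i = if u.dig i = h then 0 else u.dig i + 1
  digN : ∀ i j, i ≠ j → (N j).dig i = u.dig i
  labD : ∀ i, u.lab i i = dfl
  cD : ∀ i, u.c i i = K3.same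
  labP : ∀ i j m, i ≠ j → m ≠ i → m ≠ j → (N m).lab i j = u.lab i j
  cP : ∀ i j m, i ≠ j → m ≠ i → m ≠ j → (N m).c i j = u.c i j
  csw : ∀ i j, u.c j i = (u.c i j).swap
  fcF : ∀ i j j', j ≠ i → j' ≠ i → ((u.lab i j).fc ↔ (u.lab i j').fc)
  wf : ∀ i j, i ≠ j → Wf (u.lab i j)
  cty : ∀ i j, i ≠ j → u.dig i ≠ h → (u.lab i j).ty = ty (u.dig i + 1)
  cfirst : ∀ i j, i ≠ j → u.dig i ≠ h → ((u.lab i j).first ↔ u.dig j = 0)
  clast : ∀ i j, i ≠ j → u.dig i ≠ h → ((u.lab i j).last ↔ u.dig j = h)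
  c0 : ∀ i j, i ≠ j → u.dig i ≠ h → u.dig j ≠ h → u.c i j = K3.same
  c1 : ∀ i j, i ≠ j → u.dig i = h → u.dig j ≠ h → u.c i j = K3.hi
  c3 : ∀ i j, i ≠ j → u.dig i = h - 1 → u.dig j = h → (N i).c i j = (u.lab i j).K
  half : ∀ i j, i ≠ j → HalfRule (u.c i j) (u.lab i j) ((N j).lab i j) (u.lab j i)

/-- the data part of the local rule -/
structure LDat {n : ℕ} (u : Cell n) (N : Fin (n + 2) → Cell n) : Prop where
  vd : u.v.isSome ↔ vdom u
  wd : u.w.isSome ↔ wdom u
  vM : ∀ m, m ≠ 1 → ∀ a b, u.v = some a → (N m).v = some b → a = b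
  wM : ∀ m, m ≠ 0 → m ≠ 1 → ∀ a b, u.w = some a → (N m).w = some b → a = b
  wA : u.c 0 1 ≠ K3.lo → ∀ a b, u.w = some a → (N 1).w = some b → a = b
  wB : u.c 0 1 = K3.lo → (u.lab 0 1).ty = 1 → ∀ a, (N 1).w = some a → u.v = some a
  wC : u.c 0 1 = K3.lo → (u.lab 0 1).ty = 2 → ∀ a, u.w = some a → u.v = some a
  al1 : u.c 0 1 = K3.same → zc u → (u.lab 0 1).ty = 1 → ∀ σ b, shareIs u σ →
    (N 0).v = some b → allowed σ (tau (u.lab 1 0).ty) b
  al2 : u.c 0 1 = K3.same → zc u → (u.lab 0 1).ty = 2 → ∀ σ b, shareIs (N 1) σ →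
    u.v = some b → allowed σ (tau (u.lab 1 0).ty) b

/-- the local rule -/
structure LRule {n : ℕ} (h : ℤ) (u : Cell n) (N : Fin (n + 2) → Cell n) : Prop where
  sk : LSk h u N
  dat : LDat u N

/-- configurations obeying the local rule everywhere -/
def Rule {n : ℕ} (h : ℤ) (x : Pos n → Cell n) : Prop :=
  ∀ s, LRule h (x s) (fun i => x (up s i))

/-- the block containing a site -/
def par {n : ℕ} (h : ℤ) (o s : Pos n) : Pos n := fun i => (s i + o i) / (h + 1)

/-- the position of a site in its block -/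
def dgt {n : ℕ} (h : ℤ) (o s : Pos n) : Fin (n + 2) → ℤ := fun i => (s i + o i) % (h + 1)

/-- the box has an extreme coordinate (h is the number of lines of the box) -/
def extr {n : ℕ} (h : ℤ) (X : Fin (n + 2) → ℤ) : Prop := ∃ i, X i = 0 ∨ X i = 6 * h + 1

/-- regular coordinates -/
def reg {n : ℕ} (h : ℤ) (X : Fin (n + 2) → ℤ) : Prop := ¬ extr h X ∧ mark h (X 0) ≠ h

open Classical in
/-- the share of a box in effect -/
noncomputable def eff {n : ℕ} (h : ℤ) (X : Fin (n + 2) → ℤ) (a : Val) : Share :=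
  if extr h X then Share.val (Val.nu none)
  else if mark h (X 0) = h then nurs (phase h (X 0)) else Share.val a

/-- not in an extreme arm for the axes other than 1 -/
def vvis {n : ℕ} (h : ℤ) (D : Fin (n + 2) → ℤ) : Prop := ∀ m, m ≠ 1 → D m ≠ 0 ∧ D m ≠ h

/-- the 0-face shows its share -/
def wvis {n : ℕ} (h : ℤ) (D X : Fin (n + 2) → ℤ) : Prop :=
  (∀ m, m ≠ 0 → m ≠ 1 → D m ≠ 0 ∧ D m ≠ h) ∧ reg h X ∧
    ((D 0 = 0 ∧ D 1 ≠ h) ∨ (D 0 = 1 ∧ D 1 ≠ 0))

/-- the skeleton of x is obtained from the skeleton of x' by filling the blocks -/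
structure ExSk {n : ℕ} (h : ℤ) (o : Pos n) (x x' : Pos n → Cell n) : Prop where
  dig : ∀ s, (x s).dig = dgt h o s
  labD : ∀ s i, (x s).lab i i = dfl
  cD : ∀ s i, (x s).c i i = K3.same
  lab1 : ∀ s i j, i ≠ j → dgt h o s i ≠ h → (x s).lab i j =
    lineLab h (dgt h o s i + 1) (dgt h o s j) ((x' (par h o s)).dig i) ((x' (par h o s)).dig j)
      ((x' (par h o s)).c i j)
  lab2 : ∀ s i j, i ≠ j → dgt h o s i = h → (x s).lab i j = (x' (par h o s)).lab i j
  c0 : ∀ s i j, i ≠ j → dgt h o s i ≠ h → dgt h o s j ≠ h → (x s).c i j = K3.same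
  c1 : ∀ s i j, i ≠ j → dgt h o s i = h → dgt h o s j ≠ h → (x s).c i j = K3.hi
  c2 : ∀ s i j, i ≠ j → dgt h o s i ≠ h → dgt h o s j = h → (x s).c i j = K3.lo
  c3 : ∀ s i j, i ≠ j → dgt h o s i = h → dgt h o s j = h → (x s).c i j = (x' (par h o s)).c i j

/-- the data of x is obtained from the data of x' by filling the blocks; rv P t is the value of the
row t of the block P, sh P a its share number a -/
structure ExDat {n : ℕ} (h : ℤ) (o : Pos n) (x x' : Pos n → Cell n) (rv sh : Pos n → ℤ → Val) :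
    Prop where
  v1 : ∀ s, dgt h o s 1 = h → (x s).v = (x' (par h o s)).v
  v2 : ∀ s, dgt h o s 1 ≠ h → vvis h (dgt h o s) →
    (x s).v = some (rv (par h o s) (dgt h o s 1 + 1))
  v3 : ∀ s, dgt h o s 1 ≠ h → ¬ vvis h (dgt h o s) → (x s).v = none
  w1 : ∀ s, dgt h o s 0 = h → (x s).w = (x' (par h o s)).w
  w2 : ∀ s, dgt h o s 0 ≠ h → wvis h (dgt h o s) (x' (par h o s)).dig →
    (x s).w = some (sh (par h o s) (dgt h o s 0 + 1))
  w3 : ∀ s, dgt h o s 0 ≠ h → ¬ wvis h (dgt h o s) (x' (par h o s)).dig → (x s).w = none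
  al : ∀ P t, 1 ≤ t → t ≤ h → ∀ a, (a = 1 ∨ a = 2) →
    allowed (eff h (x' P).dig (sh P a)) (tau t) (rv P t)
  rd1 : ∀ P, reg h (x' (up P 1)).dig → (x' P).v = some (sh (up P 1) 1)
  rd2 : ∀ P, reg h (x' P).dig → (x' P).v = some (sh P 2)

/-- the corner site of a block -/
def corner {n : ℕ} (h : ℤ) (o P : Pos n) : Pos n := fun i => cs h (o i) (P i)

/-- the configuration of the blocks of x: digits from the offsets o', everything else read at the
corner sites -/
def coarse {n : ℕ} (h : ℤ) (o o' : Pos n) (x : Pos n → Cell n) (P : Pos n) : Cell n where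
  dig := fun i => (P i + o' i) % (6 * h + 1 + 1)
  lab := (x (corner h o P)).lab
  c := (x (corner h o P)).c
  v := (x (corner h o P)).v
  w := (x (corner h o P)).w

/-- the site at the place D of the block P -/
def sit {n : ℕ} (h : ℤ) (o P : Pos n) (D : Fin (n + 2) → ℤ) : Pos n :=
  fun i => P i * (h + 1) + D i - o i

/-- the site with coordinates a, b in the directions i, j and 0 in the others -/
def pl {n : ℕ} (i j : Fin (n + 2)) (a b : ℤ) : Pos n :=
  fun m => if m = i then a else if m = j then b else 0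

/-- towers of configurations -/
structure Tower {n : ℕ} (H : ℕ → ℤ) (o : ℕ → Pos n) (X : ℕ → Pos n → Cell n)
    (rv sh : ℕ → Pos n → ℤ → Val) : Prop where
  rule : ∀ k, Rule (H k) (X k)
  sk : ∀ k, ExSk (H k) (o k) (X k) (X (k + 1))
  dat : ∀ k, ExDat (H k) (o k) (X k) (X (k + 1)) (rv k) (sh k)

end Helper536
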