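import Pool.Agent.helper536_SFT.Defs

/-!
Digits, ancestors, and the explicit flexible configurations.
-/

namespace Helper536

/-- the number of lines per axis in a box of level k+1 -/
def hh : ℕ → ℤ
  | 0 => 3
  | k + 1 => 6 * hh k + 1

/-- the side of a box of level k -/
def LL : ℕ → ℤ
  | 0 => 1
  | k + 1 => LL k * (hh k + 1)

/-- index of the level k box containing a, on one axis, for the offsets o -/
def anc1 (o : ℕ → ℤ) : ℕ → ℤ → ℤ
  | 0, a => a
  | k + 1, a => (anc1 o k a + o k) / (hh k + 1)

/-- digit number k of a, on one axis -/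
def dd1 (o : ℕ → ℤ) (k : ℕ) (a : ℤ) : ℤ := (anc1 o k a + o k) % (hh k + 1)

/-- index of the level k box containing s -/
def anc {n : ℕ} (o : ℕ → Pos n) (k : ℕ) (s : Pos n) : Pos n := fun i => anc1 (fun m => o m i) k (s i)

/-- digits number k of s -/
def dd {n : ℕ} (o : ℕ → Pos n) (k : ℕ) (s : Pos n) : Fin (n + 2) → ℤ :=
  fun i => dd1 (fun m => o m i) k (s i)

/-- the first level from k on at which the digit is not the last one -/
noncomputable def ordF (D : ℕ → ℤ) (k : ℕ) : ℕ := sInf {m | k ≤ m ∧ D m ≠ hh m}

/-- comparison of two levels -/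
def cmp3 (a b : ℕ) : K3 := if a = b then K3.same else if b < a then K3.hi else K3.lo

/-- labels as functions of the digits of all levels -/
noncomputable def labF {n : ℕ} (D : ℕ → Fin (n + 2) → ℤ) (i j : Fin (n + 2)) : Lab :=
  lineLab (hh (ordF (fun m => D m i) 0)) (D (ordF (fun m => D m i) 0) i + 1)
    (D (ordF (fun m => D m i) 0) j) (D (ordF (fun m => D m i) 0 + 1) i)
    (D (ordF (fun m => D m i) 0 + 1) j)
    (cmp3 (ordF (fun m => D m i) (ordF (fun m => D m i) 0 + 1))
      (ordF (fun m => D m j) (ordF (fun m => D m i) 0 + 1)))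

/-- the box of level j+1 is regular -/
def regL {n : ℕ} (D : ℕ → Fin (n + 2) → ℤ) (j : ℕ) : Prop := reg (hh j) (D (j + 1))

/-- row values of a share that allows only one value -/
def srv (σ : Share) (t : Bool) : Val :=
  match σ with
  | Share.val Val.one => Val.nu none
  | Share.val (Val.nu u) => if u = some t then Val.one else Val.nu none
  | Share.nur rho u => if t = rho then Val.one else Val.nu u

/-- row values of the regular children of a special box -/
def crv (σ : Share) (t : Bool) : Val :=
  match σ with
  | Share.val _ => Val.nu none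
  | Share.nur _ u => if u = some t then Val.one else Val.nu none

open Classical in
/-- row values in the explicit configurations, for the box of level j+1 -/
noncomputable def rvF {n : ℕ} (k j : ℕ) (D : ℕ → Fin (n + 2) → ℤ) (b : Prop) (t : Bool) : Val :=
  if ¬ regL D j then srv (eff (hh j) (D (j + 1)) Val.one) t
  else if ¬ regL D (j + 1) then crv (eff (hh (j + 1)) (D (j + 2)) Val.one) t
  else if ∀ m, j ≤ m → regL D m then
    (if k + 1 ≤ j then Val.one
      else if j = k ∧ t = true ∧ b then Val.one else Val.nu none)
  else Val.nu none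

/-- share number a in the explicit configurations, for a regular box of level j+1 -/
noncomputable def shF {n : ℕ} (k j : ℕ) (D : ℕ → Fin (n + 2) → ℤ) (b : Prop) (a : ℤ) : Val :=
  rvF k (j + 1) D b (tau (D (j + 1) 1 + a - 1))

open Classical in
/-- value on the 1-face as a function of the digits -/
noncomputable def vF {n : ℕ} (k : ℕ) (D : ℕ → Fin (n + 2) → ℤ) (b : Prop) : Option Val :=
  if vvis (hh (ordF (fun m => D m 1) 0)) (D (ordF (fun m => D m 1) 0)) then
    some (rvF k (ordF (fun m => D m 1) 0) D b (tau (D (ordF (fun m => D m 1) 0) 1 + 1)))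
  else none

open Classical in
/-- value on the 0-face as a function of the digits -/
noncomputable def wF {n : ℕ} (k : ℕ) (D : ℕ → Fin (n + 2) → ℤ) (b : Prop) : Option Val :=
  if wvis (hh (ordF (fun m => D m 0) 0)) (D (ordF (fun m => D m 0) 0))
      (D (ordF (fun m => D m 0) 0 + 1)) then
    some (shF k (ordF (fun m => D m 0) 0) D b (D (ordF (fun m => D m 0) 0) 0 + 1))
  else none

open Classical in
/-- the symbol with digits D and bit b -/
noncomputable def cellF {n : ℕ} (k : ℕ) (D : ℕ → Fin (n + 2) → ℤ) (b : Prop) : Cell n where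
  dig := D 0
  lab := fun i j => if i = j then dfl else labF D i j
  c := fun i j => cmp3 (ordF (fun m => D m i) 0) (ordF (fun m => D m j) 0)
  v := vF k D b
  w := wF k D b

/-- the offsets of the explicit configurations -/
def oz (n : ℕ) : ℕ → Pos n := fun _ _ => 2

/-- the explicit configurations: parameter k, bits given on the boxes of level k+1 -/
noncomputable def zz {n : ℕ} (k : ℕ) (b : Pos n → Prop) (s : Pos n) : Cell n :=
  cellF k (fun m => dd (oz n) m s) (b (anc (oz n) (k + 1) s))

end Helper536
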