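import Mathlib
import Pool.Agent.helper536_SFT.Defs
import Pool.Agent.helper536_SFT.Forms

namespace Helper536
namespace J02

theorem hh_ge (k : ℕ) : 3 ≤ hh k := by
  induction k with
  | zero => exact le_rfl
  | succ k ih =>
    have : hh (k + 1) = 6 * hh k + 1 := rfl
    omega

theorem LL_pos (k : ℕ) : 1 ≤ LL k := by
  induction k with
  | zero => exact le_rfl
  | succ k ih =>
    have h : LL (k + 1) = LL k * (hh k + 1) := rfl
    have := hh_ge k
    rw [h]
    nlinarith

theorem LL_gt (k : ℕ) : (k : ℤ) < LL (k + 1) := by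
  induction k with
  | zero =>
    have := LL_pos 1
    push_cast
    have h : LL (0 + 1) = LL 1 := rfl
    rw [h]
    omega
  | succ k ih =>
    have h : LL (k + 1 + 1) = LL (k + 1) * (hh (k + 1) + 1) := rfl
    have h1 := hh_ge (k + 1)
    have h2 := LL_pos (k + 1)
    rw [h]
    push_cast
    nlinarith

theorem dd1_bd (o : ℕ → ℤ) (k : ℕ) (a : ℤ) : 0 ≤ dd1 o k a ∧ dd1 o k a ≤ hh k ∧
      anc1 o k a + o k = anc1 o (k + 1) a * (hh k + 1) + dd1 o k a := by
  have h1 := hh_ge k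
  have h2 := Int.emod_nonneg (anc1 o k a + o k) (show hh k + 1 ≠ 0 by omega)
  have h3 := Int.emod_lt_of_pos (anc1 o k a + o k) (show 0 < hh k + 1 by omega)
  have h4 := Int.mul_ediv_add_emod (anc1 o k a + o k) (hh k + 1)
  have e1 : anc1 o (k + 1) a = (anc1 o k a + o k) / (hh k + 1) := rfl
  unfold dd1
  refine ⟨h2, by omega, ?_⟩
  rw [e1, mul_comm]
  exact h4.symm

theorem anc1_eq (o : ℕ → ℤ) (k : ℕ) (a : ℤ) :
      anc1 o k a = (a + ∑ m ∈ Finset.range k, o m * LL m) / LL k := by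
  induction k with
  | zero =>
    have h : LL 0 = 1 := rfl
    simp [anc1, h]
  | succ k ih =>
    have e1 : anc1 o (k + 1) a = (anc1 o k a + o k) / (hh k + 1) := rfl
    have h : LL (k + 1) = LL k * (hh k + 1) := rfl
    have h2 := LL_pos k
    have h1 := hh_ge k
    rw [e1, ih, h, Finset.sum_range_succ, ← Int.add_mul_ediv_right _ _ (show LL k ≠ 0 by omega),
      Int.ediv_ediv_of_nonneg (by omega)]
    congr 1
    ring

theorem carry (o : ℕ → ℤ) (q : ℕ) (a : ℤ) (h : ∀ m < q, dd1 o m a = hh m) :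
    (∀ m ≤ q, anc1 o m (a + 1) = anc1 o m a + 1) ∧ (∀ m < q, dd1 o m (a + 1) = 0) := by
  have key : ∀ m ≤ q, anc1 o m (a + 1) = anc1 o m a + 1 := by
    intro m
    induction m with
    | zero => intro _; rfl
    | succ m ih =>
      intro hm
      have h1 := ih (by omega)
      have h2 := h m (by omega)
      have h3 := (dd1_bd o m a).2.2
      have h4 := hh_ge m
      have e1 : anc1 o (m + 1) (a + 1) = (anc1 o m (a + 1) + o m) / (hh m + 1) := rfl
      have e2 : anc1 o m (a + 1) + o m = (anc1 o (m + 1) a + 1) * (hh m + 1) := by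
        rw [h2] at h3
        linear_combination h1 + h3
      rw [e1, e2, Int.mul_ediv_cancel _ (by omega)]
  refine ⟨key, ?_⟩
  intro m hm
  have h1 := key m hm.le
  have h2 := h m hm
  have h3 := (dd1_bd o m a).2.2
  have e1 : dd1 o m (a + 1) = (anc1 o m (a + 1) + o m) % (hh m + 1) := rfl
  have e2 : anc1 o m (a + 1) + o m = (anc1 o (m + 1) a + 1) * (hh m + 1) := by
    rw [h2] at h3
    linear_combination h1 + h3
  rw [e1, e2, Int.mul_emod_left]

theorem nocarry (o : ℕ → ℤ) (q : ℕ) (a : ℤ) (h : ∀ m < q, dd1 o m a = hh m)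
    (hq : dd1 o q a ≠ hh q) : dd1 o q (a + 1) = dd1 o q a + 1 ∧
        ∀ m, q < m → anc1 o m (a + 1) = anc1 o m a ∧ dd1 o m (a + 1) = dd1 o m a := by
  have h1 := (carry o q a h).1 q le_rfl
  obtain ⟨h2, h3, h4⟩ := dd1_bd o q a
  have h5 := hh_ge q
  have e2 : anc1 o q (a + 1) + o q = (dd1 o q a + 1) + anc1 o (q + 1) a * (hh q + 1) := by
    linear_combination h1 + h4
  have h6 : dd1 o q (a + 1) = dd1 o q a + 1 := by
    have e1 : dd1 o q (a + 1) = (anc1 o q (a + 1) + o q) % (hh q + 1) := rfl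
    rw [e1, e2, Int.add_mul_emod_self_right, Int.emod_eq_of_lt (by omega) (by omega)]
  have h7 : anc1 o (q + 1) (a + 1) = anc1 o (q + 1) a := by
    have e1 : anc1 o (q + 1) (a + 1) = (anc1 o q (a + 1) + o q) / (hh q + 1) := rfl
    rw [e1, e2, Int.add_mul_ediv_right _ _ (by omega), Int.ediv_eq_zero_of_lt (by omega) (by omega),
      zero_add]
  have h8 : ∀ m, q < m → anc1 o m (a + 1) = anc1 o m a := by
    intro m hm
    induction m, hm using Nat.le_induction with
    | base => exact h7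
    | succ m _ ih =>
      have e1 : anc1 o (m + 1) (a + 1) = (anc1 o m (a + 1) + o m) / (hh m + 1) := rfl
      have e3 : anc1 o (m + 1) a = (anc1 o m a + o m) / (hh m + 1) := rfl
      rw [e1, e3, ih]
  refine ⟨h6, fun m hm => ⟨h8 m hm, ?_⟩⟩
  unfold dd1
  rw [h8 m hm]

/- TARGET. Proof in words:
Simple inductions. hh (k+1) = 6*hh k+1, LL (k+1) = LL k*(hh k+1). Digits: Int.emod_nonneg, Int.emod_lt_of_pos, Int.mul_ediv_add_emod.
Formula for anc1: floor((floor((a+S)/L)+o)/N) = floor((a+S+o*L)/(L*N)) (Int.add_mul_ediv_right, Int.ediv_ediv_eq_ediv_mul).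
Carry: if digit m is the last one (hh m) and anc1 o m (a+1) = anc1 o m a+1, then anc1 o m a + o m + 1 = (anc1 o (m+1) a+1)*(hh m+1)+0, so the digit becomes 0 and the next index grows by one.
At q: the digit is not the last, so it grows by one and the index of level q+1 does not change; then all higher ones are unchanged (induction on m, each is a function of the previous one).
-/
theorem digit_facts : (∀ k, 3 ≤ hh k) ∧ (∀ k, 1 ≤ LL k) ∧ (∀ k : ℕ, (k : ℤ) < LL (k + 1)) ∧
    (∀ (o : ℕ → ℤ) (k : ℕ) (a : ℤ), 0 ≤ dd1 o k a ∧ dd1 o k a ≤ hh k ∧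
      anc1 o k a + o k = anc1 o (k + 1) a * (hh k + 1) + dd1 o k a) ∧
    (∀ (o : ℕ → ℤ) (k : ℕ) (a : ℤ),
      anc1 o k a = (a + ∑ m ∈ Finset.range k, o m * LL m) / LL k) ∧
    (∀ (o : ℕ → ℤ) (q : ℕ) (a : ℤ), (∀ m < q, dd1 o m a = hh m) →
      (∀ m ≤ q, anc1 o m (a + 1) = anc1 o m a + 1) ∧ (∀ m < q, dd1 o m (a + 1) = 0) ∧
      (dd1 o q a ≠ hh q → dd1 o q (a + 1) = dd1 o q a + 1 ∧
        ∀ m, q < m → anc1 o m (a + 1) = anc1 o m a ∧ dd1 o m (a + 1) = dd1 o m a)) := by
  refine ⟨hh_ge, LL_pos, LL_gt, dd1_bd, anc1_eq, ?_⟩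
  intro o q a h
  exact ⟨(carry o q a h).1, (carry o q a h).2, nocarry o q a h⟩

end J02
end Helper536
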