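import Mathlib
import Pool.Agent.helper536_SFT.Defs
import Pool.Agent.helper536_SFT.Forms
import Pool.Agent.helper536_SFT.J02

namespace Helper536
namespace J03

theorem shift_exists_aux (o o' : ℕ → ℤ) (l : ℕ) :
    ∀ T' : ℤ, ∃ T : ℤ, ∀ a, anc1 o' l (a + T) = anc1 o l a + T' ∧
      ∀ m < l, dd1 o' m (a + T) = dd1 o m a := by
  induction l with
  | zero =>
    intro T'
    exact ⟨T', fun a => ⟨rfl, fun m hm => absurd hm (Nat.not_lt_zero m)⟩⟩
  | succ l ih =>
    intro T'
    obtain ⟨T, hT⟩ := ih (T' * (hh l + 1) + o l - o' l)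
    have hpos : 3 ≤ hh l := J02.digit_facts.1 l
    have hne : hh l + 1 ≠ 0 := by omega
    refine ⟨T, fun a => ?_⟩
    obtain ⟨h1, h2⟩ := hT a
    have e : anc1 o' l (a + T) + o' l = (anc1 o l a + o l) + T' * (hh l + 1) := by
      rw [h1]; ring
    refine ⟨?_, ?_⟩
    · show (anc1 o' l (a + T) + o' l) / (hh l + 1) = (anc1 o l a + o l) / (hh l + 1) + T'
      rw [e, Int.add_mul_ediv_right _ _ hne]
    · intro m hm
      rcases Nat.lt_succ_iff_lt_or_eq.mp hm with hm' | hm'
      · exact h2 m hm'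
      · subst hm'
        show (anc1 o' m (a + T) + o' m) % (hh m + 1) = (anc1 o m a + o m) % (hh m + 1)
        rw [e, Int.add_mul_emod_self_right]

/- TARGET. Proof in words:
Induction on l. l=0: T=q'-q. Step from l to l+1: suppose anc1 o (l+1) a = q. Let d=dd1 o l a, so anc1 o l a = q*(hh l+1)+d-o l. CAREFUL: the index of level l depends on a, but
the needed translation does not: prove first the stronger statement by induction on l: for all T_l (integer) there is T with: for all a, anc1 o' l (a+T) = anc1 o l a + T_l and all digits m<l agree.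
l=0: T=T_0. Step: given T_(l+1), put T_l = T_(l+1)*(hh l+1)+o l-o' l. Then anc1 o' l (a+T)+o' l = anc1 o l a+o l+T_(l+1)*(hh l+1), so dividing by hh l+1 gives digit l equal and index
shifted by T_(l+1). Finally take T_l = q'-q.
-/
theorem shift_exists (o o' : ℕ → ℤ) (l : ℕ) (q q' : ℤ) :
    ∃ T : ℤ, ∀ a, anc1 o l a = q →
      anc1 o' l (a + T) = q' ∧ ∀ m < l, dd1 o' m (a + T) = dd1 o m a := by
  obtain ⟨T, hT⟩ := shift_exists_aux o o' l (q' - q)
  refine ⟨T, fun a ha => ⟨?_, (hT a).2⟩⟩
  rw [(hT a).1, ha]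
  ring

end J03
end Helper536
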