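import Mathlib
import Pool.Agent.helper536_SFT.Defs
import Pool.Agent.helper536_SFT.Forms
import Pool.Agent.helper536_SFT.J02

namespace Helper536
namespace J04

theorem window_geo_pos (o : ℕ → ℤ) (k : ℕ) (a : ℤ) :
    0 ≤ (a + ∑ m ∈ Finset.range k, o m * LL m) % LL k ∧
    (a + ∑ m ∈ Finset.range k, o m * LL m) % LL k < LL k ∧
    a + ∑ m ∈ Finset.range k, o m * LL m =
      anc1 o k a * LL k + (a + ∑ m ∈ Finset.range k, o m * LL m) % LL k := by
  obtain ⟨-, hL, -, -, h5, -⟩ := J02.digit_facts
  have h1 := hL k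
  refine ⟨Int.emod_nonneg _ (by omega), Int.emod_lt_of_pos _ (by omega), ?_⟩
  rw [h5 o k a]
  have := Int.mul_ediv_add_emod (a + ∑ m ∈ Finset.range k, o m * LL m) (LL k)
  linarith

theorem window_geo_succ (o : ℕ → ℤ) (k : ℕ) (a : ℤ) :
    (a + ∑ m ∈ Finset.range (k + 1), o m * LL m) % LL (k + 1) =
      dd1 o k a * LL k + (a + ∑ m ∈ Finset.range k, o m * LL m) % LL k := by
  obtain ⟨hh3, hL, -, h4, -, -⟩ := J02.digit_facts
  obtain ⟨d0, d1, e1⟩ := h4 o k a
  obtain ⟨p0, p1, e2⟩ := window_geo_pos o k a
  set w := (a + ∑ m ∈ Finset.range k, o m * LL m) % LL k with hw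
  have hLk := hL k
  have hhk := hh3 k
  have e3 : a + ∑ m ∈ Finset.range (k + 1), o m * LL m =
      (dd1 o k a * LL k + w) + LL (k + 1) * anc1 o (k + 1) a := by
    rw [Finset.sum_range_succ, ← add_assoc, e2]
    have : LL (k + 1) = LL k * (hh k + 1) := rfl
    rw [this]
    linear_combination (LL k) * e1
  rw [e3, Int.add_mul_emod_self_left]
  apply Int.emod_eq_of_lt
  · have := mul_nonneg d0 (by omega : 0 ≤ LL k)
    omega
  · have : LL (k + 1) = LL k * (hh k + 1) := rfl
    rw [this]
    nlinarith

theorem window_geo_last (o : ℕ → ℤ) (k : ℕ) (a : ℤ) :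
    (∀ j < k, dd1 o j a = hh j) ↔
      (a + ∑ m ∈ Finset.range k, o m * LL m) % LL k = LL k - 1 := by
  obtain ⟨hh3, hL, -, h4, -, -⟩ := J02.digit_facts
  induction k with
  | zero => simp [LL]
  | succ k ih =>
    obtain ⟨d0, d1, e1⟩ := h4 o k a
    obtain ⟨p0, p1, e2⟩ := window_geo_pos o k a
    rw [window_geo_succ]
    set w := (a + ∑ m ∈ Finset.range k, o m * LL m) % LL k with hw
    have hLk := hL k
    have hhk := hh3 k
    have hLs : LL (k + 1) = LL k * (hh k + 1) := rfl
    rw [hLs]
    constructor
    · intro h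
      have h1 := ih.1 (fun j hj => h j (by omega))
      have h2 := h k (by omega)
      rw [h1, h2]; ring
    · intro h
      have h1 : dd1 o k a = hh k := by
        by_contra hc
        have : dd1 o k a + 1 ≤ hh k := by omega
        nlinarith
      have h2 : w = LL k - 1 := by
        rw [h1] at h; linarith
      intro j hj
      rcases Nat.lt_succ_iff_lt_or_eq.1 hj with hj | rfl
      · exact ih.2 h2 j hj
      · exact h1

/- TARGET. Proof in words:
Let S_k = sum_{m<k} o m*LL m, so anc1 o k a = (a+S_k)/LL k (J02). The sites with a given index A at level k form an interval of length LL k; 'all digits below k are the last ones' means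
that a is the last site of its level k interval: a+S_k = (A+1)*LL k-1 (prove: (for all j<k, dd1 o j a = hh j) iff (a+S_k) % LL k = LL k-1, by induction on k; use a+S_(k+1) = a+S_k+o k*LL k and
anc1 o k a+o k = anc1 o (k+1) a*(hh k+1)+dd1 o k a).
First part: p and p+r are in different intervals of level m+1. The interval length LL (m+1)=LL m*(hh m+1) >= 4*LL m >= 4r, so there is exactly one boundary b (b = first site of the interval of p+r,
i.e. b+S_(m+1) = anc1 o (m+1) (p+r)*LL (m+1)) with p<b<=p+r. Let p<=a<p+r. If a<b then b-r<=p<=a<b, b-a<=r<=LL m, so a is in the last child of its interval: dd1 o m a = hh m, and a'=b-1 is the last site of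
the level m+1 interval of a. If a>=b then a<p+r<b+r<=b+LL m: a is in the first child: dd1 o m a = 0, a'=b-1 has index one less; moreover a<=p+r-1<=b-1+r-1<b+LL m-1, so a is not the last site of its level m
interval, i.e. not all digits below m are the last ones.
Second part: a, a' are both last sites of level m intervals, so a-a' is a multiple of LL m, and |a-a'|<r<=LL m.
-/
theorem window_geo (o : ℕ → ℤ) (m : ℕ) (r p : ℤ) (hr : 1 ≤ r) (hL : r ≤ LL m) :
    (anc1 o (m + 1) p ≠ anc1 o (m + 1) (p + r) → ∀ a, p ≤ a → a < p + r →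
      ((dd1 o m a = 0 ∧ ∃ a', p ≤ a' ∧ a' < p + r ∧ (∀ j ≤ m, dd1 o j a' = hh j) ∧
          anc1 o (m + 1) a' = anc1 o (m + 1) a - 1) ∨
        (dd1 o m a = hh m ∧ ∃ a', p ≤ a' ∧ a' < p + r ∧ (∀ j ≤ m, dd1 o j a' = hh j) ∧
          anc1 o (m + 1) a' = anc1 o (m + 1) a)) ∧
      ((∀ j < m, dd1 o j a = hh j) → dd1 o m a = hh m)) ∧
    (∀ a a', p ≤ a → a < p + r → p ≤ a' → a' < p + r → (∀ j < m, dd1 o j a = hh j) →
      (∀ j < m, dd1 o j a' = hh j) → a = a') := by
  obtain ⟨hh3, hL, -, h4, h5, -⟩ := J02.digit_facts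
  have hLm := hL m
  have hLm1 := hL (m + 1)
  have hhm := hh3 m
  have hLs : LL (m + 1) = LL m * (hh m + 1) := rfl
  constructor
  · intro hne a hpa hap
    set S := ∑ j ∈ Finset.range (m + 1), o j * LL j with hS
    have hpos := fun x => window_geo_pos o (m + 1) x
    rw [← hS] at hpos
    set L := LL (m + 1) with hLdef
    have hbig : 4 * r ≤ L := by nlinarith
    obtain ⟨a0, a1, ea⟩ := hpos a
    obtain ⟨q0, q1, eq⟩ := hpos (p + r)
    obtain ⟨p0, p1, ep⟩ := hpos p
    obtain ⟨b0, b1, eb⟩ := hpos (anc1 o (m + 1) (p + r) * L - S - 1)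
    set A := anc1 o (m + 1) (p + r) with hA
    have hwa : (a + S) % L = dd1 o m a * LL m + (a + ∑ j ∈ Finset.range m, o j * LL j) % LL m :=
      window_geo_succ o m a
    obtain ⟨d0, d1, -⟩ := h4 o m a
    obtain ⟨u0, u1, -⟩ := window_geo_pos o m a
    set w := (a + ∑ j ∈ Finset.range m, o j * LL j) % LL m with hw
    -- the boundary
    have hpA : anc1 o (m + 1) p < A := by
      by_contra hc
      have h1 : A + 1 ≤ anc1 o (m + 1) p := by omega
      nlinarith
    have hpb : p + S + 1 ≤ A * L := by
      have h1 : anc1 o (m + 1) p + 1 ≤ A := hpA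
      nlinarith
    have hbp : A * L ≤ p + r + S := by omega
    have hb1 : anc1 o (m + 1) (A * L - S - 1) = A - 1 := by
      have e : A * L - 1 = anc1 o (m + 1) (A * L - S - 1) * L +
          (A * L - S - 1 + S) % L := by linarith
      by_contra hc
      rcases lt_or_gt_of_ne hc with h1 | h1
      · have h2 : anc1 o (m + 1) (A * L - S - 1) + 1 ≤ A - 1 := h1
        nlinarith
      · have h2 : A ≤ anc1 o (m + 1) (A * L - S - 1) := by omega
        nlinarith
    have hb2 : ∀ j ≤ m, dd1 o j (A * L - S - 1) = hh j := by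
      have h1 : (A * L - S - 1 + S) % L = L - 1 := by
        rw [hb1] at eb
        linarith
      have h2 := (window_geo_last o (m + 1) (A * L - S - 1)).2 h1
      exact fun j hj => h2 j (by omega)
    rcases lt_or_ge (a + S) (A * L) with hab | hab
    · have haA : anc1 o (m + 1) a = A - 1 := by
        by_contra hc
        rcases lt_or_gt_of_ne hc with h1 | h1
        · have h2 : anc1 o (m + 1) a + 1 ≤ A - 1 := h1
          nlinarith
        · have h2 : A ≤ anc1 o (m + 1) a := by omega
          nlinarith
      have hdd : dd1 o m a = hh m := by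
        by_contra hc
        have h1 : dd1 o m a + 1 ≤ hh m := by omega
        rw [haA] at ea
        nlinarith
      refine ⟨Or.inr ⟨hdd, A * L - S - 1, by omega, by omega, hb2, by rw [hb1, haA]⟩,
        fun _ => hdd⟩
    · have haA : anc1 o (m + 1) a = A := by
        by_contra hc
        rcases lt_or_gt_of_ne hc with h1 | h1
        · have h2 : anc1 o (m + 1) a + 1 ≤ A := h1
          nlinarith
        · have h2 : A + 1 ≤ anc1 o (m + 1) a := h1
          nlinarith
      have hdd : dd1 o m a = 0 := by
        by_contra hc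
        have h1 : 1 ≤ dd1 o m a := by omega
        rw [haA] at ea
        nlinarith
      refine ⟨Or.inl ⟨hdd, A * L - S - 1, by omega, by omega, hb2, by rw [hb1, haA]⟩, ?_⟩
      intro hl
      exfalso
      have h1 := (window_geo_last o m a).1 hl
      rw [← hw] at h1
      rw [haA, hwa, hdd, h1] at ea
      linarith
  · intro a a' h1 h2 h3 h4 hl hl'
    have e1 := (window_geo_last o m a).1 hl
    have e2 := (window_geo_last o m a').1 hl'
    have f1 := (window_geo_pos o m a).2.2
    have f2 := (window_geo_pos o m a').2.2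
    rw [e1] at f1
    rw [e2] at f2
    have h6 : a - a' = (anc1 o m a - anc1 o m a') * LL m := by linarith
    have h7 : anc1 o m a - anc1 o m a' = 0 := by
      by_contra hc
      rcases lt_or_gt_of_ne hc with g | g
      · have : anc1 o m a - anc1 o m a' ≤ -1 := by omega
        nlinarith
      · have : 1 ≤ anc1 o m a - anc1 o m a' := by omega
        nlinarith
    rw [h7] at h6
    linarith

end J04
end Helper536
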