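import Mathlib
import Pool.Agent.helper536_SFT.Defs
import Pool.Agent.helper536_SFT.Forms

namespace Helper536
namespace J05

/- TARGET. Proof in words:
Nat.sInf_mem, Nat.sInf_le, Nat.notMem_of_lt_sInf.
-/
theorem ordF_spec (D : ℕ → ℤ) (k : ℕ) (hex : ∃ m, k ≤ m ∧ D m ≠ hh m) :
    k ≤ ordF D k ∧ D (ordF D k) ≠ hh (ordF D k) ∧ (∀ m, k ≤ m → m < ordF D k → D m = hh m) ∧
    (∀ m, k ≤ m → D m ≠ hh m → ordF D k ≤ m) ∧
    (∀ q, k ≤ q → D q ≠ hh q → (∀ m, k ≤ m → m < q → D m = hh m) → ordF D k = q) := by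
  have hne : {m | k ≤ m ∧ D m ≠ hh m}.Nonempty := hex
  have h1 : ordF D k ∈ {m | k ≤ m ∧ D m ≠ hh m} := Nat.sInf_mem hne
  have h2 : ∀ m, k ≤ m → D m ≠ hh m → ordF D k ≤ m := fun m hm hD => Nat.sInf_le ⟨hm, hD⟩
  refine ⟨h1.1, h1.2, ?_, h2, ?_⟩
  · intro m hm hlt
    by_contra hD
    exact absurd (h2 m hm hD) (not_le.mpr hlt)
  · intro q hq hDq hall
    apply le_antisymm (h2 q hq hDq)
    by_contra hlt
    exact h1.2 (hall _ h1.1 (not_le.mp hlt))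

end J05
end Helper536
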