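import Mathlib
import Pool.Agent.helper536_SFT.Defs

namespace Helper536
namespace J01

theorem core (h p m : ℤ) (p0 : 0 ≤ p) (p5 : p ≤ 5) (m1 : 1 ≤ m) (mh : m ≤ h) :
    0 < p * h + m ∧ p * h + m < 6 * h + 1 ∧ (p * h + m - 1) / h = p ∧
      (p * h + m - 1) % h = m - 1 := by
  have hpos : 0 < h := by omega
  have e : p * h + m - 1 = (m - 1) + p * h := by ring
  refine ⟨?_, ?_, ?_, ?_⟩
  · have : 0 ≤ p * h := mul_nonneg p0 hpos.le
    omega
  · have : p * h ≤ 5 * h := mul_le_mul_of_nonneg_right p5 hpos.le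
    omega
  · rw [e, Int.add_mul_ediv_right _ _ hpos.ne', Int.ediv_eq_zero_of_lt (by omega) (by omega),
      zero_add]
  · rw [e, Int.add_mul_emod_self_right, Int.emod_eq_of_lt (by omega) (by omega)]

theorem mp (h p m : ℤ) (p0 : 0 ≤ p) (p5 : p ≤ 5) (m1 : 1 ≤ m) (mh : m ≤ h) :
    mark h (p * h + m) = m ∧ phase h (p * h + m) = p ∧ 0 < p * h + m ∧
      p * h + m < 6 * h + 1 := by
  obtain ⟨h1, h2, h3, h4⟩ := core h p m p0 p5 m1 mh
  have n1 : p * h + m ≠ 0 := by omega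
  have n2 : p * h + m ≠ 6 * h + 1 := by omega
  refine ⟨?_, ?_, h1, h2⟩
  · unfold mark
    rw [if_neg (by tauto), h4]
    ring
  · unfold phase
    rw [if_neg n1, if_neg n2, h3]

theorem dec (h X : ℤ) (hh : 3 ≤ h) (h0 : 0 < X) (h1 : X < 6 * h + 1) :
    ∃ p m : ℤ, 0 ≤ p ∧ p ≤ 5 ∧ 1 ≤ m ∧ m ≤ h ∧ X = p * h + m := by
  have hpos : 0 < h := by omega
  refine ⟨(X - 1) / h, (X - 1) % h + 1, ?_, ?_, ?_, ?_, ?_⟩
  · exact Int.ediv_nonneg (by omega) hpos.le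
  · have : (X - 1) / h < 6 := by
      rw [Int.ediv_lt_iff_lt_mul hpos]
      omega
    omega
  · have := Int.emod_nonneg (X - 1) hpos.ne'
    omega
  · have := Int.emod_lt_of_pos (X - 1) hpos
    omega
  · have := Int.mul_ediv_add_emod (X - 1) h
    have e : (X - 1) / h * h = h * ((X - 1) / h) := mul_comm _ _
    rw [e]
    omega

/- TARGET. -/
theorem mark_step (h X : ℤ) (hh : 3 ≤ h) (h0 : 0 ≤ X) (h1 : X ≤ 6 * h + 1) :
    (X = 0 → mark h X = 0 ∧ phase h X = 0 ∧ mark h (X + 1) = 1 ∧ phase h (X + 1) = 0) ∧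
    (X = 6 * h + 1 → mark h X = 0 ∧ phase h X = 5) ∧
    (X ≠ 0 → X ≠ 6 * h + 1 →
      1 ≤ mark h X ∧ mark h X ≤ h ∧ 0 ≤ phase h X ∧ phase h X ≤ 5 ∧
      X = phase h X * h + mark h X ∧
      (mark h X ≠ h → X + 1 ≠ 6 * h + 1 ∧ mark h (X + 1) = mark h X + 1 ∧
        phase h (X + 1) = phase h X) ∧
      (mark h X = h → phase h X ≠ 5 → X + 1 ≠ 6 * h + 1 ∧ mark h (X + 1) = 1 ∧
        phase h (X + 1) = phase h X + 1) ∧
      (mark h X = h → phase h X = 5 → X + 1 = 6 * h + 1)) ∧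
    (∀ p m : ℤ, 0 ≤ p → p ≤ 5 → 1 ≤ m → m ≤ h →
      mark h (p * h + m) = m ∧ phase h (p * h + m) = p ∧ 0 < p * h + m ∧
      p * h + m < 6 * h + 1) := by
  refine ⟨?_, ?_, ?_, ?_⟩
  · rintro rfl
    have := mp h 0 1 (by norm_num) (by norm_num) (by norm_num) (by omega)
    rw [zero_mul] at this
    exact ⟨by simp [mark], by simp [phase], this.1, this.2.1⟩
  · rintro rfl
    refine ⟨by simp [mark], ?_⟩
    unfold phase
    rw [if_neg (by omega), if_pos rfl]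
  · intro n0 n1
    obtain ⟨p, m, p0, p5, m1, mh, hX⟩ := dec h X hh (by omega) (by omega)
    subst hX
    obtain ⟨e1, e2, e3, e4⟩ := mp h p m p0 p5 m1 mh
    rw [e1, e2]
    refine ⟨m1, mh, p0, p5, rfl, ?_, ?_, ?_⟩
    · intro hm
      obtain ⟨f1, f2, f3, f4⟩ := mp h p (m + 1) p0 p5 (by omega) (by omega)
      have e : p * h + (m + 1) = p * h + m + 1 := by ring
      rw [e] at f1 f2 f4
      exact ⟨by omega, f1, f2⟩
    · intro hm hp
      obtain ⟨f1, f2, f3, f4⟩ := mp h (p + 1) 1 (by omega) (by omega) le_rfl (by omega)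
      have e : (p + 1) * h + 1 = p * h + m + 1 := by rw [hm]; ring
      rw [e] at f1 f2 f4
      exact ⟨by omega, f1, f2⟩
    · intro hm hp
      rw [hm, hp]; ring
  · intro p m p0 p5 m1 mh
    exact mp h p m p0 p5 m1 mh

end J01
end Helper536
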