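import Mathlib
import Pool.Agent.helper536_SFT.Defs
import Pool.Agent.helper536_SFT.Forms
import Pool.Agent.helper536_SFT.J01
import Pool.Agent.helper536_SFT.J02

namespace Helper536
namespace J06

/-- one step towards zero -/
theorem step_abs (c N : ℤ) (hN : 4 ≤ N) :
    ((c + 2) / N).natAbs < c.natAbs ∨ (c = 0 ∧ (c + 2) / N = 0) := by
  have hN0 : 0 < N := by omega
  have h1 : N * ((c + 2) / N) + (c + 2) % N = c + 2 := Int.mul_ediv_add_emod (c + 2) N
  have h2 : 0 ≤ (c + 2) % N := Int.emod_nonneg _ (by omega)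
  have h3 : (c + 2) % N < N := Int.emod_lt_of_pos _ hN0
  set q := (c + 2) / N with hq
  set r := (c + 2) % N with hr
  by_cases hq0 : q = 0
  · by_cases hc : c = 0
    · right; exact ⟨hc, hq0⟩
    · left; rw [hq0]; simp; omega
  · left
    rcases lt_or_gt_of_ne hq0 with hlt | hgt
    · -- q ≤ -1, c + 2 = N q + r < N (q+1) , c ≤ N (q+1) - 3
      have h4 : N * (q + 1) ≤ 4 * (q + 1) := by nlinarith
      have h5 : c + 2 < N * (q + 1) := by nlinarith
      omega
    · have h4 : 4 * q ≤ N * q := by nlinarith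
      omega

theorem anc1_zero_aux (b : ℕ) : ∀ (k : ℕ) (a : ℤ),
    (anc1 (fun _ => (2 : ℤ)) k a).natAbs ≤ b →
    ∃ M, k ≤ M ∧ anc1 (fun _ => (2 : ℤ)) M a = 0 := by
  have H := J02.digit_facts
  induction b with
  | zero =>
    intro k a hb
    exact ⟨k, le_refl _, by omega⟩
  | succ b ih =>
    intro k a hb
    by_cases h0 : anc1 (fun _ => (2 : ℤ)) k a = 0
    · exact ⟨k, le_refl _, h0⟩
    · have hs := step_abs (anc1 (fun _ => (2 : ℤ)) k a) (hh k + 1) (by have := H.1 k; omega)
      have he : anc1 (fun _ => (2 : ℤ)) (k + 1) a =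
        (anc1 (fun _ => (2 : ℤ)) k a + 2) / (hh k + 1) := rfl
      rcases hs with hs | hs
      · rw [← he] at hs
        obtain ⟨M, hM, hM0⟩ := ih (k + 1) a (by omega)
        exact ⟨M, by omega, hM0⟩
      · exact absurd hs.1 h0

theorem anc1_zero (a : ℤ) : ∃ M, ∀ m, M ≤ m → anc1 (fun _ => (2 : ℤ)) m a = 0 := by
  have H := J02.digit_facts
  obtain ⟨M, _, hM0⟩ := anc1_zero_aux _ 0 a (le_refl _)
  refine ⟨M, fun m hm => ?_⟩
  induction m, hm using Nat.le_induction with
  | base => exact hM0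
  | succ m hm ih =>
    have he : anc1 (fun _ => (2 : ℤ)) (m + 1) a =
        (anc1 (fun _ => (2 : ℤ)) m a + 2) / (hh m + 1) := rfl
    rw [he, ih]
    have := H.1 m
    exact Int.ediv_eq_zero_of_lt (by omega) (by omega)

/- TARGET. Proof in words:
All offsets are 2. anc1 (k+1) a = (anc1 k a+2)/(hh k+1), hh k+1>=4. If 0 <= c then 0 <= (c+2)/4' and (c+2)/N < c for c>=1 (N>=4), and =0 for c=0; if c<0 then (c+2)/N > c unless ...:
for c=-1: (1)/N=0; c=-2: 0; c<=-3: (c+2)/N >= (c+2)/4 > c. So |anc1 k a| strictly decreases until it is 0, and 0 stays 0 ((0+2)/N=0 as N>=4). So for each of the finitely many axes the index is 0 from some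
level on. Take M such that all indices are 0 for m>=M (max over the axes). Then the digit is (0+2)%(hh m+1)=2. regL at m: coordinates D (m+1) = 2 on every axis; not 0 and not 6*hh m+1; mark (hh m) 2 = 2 (as hh m>=3: (2-1)%hh m+1 = 2), and 2 != hh m.
-/
theorem oz_event (n : ℕ) (s : Pos n) :
    ∃ M, ∀ m, M ≤ m → anc (oz n) m s = 0 ∧ (dd (oz n) m s = fun _ => 2) ∧
      regL (fun j => dd (oz n) j s) m := by
  have H := J02.digit_facts
  choose f hf using anc1_zero
  refine ⟨Finset.univ.sup (fun i => f (s i)), fun m hm => ?_⟩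
  have hA : ∀ k, Finset.univ.sup (fun i => f (s i)) ≤ k → ∀ i, anc (oz n) k s i = 0 := by
    intro k hk i
    exact hf (s i) k (le_trans (Finset.le_sup (f := fun i => f (s i)) (Finset.mem_univ i)) hk)
  have hD : ∀ k, Finset.univ.sup (fun i => f (s i)) ≤ k → dd (oz n) k s = fun _ => 2 := by
    intro k hk
    funext i
    have h1 : dd (oz n) k s i = (anc (oz n) k s i + 2) % (hh k + 1) := rfl
    rw [h1, hA k hk i]
    have := H.1 k
    exact Int.emod_eq_of_lt (by omega) (by omega)
  refine ⟨funext (hA m hm), hD m hm, ?_⟩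
  have h3 := H.1 m
  have hD1 := hD (m + 1) (by omega)
  have hmk : mark (hh m) 2 = 2 := by
    unfold mark
    rw [if_neg (by omega)]
    rw [Int.emod_eq_of_lt (by omega) (by omega)]
    norm_num
  constructor
  · rintro ⟨i, hi⟩
    have : (fun j => dd (oz n) j s) (m + 1) i = 2 := by
      show dd (oz n) (m + 1) s i = 2
      rw [hD1]
    rw [this] at hi
    omega
  · have : (fun j => dd (oz n) j s) (m + 1) 0 = 2 := by
      show dd (oz n) (m + 1) s 0 = 2
      rw [hD1]
    rw [this, hmk]
    omega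

end J06
end Helper536
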