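import Mathlib
import Pool.Agent.helper536_SFT.Defs

namespace Helper536
namespace J10

theorem sk2_symm (h oi oj : ℤ) (hh : 3 ≤ h) (V H : ℤ → ℤ → Lab) (c : ℤ → ℤ → K3)
    (S : Sk2 h oi oj V H c) :
    Sk2 h oj oi (fun a b => H b a) (fun a b => V b a) (fun a b => (c b a).swap) := by
  have hss : ∀ k : K3, k.swap.swap = k := by
    intro k
    cases k <;> rfl
  have e0 : K3.same.swap = K3.same := rfl
  have e1 : K3.hi.swap = K3.lo := rfl
  have e2 : K3.lo.swap = K3.hi := rfl
  refine ⟨fun a b => S.wfH b a, fun a b => S.wfV b a, fun a b => S.hrH b a, fun a b => ?_,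
    fun a b => S.tyH b a, fun a b => S.firstH b a, fun a b => S.lastH b a,
    fun a b => S.tyV b a, fun a b => S.firstV b a, fun a b => S.lastV b a, fun a b h1 h2 => ?_,
    fun a b h1 h2 => ?_, fun a b h1 h2 => ?_, fun a b h1 h2 => ?_⟩
  · have h1 := S.hrV b a
    show HalfRule (c b a).swap.swap (V b a) (V b (a + 1)) (H b a)
    rw [hss]
    exact h1
  · show (c b a).swap = K3.same
    rw [S.c0 b a h2 h1, e0]
  · show (c b a).swap = K3.hi
    rw [S.c2 b a h2 h1, e2]
  · show (c b a).swap = K3.lo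
    rw [S.c1 b a h2 h1, e1]
  · show (c b (a + 1)).swap = (H b a).K
    have hb : (b - 1 + oi) % (h + 1) = h - 1 := by
      have h3 := Int.emod_add_mul_ediv (b + oi) (h + 1)
      rw [h2] at h3
      have h4 : b - 1 + oi = (h - 1) + (h + 1) * ((b + oi) / (h + 1)) := by linarith
      rw [h4, Int.add_mul_emod_self_left]
      exact Int.emod_eq_of_lt (by omega) (by omega)
    have ha : (a + 1 + oj) % (h + 1) = h := by
      have h3 := Int.emod_add_mul_ediv (a + oj) (h + 1)
      rw [h1] at h3
      have h4 : a + 1 + oj = h + (h + 1) * ((a + oj) / (h + 1)) := by linarith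
      rw [h4, Int.add_mul_emod_self_left]
      exact Int.emod_eq_of_lt (by omega) (by omega)
    have k1 := S.c3 (b - 1) (a + 1) hb ha
    rw [show b - 1 + 1 = b by ring] at k1
    have k2 : c (b - 1) a = K3.same := S.c0 (b - 1) a (by omega) (by omega)
    have k3 := S.hrV (b - 1) a
    have k4 := S.hrH (b - 1) a
    rw [k2] at k3
    rw [k2, e0, show b - 1 + 1 = b by ring] at k4
    have k5 : NodeRule (V (b - 1) a) (V (b - 1) (a + 1)) (H (b - 1) a) := k3
    have k6 : NodeRule (H (b - 1) a) (H b a) (V (b - 1) a) := k4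
    rw [k1, k5.K, k5.xK, hss, k6.K]

end J10
end Helper536
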