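import Mathlib
import Pool.Agent.helper536_SFT.Defs
import Pool.Agent.helper536_SFT.J10

namespace Helper536
namespace J11

lemma dg {h A α o : ℤ} (h0 : 0 ≤ α) (h1 : α ≤ h) : (A * (h + 1) + α - o + o) % (h + 1) = α := by
  rw [sub_add_cancel, add_comm, Int.add_mul_emod_self_right]
  exact Int.emod_eq_of_lt h0 (by omega)

lemma dgm {h A o : ℤ} (h0 : 0 ≤ h) : (A * (h + 1) + 0 - o - 1 + o) % (h + 1) = h := by
  have e : A * (h + 1) + 0 - o - 1 + o = h + (A - 1) * (h + 1) := by ring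
  rw [e, Int.add_mul_emod_self_right]
  exact Int.emod_eq_of_lt h0 (by omega)

lemma const_along {T : Type*} (f : ℤ → T) (h : ℤ) (hf : ∀ β, 0 ≤ β → β < h → f (β + 1) = f β) :
    ∀ β, 0 ≤ β → β ≤ h → f β = f 0 := by
  intro β h0
  obtain ⟨n, rfl⟩ := Int.eq_ofNat_of_zero_le h0
  clear h0
  induction n with
  | zero => intro _; rfl
  | succ n ih =>
    intro h1
    push_cast at h1 ⊢
    rw [hf n (by omega) (by omega)]
    exact ih (by omega)

/-- scanning a line -/
lemma scan_line (h : ℤ) (I : ℤ → Prop) (st : ℤ → St) (h0 : st 0 = St.U)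
    (hU : ∀ β, 0 ≤ β → β < h → I β → st β = St.U)
    (hJ : ∀ β, 0 ≤ β → β < h → I β → st (β + 1) = St.J)
    (hN : ∀ β, 0 ≤ β → β < h → ¬ I β → st β = St.U → st (β + 1) = St.U)
    (hS : ∀ β, 0 ≤ β → β < h → ¬ I β → st β ≠ St.U → st (β + 1) = St.S) :
    ∀ n : ℕ, (n : ℤ) ≤ h → ∃ m : ℤ, 0 ≤ m ∧ m ≤ n ∧
      (∀ β : ℤ, 0 ≤ β → β ≤ n → st β = scan m β) ∧
      (∀ β : ℤ, 0 ≤ β → β < n → (I β ↔ β + 1 = m)) := by
  intro n
  induction n with
  | zero =>
    intro _
    refine ⟨0, le_rfl, le_rfl, ?_, ?_⟩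
    · intro β h1 h2
      push_cast at h2
      have : β = 0 := by omega
      rw [this, h0]; simp [scan]
    · intro β h1 h2
      push_cast at h2; omega
  | succ n ih =>
    intro hn
    push_cast at hn
    obtain ⟨m, m0, m1, m2, m3⟩ := ih (by omega)
    by_cases hI : I n
    · have u := hU n (by omega) (by omega) hI
      rw [m2 n (by omega) le_rfl] at u
      have hm : m = 0 := by
        by_contra hne
        unfold scan at u
        rw [if_neg (by omega)] at u
        split_ifs at u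
      subst hm
      refine ⟨(n : ℤ) + 1, by omega, by push_cast; omega, ?_, ?_⟩
      · intro β h1 h2
        push_cast at h2
        rcases eq_or_lt_of_le h2 with h3 | h3
        · rw [h3, hJ n (by omega) (by omega) hI]
          unfold scan
          rw [if_neg (by omega), if_pos rfl]
        · rw [m2 β h1 (by omega)]
          unfold scan
          rw [if_pos (by omega), if_pos (by omega)]
      · intro β h1 h2
        push_cast at h2
        rcases eq_or_lt_of_le (show β ≤ n by omega) with h3 | h3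
        · rw [h3]; simp [hI]
        · rw [m3 β h1 h3]; omega
    · refine ⟨m, m0, by push_cast; omega, ?_, ?_⟩
      · intro β h1 h2
        push_cast at h2
        rcases eq_or_lt_of_le h2 with h3 | h3
        · rw [h3]
          by_cases hs : st n = St.U
          · rw [hN n (by omega) (by omega) hI hs]
            rw [m2 n (by omega) le_rfl] at hs
            have hm : m = 0 := by
              by_contra hne
              unfold scan at hs
              rw [if_neg (by omega)] at hs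
              split_ifs at hs
            subst hm
            simp [scan]
          · rw [hS n (by omega) (by omega) hI hs]
            rw [m2 n (by omega) le_rfl] at hs
            have hm : m ≠ 0 := by
              intro hm
              apply hs
              rw [hm]; simp [scan]
            unfold scan
            rw [if_neg (by omega), if_neg (by omega)]
        · exact m2 β h1 (by omega)
      · intro β h1 h2
        push_cast at h2
        rcases eq_or_lt_of_le (show β ≤ n by omega) with h3 | h3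
        · rw [h3]
          constructor
          · intro hh; exact absurd hh hI
          · intro hh; omega
        · exact m3 β h1 h3

theorem blk_inside (h oi oj : ℤ) (hh : 3 ≤ h) (V H : ℤ → ℤ → Lab) (c : ℤ → ℤ → K3)
    (S : Sk2 h oi oj V H c) (A B : ℤ) :
    ∃ (m p : ℤ) (F : Prop), 0 ≤ m ∧ m ≤ h ∧ 0 ≤ p ∧ p ≤ 5 ∧ (F → m = 0) ∧ (F → p = 0) ∧
    (∀ α β, 0 ≤ α → α ≤ h → 0 ≤ β → β < h →
      ((blk h oi oj H A B α β).fa ↔ F) ∧ ((blk h oi oj H A B α β).la ↔ (¬ F ∧ m = 0)) ∧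
      ((blk h oi oj H A B α β).i ↔ β + 1 = m) ∧
      ((blk h oi oj H A B α β).o ↔ (2 ≤ β + 1 ∧ β + 1 = m + 1)) ∧
      (blk h oi oj H A B α β).G = scan m h ∧ (blk h oi oj H A B α β).ph = p) ∧
    (∀ α β, 0 ≤ α → α < h → 0 ≤ β → β ≤ h →
      ((blk h oi oj V A B α β).fc ↔ F) ∧ ((blk h oi oj V A B α β).lc ↔ (¬ F ∧ m = 0)) ∧
      (blk h oi oj V A B α β).st = scan m β ∧ (blk h oi oj V A B α β).g = scan m h ∧
      (blk h oi oj V A B α β).phc = p) := by
  have hh0 : (0 : ℤ) ≤ h := by omega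
  have NV : ∀ α β, 0 ≤ α → α < h → 0 ≤ β → β < h →
      NodeRule (blk h oi oj V A B α β) (blk h oi oj V A B α (β + 1)) (blk h oi oj H A B α β) := by
    intro α β a0 a1 b0 b1
    have d1 := dg (A := A) (o := oi) a0 a1.le
    have d2 := dg (A := B) (o := oj) b0 b1.le
    have hc := S.c0 (A * (h + 1) + α - oi) (B * (h + 1) + β - oj) (by rw [d1]; omega)
      (by rw [d2]; omega)
    have hr := S.hrV (A * (h + 1) + α - oi) (B * (h + 1) + β - oj)
    rw [hc] at hr
    have e : B * (h + 1) + (β + 1) - oj = B * (h + 1) + β - oj + 1 := by ring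
    unfold blk
    rw [e]
    exact hr
  have NH : ∀ α β, 0 ≤ α → α < h → 0 ≤ β → β < h →
      NodeRule (blk h oi oj H A B α β) (blk h oi oj H A B (α + 1) β) (blk h oi oj V A B α β) := by
    intro α β a0 a1 b0 b1
    have d1 := dg (A := A) (o := oi) a0 a1.le
    have d2 := dg (A := B) (o := oj) b0 b1.le
    have hc := S.c0 (A * (h + 1) + α - oi) (B * (h + 1) + β - oj) (by rw [d1]; omega)
      (by rw [d2]; omega)
    have hr := S.hrH (A * (h + 1) + α - oi) (B * (h + 1) + β - oj)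
    rw [hc] at hr
    have e : A * (h + 1) + (α + 1) - oi = A * (h + 1) + α - oi + 1 := by ring
    unfold blk
    rw [e]
    exact hr
  have EV0 : ∀ α, 0 ≤ α → α < h → (blk h oi oj V A B α 0).st = St.U := by
    intro α a0 a1
    have d1 := dg (A := A) (o := oi) a0 a1.le
    have d2 := dgm (A := B) (o := oj) hh0
    have hc := S.c2 (A * (h + 1) + α - oi) (B * (h + 1) + 0 - oj - 1) (by rw [d1]; omega) d2
    have hr := S.hrV (A * (h + 1) + α - oi) (B * (h + 1) + 0 - oj - 1)
    rw [hc, sub_add_cancel] at hr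
    have hr' : EndRule _ _ _ := hr
    exact hr'.st
  have EVh : ∀ α, 0 ≤ α → α < h → (blk h oi oj V A B α h).g = (blk h oi oj V A B α h).st := by
    intro α a0 a1
    have d1 := dg (A := A) (o := oi) a0 a1.le
    have d2 := dg (A := B) (o := oj) hh0 (le_refl h)
    have hc := S.c2 (A * (h + 1) + α - oi) (B * (h + 1) + h - oj) (by rw [d1]; omega) d2
    have hr := S.hrV (A * (h + 1) + α - oi) (B * (h + 1) + h - oj)
    rw [hc] at hr
    have hr' : EndRule _ _ _ := hr
    exact hr'.g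
  have EH0 : ∀ β, 0 ≤ β → β < h → (blk h oi oj H A B 0 β).fa →
      ¬ (blk h oi oj H A B 0 β).i ∧ (blk h oi oj H A B 0 β).ph = 0 := by
    intro β b0 b1 hf
    have d1 := dgm (A := A) (o := oi) hh0
    have d2 := dg (A := B) (o := oj) b0 b1.le
    have hc := S.c1 (A * (h + 1) + 0 - oi - 1) (B * (h + 1) + β - oj) d1 (by rw [d2]; omega)
    have hr := S.hrH (A * (h + 1) + 0 - oi - 1) (B * (h + 1) + β - oj)
    rw [hc, sub_add_cancel] at hr
    have hr' : EndRule _ _ _ := hr
    have hla := hr'.fala.1 hf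
    exact ⟨hr'.i' hla, hr'.ph' hla⟩
  -- constancy along the lines
  have Vfc : ∀ α, 0 ≤ α → α < h → ∀ β, 0 ≤ β → β ≤ h →
      (blk h oi oj V A B α β).fc = (blk h oi oj V A B α 0).fc := fun α a0 a1 =>
    const_along (fun β => (blk h oi oj V A B α β).fc) h
      (fun β b0 b1 => propext (NV α β a0 a1 b0 b1).fc)
  have Vlc : ∀ α, 0 ≤ α → α < h → ∀ β, 0 ≤ β → β ≤ h →
      (blk h oi oj V A B α β).lc = (blk h oi oj V A B α 0).lc := fun α a0 a1 =>
    const_along (fun β => (blk h oi oj V A B α β).lc) h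
      (fun β b0 b1 => propext (NV α β a0 a1 b0 b1).lc)
  have Vg : ∀ α, 0 ≤ α → α < h → ∀ β, 0 ≤ β → β ≤ h →
      (blk h oi oj V A B α β).g = (blk h oi oj V A B α 0).g := fun α a0 a1 =>
    const_along (fun β => (blk h oi oj V A B α β).g) h (fun β b0 b1 => (NV α β a0 a1 b0 b1).g)
  have Vphc : ∀ α, 0 ≤ α → α < h → ∀ β, 0 ≤ β → β ≤ h →
      (blk h oi oj V A B α β).phc = (blk h oi oj V A B α 0).phc := fun α a0 a1 =>
    const_along (fun β => (blk h oi oj V A B α β).phc) h (fun β b0 b1 => (NV α β a0 a1 b0 b1).phc)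
  have Hfa : ∀ β, 0 ≤ β → β < h → ∀ α, 0 ≤ α → α ≤ h →
      (blk h oi oj H A B α β).fa = (blk h oi oj H A B 0 β).fa := fun β b0 b1 =>
    const_along (fun α => (blk h oi oj H A B α β).fa) h
      (fun α a0 a1 => propext (NH α β a0 a1 b0 b1).fa)
  have Hla : ∀ β, 0 ≤ β → β < h → ∀ α, 0 ≤ α → α ≤ h →
      (blk h oi oj H A B α β).la = (blk h oi oj H A B 0 β).la := fun β b0 b1 =>
    const_along (fun α => (blk h oi oj H A B α β).la) h
      (fun α a0 a1 => propext (NH α β a0 a1 b0 b1).la)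
  have Hi : ∀ β, 0 ≤ β → β < h → ∀ α, 0 ≤ α → α ≤ h →
      (blk h oi oj H A B α β).i = (blk h oi oj H A B 0 β).i := fun β b0 b1 =>
    const_along (fun α => (blk h oi oj H A B α β).i) h
      (fun α a0 a1 => propext (NH α β a0 a1 b0 b1).i)
  have Ho : ∀ β, 0 ≤ β → β < h → ∀ α, 0 ≤ α → α ≤ h →
      (blk h oi oj H A B α β).o = (blk h oi oj H A B 0 β).o := fun β b0 b1 =>
    const_along (fun α => (blk h oi oj H A B α β).o) h
      (fun α a0 a1 => propext (NH α β a0 a1 b0 b1).o)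
  have HG : ∀ β, 0 ≤ β → β < h → ∀ α, 0 ≤ α → α ≤ h →
      (blk h oi oj H A B α β).G = (blk h oi oj H A B 0 β).G := fun β b0 b1 =>
    const_along (fun α => (blk h oi oj H A B α β).G) h (fun α a0 a1 => (NH α β a0 a1 b0 b1).G)
  have Hph : ∀ β, 0 ≤ β → β < h → ∀ α, 0 ≤ α → α ≤ h →
      (blk h oi oj H A B α β).ph = (blk h oi oj H A B 0 β).ph := fun β b0 b1 =>
    const_along (fun α => (blk h oi oj H A B α β).ph) h (fun α a0 a1 => (NH α β a0 a1 b0 b1).ph)
  -- the scan
  have T0 : ∀ α, 0 ≤ α → α < h → ∀ β, 0 ≤ β → β < h →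
      ((blk h oi oj H A B 0 β).i → (blk h oi oj V A B α β).st = St.U) ∧
      ((blk h oi oj H A B 0 β).i → (blk h oi oj V A B α (β + 1)).st = St.J) ∧
      (¬ (blk h oi oj H A B 0 β).i → (blk h oi oj V A B α β).st = St.U →
        (blk h oi oj V A B α (β + 1)).st = St.U) ∧
      (¬ (blk h oi oj H A B 0 β).i → (blk h oi oj V A B α β).st ≠ St.U →
        (blk h oi oj V A B α (β + 1)).st = St.S) := by
    intro α a0 a1 β b0 b1
    rw [← Hi β b0 b1 α a0 a1.le]
    have r := NV α β a0 a1 b0 b1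
    exact ⟨r.scanU, r.scanJ, r.scanN, r.scanS⟩
  obtain ⟨hn, hhn⟩ := Int.eq_ofNat_of_zero_le hh0
  obtain ⟨m, m0, m1, m2, m3⟩ := scan_line h (fun β => (blk h oi oj H A B 0 β).i)
    (fun β => (blk h oi oj V A B 0 β).st) (EV0 0 le_rfl (by omega))
    (fun β b0 b1 => (T0 0 le_rfl (by omega) β b0 b1).1)
    (fun β b0 b1 => (T0 0 le_rfl (by omega) β b0 b1).2.1)
    (fun β b0 b1 => (T0 0 le_rfl (by omega) β b0 b1).2.2.1)
    (fun β b0 b1 => (T0 0 le_rfl (by omega) β b0 b1).2.2.2) hn (by omega)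
  rw [← hhn] at m1 m2 m3
  -- all the lines scan in the same way
  have ST : ∀ α, 0 ≤ α → α < h → ∀ β, 0 ≤ β → β ≤ h →
      (blk h oi oj V A B α β).st = scan m β := by
    intro α a0 a1 β b0 b1
    rw [← m2 β b0 b1]
    obtain ⟨n, rfl⟩ := Int.eq_ofNat_of_zero_le b0
    clear b0
    induction n with
    | zero =>
      exact (EV0 α a0 a1).trans (EV0 0 le_rfl (by omega)).symm
    | succ n ih =>
      push_cast at b1 ⊢
      have ih' := ih (by omega)
      obtain ⟨x1, x2, x3, x4⟩ := T0 α a0 a1 n (by omega) (by omega)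
      obtain ⟨y1, y2, y3, y4⟩ := T0 0 le_rfl (by omega) n (by omega) (by omega)
      by_cases hI : (blk h oi oj H A B 0 n).i
      · rw [x2 hI, y2 hI]
      · by_cases hs : (blk h oi oj V A B 0 n).st = St.U
        · rw [y3 hI hs, x3 hI (ih'.trans hs)]
        · rw [y4 hI hs, x4 hI (by rw [ih']; exact hs)]
  -- the constants
  have Gg : ∀ α, 0 ≤ α → α < h → ∀ β, 0 ≤ β → β ≤ h →
      (blk h oi oj V A B α β).g = scan m h := by
    intro α a0 a1 β b0 b1
    rw [Vg α a0 a1 β b0 b1, ← Vg α a0 a1 h hh0 le_rfl, EVh α a0 a1, ST α a0 a1 h hh0 le_rfl]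
  have GG : ∀ α, 0 ≤ α → α ≤ h → ∀ β, 0 ≤ β → β < h →
      (blk h oi oj H A B α β).G = scan m h := by
    intro α a0 a1 β b0 b1
    rw [HG β b0 b1 α a0 a1, (NH 0 β le_rfl (by omega) b0 b1).xG, Gg 0 le_rfl (by omega) β b0 b1.le]
  have GF : ∀ α, 0 ≤ α → α ≤ h → ∀ β, 0 ≤ β → β < h →
      ((blk h oi oj H A B α β).fa ↔ (blk h oi oj V A B 0 0).fc) := by
    intro α a0 a1 β b0 b1
    rw [Hfa β b0 b1 α a0 a1, ← (NV 0 β le_rfl (by omega) b0 b1).xfc,
      Vfc 0 le_rfl (by omega) β b0 b1.le]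
  have GP : ∀ α, 0 ≤ α → α ≤ h → ∀ β, 0 ≤ β → β < h →
      (blk h oi oj H A B α β).ph = (blk h oi oj V A B 0 0).phc := by
    intro α a0 a1 β b0 b1
    rw [Hph β b0 b1 α a0 a1, ← (NV 0 β le_rfl (by omega) b0 b1).xph,
      Vphc 0 le_rfl (by omega) β b0 b1.le]
  have SU : scan m h = St.U ↔ m = 0 := by
    constructor
    · intro hu
      by_contra hne
      unfold scan at hu
      rw [if_neg (by omega)] at hu
      split_ifs at hu
    · intro h0
      rw [h0]; simp [scan]
  have GLa : ∀ α, 0 ≤ α → α ≤ h → ∀ β, 0 ≤ β → β < h →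
      ((blk h oi oj H A B α β).la ↔ (¬ (blk h oi oj V A B 0 0).fc ∧ m = 0)) := by
    intro α a0 a1 β b0 b1
    have w := (S.wfH (A * (h + 1) + α - oi) (B * (h + 1) + β - oj)).la
    have w' : (blk h oi oj H A B α β).la ↔
        (¬ (blk h oi oj H A B α β).fa ∧ (blk h oi oj H A B α β).G = St.U) := w
    rw [w', GF α a0 a1 β b0 b1, GG α a0 a1 β b0 b1, SU]
  have P0 : (blk h oi oj V A B 0 0).fc → ∀ β, 0 ≤ β → β < h →
      ¬ (blk h oi oj H A B 0 β).i ∧ (blk h oi oj H A B 0 β).ph = 0 := by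
    intro hF β b0 b1
    exact EH0 β b0 b1 ((GF 0 le_rfl (by omega) β b0 b1).2 hF)
  have w0 := S.wfV (A * (h + 1) + 0 - oi) (B * (h + 1) + 0 - oj)
  refine ⟨m, (blk h oi oj V A B 0 0).phc, (blk h oi oj V A B 0 0).fc, m0, m1, w0.phc0, w0.phc5,
    ?_, ?_, ?_, ?_⟩
  · intro hF
    by_contra hne
    have h1 := (P0 hF (m - 1) (by omega) (by omega)).1
    exact h1 ((m3 (m - 1) (by omega) (by omega)).2 (by omega))
  · intro hF
    exact (GP 0 le_rfl (by omega) 0 le_rfl (by omega)).symm.trans (P0 hF 0 le_rfl (by omega)).2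
  · intro α β a0 a1 b0 b1
    refine ⟨GF α a0 a1 β b0 b1, GLa α a0 a1 β b0 b1, ?_, ?_, GG α a0 a1 β b0 b1, GP α a0 a1 β b0 b1⟩
    · rw [Hi β b0 b1 α a0 a1]
      exact m3 β b0 b1
    · rw [Ho β b0 b1 α a0 a1, (NH 0 β le_rfl (by omega) b0 b1).xo, ST 0 le_rfl (by omega) β b0 b1.le]
      constructor
      · intro hs
        unfold scan at hs
        split_ifs at hs with q1 q2
        omega
      · intro hs
        unfold scan
        rw [if_neg (by omega), if_pos (by omega)]
  · intro α β a0 a1 b0 b1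
    refine ⟨?_, ?_, ST α a0 a1 β b0 b1, Gg α a0 a1 β b0 b1, ?_⟩
    · rw [Vfc α a0 a1 β b0 b1, (NV α 0 a0 a1 le_rfl (by omega)).xfc]
      exact GF α a0 a1.le 0 le_rfl (by omega)
    · rw [Vlc α a0 a1 β b0 b1, (NV α 0 a0 a1 le_rfl (by omega)).xlc]
      exact GLa α a0 a1.le 0 le_rfl (by omega)
    · rw [Vphc α a0 a1 β b0 b1, (NV α 0 a0 a1 le_rfl (by omega)).xph]
      exact GP α a0 a1.le 0 le_rfl (by omega)

end J11
end Helper536
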