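import Mathlib
import Pool.Agent.helper536_SFT.Defs
import Pool.Agent.helper536_SFT.J01
import Pool.Agent.helper536_SFT.J11

namespace Helper536
namespace J12

theorem mk (h oi oj : ℤ) (V H : ℤ → ℤ → Lab) (A B m p X : ℤ) (F : Prop)
    (hX0 : 0 ≤ X) (hX1 : X ≤ 6 * h + 1) (hF : F ↔ X = 0) (hL : (¬ F ∧ m = 0) ↔ X = 6 * h + 1)
    (hm : mark h X = m) (hp : phase h X = p)
    (h1 : ∀ α β, 0 ≤ α → α ≤ h → 0 ≤ β → β < h →
      ((blk h oi oj H A B α β).fa ↔ F) ∧ ((blk h oi oj H A B α β).la ↔ (¬ F ∧ m = 0)) ∧
      ((blk h oi oj H A B α β).i ↔ β + 1 = m) ∧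
      ((blk h oi oj H A B α β).o ↔ (2 ≤ β + 1 ∧ β + 1 = m + 1)) ∧
      (blk h oi oj H A B α β).G = scan m h ∧ (blk h oi oj H A B α β).ph = p)
    (h2 : ∀ α β, 0 ≤ α → α < h → 0 ≤ β → β ≤ h →
      ((blk h oi oj V A B α β).fc ↔ F) ∧ ((blk h oi oj V A B α β).lc ↔ (¬ F ∧ m = 0)) ∧
      (blk h oi oj V A B α β).st = scan m β ∧ (blk h oi oj V A B α β).g = scan m h ∧
      (blk h oi oj V A B α β).phc = p) : BlkX h oi oj V H A B X where
  X0 := hX0
  X1 := hX1
  hfa := fun α β a b c d => ((h1 α β a b c d).1).trans hF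
  hla := fun α β a b c d => ((h1 α β a b c d).2.1).trans hL
  hi := fun α β a b c d => by rw [hm]; exact (h1 α β a b c d).2.2.1
  ho := fun α β a b c d => by rw [hm]; exact (h1 α β a b c d).2.2.2.1
  hG := fun α β a b c d => by rw [hm]; exact (h1 α β a b c d).2.2.2.2.1
  hph := fun α β a b c d => by rw [hp]; exact (h1 α β a b c d).2.2.2.2.2
  vfc := fun α β a b c d => ((h2 α β a b c d).1).trans hF
  vlc := fun α β a b c d => ((h2 α β a b c d).2.1).trans hL
  vst := fun α β a b c d => by rw [hm]; exact (h2 α β a b c d).2.2.1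
  vg := fun α β a b c d => by rw [hm]; exact (h2 α β a b c d).2.2.2.1
  vphc := fun α β a b c d => by rw [hp]; exact (h2 α β a b c d).2.2.2.2

/- TARGET. Proof in words:
Take m,p,F from J11 for the block (A,B). If F: X=0 (m=0,p=0; mark h 0=0, phase h 0=0). If not F and m=0: X=6h+1 (mark 0); the phase must be 5: take m',p',F' from J11 for the block (A-1,B) and look at the
EndRule (from S.hrH, c=hi by S.c1, swapped lo) at the sites (h,β) of block (A-1,B), β<h: b=H there, a=H(0,β) of block (A,B). a.fa iff b.la, so b.la is false. So a.i iff (b.o or (b.ty=1 and (b.fa or (b.G=J and b.ph != 5)))).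
All a.i are false (m=0). b.ty = ty(β+1) by S.tyH, which is 1 iff β=0. So: b.o false for all β<h: m' is not in [1,h-1]; β=0: F' false and not (scan m' h=J and p' != 5). b.la false: not(not F' and m'=0), so m' != 0. Hence m'=h,
scan h h=J, p'=5, and a.ph=b.ph=5 (field ph: if b.G=J and b.ph != 5 then b.ph+1 else b.ph), so p=5=phase h (6h+1).
If not F and m != 0: X=p*h+m; by J01 mark h X=m, phase h X=p, 0<X<6h+1.
-/
theorem blkx_exists (h oi oj : ℤ) (hh : 3 ≤ h) (V H : ℤ → ℤ → Lab) (c : ℤ → ℤ → K3)
    (S : Sk2 h oi oj V H c) (A B : ℤ) : ∃ X, BlkX h oi oj V H A B X := by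
  obtain ⟨m, p, F, hm0, hmh, hp0, hp5, hFm, hFp, h1, h2⟩ := J11.blk_inside h oi oj hh V H c S A B
  by_cases hF : F
  · have e1 := hFm hF
    have e2 := hFp hF
    have q := (J01.mark_step h 0 hh (by omega) (by omega)).1 rfl
    refine ⟨0, mk h oi oj V H A B m p 0 F le_rfl (by omega) (by simp [hF]) ?_
      (by rw [q.1, e1]) (by rw [q.2.1, e2]) h1 h2⟩
    constructor
    · rintro ⟨a, -⟩
      exact absurd hF a
    · intro a
      omega
  · by_cases hm : m = 0
    · have q := (J01.mark_step h (6 * h + 1) hh (by omega) (by omega)).2.1 rfl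
      obtain ⟨m', p', F', hm0', hmh', hp0', hp5', hFm', hFp', h1', -⟩ :=
        J11.blk_inside h oi oj hh V H c S (A - 1) B
      have key : ∀ β, 0 ≤ β → β < h →
          EndRule (blk h oi oj H (A - 1) B h β) (blk h oi oj H A B 0 β)
            (V ((A - 1) * (h + 1) + h - oi) (B * (h + 1) + β - oj)) ∧
          (blk h oi oj H (A - 1) B h β).ty = ty (β + 1) := by
        intro β b0 b1
        have ea : ((A - 1) * (h + 1) + h - oi + oi) % (h + 1) = h := by
          have : (A - 1) * (h + 1) + h - oi + oi = h + (h + 1) * (A - 1) := by ring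
          rw [this, Int.add_mul_emod_self_left]
          exact Int.emod_eq_of_lt (by omega) (by omega)
        have eb : (B * (h + 1) + β - oj + oj) % (h + 1) = β := by
          have : B * (h + 1) + β - oj + oj = β + (h + 1) * B := by ring
          rw [this, Int.add_mul_emod_self_left]
          exact Int.emod_eq_of_lt (by omega) (by omega)
        have ne : (B * (h + 1) + β - oj + oj) % (h + 1) ≠ h := by rw [eb]; omega
        have ec := S.c1 _ _ ea ne
        have hr := S.hrH ((A - 1) * (h + 1) + h - oi) (B * (h + 1) + β - oj)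
        rw [ec] at hr
        have e3 : (A - 1) * (h + 1) + h - oi + 1 = A * (h + 1) + 0 - oi := by ring
        rw [e3] at hr
        refine ⟨hr, ?_⟩
        have ht := S.tyH ((A - 1) * (h + 1) + h - oi) (B * (h + 1) + β - oj) ne
        rw [eb] at ht
        exact ht
      have nla : ∀ β, 0 ≤ β → β < h → ¬ (blk h oi oj H (A - 1) B h β).la := by
        intro β b0 b1 hla
        obtain ⟨E, -⟩ := key β b0 b1
        exact hF (((h1 0 β le_rfl (by omega) b0 b1).1).1 (E.fala.2 hla))
      have ni : ∀ β, 0 ≤ β → β < h → ¬ ((blk h oi oj H (A - 1) B h β).o ∨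
          ((blk h oi oj H (A - 1) B h β).ty = 1 ∧ ((blk h oi oj H (A - 1) B h β).fa ∨
          ((blk h oi oj H (A - 1) B h β).G = St.J ∧ (blk h oi oj H (A - 1) B h β).ph ≠ 5)))) := by
        intro β b0 b1 hi
        obtain ⟨E, -⟩ := key β b0 b1
        have := (E.i (nla β b0 b1)).2 hi
        have := ((h1 0 β le_rfl (by omega) b0 b1).2.2.1).1 this
        omega
      have z0 := h1' h 0 (by omega) le_rfl le_rfl (by omega)
      have n0 := ni 0 le_rfl (by omega)
      have t0 : (blk h oi oj H (A - 1) B h 0).ty = 1 := by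
        rw [(key 0 le_rfl (by omega)).2]
        simp [ty]
      have nF' : ¬ F' := by
        intro f
        exact n0 (Or.inr ⟨t0, Or.inl (z0.1.2 f)⟩)
      have nm0 : m' ≠ 0 := by
        intro e
        exact nla 0 le_rfl (by omega) (z0.2.1.2 ⟨nF', e⟩)
      have nmh : m' = h := by
        by_contra hne
        have z1 := h1' h m' (by omega) le_rfl hm0' (by omega)
        exact ni m' hm0' (by omega) (Or.inl (z1.2.2.2.1.2 ⟨by omega, rfl⟩))
      have sJ : scan m' h = St.J := by
        rw [nmh]
        unfold scan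
        rw [if_neg (by omega), if_pos rfl]
      have p5 : p' = 5 := by
        by_contra hne
        refine n0 (Or.inr ⟨t0, Or.inr ⟨?_, ?_⟩⟩)
        · rw [z0.2.2.2.2.1, sJ]
        · rw [z0.2.2.2.2.2]
          exact hne
      have pp : p = 5 := by
        obtain ⟨E, -⟩ := key 0 le_rfl (by omega)
        have e := E.ph (nla 0 le_rfl (by omega))
        rw [(h1 0 0 le_rfl (by omega) le_rfl (by omega)).2.2.2.2.2, z0.2.2.2.2.2, p5] at e
        rw [e]
        simp
      refine ⟨6 * h + 1, mk h oi oj V H A B m p (6 * h + 1) F (by omega) le_rfl ?_ ?_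
        (by rw [q.1, hm]) (by rw [q.2, pp]) h1 h2⟩
      · constructor
        · intro f
          exact absurd f hF
        · intro a
          omega
      · simp [hF, hm]
    · have q := (J01.mark_step h 0 hh (by omega) (by omega)).2.2.2 p m hp0 hp5 (by omega) hmh
      refine ⟨p * h + m, mk h oi oj V H A B m p (p * h + m) F (by omega) (by omega) ?_ ?_
        q.1 q.2.1 h1 h2⟩
      · constructor
        · intro f
          exact absurd f hF
        · intro a
          omega
      · constructor
        · rintro ⟨-, a⟩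
          exact absurd a hm
        · intro a
          omega

end J12
end Helper536
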