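import Mathlib
import Pool.Agent.helper536_SFT.Defs
import Pool.Agent.helper536_SFT.J01
import Pool.Agent.helper536_SFT.J11
import Pool.Agent.helper536_SFT.J12

namespace Helper536
namespace J13

/- TARGET. Proof in words:
By J12 there is X' with BlkX (A+1) B X'. To show X' is the stated number. EndRule (S.hrH; c=hi by S.c1, swap=lo) at the sites (h,β) of block (A,B), 0<=β<h: b=H(h,β) of (A,B), a=H(0,β) of (A+1,B) (note
A*(h+1)+h-oi+1=(A+1)*(h+1)+0-oi). b.ty=ty(β+1) (S.tyH), 1 iff β=0. If X=6h+1: b.la, so a.fa (field fala), so X'=0. Otherwise b.la is false, so a.fa is false, X' != 0, and a.i iff (b.o or (β=0 and (X=0 or (scan (mark h X) h=J and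
phase h X != 5)))), a.ph=if (scan (mark h X) h=J and phase h X != 5) then phase h X+1 else phase h X. Also scan m h=J iff m=h (for 0<=m<=h, h>=3). a.i iff β+1=mark h X', for all 0<=β<h; b.o iff (2<=β+1 and β+1=mark h X+1).
X=0: a.i at β=0, so mark h X'=1, phase h X'=0, X'=1 (J01: X' = phase*h+mark, for X' != 0 and X' != 6h+1; mark of 6h+1 is 0). 0<mark h X<h: mark h X'=mark h X+1, same phase, so X'=X+1. mark h X=h, phase != 5: mark 1, phase+1, X'=X+1.
mark h X=h, phase 5: no a.i, so mark h X'=0, and X' != 0, so X'=6h+1=X+1 (J01).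
-/
theorem blkx_step (h oi oj : ℤ) (hh : 3 ≤ h) (V H : ℤ → ℤ → Lab) (c : ℤ → ℤ → K3)
    (S : Sk2 h oi oj V H c) (A B X : ℤ) (hX : BlkX h oi oj V H A B X) :
    BlkX h oi oj V H (A + 1) B (if X = 6 * h + 1 then 0 else X + 1) := by
  obtain ⟨X', hX'⟩ := J12.blkx_exists h oi oj hh V H c S (A + 1) B
  suffices hs : X' = if X = 6 * h + 1 then 0 else X + 1 by
    rw [← hs]; exact hX'
  have hmod1 : (A * (h + 1) + h - oi + oi) % (h + 1) = h := by
    have e : A * (h + 1) + h - oi + oi = h + (h + 1) * A := by ring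
    rw [e, Int.add_mul_emod_self_left]
    exact Int.emod_eq_of_lt (by omega) (by omega)
  have hmod2 : ∀ β, 0 ≤ β → β < h → (B * (h + 1) + β - oj + oj) % (h + 1) = β := by
    intro β h0 h1
    have e : B * (h + 1) + β - oj + oj = β + (h + 1) * B := by ring
    rw [e, Int.add_mul_emod_self_left]
    exact Int.emod_eq_of_lt (by omega) (by omega)
  have hE : ∀ β, 0 ≤ β → β < h →
      EndRule (blk h oi oj H A B h β) (blk h oi oj H (A + 1) B 0 β)
        (blk h oi oj V A B h β) := by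
    intro β h0 h1
    have h2 := S.hrH (A * (h + 1) + h - oi) (B * (h + 1) + β - oj)
    rw [S.c1 _ _ hmod1 (by rw [hmod2 β h0 h1]; omega)] at h2
    have e : A * (h + 1) + h - oi + 1 = (A + 1) * (h + 1) + 0 - oi := by ring
    rw [e] at h2
    exact h2
  have hty : ∀ β, 0 ≤ β → β < h → ((blk h oi oj H A B h β).ty = 1 ↔ β = 0) := by
    intro β h0 h1
    have h2 := S.tyH (A * (h + 1) + h - oi) (B * (h + 1) + β - oj)
      (by rw [hmod2 β h0 h1]; omega)
    rw [hmod2 β h0 h1] at h2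
    unfold blk
    rw [h2]
    unfold ty
    split_ifs <;> omega
  have hh0 : (0 : ℤ) ≤ h := by omega
  obtain ⟨m0, m1, m2, m3⟩ := J01.mark_step h X hh hX.X0 hX.X1
  obtain ⟨n0, n1, n2, n3⟩ := J01.mark_step h X' hh hX'.X0 hX'.X1
  have hmr : 0 ≤ mark h X ∧ mark h X ≤ h := by
    by_cases c1 : X = 0
    · have := m0 c1; omega
    by_cases c2 : X = 6 * h + 1
    · have := m1 c2; omega
    have := m2 c1 c2
    exact ⟨by omega, this.2.1⟩
  have hsc : scan (mark h X) h = St.J ↔ mark h X = h := by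
    unfold scan
    constructor
    · intro h1
      split_ifs at h1 with c1 c2
      exact c2.symm
    · intro h1
      rw [if_neg (by omega), if_pos h1.symm]
  have hla : X' = 0 ↔ X = 6 * h + 1 := by
    rw [← hX'.hfa 0 0 le_rfl hh0 le_rfl (by omega), ← hX.hla h 0 hh0 le_rfl le_rfl (by omega)]
    exact (hE 0 le_rfl (by omega)).fala
  by_cases hc : X = 6 * h + 1
  · rw [if_pos hc]
    exact hla.2 hc
  rw [if_neg hc]
  have hX0 : X' ≠ 0 := fun h0 => hc (hla.1 h0)
  have hnla : ∀ β, 0 ≤ β → β < h → ¬ (blk h oi oj H A B h β).la := by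
    intro β h0 h1 h2
    exact hc ((hX.hla h β hh0 le_rfl h0 h1).1 h2)
  have hI : ∀ β, 0 ≤ β → β < h → (β + 1 = mark h X' ↔
      ((2 ≤ β + 1 ∧ β + 1 = mark h X + 1) ∨
        (β = 0 ∧ (X = 0 ∨ (mark h X = h ∧ phase h X ≠ 5))))) := by
    intro β h0 h1
    rw [← hX'.hi 0 β le_rfl hh0 h0 h1, (hE β h0 h1).i (hnla β h0 h1), hty β h0 h1,
      hX.ho h β hh0 le_rfl h0 h1, hX.hfa h β hh0 le_rfl h0 h1, hX.hG h β hh0 le_rfl h0 h1,
      hX.hph h β hh0 le_rfl h0 h1, hsc]
  have hP : phase h X' = if mark h X = h ∧ phase h X ≠ 5 then phase h X + 1 else phase h X := by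
    have h1 := (hE 0 le_rfl (by omega)).ph (hnla 0 le_rfl (by omega))
    rw [hX'.hph 0 0 le_rfl hh0 le_rfl (by omega), hX.hG h 0 hh0 le_rfl le_rfl (by omega),
      hX.hph h 0 hh0 le_rfl le_rfl (by omega)] at h1
    simpa only [hsc] using h1
  have hform : mark h X' ≠ 0 → X' = phase h X' * h + mark h X' := by
    intro h0
    have c2 : X' ≠ 6 * h + 1 := fun h1 => h0 (n1 h1).1
    exact (n2 hX0 c2).2.2.2.2.1
  by_cases hx0 : X = 0
  · have h1 := (hI 0 le_rfl (by omega)).2 (Or.inr ⟨rfl, Or.inl hx0⟩)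
    obtain ⟨a1, a2, -, -⟩ := m0 hx0
    rw [if_neg (by omega), a2] at hP
    have h2 := hform (by omega)
    rw [hP, ← h1] at h2
    omega
  obtain ⟨b1, b2, b3, b4, b5, b6, b7, b8⟩ := m2 hx0 hc
  by_cases hm : mark h X = h
  · by_cases hp : phase h X = 5
    · rw [b8 hm hp]
      by_contra hne
      have d1 := n2 hX0 hne
      have d2 := (hI (mark h X' - 1) (by omega) (by omega)).1 (by omega)
      rcases d2 with d2 | d2
      · omega
      · rcases d2.2 with d3 | d3
        · exact hx0 d3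
        · exact d3.2 hp
    · have h1 := (hI 0 le_rfl (by omega)).2 (Or.inr ⟨rfl, Or.inr ⟨hm, hp⟩⟩)
      rw [if_pos ⟨hm, hp⟩] at hP
      have h2 := hform (by omega)
      rw [hP, ← h1] at h2
      rw [h2]
      conv_rhs => rw [b5, hm]
      ring
  · have h1 := (hI (mark h X) (by omega) (by omega)).2 (Or.inl ⟨by omega, rfl⟩)
    rw [if_neg (fun hq => hm hq.1)] at hP
    have h2 := hform (by omega)
    rw [hP, ← h1] at h2
    rw [h2]
    conv_rhs => rw [b5]
    ring

end J13
end Helper536
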