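import Mathlib
import Pool.Agent.helper536_SFT.Defs
import Pool.Agent.helper536_SFT.J01
import Pool.Agent.helper536_SFT.J12
import Pool.Agent.helper536_SFT.J13

namespace Helper536
namespace J14

theorem blkx_unique (h oi oj : ℤ) (hh : 3 ≤ h) (V H : ℤ → ℤ → Lab) (A B X Y : ℤ)
    (hX : BlkX h oi oj V H A B X) (hY : BlkX h oi oj V H A B Y) : X = Y := by
  have a1 : X = 0 ↔ Y = 0 :=
    (hX.hfa 0 0 (by omega) (by omega) (by omega) (by omega)).symm.trans
      (hY.hfa 0 0 (by omega) (by omega) (by omega) (by omega))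
  have a2 : X = 6 * h + 1 ↔ Y = 6 * h + 1 :=
    (hX.hla 0 0 (by omega) (by omega) (by omega) (by omega)).symm.trans
      (hY.hla 0 0 (by omega) (by omega) (by omega) (by omega))
  by_cases h0 : X = 0
  · rw [h0, a1.1 h0]
  by_cases h1 : X = 6 * h + 1
  · rw [h1, a2.1 h1]
  have hY0 : Y ≠ 0 := fun e => h0 (a1.2 e)
  have hY1 : Y ≠ 6 * h + 1 := fun e => h1 (a2.2 e)
  have sX := (J01.mark_step h X hh hX.X0 hX.X1).2.2.1 h0 h1
  have sY := (J01.mark_step h Y hh hY.X0 hY.X1).2.2.1 hY0 hY1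
  have ph : phase h X = phase h Y :=
    (hX.hph 0 0 (by omega) (by omega) (by omega) (by omega)).symm.trans
      (hY.hph 0 0 (by omega) (by omega) (by omega) (by omega))
  obtain ⟨m1, m2, -, -, eX, -⟩ := sX
  obtain ⟨-, -, -, -, eY, -⟩ := sY
  have mk : mark h X = mark h Y := by
    have e1 := hX.hi 0 (mark h X - 1) (by omega) (by omega) (by omega) (by omega)
    have e2 := hY.hi 0 (mark h X - 1) (by omega) (by omega) (by omega) (by omega)
    have e3 := e2.1 (e1.2 (by omega))
    omega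
  rw [eX, eY, ph, mk]

theorem blkx_up_zero (h oi oj : ℤ) (hh : 3 ≤ h) (V H : ℤ → ℤ → Lab) (c : ℤ → ℤ → K3)
    (S : Sk2 h oi oj V H c) (A B : ℤ) (hX : BlkX h oi oj V H A B 0) :
    BlkX h oi oj V H A (B + 1) 0 := by
  obtain ⟨Y, hY⟩ := J12.blkx_exists h oi oj hh V H c S A (B + 1)
  have e1 := (hX.vfc 0 h (by omega) (by omega) (by omega) (by omega)).2 rfl
  have ha : (A * (h + 1) + 0 - oi + oi) % (h + 1) ≠ h := by
    have e : A * (h + 1) + 0 - oi + oi = A * (h + 1) := by ring
    rw [e, Int.mul_emod_left]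
    omega
  have hb : (B * (h + 1) + h - oj + oj) % (h + 1) = h := by
    have e : B * (h + 1) + h - oj + oj = h + B * (h + 1) := by ring
    rw [e, Int.add_mul_emod_self_right]
    exact Int.emod_eq_of_lt (by omega) (by omega)
  have hc := S.c2 _ _ ha hb
  have hr := S.hrV (A * (h + 1) + 0 - oi) (B * (h + 1) + h - oj)
  rw [hc] at hr
  have hE : EndRule (V (A * (h + 1) + 0 - oi) (B * (h + 1) + h - oj))
    (V (A * (h + 1) + 0 - oi) (B * (h + 1) + h - oj + 1))
    (H (A * (h + 1) + 0 - oi) (B * (h + 1) + h - oj)) := hr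
  have e2 := hE.fc.2 e1
  have e3 : B * (h + 1) + h - oj + 1 = (B + 1) * (h + 1) + 0 - oj := by ring
  rw [e3] at e2
  have e4 := (hY.vfc 0 0 (by omega) (by omega) (by omega) (by omega)).1 e2
  rw [e4] at hY
  exact hY

theorem blkx_up_nat (h oi oj : ℤ) (hh : 3 ≤ h) (V H : ℤ → ℤ → Lab) (c : ℤ → ℤ → K3)
    (S : Sk2 h oi oj V H c) (B : ℤ) (n : ℕ) : ∀ A : ℤ, BlkX h oi oj V H A B (n : ℤ) →
    BlkX h oi oj V H A (B + 1) (n : ℤ) := by
  induction n with
  | zero =>
    intro A hX
    exact blkx_up_zero h oi oj hh V H c S A B hX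
  | succ n ih =>
    intro A hX
    obtain ⟨Y, hY⟩ := J12.blkx_exists h oi oj hh V H c S (A - 1) B
    have e0 : A - 1 + 1 = A := by ring
    have hZ := J13.blkx_step h oi oj hh V H c S (A - 1) B Y hY
    rw [e0] at hZ
    have hu := blkx_unique h oi oj hh V H A B _ _ hX hZ
    have hX1 := hX.X1
    push_cast at hu hX1
    have hYn : Y = (n : ℤ) := by
      split_ifs at hu with hs
      · omega
      · omega
    rw [hYn] at hY
    have h2 := J13.blkx_step h oi oj hh V H c S (A - 1) (B + 1) _ (ih (A - 1) hY)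
    rw [e0, if_neg (by omega)] at h2
    push_cast
    exact h2

/- TARGET. Proof in words:
First: BlkX determines X (uniqueness): from hfa, hla, and if X is not extreme, from hi (mark), hph (phase) and X=phase*h+mark (J01) - or avoid this: induct on X (as a natural number), for all A.
X=0: the label V(0,h) of block (A,B) and V(0,0) of block (A,B+1): at (0,h) c=lo (S.c2), EndRule (S.hrV): a.fc iff b.fc. So with X' from J12 for (A,B+1): vfc gives X'=0. Step: X+1<=6h+1. Let Y be the coordinate (J12) of the block (A-1,B).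
By J13, (A,B) has coordinate (if Y=6h+1 then 0 else Y+1); both this number Z and X+1 satisfy BlkX for (A,B), and Z=X+1 by uniqueness: a block can satisfy BlkX for only one number: Z=0 iff X+1=0 (hfa), so Z != 0; Z=6h+1 iff X+1=6h+1 (hla);
otherwise mark equal (hi, marks in [1,h]) and phase equal (hph), so Z=phase*h+mark=X+1 (J01). So Y=X. By induction (A-1,B+1) has coordinate X, and by J13 (A,B+1) has coordinate X+1 (X != 6h+1).
-/
theorem blkx_up (h oi oj : ℤ) (hh : 3 ≤ h) (V H : ℤ → ℤ → Lab) (c : ℤ → ℤ → K3)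
    (S : Sk2 h oi oj V H c) (A B X : ℤ) (hX : BlkX h oi oj V H A B X) :
    BlkX h oi oj V H A (B + 1) X := by
  have h0 := hX.X0
  obtain ⟨n, rfl⟩ := Int.eq_ofNat_of_zero_le h0
  exact blkx_up_nat h oi oj hh V H c S B n A hX

end J14
end Helper536
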