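import Mathlib
import Pool.Agent.helper536_SFT.Defs
import Pool.Agent.helper536_SFT.J01
import Pool.Agent.helper536_SFT.J12
import Pool.Agent.helper536_SFT.J13
import Pool.Agent.helper536_SFT.J14

namespace Helper536
namespace J15

theorem uniq (h oi oj : ℤ) (hh : 3 ≤ h) (V H : ℤ → ℤ → Lab) {A B X Y : ℤ}
    (hX : BlkX h oi oj V H A B X) (hY : BlkX h oi oj V H A B Y) : X = Y := by
  have e0 : (X = 0 ↔ Y = 0) :=
    (hX.hfa 0 0 le_rfl (by omega) le_rfl (by omega)).symm.trans
      (hY.hfa 0 0 le_rfl (by omega) le_rfl (by omega))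
  have e1 : (X = 6 * h + 1 ↔ Y = 6 * h + 1) :=
    (hX.hla 0 0 le_rfl (by omega) le_rfl (by omega)).symm.trans
      (hY.hla 0 0 le_rfl (by omega) le_rfl (by omega))
  by_cases h0 : X = 0
  · rw [h0, e0.1 h0]
  by_cases h1 : X = 6 * h + 1
  · rw [h1, e1.1 h1]
  have g0 : Y ≠ 0 := fun hy => h0 (e0.2 hy)
  have g1 : Y ≠ 6 * h + 1 := fun hy => h1 (e1.2 hy)
  obtain ⟨a1, a2, a3, a4, a5, _⟩ := (J01.mark_step h X hh hX.X0 hX.X1).2.2.1 h0 h1
  obtain ⟨b1, b2, b3, b4, b5, _⟩ := (J01.mark_step h Y hh hY.X0 hY.X1).2.2.1 g0 g1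
  have e2 : phase h X = phase h Y :=
    (hX.hph 0 0 le_rfl (by omega) le_rfl (by omega)).symm.trans
      (hY.hph 0 0 le_rfl (by omega) le_rfl (by omega))
  have e3 : mark h X = mark h Y := by
    have k1 := hX.hi 0 (mark h X - 1) le_rfl (by omega) (by omega) (by omega)
    have k2 := hY.hi 0 (mark h X - 1) le_rfl (by omega) (by omega) (by omega)
    have k3 := k2.1 (k1.2 (by ring))
    linarith
  rw [a5, b5, e2, e3]

/- TARGET. Proof in words:
Let X0 be the coordinate of the block (0,0) (J12), ox=X0. By J13, for all A,B: BlkX A B X implies BlkX (A+1) B ((X+1)%(6h+2)) for 0<=X<=6h+1. Going down: if BlkX (A+1) B X and Y is the coordinate of (A,B) (J12), then (Y+1)%(6h+2)=X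
by uniqueness (a block satisfies BlkX for only one number: compare hfa, hla, and for non extreme ones hi and hph with X=phase*h+mark, J01), so Y=(X-1)%(6h+2). By J14, the coordinate of (A,B+1) is that of (A,B), hence (uniqueness and J12)
also downwards. So by Int.induction_on twice, the coordinate of (A,B) is (A+X0)%(6h+2). (All numbers X with BlkX satisfy 0<=X<=6h+1.)
-/
theorem blkx_offset (h oi oj : ℤ) (hh : 3 ≤ h) (V H : ℤ → ℤ → Lab) (c : ℤ → ℤ → K3)
    (S : Sk2 h oi oj V H c) :
    ∃ ox, ∀ A B, BlkX h oi oj V H A B ((A + ox) % (6 * h + 1 + 1)) := by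
  choose f hf using fun A B => J12.blkx_exists h oi oj hh V H c S A B
  have hup : ∀ A B, f A (B + 1) = f A B := fun A B =>
    uniq h oi oj hh V H (hf A (B + 1)) (J14.blkx_up h oi oj hh V H c S A B _ (hf A B))
  have hst : ∀ A B, f (A + 1) B = if f A B = 6 * h + 1 then 0 else f A B + 1 := fun A B =>
    uniq h oi oj hh V H (hf (A + 1) B) (J13.blkx_step h oi oj hh V H c S A B _ (hf A B))
  have hB : ∀ A B, f A B = f A 0 := by
    intro A B
    induction B using Int.induction_on with
    | zero => rfl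
    | succ i ih => rw [hup, ih]
    | pred i ih =>
      have := hup A (-(i : ℤ) - 1)
      rw [sub_add_cancel] at this
      rw [← this, ih]
  have hdv : ∀ A, (6 * h + 1 + 1) ∣ (A + f 0 0 - f A 0) := by
    intro A
    induction A using Int.induction_on with
    | zero => simp
    | succ i ih =>
      have := hst (i : ℤ) 0
      obtain ⟨k, hk⟩ := ih
      split_ifs at this with hc
      · refine ⟨k + 1, ?_⟩
        rw [this]
        linear_combination hk + hc
      · refine ⟨k, ?_⟩
        rw [this]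
        linear_combination hk
    | pred i ih =>
      have := hst (-(i : ℤ) - 1) 0
      rw [sub_add_cancel] at this
      obtain ⟨k, hk⟩ := ih
      split_ifs at this with hc
      · refine ⟨k - 1, ?_⟩
        linear_combination hk + this - hc
      · refine ⟨k, ?_⟩
        linear_combination hk + this
  refine ⟨f 0 0, fun A B => ?_⟩
  have h1 : (A + f 0 0) % (6 * h + 1 + 1) = f A B := by
    obtain ⟨k, hk⟩ := hdv A
    have h2 : A + f 0 0 = f A 0 + (6 * h + 1 + 1) * k := by linear_combination hk
    have h3 := (hf A 0).X0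
    have h4 := (hf A 0).X1
    rw [h2, Int.add_mul_emod_self_left, Int.emod_eq_of_lt h3 (by omega), hB A B]
  rw [h1]
  exact hf A B

end J15
end Helper536
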