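import Mathlib
import Pool.Agent.helper536_SFT.Defs
import Pool.Agent.helper536_SFT.J01
import Pool.Agent.helper536_SFT.J15

namespace Helper536
namespace J16


theorem dmod (h o A α : ℤ) (h0 : 0 ≤ α) (h1 : α ≤ h) :
    (A * (h + 1) + α - o + o) % (h + 1) = α := by
  rw [sub_add_cancel, add_comm, Int.add_mul_emod_self_right]
  exact Int.emod_eq_of_lt h0 (by omega)

theorem nxt_ty (X : ℤ) (hX : 1 ≤ X) : nxt (ty X) = ty (X + 1) := by
  unfold nxt ty
  split_ifs <;> omega

theorem emod_step (N A : ℤ) (hN : 0 < N) :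
    (A % N = N - 1 → (A + 1) % N = 0) ∧ (A % N ≠ N - 1 → (A + 1) % N = A % N + 1) := by
  have h1 := Int.emod_add_mul_ediv A N
  have h2 := Int.emod_nonneg A hN.ne'
  have h3 := Int.emod_lt_of_pos A hN
  constructor
  · intro h
    have : A + 1 = 0 + N * (A / N + 1) := by rw [h] at h1; linarith
    rw [this, Int.add_mul_emod_self_left]
    simp
  · intro h
    have : A + 1 = (A % N + 1) + N * (A / N) := by linarith
    rw [this, Int.add_mul_emod_self_left]
    apply Int.emod_eq_of_lt (by omega)
    omega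

/- TARGET. Proof in words:
X := (A+ox)%(6h+2). Digits at (α,β) of the block (A,B) are α, β. Second claim: at (h,β), β<h, S.c1 gives c=hi, so S.hrV says V(h,β+1)=V(h,β). Kap: along a row (β<h) kap is constant (NodeRule from S.hrH at α,β<h, field kap). Between blocks:
at (h,β) of (A,B), β<h: EndRule (S.hrH, c.swap=lo) b=H(h,β), a=H(0,β) of (A+1,B), l=V(h,β) of (A,B). If X=6h+1 (b.la by hx.hla) the next block has coordinate 0 and a.kap=1 (kap'). If X != 6h+1: next coordinate is X+1, a.kap=l.ty, l.ty=1 if X=0 (b.fa), else nxt b.kap.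
nxt(ty X)=ty(X+1) for X>=1. So by induction on the value of X (0<=X<=6h+1): kap of all rows of all blocks with coordinate X is as claimed (X=0: previous block has coordinate 6h+1; X+1: previous block has coordinate X != 6h+1), and l.ty=ty(X+1).
first/last: fields lfirst, llast: l.first iff b.fc, l.last iff b.lc; and b.fc iff (B+oy)%(6h+2)=0, b.lc iff ...=6h+1 by hy (vfc, vlc for the exchanged skeleton; blk h oj oi (fun a b => H b a) B A β α is blk h oi oj H A B α β by unfolding).
-/
theorem blk_kap (h oi oj : ℤ) (hh : 3 ≤ h) (V H : ℤ → ℤ → Lab) (c : ℤ → ℤ → K3)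
    (S : Sk2 h oi oj V H c) (ox oy : ℤ)
    (hx : ∀ A B, BlkX h oi oj V H A B ((A + ox) % (6 * h + 1 + 1)))
    (hy : ∀ A B, BlkX h oj oi (fun a b => H b a) (fun a b => V b a) B A
      ((B + oy) % (6 * h + 1 + 1))) :
    (∀ A B α β, 0 ≤ α → α ≤ h → 0 ≤ β → β < h → (blk h oi oj H A B α β).kap =
      if (A + ox) % (6 * h + 1 + 1) = 0 then 1 else ty ((A + ox) % (6 * h + 1 + 1))) ∧
    (∀ A B β, 0 ≤ β → β ≤ h → blk h oi oj V A B h β = blk h oi oj V A B h h) ∧
    (∀ A B, (A + ox) % (6 * h + 1 + 1) ≠ 6 * h + 1 →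
      (blk h oi oj V A B h h).ty = ty ((A + ox) % (6 * h + 1 + 1) + 1) ∧
      ((blk h oi oj V A B h h).first ↔ (B + oy) % (6 * h + 1 + 1) = 0) ∧
      ((blk h oi oj V A B h h).last ↔ (B + oy) % (6 * h + 1 + 1) = 6 * h + 1)) := by
  have hN : (0 : ℤ) < 6 * h + 1 + 1 := by omega
  -- rules at the sites of a block
  have siteA : ∀ A α, 0 ≤ α → α ≤ h → (A * (h + 1) + α - oi + oi) % (h + 1) = α :=
    fun A α h0 h1 => dmod h oi A α h0 h1
  have siteB : ∀ B β, 0 ≤ β → β ≤ h → (B * (h + 1) + β - oj + oj) % (h + 1) = β :=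
    fun B β h0 h1 => dmod h oj B β h0 h1
  have chi : ∀ A B β, 0 ≤ β → β < h →
      c (A * (h + 1) + h - oi) (B * (h + 1) + β - oj) = K3.hi := by
    intro A B β h0 h1
    apply S.c1
    · exact siteA A h (by omega) le_rfl
    · rw [siteB B β h0 h1.le]; omega
  -- second claim
  have v1 : ∀ A B β, 0 ≤ β → β < h →
      blk h oi oj V A B h (β + 1) = blk h oi oj V A B h β := by
    intro A B β h0 h1
    have e := S.hrV (A * (h + 1) + h - oi) (B * (h + 1) + β - oj)
    rw [chi A B β h0 h1] at e
    have e2 : V (A * (h + 1) + h - oi) (B * (h + 1) + β - oj + 1) =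
      V (A * (h + 1) + h - oi) (B * (h + 1) + β - oj) := e
    unfold blk
    rw [← e2]
    congr 1
    ring
  have v2 : ∀ A B β, 0 ≤ β → β ≤ h → blk h oi oj V A B h β = blk h oi oj V A B h 0 := by
    intro A B β h0
    refine Int.le_induction (m := 0)
      (motive := fun β _ => β ≤ h → blk h oi oj V A B h β = blk h oi oj V A B h 0) ?_ ?_ β h0
    · intro _; rfl
    · intro n hn ih hn1
      rw [v1 A B n hn (by omega), ih (by omega)]
  -- end rule
  have er : ∀ A B β, 0 ≤ β → β < h → EndRule (blk h oi oj H A B h β)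
      (blk h oi oj H (A + 1) B 0 β) (blk h oi oj V A B h β) := by
    intro A B β h0 h1
    have e := S.hrH (A * (h + 1) + h - oi) (B * (h + 1) + β - oj)
    rw [chi A B β h0 h1] at e
    have e2 : EndRule (H (A * (h + 1) + h - oi) (B * (h + 1) + β - oj))
      (H (A * (h + 1) + h - oi + 1) (B * (h + 1) + β - oj))
      (V (A * (h + 1) + h - oi) (B * (h + 1) + β - oj)) := e
    unfold blk
    have e3 : (A + 1) * (h + 1) + 0 - oi = A * (h + 1) + h - oi + 1 := by ring
    rw [e3]
    exact e2
  -- the kap is constant in a row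
  have kc1 : ∀ A B α β, 0 ≤ α → α < h → 0 ≤ β → β < h →
      (blk h oi oj H A B (α + 1) β).kap = (blk h oi oj H A B α β).kap := by
    intro A B α β h0 h1 h2 h3
    have e := S.hrH (A * (h + 1) + α - oi) (B * (h + 1) + β - oj)
    have ec : c (A * (h + 1) + α - oi) (B * (h + 1) + β - oj) = K3.same := by
      apply S.c0
      · rw [siteA A α h0 h1.le]; omega
      · rw [siteB B β h2 h3.le]; omega
    rw [ec] at e
    have e2 : NodeRule (H (A * (h + 1) + α - oi) (B * (h + 1) + β - oj))
      (H (A * (h + 1) + α - oi + 1) (B * (h + 1) + β - oj))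
      (V (A * (h + 1) + α - oi) (B * (h + 1) + β - oj)) := e
    unfold blk
    have e3 : A * (h + 1) + (α + 1) - oi = A * (h + 1) + α - oi + 1 := by ring
    rw [e3]
    exact e2.kap
  have kc : ∀ A B α β, 0 ≤ α → α ≤ h → 0 ≤ β → β < h →
      (blk h oi oj H A B α β).kap = (blk h oi oj H A B 0 β).kap := by
    intro A B α β h0 h1 h2 h3
    revert h1
    refine Int.le_induction (m := 0)
      (motive := fun α _ => α ≤ h →
        (blk h oi oj H A B α β).kap = (blk h oi oj H A B 0 β).kap) ?_ ?_ α h0
    · intro _; rfl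
    · intro n hn ih hn1
      rw [kc1 A B n β hn (by omega) h2 h3, ih (by omega)]
  -- induction on the coordinate
  have main : ∀ n : ℕ, (n : ℤ) ≤ 6 * h + 1 → ∀ A B β, (A + ox) % (6 * h + 1 + 1) = n → 0 ≤ β →
      β < h → (blk h oi oj H A B 0 β).kap = if (n : ℤ) = 0 then 1 else ty n := by
    intro n
    induction n with
    | zero =>
      intro _ A B β hA h0 h1
      have hprev : (A - 1 + ox) % (6 * h + 1 + 1) = 6 * h + 1 := by
        by_contra hne
        have := (emod_step (6 * h + 1 + 1) (A - 1 + ox) hN).2 (by omega)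
        have e : A - 1 + ox + 1 = A + ox := by ring
        rw [e, hA] at this
        have := Int.emod_nonneg (A - 1 + ox) hN.ne'
        push_cast at *
        omega
      have hb := hx (A - 1) B
      rw [hprev] at hb
      have hla : (blk h oi oj H (A - 1) B h β).la := (hb.hla h β (by omega) le_rfl h0 h1).mpr rfl
      have hE := er (A - 1) B β h0 h1
      have e : A - 1 + 1 = A := by ring
      rw [e] at hE
      rw [hE.kap' hla]
      simp
    | succ n ih =>
      intro hn A B β hA h0 h1
      push_cast at hn hA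
      have hprev : (A - 1 + ox) % (6 * h + 1 + 1) = n := by
        have h5 := emod_step (6 * h + 1 + 1) (A - 1 + ox) hN
        have e : A - 1 + ox + 1 = A + ox := by ring
        rw [e, hA] at h5
        by_cases hc : (A - 1 + ox) % (6 * h + 1 + 1) = 6 * h + 1
        · have := h5.1 (by omega)
          omega
        · have := h5.2 (by omega)
          omega
      have hb := hx (A - 1) B
      rw [hprev] at hb
      have hla : ¬ (blk h oi oj H (A - 1) B h β).la := by
        intro hcon
        have := (hb.hla h β (by omega) le_rfl h0 h1).mp hcon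
        omega
      have hE := er (A - 1) B β h0 h1
      have e : A - 1 + 1 = A := by ring
      rw [e] at hE
      rw [hE.kap hla]
      have hk : (blk h oi oj H (A - 1) B h β).kap = if (n : ℤ) = 0 then 1 else ty n := by
        rw [kc (A - 1) B h β (by omega) le_rfl h0 h1]
        exact ih (by omega) (A - 1) B β hprev h0 h1
      have hfa := hb.hfa h β (by omega) le_rfl h0 h1
      push_cast
      rw [if_neg (by omega)]
      by_cases hn0 : (n : ℤ) = 0
      · rw [hE.lty1 hla (hfa.mpr hn0), hn0]
        simp [ty]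
      · rw [hE.lty2 hla (fun hcon => hn0 (hfa.mp hcon)), hk, if_neg hn0]
        exact nxt_ty n (by omega)
  have kap0 : ∀ A B β, 0 ≤ β → β < h → (blk h oi oj H A B 0 β).kap =
      if (A + ox) % (6 * h + 1 + 1) = 0 then 1 else ty ((A + ox) % (6 * h + 1 + 1)) := by
    intro A B β h0 h1
    have h2 := Int.emod_nonneg (A + ox) hN.ne'
    have h3 := Int.emod_lt_of_pos (A + ox) hN
    obtain ⟨n, hn⟩ := Int.eq_ofNat_of_zero_le h2
    rw [hn]
    exact main n (by omega) A B β hn h0 h1
  refine ⟨?_, ?_, ?_⟩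
  · intro A B α β h0 h1 h2 h3
    rw [kc A B α β h0 h1 h2 h3]
    exact kap0 A B β h2 h3
  · intro A B β h0 h1
    rw [v2 A B β h0 h1, v2 A B h (by omega) le_rfl]
  · intro A B hX
    have hb := hx A B
    have hE := er A B 0 le_rfl (by omega)
    have hla : ¬ (blk h oi oj H A B h 0).la := by
      intro hcon
      exact hX ((hb.hla h 0 (by omega) le_rfl le_rfl (by omega)).mp hcon)
    have hfa := hb.hfa h 0 (by omega) le_rfl le_rfl (by omega)
    have h2 := Int.emod_nonneg (A + ox) hN.ne'
    rw [v2 A B h (by omega) le_rfl]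
    have hyy := hy A B
    have hfc := hyy.vfc 0 h le_rfl (by omega) (by omega) le_rfl
    have hlc := hyy.vlc 0 h le_rfl (by omega) (by omega) le_rfl
    have hsw : blk h oj oi (fun a b => H b a) B A 0 h = blk h oi oj H A B h 0 := rfl
    rw [hsw] at hfc hlc
    refine ⟨?_, ?_, ?_⟩
    · have hk : (blk h oi oj H A B h 0).kap =
          if (A + ox) % (6 * h + 1 + 1) = 0 then 1 else ty ((A + ox) % (6 * h + 1 + 1)) := by
        rw [kc A B h 0 (by omega) le_rfl le_rfl (by omega)]
        exact kap0 A B 0 le_rfl (by omega)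
      by_cases hn0 : (A + ox) % (6 * h + 1 + 1) = 0
      · rw [hE.lty1 hla (hfa.mpr hn0), hn0]
        simp [ty]
      · rw [hE.lty2 hla (fun hcon => hn0 (hfa.mp hcon)), hk, if_neg hn0]
        exact nxt_ty _ (by omega)
    · rw [hE.lfirst hla]
      exact hfc
    · rw [hE.llast hla]
      exact hlc

end J16
end Helper536
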