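import Mathlib
import Pool.Agent.helper536_SFT.Defs
import Pool.Agent.helper536_SFT.J01
import Pool.Agent.helper536_SFT.J10
import Pool.Agent.helper536_SFT.J11
import Pool.Agent.helper536_SFT.J15
import Pool.Agent.helper536_SFT.J16

namespace Helper536
namespace J17

theorem hss (k : K3) : k.swap.swap = k := by cases k <;> rfl

theorem dg (h o A α : ℤ) (hh : 3 ≤ h) (h0 : 0 ≤ α) (h1 : α ≤ h) :
    (A * (h + 1) + α - o + o) % (h + 1) = α := by
  have e : A * (h + 1) + α - o + o = α + (h + 1) * A := by ring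
  rw [e, Int.add_mul_emod_self_left]
  exact Int.emod_eq_of_lt h0 (by omega)

theorem site (h o a : ℤ) : a = ((a + o) / (h + 1)) * (h + 1) + (a + o) % (h + 1) - o := by
  have h1 := Int.emod_add_mul_ediv (a + o) (h + 1)
  linarith

section
variable {h oi oj : ℤ} {V H : ℤ → ℤ → Lab} {c : ℤ → ℤ → K3}

theorem nodeV (hh : 3 ≤ h) (S : Sk2 h oi oj V H c) (A B α β : ℤ) (h0 : 0 ≤ α) (h1 : α < h)
    (h2 : 0 ≤ β) (h3 : β < h) :
    NodeRule (blk h oi oj V A B α β) (blk h oi oj V A B α (β + 1)) (blk h oi oj H A B α β) := by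
  have k := S.hrV (A * (h + 1) + α - oi) (B * (h + 1) + β - oj)
  have kc : c (A * (h + 1) + α - oi) (B * (h + 1) + β - oj) = K3.same := by
    apply S.c0
    · rw [dg h oi A α hh h0 (by omega)]; omega
    · rw [dg h oj B β hh h2 (by omega)]; omega
  rw [kc, show B * (h + 1) + β - oj + 1 = B * (h + 1) + (β + 1) - oj by ring] at k
  exact k

theorem nodeH (hh : 3 ≤ h) (S : Sk2 h oi oj V H c) (A B α β : ℤ) (h0 : 0 ≤ α) (h1 : α < h)
    (h2 : 0 ≤ β) (h3 : β < h) :
    NodeRule (blk h oi oj H A B α β) (blk h oi oj H A B (α + 1) β) (blk h oi oj V A B α β) := by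
  have k := S.hrH (A * (h + 1) + α - oi) (B * (h + 1) + β - oj)
  have kc : c (A * (h + 1) + α - oi) (B * (h + 1) + β - oj) = K3.same := by
    apply S.c0
    · rw [dg h oi A α hh h0 (by omega)]; omega
    · rw [dg h oj B β hh h2 (by omega)]; omega
  have e0 : K3.same.swap = K3.same := rfl
  rw [kc, e0, show A * (h + 1) + α - oi + 1 = A * (h + 1) + (α + 1) - oi by ring] at k
  exact k

theorem K_const1 (hh : 3 ≤ h) (S : Sk2 h oi oj V H c) (A B α : ℤ) (h0 : 0 ≤ α) (h1 : α < h)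
    (n : ℕ) (hn : (n : ℤ) ≤ h) :
    (blk h oi oj V A B α n).K = (blk h oi oj V A B α 0).K := by
  induction n with
  | zero => rfl
  | succ n ih =>
    push_cast at hn ⊢
    have k := nodeV hh S A B α n h0 h1 (by omega) (by omega)
    rw [k.K]
    exact ih (by omega)

theorem K_const2 (hh : 3 ≤ h) (S : Sk2 h oi oj V H c) (A B : ℤ) (n : ℕ) (hn : (n : ℤ) < h) :
    (blk h oi oj V A B n 0).K = (blk h oi oj V A B 0 0).K := by
  induction n with
  | zero => rfl
  | succ n ih =>
    push_cast at hn ⊢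
    have k1 := nodeV hh S A B (n + 1) 0 (by omega) (by omega) (by omega) (by omega)
    have k2 := nodeH hh S A B n 0 (by omega) (by omega) (by omega) (by omega)
    have k3 := nodeV hh S A B n 0 (by omega) (by omega) (by omega) (by omega)
    rw [k1.xK, k2.K, ← k3.xK]
    exact ih (by omega)

theorem K_const (hh : 3 ≤ h) (S : Sk2 h oi oj V H c) (A B α β : ℤ) (h0 : 0 ≤ α) (h1 : α < h)
    (h2 : 0 ≤ β) (h3 : β ≤ h) : (blk h oi oj V A B α β).K = (blk h oi oj V A B 0 0).K := by
  obtain ⟨n, rfl⟩ := Int.eq_ofNat_of_zero_le h0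
  obtain ⟨m, rfl⟩ := Int.eq_ofNat_of_zero_le h2
  rw [K_const1 hh S A B n h0 h1 m h3, K_const2 hh S A B n h1]

theorem c_corner (hh : 3 ≤ h) (S : Sk2 h oi oj V H c) (A B : ℤ) :
    c (cs h oi A) (cs h oj B) = (blk h oi oj V A B (h - 1) h).K := by
  have k := S.c3 (A * (h + 1) + (h - 1) - oi) (B * (h + 1) + h - oj)
    (dg h oi A (h - 1) hh (by omega) (by omega)) (dg h oj B h hh (by omega) (by omega))
  rw [show A * (h + 1) + (h - 1) - oi + 1 = cs h oi A by unfold cs; ring] at k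
  exact k

theorem formV (hh : 3 ≤ h) (S : Sk2 h oi oj V H c) (A B X Y : ℤ)
    (hX : BlkX h oi oj V H A B X)
    (hY : BlkX h oj oi (fun a b => H b a) (fun a b => V b a) B A Y)
    (hk : ∀ α β, 0 ≤ α → α < h → 0 ≤ β → β ≤ h → (blk h oi oj V A B α β).kap =
      if Y = 0 then 1 else ty Y) (α β : ℤ) (h0 : 0 ≤ α) (h1 : α < h) (h2 : 0 ≤ β) (h3 : β ≤ h) :
    blk h oi oj V A B α β = lineLab h (α + 1) β X Y (c (cs h oi A) (cs h oj B)) := by
  have hda := dg h oi A α hh h0 (by omega)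
  have hdb := dg h oj B β hh h2 h3
  have hne : (A * (h + 1) + α - oi + oi) % (h + 1) ≠ h := by rw [hda]; omega
  have t1 := S.tyV (A * (h + 1) + α - oi) (B * (h + 1) + β - oj) hne
  have t2 := S.firstV (A * (h + 1) + α - oi) (B * (h + 1) + β - oj) hne
  have t3 := S.lastV (A * (h + 1) + α - oi) (B * (h + 1) + β - oj) hne
  rw [hda] at t1
  rw [hdb] at t2 t3
  apply Lab.ext
  · exact t1
  · exact propext (hY.hi β α h2 h3 h0 h1)
  · exact propext (hY.ho β α h2 h3 h0 h1)
  · exact propext t2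
  · exact propext t3
  · exact propext (hY.hfa β α h2 h3 h0 h1)
  · exact propext (hY.hla β α h2 h3 h0 h1)
  · exact propext (hX.vfc α β h0 h1 h2 h3)
  · exact propext (hX.vlc α β h0 h1 h2 h3)
  · show (blk h oi oj V A B α β).K = c (cs h oi A) (cs h oj B)
    rw [c_corner hh S A B, K_const hh S A B α β h0 h1 h2 h3,
      K_const hh S A B (h - 1) h (by omega) (by omega) (by omega) (by omega)]
  · exact hX.vst α β h0 h1 h2 h3
  · exact hX.vg α β h0 h1 h2 h3
  · exact hY.hG β α h2 h3 h0 h1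
  · exact hY.hph β α h2 h3 h0 h1
  · exact hX.vphc α β h0 h1 h2 h3
  · exact hk α β h0 h1 h2 h3

end

theorem sk2_coarse (h oi oj : ℤ) (hh : 3 ≤ h) (V H : ℤ → ℤ → Lab) (c : ℤ → ℤ → K3)
    (S : Sk2 h oi oj V H c) : ∃ ox oy : ℤ,
    Sk2 (6 * h + 1) ox oy (fun A B => V (cs h oi A) (cs h oj B))
      (fun A B => H (cs h oi A) (cs h oj B)) (fun A B => c (cs h oi A) (cs h oj B)) ∧
    (∀ a b, (a + oi) % (h + 1) ≠ h → V a b =
      lineLab h ((a + oi) % (h + 1) + 1) ((b + oj) % (h + 1))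
        (((a + oi) / (h + 1) + ox) % (6 * h + 1 + 1)) (((b + oj) / (h + 1) + oy) % (6 * h + 1 + 1))
        (c (cs h oi ((a + oi) / (h + 1))) (cs h oj ((b + oj) / (h + 1))))) ∧
    (∀ a b, (a + oi) % (h + 1) = h →
      V a b = V (cs h oi ((a + oi) / (h + 1))) (cs h oj ((b + oj) / (h + 1)))) ∧
    (∀ a b, (b + oj) % (h + 1) ≠ h → H a b =
      lineLab h ((b + oj) % (h + 1) + 1) ((a + oi) % (h + 1))
        (((b + oj) / (h + 1) + oy) % (6 * h + 1 + 1)) (((a + oi) / (h + 1) + ox) % (6 * h + 1 + 1))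
        (c (cs h oi ((a + oi) / (h + 1))) (cs h oj ((b + oj) / (h + 1)))).swap) ∧
    (∀ a b, (b + oj) % (h + 1) = h →
      H a b = H (cs h oi ((a + oi) / (h + 1))) (cs h oj ((b + oj) / (h + 1)))) := by
  have S' := J10.sk2_symm h oi oj hh V H c S
  obtain ⟨ox, hx⟩ := J15.blkx_offset h oi oj hh V H c S
  obtain ⟨oy, hy'⟩ := J15.blkx_offset h oj oi hh _ _ _ S'
  have hy : ∀ A B, BlkX h oj oi (fun a b => H b a) (fun a b => V b a) B A
      ((B + oy) % (6 * h + 1 + 1)) := fun A B => hy' B A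
  have hx' : ∀ A B, BlkX h oi oj (fun a b => (fun a b => V b a) b a)
      (fun a b => (fun a b => H b a) b a) B A ((B + ox) % (6 * h + 1 + 1)) := fun A B => hx B A
  obtain ⟨a1, a2, a3⟩ := J16.blk_kap h oi oj hh V H c S ox oy hx hy
  obtain ⟨b1, b2, b3⟩ := J16.blk_kap h oj oi hh _ _ _ S' oy ox hy' hx'
  have hm0 : ∀ x : ℤ, 0 ≤ (x + oi) % (h + 1) := fun x => Int.emod_nonneg _ (by omega)
  have hm1 : ∀ x : ℤ, (x + oi) % (h + 1) ≤ h := fun x => by
    have := Int.emod_lt_of_pos (x + oi) (show 0 < h + 1 by omega); omega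
  have hn0 : ∀ x : ℤ, 0 ≤ (x + oj) % (h + 1) := fun x => Int.emod_nonneg _ (by omega)
  have hn1 : ∀ x : ℤ, (x + oj) % (h + 1) ≤ h := fun x => by
    have := Int.emod_lt_of_pos (x + oj) (show 0 < h + 1 by omega); omega
  have e0 : K3.same.swap = K3.same := rfl
  have e1 : K3.hi.swap = K3.lo := rfl
  -- the formula at the corner
  have hwf : ∀ A B, Wf (blk h oi oj V A B (h - 1) h) := fun A B => S.wfV _ _
  have hla : ∀ A B, (blk h oi oj V A B (h - 1) h).la ↔ (B + oy) % (6 * h + 1 + 1) = 6 * h + 1 :=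
    fun A B => (hy A B).hla h (h - 1) (by omega) (by omega) (by omega) (by omega)
  have hlc : ∀ A B, (blk h oi oj V A B (h - 1) h).lc ↔ (A + ox) % (6 * h + 1 + 1) = 6 * h + 1 :=
    fun A B => (hx A B).vlc (h - 1) h (by omega) (by omega) (by omega) (by omega)
  refine ⟨ox, oy, ?_, ?_, ?_, ?_, ?_⟩
  · refine ⟨fun A B => S.wfV _ _, fun A B => S.wfH _ _, fun A B => ?_, fun A B => ?_,
      fun A B h1 => (a3 A B h1).1, fun A B h1 => (a3 A B h1).2.1, fun A B h1 => (a3 A B h1).2.2,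
      fun A B h1 => (b3 B A h1).1, fun A B h1 => (b3 B A h1).2.1, fun A B h1 => (b3 B A h1).2.2,
      fun A B h1 h2 => ?_, fun A B h1 h2 => ?_, fun A B h1 h2 => ?_, fun A B h1 h2 => ?_⟩
    · have k := S.hrV (cs h oi A) (cs h oj B)
      have k2 : V (cs h oi A) (cs h oj B + 1) = V (cs h oi A) (cs h oj (B + 1)) := by
        have k3 := a2 A (B + 1) 0 (by omega) (by omega)
        have k4 : cs h oj B + 1 = (B + 1) * (h + 1) + 0 - oj := by unfold cs; ring
        rw [k4]
        exact k3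
      rw [k2] at k
      exact k
    · have k := S.hrH (cs h oi A) (cs h oj B)
      have k2 : H (cs h oi A + 1) (cs h oj B) = H (cs h oi (A + 1)) (cs h oj B) := by
        have k3 := b2 B (A + 1) 0 (by omega) (by omega)
        have k4 : cs h oi A + 1 = (A + 1) * (h + 1) + 0 - oi := by unfold cs; ring
        rw [k4]
        exact k3
      rw [k2] at k
      exact k
    · show c (cs h oi A) (cs h oj B) = K3.same
      rw [c_corner hh S A B]
      exact (hwf A B).K0 (fun h3 => h2 ((hla A B).1 h3)) (fun h3 => h1 ((hlc A B).1 h3))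
    · show c (cs h oi A) (cs h oj B) = K3.hi
      rw [c_corner hh S A B]
      exact (hwf A B).K2 (fun h3 => h2 ((hla A B).1 h3)) ((hlc A B).2 h1)
    · show c (cs h oi A) (cs h oj B) = K3.lo
      rw [c_corner hh S A B]
      exact (hwf A B).K1 ((hla A B).2 h2) (fun h3 => h1 ((hlc A B).1 h3))
    · show c (cs h oi (A + 1)) (cs h oj B) = (V (cs h oi A) (cs h oj B)).K
      have hX : (A + 1 + ox) % (6 * h + 1 + 1) = 6 * h + 1 := by
        have h3 := Int.emod_add_mul_ediv (A + ox) (6 * h + 1 + 1)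
        rw [h1] at h3
        have h4 : A + 1 + ox = (6 * h + 1) + (6 * h + 1 + 1) * ((A + ox) / (6 * h + 1 + 1)) := by
          linarith
        rw [h4, Int.add_mul_emod_self_left]
        exact Int.emod_eq_of_lt (by omega) (by omega)
      have k1 := S.hrH (A * (h + 1) + h - oi) (B * (h + 1) + 0 - oj)
      have k2 : c (A * (h + 1) + h - oi) (B * (h + 1) + 0 - oj) = K3.hi := by
        apply S.c1
        · exact dg h oi A h hh (by omega) (by omega)
        · rw [dg h oj B 0 hh (by omega) (by omega)]; omega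
      rw [k2, e1, show A * (h + 1) + h - oi + 1 = (A + 1) * (h + 1) + 0 - oi by ring] at k1
      have k3 : EndRule (blk h oi oj H A B h 0) (blk h oi oj H (A + 1) B 0 0)
        (blk h oi oj V A B h 0) := k1
      have k4 : (blk h oi oj H (A + 1) B 0 0).la :=
        ((hx (A + 1) B).hla 0 0 (by omega) (by omega) (by omega) (by omega)).2 hX
      have k5 : (blk h oi oj H (A + 1) B 0 0).lc :=
        ((hy (A + 1) B).vlc 0 0 (by omega) (by omega) (by omega) (by omega)).2 h2
      have k6 := k3.K k4 k5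
      rw [a2 A B 0 (by omega) (by omega)] at k6
      have k7 := nodeV hh S (A + 1) B 0 0 (by omega) (by omega) (by omega) (by omega)
      rw [c_corner hh S (A + 1) B, K_const hh S (A + 1) B (h - 1) h (by omega) (by omega) (by omega)
        (by omega), k7.xK, k6, hss]
      rfl
  · intro a b hab
    have h1 := formV hh S ((a + oi) / (h + 1)) ((b + oj) / (h + 1)) _ _
      (hx _ _) (hy _ _) (fun α β i0 i1 i2 i3 => b1 _ _ β α i2 i3 i0 i1)
      ((a + oi) % (h + 1)) ((b + oj) % (h + 1)) (hm0 a) (lt_of_le_of_ne (hm1 a) hab) (hn0 b) (hn1 b)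
    unfold blk at h1
    rw [← site h oi a, ← site h oj b] at h1
    exact h1
  · intro a b hab
    have h1 := a2 ((a + oi) / (h + 1)) ((b + oj) / (h + 1)) ((b + oj) % (h + 1)) (hn0 b) (hn1 b)
    unfold blk at h1
    rw [← site h oj b] at h1
    have h2 := site h oi a
    rw [hab] at h2
    rw [← h2] at h1
    rw [h1]
    have h3 : cs h oi ((a + oi) / (h + 1)) = a := h2.symm
    rw [h3]
    rfl
  · intro a b hab
    have h1 := formV hh S' ((b + oj) / (h + 1)) ((a + oi) / (h + 1)) _ _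
      (hy' _ _) (hx' _ _) (fun α β i0 i1 i2 i3 => a1 _ _ β α i2 i3 i0 i1)
      ((b + oj) % (h + 1)) ((a + oi) % (h + 1)) (hn0 b) (lt_of_le_of_ne (hn1 b) hab) (hm0 a) (hm1 a)
    unfold blk at h1
    rw [← site h oi a, ← site h oj b] at h1
    exact h1
  · intro a b hab
    have h1 := b2 ((b + oj) / (h + 1)) ((a + oi) / (h + 1)) ((a + oi) % (h + 1)) (hm0 a) (hm1 a)
    unfold blk at h1
    rw [← site h oi a] at h1
    have h2 := site h oj b
    rw [hab] at h2
    rw [← h2] at h1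
    have h3 : cs h oj ((b + oj) / (h + 1)) = b := h2.symm
    rw [h3]
    exact h1

end J17
end Helper536
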