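import Mathlib
import Pool.Agent.helper536_SFT.Defs

namespace Helper536
namespace J19

/- TARGET. Proof in words:
Unfold; Int.emod_nonneg, Int.emod_lt_of_pos, Int.mul_ediv_add_emod, Int.add_mul_ediv_right, Int.add_mul_emod_self_right. For up s m: coordinate m grows by one; write s m + o m = q*(h+1)+d, d<=h: if d<h
the quotient is kept and the remainder is d+1, if d=h the quotient is q+1 and the remainder 0.
-/
theorem sit_facts {n : ℕ} (h : ℤ) (hh : 3 ≤ h) (o : Pos n) :
    (∀ s i, 0 ≤ dgt h o s i ∧ dgt h o s i ≤ h) ∧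
    (∀ s, sit h o (par h o s) (dgt h o s) = s) ∧
    (∀ P D, (∀ i, 0 ≤ D i ∧ D i ≤ h) → par h o (sit h o P D) = P ∧ dgt h o (sit h o P D) = D) ∧
    (∀ P, corner h o P = sit h o P (fun _ => h)) ∧
    (∀ s m, dgt h o s m ≠ h → par h o (up s m) = par h o s ∧
      dgt h o (up s m) = Function.update (dgt h o s) m (dgt h o s m + 1)) ∧
    (∀ s m, dgt h o s m = h → par h o (up s m) = up (par h o s) m ∧
      dgt h o (up s m) = Function.update (dgt h o s) m 0) ∧
    (∀ (s : Pos n) (m : Fin (n + 2)), up s m m = s m + 1) ∧
    (∀ (s : Pos n) (m i : Fin (n + 2)), i ≠ m → up s m i = s i) := by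
  have hp : (0:ℤ) < h + 1 := by omega
  have hne : h + 1 ≠ 0 := by omega
  have hup1 : ∀ (s : Pos n) (m : Fin (n + 2)), up s m m = s m + 1 := by
    intro s m; simp [up]
  have hup2 : ∀ (s : Pos n) (m i : Fin (n + 2)), i ≠ m → up s m i = s i := by
    intro s m i hi; simp [up, hi]
  have key : ∀ q d : ℤ, 0 ≤ d → d ≤ h → (q * (h + 1) + d) / (h + 1) = q ∧
      (q * (h + 1) + d) % (h + 1) = d := by
    intro q d h0 h1
    have h2 : d / (h + 1) = 0 := Int.ediv_eq_zero_of_lt h0 (by omega)
    have h3 : d % (h + 1) = d := Int.emod_eq_of_lt h0 (by omega)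
    refine ⟨?_, ?_⟩
    · rw [add_comm, Int.add_mul_ediv_right _ _ hne, h2, zero_add]
    · rw [add_comm, Int.add_mul_emod_self_right, h3]
  have hd : ∀ s i, 0 ≤ dgt h o s i ∧ dgt h o s i ≤ h := by
    intro s i
    have h1 := Int.emod_nonneg (s i + o i) hne
    have h2 := Int.emod_lt_of_pos (s i + o i) hp
    unfold dgt
    omega
  have hsum : ∀ s i, s i + o i = par h o s i * (h + 1) + dgt h o s i := by
    intro s i
    have h1 := Int.mul_ediv_add_emod (s i + o i) (h + 1)
    unfold dgt par
    linarith [mul_comm (h + 1) ((s i + o i) / (h + 1))]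
  have hpd : ∀ (s : Pos n) (q d : Fin (n + 2) → ℤ), (∀ i, 0 ≤ d i ∧ d i ≤ h) →
      (∀ i, s i + o i = q i * (h + 1) + d i) → par h o s = q ∧ dgt h o s = d := by
    intro s q d hd' hs
    refine ⟨funext fun i => ?_, funext fun i => ?_⟩
    · show (s i + o i) / (h + 1) = q i
      rw [hs i]; exact (key _ _ (hd' i).1 (hd' i).2).1
    · show (s i + o i) % (h + 1) = d i
      rw [hs i]; exact (key _ _ (hd' i).1 (hd' i).2).2
  refine ⟨hd, ?_, ?_, ?_, ?_, ?_, hup1, hup2⟩
  · intro s
    funext i
    have := hsum s i
    show par h o s i * (h + 1) + dgt h o s i - o i = s i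
    linarith
  · intro P D hD
    refine hpd _ _ _ hD fun i => ?_
    show P i * (h + 1) + D i - o i + o i = _
    ring
  · intro P
    funext i
    rfl
  · intro s m hm
    refine hpd _ _ _ (fun i => ?_) fun i => ?_
    · by_cases hi : i = m
      · subst hi
        have := hd s i
        simp only [Function.update_self]
        omega
      · rw [Function.update_of_ne hi]; exact hd s i
    · by_cases hi : i = m
      · subst hi
        rw [hup1, Function.update_self]
        linarith [hsum s i]
      · rw [hup2 s m i hi, Function.update_of_ne hi]; exact hsum s i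
  · intro s m hm
    refine hpd _ _ _ (fun i => ?_) fun i => ?_
    · by_cases hi : i = m
      · subst hi
        simp only [Function.update_self]
        omega
      · rw [Function.update_of_ne hi]; exact hd s i
    · by_cases hi : i = m
      · subst hi
        rw [hup1, Function.update_self, hup1]
        have h1 := hsum s i
        rw [hm] at h1
        linarith
      · rw [hup2 s m i hi, Function.update_of_ne hi, hup2 _ m i hi]; exact hsum s i

end J19
end Helper536
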