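import Mathlib
import Pool.Agent.helper536_SFT.Defs
import Pool.Agent.helper536_SFT.J19

namespace Helper536
namespace J21

theorem up_update {n : ℕ} (s : Pos n) (a : Fin (n + 2)) (t : ℤ) :
    up (Function.update s a t) a = Function.update s a (t + 1) := by
  funext i
  by_cases hi : i = a
  · subst hi
    simp [up]
  · simp [up, hi]

theorem inv_of_steps {n : ℕ} {β : Type*} (f : Pos n → β) (S : Fin (n + 2) → Prop)
    (hf : ∀ m, ¬ S m → ∀ s, f (up s m) = f s) :
    ∀ s s' : Pos n, (∀ i, S i → s i = s' i) → f s = f s' := by
  classical
  have H : ∀ (T : Finset (Fin (n + 2))) (s s' : Pos n), (∀ i, S i → s i = s' i) →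
      (∀ i, i ∉ T → s i = s' i) → f s = f s' := by
    intro T
    induction T using Finset.induction_on with
    | empty =>
      intro s s' _ h
      have : s = s' := funext (fun i => h i (Finset.notMem_empty i))
      rw [this]
    | insert a T ha ih =>
      intro s s' h1 h2
      by_cases hS : S a
      · apply ih s s' h1
        intro i hi
        by_cases hia : i = a
        · rw [hia]; exact h1 a hS
        · apply h2
          rw [Finset.mem_insert]
          rintro (h | h)
          · exact hia h
          · exact hi h
      · have hg : ∀ t : ℤ, f (Function.update s a t) = f (Function.update s a 0) := by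
          intro t
          induction t using Int.induction_on with
          | zero => rfl
          | succ k hk =>
            rw [← up_update, hf a hS, hk]
          | pred k hk =>
            rw [← hk]
            have e : (-(k : ℤ)) = (-(k : ℤ) - 1) + 1 := by ring
            conv_rhs => rw [e]
            rw [← up_update, hf a hS]
        have e1 : f s = f (Function.update s a (s' a)) := by
          rw [hg (s' a), ← hg (s a), Function.update_eq_self]
        rw [e1]
        apply ih
        · intro i hi
          have hia : i ≠ a := by
            rintro rfl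
            exact hS hi
          rw [Function.update_of_ne hia]
          exact h1 i hi
        · intro i hi
          by_cases hia : i = a
          · subst hia
            simp
          · rw [Function.update_of_ne hia]
            apply h2
            rw [Finset.mem_insert]
            rintro (h | h)
            · exact hia h
            · exact hi h
  intro s s' h
  exact H Finset.univ s s' h (fun i hi => absurd (Finset.mem_univ i) hi)

theorem one_dim (h : ℤ) (hh : 3 ≤ h) (g : ℤ → ℤ) (h0 : ∀ t, 0 ≤ g t) (h1 : ∀ t, g t ≤ h)
    (hs : ∀ t, g (t + 1) = if g t = h then 0 else g t + 1) (t : ℤ) :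
    g t = (t + g 0) % (h + 1) := by
  have hd : ∀ t, (h + 1) ∣ g (t + 1) - g t - 1 := by
    intro t
    rw [hs t]
    by_cases hc : g t = h
    · rw [if_pos hc, hc]
      exact ⟨-1, by ring⟩
    · rw [if_neg hc]
      exact ⟨0, by ring⟩
  have hk : ∀ t, (h + 1) ∣ g t - (t + g 0) := by
    intro t
    induction t using Int.induction_on with
    | zero => exact ⟨0, by ring⟩
    | succ k hk =>
      have := dvd_add hk (hd k)
      have e : g (k : ℤ) - ((k : ℤ) + g 0) + (g ((k : ℤ) + 1) - g (k : ℤ) - 1) =
        g ((k : ℤ) + 1) - ((k : ℤ) + 1 + g 0) := by ring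
      rwa [e] at this
    | pred k hk =>
      have h2 := hd (-(k : ℤ) - 1)
      have e0 : (-(k : ℤ) - 1) + 1 = -(k : ℤ) := by ring
      rw [e0] at h2
      have := dvd_sub hk h2
      have e : g (-(k : ℤ)) - (-(k : ℤ) + g 0) - (g (-(k : ℤ)) - g (-(k : ℤ) - 1) - 1) =
        g (-(k : ℤ) - 1) - (-(k : ℤ) - 1 + g 0) := by ring
      rwa [e] at this
  have h2 := (Int.emod_emod_of_dvd (g t) (dvd_refl (h + 1)))
  have h3 : g t % (h + 1) = (t + g 0) % (h + 1) :=
    (Int.emod_emod_of_dvd (g t) (dvd_refl (h + 1))) ▸ (Int.emod_emod_of_dvd _ (dvd_refl _)).symm ▸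
      (Int.ModEq.symm ((Int.modEq_iff_dvd).2 (hk t)))
  rw [← h3, Int.emod_eq_of_lt (h0 t) (by have := h1 t; omega)]

/- TARGET. -/
theorem digits_offset {n : ℕ} (h : ℤ) (hh : 3 ≤ h) (x : Pos n → Cell n)
    (hx : ∀ s, LSk h (x s) (fun i => x (up s i))) :
    (∃ o : Pos n, ∀ s, (x s).dig = dgt h o s) ∧
    (∀ i j, i ≠ j → ∀ s s' : Pos n, s i = s' i → s j = s' j →
      (x s).lab i j = (x s').lab i j ∧ (x s).c i j = (x s').c i j) := by
  classical
  constructor
  · refine ⟨fun i => (x 0).dig i, ?_⟩
    intro s
    funext i
    have hinv := inv_of_steps (fun s => (x s).dig i) (fun m => m = i)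
      (fun m hm s => (hx s).digN i m (fun e => hm e.symm))
    have e1 : (x s).dig i = (x (Function.update (0 : Pos n) i (s i))).dig i := by
      apply hinv
      intro k hk
      subst hk
      simp
    have e2 : (x 0).dig i = (x (Function.update (0 : Pos n) i 0)).dig i := by
      apply hinv
      intro k hk
      subst hk
      simp
    have h3 := one_dim h hh (fun t => (x (Function.update (0 : Pos n) i t)).dig i)
      (fun t => (hx _).dig0 i) (fun t => (hx _).dig1 i)
      (fun t => by
        have := (hx (Function.update (0 : Pos n) i t)).digS i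
        simp only [up_update] at this
        exact this) (s i)
    rw [← e2, ← e1] at h3
    exact h3
  · intro i j hij s s' h1 h2
    constructor
    · apply inv_of_steps (fun s => (x s).lab i j) (fun m => m = i ∨ m = j)
      · intro m hm s
        rw [not_or] at hm
        exact (hx s).labP i j m hij hm.1 hm.2
      · rintro k (rfl | rfl)
        · exact h1
        · exact h2
    · apply inv_of_steps (fun s => (x s).c i j) (fun m => m = i ∨ m = j)
      · intro m hm s
        rw [not_or] at hm
        exact (hx s).cP i j m hij hm.1 hm.2
      · rintro k (rfl | rfl)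
        · exact h1
        · exact h2

end J21
end Helper536
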