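import Mathlib
import Pool.Agent.helper536_SFT.Defs
import Pool.Agent.helper536_SFT.J19
import Pool.Agent.helper536_SFT.J21

namespace Helper536
namespace J22

/- TARGET. Proof in words:
Every field of Sk2 is the corresponding field of LSk at the site pl i j a b for the pair (i,j) or (j,i) (using csw for c j i = (c i j).swap). (dgt h o (pl i j a b)) i = (a + o i)%(h+1) and the same for j. The neighbours: up (pl i j a b) j has coordinates a, b+1 in the
directions i, j, so by J21 (second part) its lab i j equals that of pl i j a (b+1). c2: from c1 for the pair (j,i) and csw.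
-/
theorem plane_sk2 {n : ℕ} (h : ℤ) (hh : 3 ≤ h) (x : Pos n → Cell n)
    (hx : ∀ s, LSk h (x s) (fun i => x (up s i))) (o : Pos n)
    (ho : ∀ s, (x s).dig = dgt h o s) (i j : Fin (n + 2)) (hij : i ≠ j) :
    Sk2 h (o i) (o j) (fun a b => (x (pl i j a b)).lab i j) (fun a b => (x (pl i j a b)).lab j i)
      (fun a b => (x (pl i j a b)).c i j) := by
  have p1 : ∀ a b, pl i j a b i = a := fun a b => by simp [pl]
  have p2 : ∀ a b, pl i j a b j = b := fun a b => by simp [pl, hij.symm]
  have d1 : ∀ a b, (x (pl i j a b)).dig i = (a + o i) % (h + 1) := fun a b => by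
    rw [ho]; simp only [dgt, p1]
  have d2 : ∀ a b, (x (pl i j a b)).dig j = (b + o j) % (h + 1) := fun a b => by
    rw [ho]; simp only [dgt, p2]
  have hu : ∀ (s : Pos n) (m : Fin (n + 2)), up s m m = s m + 1 := (J19.sit_facts h hh o).2.2.2.2.2.2.1
  have hv : ∀ (s : Pos n) (m i : Fin (n + 2)), i ≠ m → up s m i = s i :=
    (J19.sit_facts h hh o).2.2.2.2.2.2.2
  have hpl := (J21.digits_offset h hh x hx).2
  have nj : ∀ a b, (x (up (pl i j a b) j)).lab i j = (x (pl i j a (b + 1))).lab i j := fun a b =>
    (hpl i j hij _ _ (by rw [hv _ _ _ hij, p1, p1]) (by rw [hu, p2, p2])).1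
  have ni : ∀ a b, (x (up (pl i j a b) i)).lab j i = (x (pl i j (a + 1) b)).lab j i := fun a b =>
    (hpl j i hij.symm _ _ (by rw [hv _ _ _ hij.symm, p2, p2]) (by rw [hu, p1, p1])).1
  have nc : ∀ a b, (x (up (pl i j a b) i)).c i j = (x (pl i j (a + 1) b)).c i j := fun a b =>
    (hpl i j hij _ _ (by rw [hu, p1, p1]) (by rw [hv _ _ _ hij.symm, p2, p2])).2
  refine
    { wfV := fun a b => (hx _).wf i j hij
      wfH := fun a b => (hx _).wf j i hij.symm
      hrV := fun a b => ?_
      hrH := fun a b => ?_
      tyV := fun a b hd => ?_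
      firstV := fun a b hd => ?_
      lastV := fun a b hd => ?_
      tyH := fun a b hd => ?_
      firstH := fun a b hd => ?_
      lastH := fun a b hd => ?_
      c0 := fun a b ha hb => ?_
      c1 := fun a b ha hb => ?_
      c2 := fun a b ha hb => ?_
      c3 := fun a b ha hb => ?_ }
  · have h1 := (hx (pl i j a b)).half i j hij
    rw [nj] at h1
    exact h1
  · have h1 := (hx (pl i j a b)).half j i hij.symm
    rw [ni, (hx (pl i j a b)).csw i j] at h1
    exact h1
  · have h1 := (hx (pl i j a b)).cty i j hij (by rw [d1]; exact hd)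
    rw [d1] at h1
    exact h1
  · have h1 := (hx (pl i j a b)).cfirst i j hij (by rw [d1]; exact hd)
    rw [d2] at h1
    exact h1
  · have h1 := (hx (pl i j a b)).clast i j hij (by rw [d1]; exact hd)
    rw [d2] at h1
    exact h1
  · have h1 := (hx (pl i j a b)).cty j i hij.symm (by rw [d2]; exact hd)
    rw [d2] at h1
    exact h1
  · have h1 := (hx (pl i j a b)).cfirst j i hij.symm (by rw [d2]; exact hd)
    rw [d1] at h1
    exact h1
  · have h1 := (hx (pl i j a b)).clast j i hij.symm (by rw [d2]; exact hd)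
    rw [d1] at h1
    exact h1
  · exact (hx (pl i j a b)).c0 i j hij (by rw [d1]; exact ha) (by rw [d2]; exact hb)
  · exact (hx (pl i j a b)).c1 i j hij (by rw [d1]; exact ha) (by rw [d2]; exact hb)
  · have h1 := (hx (pl i j a b)).c1 j i hij.symm (by rw [d2]; exact hb) (by rw [d1]; exact ha)
    rw [(hx (pl i j a b)).csw i j] at h1
    show (x (pl i j a b)).c i j = K3.lo
    cases hc : (x (pl i j a b)).c i j with
    | same => rw [hc] at h1; exact absurd h1 (by simp [K3.swap])
    | hi => rw [hc] at h1; exact absurd h1 (by simp [K3.swap])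
    | lo => rfl
  · have h1 := (hx (pl i j a b)).c3 i j hij (by rw [d1]; exact ha) (by rw [d2]; exact hb)
    rw [nc] at h1
    exact h1

end J22
end Helper536
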