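import Mathlib
import Pool.Agent.helper536_SFT.Defs
import Pool.Agent.helper536_SFT.J17
import Pool.Agent.helper536_SFT.J19
import Pool.Agent.helper536_SFT.J21
import Pool.Agent.helper536_SFT.J22

namespace Helper536
namespace J23

/- TARGET. Proof in words:
o from J21. For i != j let ox_ij, oy_ij be the offsets of J17 applied to the plane skeleton of J22. For each i choose j0(i) != i and put o' i = ox_(i,j0(i)). M=6h+2. Claim: for all i != j and all integers A: (A+ox_ij)%M=(A+o' i)%M and (A+oy_ij)%M=(A+o' j)%M. Proof: take a site s in the block number A in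
direction i with digit 0 there; J17 (first formula) gives (x s).lab i j = lineLab ..., whose fc says (A+ox_ij)%M=0; by the field fcF, (lab i j).fc iff (lab i j0).fc iff (A+o' i)%M=0. So for all A: (A+ox_ij)%M=0 iff (A+o' i)%M=0; A=-ox_ij gives the congruence. For oy_ij use the formula for H = lab j i (its fc
says (B+oy_ij)%M=0) and fcF for j.
ExSk: dig by J21. labD, cD from LSk. lab1: J17 first formula for the plane (i,j) at (s i, s j), J21 second part (labels depend only on the two coordinates), the claim, and corner h o (par h o s) has coordinates cs h (o i) ((s i+o i)/(h+1)). lab2: J17. c0, c1, c2: LSk c0, c1, c1 with csw. c3: both digits are h, so s and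
corner h o (par h o s) have the same coordinates i and j (s i = cs h (o i) (par h o s i)).
LSk for coarse: dig0, dig1: remainder mod 6h+2. digS, digN: up P i. labD, cD, csw, fcF, wf: from LSk at the corner. labP, cP: corner (up P m) and corner P have the same coordinates i, j (J21). cty, cfirst, clast, c0, c1, c3, half: the fields tyV, firstV, lastV, c0, c1, c3, hrV of the coarse Sk2 of J17 for the
plane (i,j), with the claim to rewrite the digits, and J21.
-/
theorem mod_claim (M a b : ℤ) (h : ∀ A : ℤ, (A + a) % M = 0 ↔ (A + b) % M = 0) (A : ℤ) :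
    (A + a) % M = (A + b) % M := by
  have h1 := (h (-a)).1 (by simp)
  have h2 : M ∣ (b - a) := by
    have := Int.dvd_of_emod_eq_zero h1
    rwa [neg_add_eq_sub] at this
  obtain ⟨k, hk⟩ := h2
  rw [show A + b = A + a + M * k by linarith, Int.add_mul_emod_self_left]

theorem mod_succ (M y : ℤ) (hM : 0 < M) :
    (y + 1) % M = if y % M = M - 1 then 0 else y % M + 1 := by
  have h1 := Int.emod_add_mul_ediv y M
  have h2 := Int.emod_nonneg y hM.ne'
  have h3 := Int.emod_lt_of_pos y hM
  by_cases h4 : y % M = M - 1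
  · rw [if_pos h4]
    rw [h4] at h1
    have h5 : y + 1 = M * (y / M + 1) := by linarith
    rw [h5]
    exact Int.mul_emod_right _ _
  · rw [if_neg h4, ← Int.emod_add_emod, Int.emod_eq_of_lt (by omega) (by omega)]

theorem up_self {n : ℕ} (s : Pos n) (m : Fin (n + 2)) : up s m m = s m + 1 := by
  simp [up]

theorem up_ne {n : ℕ} (s : Pos n) (m i : Fin (n + 2)) (h : i ≠ m) : up s m i = s i := by
  simp [up, h]

theorem pl_fst {n : ℕ} (i j : Fin (n + 2)) (a b : ℤ) : pl i j a b i = a := by simp [pl]

theorem pl_snd {n : ℕ} (i j : Fin (n + 2)) (a b : ℤ) (h : i ≠ j) : pl i j a b j = b := by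
  simp [pl, h.symm]

theorem cs_div (h o A : ℤ) (hh : 3 ≤ h) : (cs h o A + o) / (h + 1) = A := by
  unfold cs
  rw [show A * (h + 1) + h - o + o = h + A * (h + 1) by ring,
    Int.add_mul_ediv_right _ _ (by omega), Int.ediv_eq_zero_of_lt (by omega) (by omega), zero_add]

theorem eq_cs (h o s : ℤ) (hd : (s + o) % (h + 1) = h) : s = cs h o ((s + o) / (h + 1)) := by
  unfold cs
  have := Int.emod_add_mul_ediv (s + o) (h + 1)
  rw [hd] at this
  linarith [mul_comm ((s + o) / (h + 1)) (h + 1)]

theorem sk_coarse {n : ℕ} (h : ℤ) (hh : 3 ≤ h) (x : Pos n → Cell n)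
    (hx : ∀ s, LSk h (x s) (fun i => x (up s i))) :
    ∃ o o' : Pos n, ExSk h o x (coarse h o o' x) ∧
      ∀ P, LSk (6 * h + 1) (coarse h o o' x P) (fun i => coarse h o o' x (up P i)) := by
  obtain ⟨⟨o, ho⟩, hdep⟩ := J21.digits_offset h hh x hx
  have key : ∀ i j : Fin (n + 2), i ≠ j → ∃ ox oy : ℤ,
      Sk2 (6 * h + 1) ox oy
        (fun A B => (x (pl i j (cs h (o i) A) (cs h (o j) B))).lab i j)
        (fun A B => (x (pl i j (cs h (o i) A) (cs h (o j) B))).lab j i)
        (fun A B => (x (pl i j (cs h (o i) A) (cs h (o j) B))).c i j) ∧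
      (∀ s, dgt h o s i ≠ h → (x s).lab i j =
        lineLab h (dgt h o s i + 1) (dgt h o s j) ((par h o s i + ox) % (6 * h + 1 + 1))
          ((par h o s j + oy) % (6 * h + 1 + 1)) ((x (corner h o (par h o s))).c i j)) ∧
      (∀ s, dgt h o s i = h → (x s).lab i j = (x (corner h o (par h o s))).lab i j) ∧
      (∀ s, dgt h o s j ≠ h → (x s).lab j i =
        lineLab h (dgt h o s j + 1) (dgt h o s i) ((par h o s j + oy) % (6 * h + 1 + 1))
          ((par h o s i + ox) % (6 * h + 1 + 1)) ((x (corner h o (par h o s))).c i j).swap) := by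
    intro i j hij
    obtain ⟨ox, oy, S, F1, F2, F3, F4⟩ := J17.sk2_coarse h (o i) (o j) hh _ _ _
      (J22.plane_sk2 h hh x hx o ho i j hij)
    have e1 : ∀ s : Pos n, (x (pl i j (s i) (s j))).lab i j = (x s).lab i j := fun s =>
      (hdep i j hij _ _ (pl_fst _ _ _ _) (pl_snd _ _ _ _ hij)).1
    have e2 : ∀ s : Pos n, (x (pl i j (s i) (s j))).c i j = (x s).c i j := fun s =>
      (hdep i j hij _ _ (pl_fst _ _ _ _) (pl_snd _ _ _ _ hij)).2
    have e3 : ∀ s : Pos n, (x (pl i j (s i) (s j))).lab j i = (x s).lab j i := fun s =>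
      (hdep j i hij.symm _ _ (pl_snd _ _ _ _ hij) (pl_fst _ _ _ _)).1
    refine ⟨ox, oy, S, ?_, ?_, ?_⟩
    · intro s hs
      have := F1 (s i) (s j) hs
      rw [e1 s] at this
      rw [this, ← e2 (corner h o (par h o s))]
      rfl
    · intro s hs
      have := F2 (s i) (s j) hs
      rw [e1 s] at this
      rw [this, ← e1 (corner h o (par h o s))]
      rfl
    · intro s hs
      have := F3 (s i) (s j) hs
      rw [e3 s] at this
      rw [this, ← e2 (corner h o (par h o s))]
      rfl
  choose! ox oy S D1 D2 D3 using key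
  -- the reference axes
  have hj0 : ∀ i : Fin (n + 2), ∃ j : Fin (n + 2), i ≠ j := fun i =>
    (exists_ne i).imp fun _ hj => hj.symm
  choose j0 hj0 using hj0
  have hsit : ∀ (i : Fin (n + 2)) (A : ℤ), ∃ s : Pos n, dgt h o s i = 0 ∧ par h o s i = A := by
    intro i A
    refine ⟨fun m => A * (h + 1) - o m, ?_, ?_⟩
    · simp only [dgt]
      rw [sub_add_cancel]
      exact Int.mul_emod_left _ _
    · simp only [par]
      rw [sub_add_cancel]
      exact Int.mul_ediv_cancel _ (by omega)
  have cl0 : ∀ (i j : Fin (n + 2)), i ≠ j → ∀ s : Pos n, dgt h o s i ≠ h →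
      (((x s).lab i j).fc ↔ (par h o s i + ox i j) % (6 * h + 1 + 1) = 0) := by
    intro i j hij s hs
    rw [D1 i j hij s hs]
    rfl
  have cl1 : ∀ (i j : Fin (n + 2)), i ≠ j → ∀ s : Pos n, dgt h o s j ≠ h →
      (((x s).lab j i).fc ↔ (par h o s j + oy i j) % (6 * h + 1 + 1) = 0) := by
    intro i j hij s hs
    rw [D3 i j hij s hs]
    rfl
  have clA : ∀ (i j : Fin (n + 2)), i ≠ j → ∀ A : ℤ,
      (A + ox i j) % (6 * h + 1 + 1) = (A + ox i (j0 i)) % (6 * h + 1 + 1) := by
    intro i j hij
    refine mod_claim _ _ _ (fun A => ?_)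
    obtain ⟨s, hs1, hs2⟩ := hsit i A
    have hs : dgt h o s i ≠ h := by rw [hs1]; omega
    rw [← hs2, ← cl0 i j hij s hs, ← cl0 i (j0 i) (hj0 i) s hs]
    exact (hx s).fcF i j (j0 i) hij.symm (hj0 i).symm
  have clB : ∀ (i j : Fin (n + 2)), i ≠ j → ∀ A : ℤ,
      (A + oy i j) % (6 * h + 1 + 1) = (A + ox j (j0 j)) % (6 * h + 1 + 1) := by
    intro i j hij
    refine mod_claim _ _ _ (fun A => ?_)
    obtain ⟨s, hs1, hs2⟩ := hsit j A
    have hs : dgt h o s j ≠ h := by rw [hs1]; omega
    rw [← hs2, ← cl1 i j hij s hs, ← cl0 j (j0 j) (hj0 j) s hs]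
    exact (hx s).fcF j i (j0 j) hij (hj0 j).symm
  have hlab : ∀ (i j : Fin (n + 2)), i ≠ j → ∀ P : Pos n,
      (x (pl i j (cs h (o i) (P i)) (cs h (o j) (P j)))).lab i j =
        (x (corner h o P)).lab i j := fun i j hij P =>
    (hdep i j hij (pl i j (cs h (o i) (P i)) (cs h (o j) (P j))) (corner h o P)
      (pl_fst _ _ _ _) (pl_snd _ _ _ _ hij)).1
  have hlab' : ∀ (i j : Fin (n + 2)), i ≠ j → ∀ P : Pos n,
      (x (pl i j (cs h (o i) (P i)) (cs h (o j) (P j)))).lab j i =
        (x (corner h o P)).lab j i := fun i j hij P =>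
    (hdep j i hij.symm (pl i j (cs h (o i) (P i)) (cs h (o j) (P j))) (corner h o P)
      (pl_snd _ _ _ _ hij) (pl_fst _ _ _ _)).1
  have hc : ∀ (i j : Fin (n + 2)), i ≠ j → ∀ P : Pos n,
      (x (pl i j (cs h (o i) (P i)) (cs h (o j) (P j)))).c i j =
        (x (corner h o P)).c i j := fun i j hij P =>
    (hdep i j hij (pl i j (cs h (o i) (P i)) (cs h (o j) (P j))) (corner h o P)
      (pl_fst _ _ _ _) (pl_snd _ _ _ _ hij)).2
  have hdg : ∀ s i, (x s).dig i = dgt h o s i := fun s i => by rw [ho s]
  refine ⟨o, fun i => ox i (j0 i), ?_, fun P => ?_⟩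
  · refine ⟨ho, fun s i => (hx s).labD i, fun s i => (hx s).cD i, ?_,
      fun s i j hij hs => D2 i j hij s hs, ?_, ?_, ?_, ?_⟩
    · intro s i j hij hs
      rw [D1 i j hij s hs, clA i j hij, clB i j hij]
      rfl
    · intro s i j hij h1 h2
      exact (hx s).c0 i j hij (by rwa [hdg]) (by rwa [hdg])
    · intro s i j hij h1 h2
      exact (hx s).c1 i j hij (by rwa [hdg]) (by rwa [hdg])
    · intro s i j hij h1 h2
      rw [(hx s).csw j i, (hx s).c1 j i hij.symm (by rwa [hdg]) (by rwa [hdg])]
      rfl
    · intro s i j hij h1 h2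
      exact (hdep i j hij s (corner h o (par h o s)) (eq_cs h (o i) (s i) h1)
        (eq_cs h (o j) (s j) h2)).2
  · have hM : (0 : ℤ) < 6 * h + 1 + 1 := by omega
    refine
      { dig0 := fun i => Int.emod_nonneg _ hM.ne'
        dig1 := fun i => by
          have := Int.emod_lt_of_pos (P i + ox i (j0 i)) hM
          simp only [coarse]
          omega
        digS := fun i => ?_
        digN := fun i j hij => by simp only [coarse]; rw [up_ne P j i hij]
        labD := fun i => (hx _).labD i
        cD := fun i => (hx _).cD i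
        labP := fun i j m hij hmi hmj => ?_
        cP := fun i j m hij hmi hmj => ?_
        csw := fun i j => (hx _).csw i j
        fcF := fun i j j' h1 h2 => (hx _).fcF i j j' h1 h2
        wf := fun i j hij => (hx _).wf i j hij
        cty := fun i j hij hd => ?_
        cfirst := fun i j hij hd => ?_
        clast := fun i j hij hd => ?_
        c0 := fun i j hij h1 h2 => ?_
        c1 := fun i j hij h1 h2 => ?_
        c3 := fun i j hij h1 h2 => ?_
        half := fun i j hij => ?_ }
    · simp only [coarse]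
      rw [up_self]
      have e : P i + 1 + ox i (j0 i) = (P i + ox i (j0 i)) + 1 := by ring
      rw [e]
      have e2 := mod_succ (6 * h + 1 + 1) (P i + ox i (j0 i)) hM
      rw [show (6 * h + 1 + 1 - 1 : ℤ) = 6 * h + 1 by ring] at e2
      exact e2
    · refine (hdep i j hij _ _ ?_ ?_).1
      · simp only [corner]; rw [up_ne P m i hmi.symm]
      · simp only [corner]; rw [up_ne P m j hmj.symm]
    · refine (hdep i j hij _ _ ?_ ?_).2
      · simp only [corner]; rw [up_ne P m i hmi.symm]
      · simp only [corner]; rw [up_ne P m j hmj.symm]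
    · simp only [coarse] at hd ⊢
      rw [← clA i j hij] at hd ⊢
      have := (S i j hij).tyV (P i) (P j) hd
      rwa [hlab i j hij P] at this
    · simp only [coarse] at hd ⊢
      rw [← clA i j hij] at hd
      rw [← clB i j hij]
      have := (S i j hij).firstV (P i) (P j) hd
      rwa [hlab i j hij P] at this
    · simp only [coarse] at hd ⊢
      rw [← clA i j hij] at hd
      rw [← clB i j hij]
      have := (S i j hij).lastV (P i) (P j) hd
      rwa [hlab i j hij P] at this
    · simp only [coarse] at h1 h2 ⊢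
      rw [← clA i j hij] at h1
      rw [← clB i j hij] at h2
      have := (S i j hij).c0 (P i) (P j) h1 h2
      rwa [hc i j hij P] at this
    · simp only [coarse] at h1 h2 ⊢
      rw [← clA i j hij] at h1
      rw [← clB i j hij] at h2
      have := (S i j hij).c1 (P i) (P j) h1 h2
      rwa [hc i j hij P] at this
    · simp only [coarse] at h1 h2 ⊢
      rw [← clA i j hij] at h1
      rw [← clB i j hij] at h2
      have := (S i j hij).c3 (P i) (P j) h1 h2
      have e1 := hc i j hij (up P i)
      rw [up_self, up_ne P i j hij.symm] at e1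
      rwa [hlab i j hij P, e1] at this
    · have := (S i j hij).hrV (P i) (P j)
      have e1 := hlab i j hij (up P j)
      rw [up_self, up_ne P j i hij] at e1
      rwa [hlab i j hij P, hlab' i j hij P, hc i j hij P, e1] at this

end J23
end Helper536
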