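import Mathlib
import Pool.Agent.helper536_SFT.Defs

namespace Helper536
namespace J20

theorem const_aux {n : ℕ} {α : Type} (f : Pos n → α) (lo hi : Pos n)
    (hf : ∀ s m, (∀ i, lo i ≤ s i ∧ s i ≤ hi i) → s m < hi m → f (up s m) = f s) :
    ∀ (N : ℕ) (s : Pos n), ∑ i, (s i - lo i).toNat = N → (∀ i, lo i ≤ s i ∧ s i ≤ hi i) →
      f s = f lo := by
  intro N
  induction N using Nat.strong_induction_on with
  | _ N ih =>
  intro s hN hs
  by_cases h : ∃ m, lo m < s m
  · obtain ⟨m, hm⟩ := h
    have hval : ∀ i, (s - Pi.single m 1 : Pos n) i = if i = m then s i - 1 else s i := by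
      intro i
      rw [Pi.sub_apply, Pi.single_apply]
      split_ifs <;> simp
    have h1 : s = up (s - Pi.single m 1) m := by
      rw [up, sub_add_cancel]
    have h2 : ∀ i, lo i ≤ (s - Pi.single m 1 : Pos n) i ∧ (s - Pi.single m 1 : Pos n) i ≤ hi i := by
      intro i
      rw [hval i]
      have := hs i
      split_ifs with hi'
      · subst hi'
        constructor <;> omega
      · exact this
    have h3 : (s - Pi.single m 1 : Pos n) m < hi m := by
      rw [hval m, if_pos rfl]
      have := hs m
      omega
    have h4 : ∑ i, ((s - Pi.single m 1 : Pos n) i - lo i).toNat < N := by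
      rw [← hN]
      apply Finset.sum_lt_sum
      · intro i _
        rw [hval i]
        split_ifs <;> omega
      · refine ⟨m, Finset.mem_univ m, ?_⟩
        rw [hval m, if_pos rfl]
        omega
    rw [h1, hf _ m h2 h3]
    exact ih _ h4 _ rfl h2
  · push Not at h
    congr 1
    funext i
    exact le_antisymm (h i) (hs i).1

/- TARGET. Proof in words:
Show f s = f lo for all s in the box, by induction on the natural number sum over i of (s i - lo i).toNat: if it is 0 then s=lo; otherwise some s m > lo m, and s = up s0 m with s0 = s - Pi.single m 1 in the box, s0 m < hi m.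
-/
theorem const_on_box {n : ℕ} {α : Type} (f : Pos n → α) (lo hi : Pos n)
    (hf : ∀ s m, (∀ i, lo i ≤ s i ∧ s i ≤ hi i) → s m < hi m → f (up s m) = f s) :
    ∀ s s' : Pos n, (∀ i, lo i ≤ s i ∧ s i ≤ hi i) → (∀ i, lo i ≤ s' i ∧ s' i ≤ hi i) →
      f s = f s' := by
  intro s s' hs hs'
  rw [const_aux f lo hi hf _ s rfl hs, const_aux f lo hi hf _ s' rfl hs']

end J20
end Helper536
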