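import Mathlib
import Pool.Agent.helper536_SFT.Defs
import Pool.Agent.helper536_SFT.J19

namespace Helper536
namespace J24a

theorem read_labels_scan (m h : ℤ) (hh : 3 ≤ h) : scan m h = St.J ↔ m = h := by
  unfold scan
  split_ifs with h1 h2
  · constructor
    · intro h3; cases h3
    · intro h3; omega
  · simp [h2.symm]
  · constructor
    · intro h3; cases h3
    · intro h3; exact absurd h3.symm h2

theorem read_labels_ty1 (d : ℤ) : ty (d + 1) = 1 ↔ d = 0 := by
  unfold ty
  split_ifs <;> omega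

theorem read_labels_ty2 (d : ℤ) : ty (d + 1) = 2 ↔ d = 1 := by
  unfold ty
  split_ifs <;> omega

/- TARGET. Proof in words:
Unfold everything. For digit != h in direction i the labels are given by E.lab1 (note 0 != 1 in Fin (n+2)); for digit h by E.lab2 (equal to those of x'). lineLab fields: first iff digit j=0, last iff digit j=h, fc iff X i=0, lc iff X i=6h+1, fa iff X j=0, la iff X j=6h+1,
g=scan (mark h (X i)) h, which is J iff mark h (X i)=h (mark is between 0 and h; h>=3), phc = phase h (X i), ty (idx)=idx for idx<=2, 3 or 4 otherwise. isZ: (lab 0 1).fc, lc give X 0 extreme; the m != 0 give X m extreme. When the digit 0 is h all labels (lab 0 m), m != 0, are those of x', and isZ, isN, isR, zc, wdom, shareIs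
only use these labels (and w).
-/
theorem read_labels {n : ℕ} (h : ℤ) (hh : 3 ≤ h) (o : Pos n) (x x' : Pos n → Cell n)
    (E : ExSk h o x x') (s : Pos n) (hX : ∀ i, 0 ≤ (x' (par h o s)).dig i ∧
      (x' (par h o s)).dig i ≤ 6 * h + 1) :
    (dgt h o s 1 ≠ h → (vdom (x s) ↔ vvis h (dgt h o s)) ∧
      (x s).lab 1 0 = lineLab h (dgt h o s 1 + 1) (dgt h o s 0) ((x' (par h o s)).dig 1)
        ((x' (par h o s)).dig 0) ((x' (par h o s)).c 1 0)) ∧
    (dgt h o s 1 = h → (vdom (x s) ↔ vdom (x' (par h o s)))) ∧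
    (dgt h o s 0 ≠ h →
      (zc (x s) ↔ ∀ m, m ≠ 0 → m ≠ 1 → dgt h o s m ≠ 0 ∧ dgt h o s m ≠ h) ∧
      (isZ (x s) ↔ extr h (x' (par h o s)).dig) ∧
      (isN (x s) ↔ (¬ extr h (x' (par h o s)).dig ∧ mark h ((x' (par h o s)).dig 0) = h)) ∧
      (isR (x s) ↔ reg h (x' (par h o s)).dig) ∧
      ((x s).lab 0 1).phc = phase h ((x' (par h o s)).dig 0) ∧
      (((x s).lab 0 1).ty = 1 ↔ dgt h o s 0 = 0) ∧
      (((x s).lab 0 1).ty = 2 ↔ dgt h o s 0 = 1) ∧
      (wdom (x s) ↔ wvis h (dgt h o s) (x' (par h o s)).dig)) ∧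
    (dgt h o s 0 = h → (wdom (x s) ↔ wdom (x' (par h o s))) ∧
      ∀ σ, (x s).w = (x' (par h o s)).w → (shareIs (x s) σ ↔ shareIs (x' (par h o s)) σ)) := by
  have h01 : (0 : Fin (n + 2)) ≠ 1 := by simp
  have h10 : (1 : Fin (n + 2)) ≠ 0 := by simp
  refine ⟨?_, ?_, ?_, ?_⟩
  · intro hd
    have hl : ∀ m, m ≠ 1 → (x s).lab 1 m = lineLab h (dgt h o s 1 + 1) (dgt h o s m)
        ((x' (par h o s)).dig 1) ((x' (par h o s)).dig m) ((x' (par h o s)).c 1 m) :=
      fun m hm => E.lab1 s 1 m (Ne.symm hm) hd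
    refine ⟨?_, hl 0 h01⟩
    unfold vdom vvis
    refine forall_congr' (fun m => forall_congr' (fun hm => ?_))
    rw [hl m hm]
    rfl
  · intro hd
    have hl : ∀ m, m ≠ 1 → (x s).lab 1 m = (x' (par h o s)).lab 1 m :=
      fun m hm => E.lab2 s 1 m (Ne.symm hm) hd
    unfold vdom
    refine forall_congr' (fun m => forall_congr' (fun hm => ?_))
    rw [hl m hm]
  · intro hd
    have hl : ∀ m, m ≠ 0 → (x s).lab 0 m = lineLab h (dgt h o s 0 + 1) (dgt h o s m)
        ((x' (par h o s)).dig 0) ((x' (par h o s)).dig m) ((x' (par h o s)).c 0 m) :=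
      fun m hm => E.lab1 s 0 m (Ne.symm hm) hd
    have hzc : zc (x s) ↔ ∀ m, m ≠ 0 → m ≠ 1 → dgt h o s m ≠ 0 ∧ dgt h o s m ≠ h := by
      unfold zc
      refine forall_congr' (fun m => forall_congr' (fun hm => forall_congr' (fun _ => ?_)))
      rw [hl m hm]
      rfl
    have hZ : isZ (x s) ↔ extr h (x' (par h o s)).dig := by
      unfold isZ extr
      rw [hl 1 h10]
      constructor
      · rintro (h1 | h1 | ⟨m, hm, h1⟩)
        · exact ⟨0, Or.inl h1⟩
        · exact ⟨0, Or.inr h1⟩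
        · rw [hl m hm] at h1
          exact ⟨m, h1⟩
      · rintro ⟨m, h1⟩
        by_cases hm : m = 0
        · subst hm
          rcases h1 with h1 | h1
          · exact Or.inl h1
          · exact Or.inr (Or.inl h1)
        · refine Or.inr (Or.inr ⟨m, hm, ?_⟩)
          rw [hl m hm]
          exact h1
    have hg : ((x s).lab 0 1).g = St.J ↔ mark h ((x' (par h o s)).dig 0) = h := by
      rw [hl 1 h10]
      exact read_labels_scan _ _ hh
    have hN : isN (x s) ↔ (¬ extr h (x' (par h o s)).dig ∧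
        mark h ((x' (par h o s)).dig 0) = h) := by
      unfold isN
      rw [hZ, hg]
    have hR : isR (x s) ↔ reg h (x' (par h o s)).dig := by
      unfold isR reg
      rw [hZ, ne_eq, hg]
    have ht1 : ((x s).lab 0 1).ty = 1 ↔ dgt h o s 0 = 0 := by
      rw [hl 1 h10]
      exact read_labels_ty1 _
    have ht2 : ((x s).lab 0 1).ty = 2 ↔ dgt h o s 0 = 1 := by
      rw [hl 1 h10]
      exact read_labels_ty2 _
    have hf : ((x s).lab 0 1).first ↔ dgt h o s 1 = 0 := by
      rw [hl 1 h10]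
      rfl
    have hla : ((x s).lab 0 1).last ↔ dgt h o s 1 = h := by
      rw [hl 1 h10]
      rfl
    refine ⟨hzc, hZ, hN, hR, ?_, ht1, ht2, ?_⟩
    · rw [hl 1 h10]
      rfl
    · unfold wdom wvis
      rw [hzc, hR, ht1, ht2, hf, hla]
  · intro hd
    have hl : ∀ m, m ≠ 0 → (x s).lab 0 m = (x' (par h o s)).lab 0 m :=
      fun m hm => E.lab2 s 0 m (Ne.symm hm) hd
    have hzc : zc (x s) ↔ zc (x' (par h o s)) := by
      unfold zc
      refine forall_congr' (fun m => forall_congr' (fun hm => forall_congr' (fun _ => ?_)))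
      rw [hl m hm]
    have hZ : isZ (x s) ↔ isZ (x' (par h o s)) := by
      unfold isZ
      rw [hl 1 h10]
      have : (∃ m, m ≠ 0 ∧ (((x s).lab 0 m).fa ∨ ((x s).lab 0 m).la)) ↔
          ∃ m, m ≠ 0 ∧ (((x' (par h o s)).lab 0 m).fa ∨ ((x' (par h o s)).lab 0 m).la) := by
        refine exists_congr (fun m => and_congr_right (fun hm => ?_))
        rw [hl m hm]
      rw [this]
    have hN : isN (x s) ↔ isN (x' (par h o s)) := by
      unfold isN
      rw [hZ, hl 1 h10]
    have hR : isR (x s) ↔ isR (x' (par h o s)) := by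
      unfold isR
      rw [hZ, hl 1 h10]
    refine ⟨?_, ?_⟩
    · unfold wdom
      rw [hzc, hR, hl 1 h10]
    · intro σ hw
      unfold shareIs
      rw [hZ, hN, hR, hw, hl 1 h10]

end J24a
end Helper536
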