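import Mathlib
import Pool.Agent.helper536_SFT.Defs
import Pool.Agent.helper536_SFT.J19
import Pool.Agent.helper536_SFT.J20
import Pool.Agent.helper536_SFT.J24a

namespace Helper536
namespace J24b

/-- sites of a block in terms of digits -/
theorem in_block {n : ℕ} (h : ℤ) (hh : 3 ≤ h) (o P s : Pos n)
    (hs : ∀ i, P i * (h + 1) - o i ≤ s i ∧ s i ≤ P i * (h + 1) + h - o i) :
    par h o s = P ∧ dgt h o s = fun i => s i + o i - P i * (h + 1) := by
  have h3 := (J19.sit_facts (n := n) h hh o).2.2.1 P (fun i => s i + o i - P i * (h + 1))
    (fun i => by
      have := hs i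
      constructor <;> linarith [this.1, this.2])
  have e : sit h o P (fun i => s i + o i - P i * (h + 1)) = s := by
    funext i
    unfold sit
    ring
  rw [e] at h3
  exact h3

theorem dig_bd {n : ℕ} (h : ℤ) (hh : 3 ≤ h) (o o' : Pos n) (x : Pos n → Cell n) (P : Pos n)
    (i : Fin (n + 2)) : 0 ≤ (coarse h o o' x P).dig i ∧ (coarse h o o' x P).dig i ≤ 6 * h + 1 := by
  have hpos : (0 : ℤ) < 6 * h + 1 + 1 := by omega
  have h1 := Int.emod_nonneg (P i + o' i) hpos.ne'
  have h2 := Int.emod_lt_of_pos (P i + o' i) hpos
  refine ⟨h1, ?_⟩
  show (P i + o' i) % (6 * h + 1 + 1) ≤ 6 * h + 1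
  omega

theorem v_step {n : ℕ} (h : ℤ) (x : Pos n → Cell n) (hx : Rule h x) (s : Pos n)
    (m : Fin (n + 2)) (hm : m ≠ 1) (hv : vdom (x s) ↔ vdom (x (up s m))) :
    (x (up s m)).v = (x s).v := by
  have d1 := (hx s).dat.vd
  have d2 := (hx (up s m)).dat.vd
  have d3 := (hx s).dat.vM m hm
  by_cases hd : vdom (x s)
  · obtain ⟨a, ha⟩ := Option.isSome_iff_exists.1 (d1.2 hd)
    obtain ⟨b, hb⟩ := Option.isSome_iff_exists.1 (d2.2 (hv.1 hd))
    rw [ha, hb, d3 a b ha hb]
  · have h1 : (x s).v = none := by
      rw [← Option.not_isSome_iff_eq_none]
      exact fun hc => hd (d1.1 hc)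
    have h2 : (x (up s m)).v = none := by
      rw [← Option.not_isSome_iff_eq_none]
      exact fun hc => hd (hv.2 (d2.1 hc))
    rw [h1, h2]

theorem v_blocks {n : ℕ} (h : ℤ) (hh : 3 ≤ h) (o o' : Pos n) (x : Pos n → Cell n)
    (hx : Rule h x) (E : ExSk h o x (coarse h o o' x)) :
    (∀ s, dgt h o s 1 = h → (x s).v = (coarse h o o' x (par h o s)).v) ∧
    ∃ rv : Pos n → ℤ → Val,
      (∀ s, dgt h o s 1 ≠ h → vvis h (dgt h o s) →
        (x s).v = some (rv (par h o s) (dgt h o s 1 + 1))) ∧
      (∀ s, dgt h o s 1 ≠ h → ¬ vvis h (dgt h o s) → (x s).v = none) := by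
  obtain ⟨f1, f2, f3, f4, f5, f6, f7, f8⟩ := J19.sit_facts (n := n) h hh o
  have RL := fun s => J24a.read_labels h hh o x (coarse h o o' x) E s
    (fun i => dig_bd h hh o o' x (par h o s) i)
  refine ⟨?_, fun P t => ((x (sit h o P (fun m => if m = 1 then t - 1 else 1))).v).getD Val.one,
    ?_, ?_⟩
  · intro s hs
    set P := par h o s with hP
    have key := J20.const_on_box (fun s => (x s).v)
      (fun i => if i = 1 then P i * (h + 1) + h - o i else P i * (h + 1) - o i)
      (fun i => P i * (h + 1) + h - o i) (by
        intro s' m hb hlt
        have hblk : ∀ i, P i * (h + 1) - o i ≤ s' i ∧ s' i ≤ P i * (h + 1) + h - o i := by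
          intro i
          have := hb i
          refine ⟨?_, this.2⟩
          by_cases hi : i = 1
          · simp only [if_pos hi] at this; linarith [this.1]
          · simp only [if_neg hi] at this; exact this.1
        obtain ⟨hp, hd⟩ := in_block h hh o P s' hblk
        have hm : m ≠ 1 := by
          intro hm
          have := (hb m).1
          simp only [if_pos hm] at this
          linarith
        have hd1 : dgt h o s' 1 = h := by
          rw [hd]
          have h1 := hb 1
          simp only [if_true] at h1
          show s' 1 + o 1 - P 1 * (h + 1) = h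
          linarith [h1.1, h1.2]
        have hdm : dgt h o s' m ≠ h := by
          rw [hd]
          show s' m + o m - P m * (h + 1) ≠ h
          intro hc
          linarith
        obtain ⟨g1, g2⟩ := f5 s' m hdm
        have hu1 : dgt h o (up s' m) 1 = h := by
          rw [g2, Function.update_of_ne (Ne.symm hm), hd1]
        have v1 := (RL s').2.1 hd1
        have v2 := (RL (up s' m)).2.1 hu1
        rw [g1] at v2
        exact v_step h x hx s' m hm (v1.trans v2.symm))
    show (x s).v = (x (corner h o P)).v
    have hsD : ∀ i, s i = P i * (h + 1) + dgt h o s i - o i := by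
      intro i
      have := congrFun (f2 s) i
      unfold sit at this
      exact this.symm
    refine key s (corner h o P) ?_ ?_
    · intro i
      have h1 := f1 s i
      have h2 := hsD i
      refine ⟨?_, by linarith [h1.2]⟩
      by_cases hi : i = 1
      · simp only [if_pos hi]
        rw [h2, hi, hs]
      · simp only [if_neg hi]
        linarith [h1.1]
    · intro i
      rw [f4]
      unfold sit
      refine ⟨?_, le_refl _⟩
      by_cases hi : i = 1
      · simp only [if_pos hi]; exact le_refl _
      · simp only [if_neg hi]; linarith
  · intro s hs hv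
    set P := par h o s with hP
    set D := dgt h o s with hD
    have key := J20.const_on_box (fun s => (x s).v)
      (fun i => P i * (h + 1) + (if i = 1 then D 1 else 1) - o i)
      (fun i => P i * (h + 1) + (if i = 1 then D 1 else h - 1) - o i) (by
        intro s' m hb hlt
        have hD1 : 0 ≤ D 1 ∧ D 1 ≤ h := f1 s 1
        have hblk : ∀ i, P i * (h + 1) - o i ≤ s' i ∧ s' i ≤ P i * (h + 1) + h - o i := by
          intro i
          have := hb i
          by_cases hi : i = 1
          · simp only [if_pos hi] at this
            constructor <;> linarith [this.1, this.2, hD1.1, hD1.2]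
          · simp only [if_neg hi] at this
            constructor <;> linarith [this.1, this.2]
        obtain ⟨hp, hd⟩ := in_block h hh o P s' hblk
        have hm : m ≠ 1 := by
          intro hm
          have := (hb m).1
          simp only [if_pos hm] at this hlt
          linarith
        have hdig : ∀ i, i ≠ 1 → 1 ≤ dgt h o s' i ∧ dgt h o s' i ≤ h - 1 := by
          intro i hi
          have := hb i
          simp only [if_neg hi] at this
          rw [hd]
          show 1 ≤ s' i + o i - P i * (h + 1) ∧ s' i + o i - P i * (h + 1) ≤ h - 1
          constructor <;> linarith [this.1, this.2]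
        have hd1 : dgt h o s' 1 = D 1 := by
          rw [hd]
          have h1 := hb 1
          simp only [if_true] at h1
          show s' 1 + o 1 - P 1 * (h + 1) = D 1
          linarith [h1.1, h1.2]
        have hdm : dgt h o s' m ≤ h - 2 := by
          simp only [if_neg hm] at hlt
          rw [hd]
          show s' m + o m - P m * (h + 1) ≤ h - 2
          linarith
        have hdm' : dgt h o s' m ≠ h := by omega
        obtain ⟨g1, g2⟩ := f5 s' m hdm'
        have hu1 : dgt h o (up s' m) 1 = D 1 := by
          rw [g2, Function.update_of_ne (Ne.symm hm), hd1]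
        have w1 : vvis h (dgt h o s') := by
          intro i hi
          have := hdig i hi
          omega
        have w2 : vvis h (dgt h o (up s' m)) := by
          intro i hi
          rw [g2]
          by_cases him : i = m
          · rw [him, Function.update_self]
            have := hdig m hm
            omega
          · rw [Function.update_of_ne him]
            have := hdig i hi
            omega
        have v1 := ((RL s').1 (by rw [hd1]; exact hs)).1
        have v2 := ((RL (up s' m)).1 (by rw [hu1]; exact hs)).1
        exact v_step h x hx s' m hm (iff_of_true (v1.2 w1) (v2.2 w2)))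
    have hsD : ∀ i, s i = P i * (h + 1) + D i - o i := by
      intro i
      have := congrFun (f2 s) i
      unfold sit at this
      exact this.symm
    have heq : (x s).v = (x (sit h o P (fun m => if m = 1 then D 1 + 1 - 1 else 1))).v := by
      refine key s _ ?_ ?_
      · intro i
        have h2 := hsD i
        have h1 := f1 s i
        by_cases hi : i = 1
        · simp only [if_pos hi]
          rw [h2, hi]
          exact ⟨le_refl _, le_refl _⟩
        · simp only [if_neg hi]
          have h3 := hv i hi
          rw [h2]
          have h4 : 1 ≤ D i ∧ D i ≤ h - 1 := by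
            rw [← hD] at h1
            omega
          constructor <;> linarith [h4.1, h4.2]
      · intro i
        unfold sit
        by_cases hi : i = 1
        · simp only [if_pos hi]
          rw [hi]
          constructor <;> linarith
        · simp only [if_neg hi]
          constructor <;> linarith
    have hvd := ((RL s).1 hs).1.2 hv
    obtain ⟨a, ha⟩ := Option.isSome_iff_exists.1 ((hx s).dat.vd.2 hvd)
    show (x s).v = some (((x (sit h o P (fun m => if m = 1 then D 1 + 1 - 1 else 1))).v).getD
      Val.one)
    rw [← heq, ha]
    rfl
  · intro s hs hv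
    rw [← Option.not_isSome_iff_eq_none]
    intro hc
    exact hv (((RL s).1 hs).1.1 ((hx s).dat.vd.1 hc))

end J24b
end Helper536
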