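import Mathlib
import Pool.Agent.helper536_SFT.Defs
import Pool.Agent.helper536_SFT.J19
import Pool.Agent.helper536_SFT.J20
import Pool.Agent.helper536_SFT.J24a

namespace Helper536
namespace J24c

theorem option_eq {α : Type} {a b : Option α} (h1 : a.isSome ↔ b.isSome)
    (h2 : ∀ p q, a = some p → b = some q → p = q) : a = b := by
  cases a with
  | none => cases b with
    | none => rfl
    | some b => simp at h1
  | some a => cases b with
    | none => simp at h1
    | some b => rw [h2 a b rfl rfl]

theorem box {n : ℕ} (h : ℤ) (hh : 3 ≤ h) (o P : Pos n) {α : Type} (f : Pos n → α)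
    (dl dh : Fin (n + 2) → ℤ) (hl : ∀ i, 0 ≤ dl i) (hr : ∀ i, dh i ≤ h)
    (hf : ∀ s m, par h o s = P → (∀ i, dl i ≤ dgt h o s i ∧ dgt h o s i ≤ dh i) →
      dgt h o s m < dh m → f (up s m) = f s) :
    ∀ s s' : Pos n, par h o s = P → par h o s' = P →
      (∀ i, dl i ≤ dgt h o s i ∧ dgt h o s i ≤ dh i) →
      (∀ i, dl i ≤ dgt h o s' i ∧ dgt h o s' i ≤ dh i) → f s = f s' := by
  obtain ⟨f1, f2, f3, f4, f5, f6, f7, f8⟩ := J19.sit_facts h hh o
  have key : ∀ s : Pos n,
      (∀ i, P i * (h+1) + dl i - o i ≤ s i ∧ s i ≤ P i * (h+1) + dh i - o i) →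
      par h o s = P ∧ ∀ i, dgt h o s i = s i - P i * (h+1) + o i := by
    intro s hs
    have := f3 P (fun i => s i - P i * (h+1) + o i) (fun i => by
      have h1 := hs i
      have h2 := hl i
      have h3 := hr i
      constructor <;> linarith)
    have e : sit h o P (fun i => s i - P i * (h+1) + o i) = s := by
      funext i
      simp only [sit]
      ring
    rw [e] at this
    exact ⟨this.1, fun i => by rw [this.2]⟩
  intro s s' hs hs' hb hb'
  have loc : ∀ s : Pos n, par h o s = P → ∀ i, s i = P i * (h+1) + dgt h o s i - o i := by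
    intro s hs i
    have := congrFun (f2 s) i
    rw [hs] at this
    simp only [sit] at this
    exact this.symm
  apply J20.const_on_box f (fun i => P i * (h+1) + dl i - o i)
    (fun i => P i * (h+1) + dh i - o i)
  · intro t m ht htm
    obtain ⟨k1, k2⟩ := key t ht
    apply hf t m k1
    · intro i
      have := ht i
      rw [k2 i]
      constructor <;> linarith
    · rw [k2 m]
      try dsimp only at htm
      linarith
  · intro i
    rw [loc s hs i]
    have := hb i
    constructor <;> linarith
  · intro i
    rw [loc s' hs' i]
    have := hb' i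
    constructor <;> linarith

theorem w_box {n : ℕ} (h : ℤ) (hh : 3 ≤ h) (o P : Pos n) (x : Pos n → Cell n)
    (hx : Rule h x) (Q : Prop)
    (dl dh : Fin (n + 2) → ℤ) (hl : ∀ i, 0 ≤ dl i) (hr : ∀ i, dh i ≤ h) (h0 : dl 0 = dh 0)
    (hW : ∀ s, par h o s = P → (∀ i, dl i ≤ dgt h o s i ∧ dgt h o s i ≤ dh i) →
      (wdom (x s) ↔ Q))
    (hc : ∀ s, par h o s = P → (∀ i, dl i ≤ dgt h o s i ∧ dgt h o s i ≤ dh i) →
      dgt h o s 1 < dh 1 → (x s).c 0 1 ≠ K3.lo) :
    ∀ s s' : Pos n, par h o s = P → par h o s' = P →
      (∀ i, dl i ≤ dgt h o s i ∧ dgt h o s i ≤ dh i) →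
      (∀ i, dl i ≤ dgt h o s' i ∧ dgt h o s' i ≤ dh i) → (x s).w = (x s').w := by
  apply box h hh o P (fun s => (x s).w) dl dh hl hr
  intro s m hs hb hm
  obtain ⟨f1, f2, f3, f4, f5, f6, f7, f8⟩ := J19.sit_facts h hh o
  have hm1 : dgt h o s m ≠ h := by
    have := hr m
    omega
  obtain ⟨g1, g2⟩ := f5 s m hm1
  have hs' : par h o (up s m) = P := by rw [g1, hs]
  have hb' : ∀ i, dl i ≤ dgt h o (up s m) i ∧ dgt h o (up s m) i ≤ dh i := by
    intro i
    rw [g2]
    by_cases hi : i = m
    · subst hi
      rw [Function.update_self]
      have := hb i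
      constructor <;> omega
    · rw [Function.update_of_ne hi]
      exact hb i
  have w1 := (hx s).dat.wd.trans (hW s hs hb)
  have w2 := (hx (up s m)).dat.wd.trans (hW _ hs' hb')
  symm
  apply option_eq (w1.trans w2.symm)
  by_cases m0 : m = 0
  · subst m0
    have := hb 0
    omega
  by_cases m1 : m = 1
  · subst m1
    exact (hx s).dat.wA (hc s hs hb hm)
  · exact (hx s).dat.wM m m0 m1

/- TARGET. Proof in words:
x' = coarse h o o' x; its digits are remainders mod 6h+2, so J24a applies. First claim: fix the block P; on the box of the sites s of P with dgt s 0 = h the function (x s).w is constant (J20): a step in direction m>=2: wdom holds at both or none (J24a: wdom iff wdom (x' P)), use wd and wM; a step in direction 1 inside the block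
starts at a site with dgt 0=h, dgt 1 != h, so c 0 1=hi != lo (E.c1) and wA applies. The corner is one of these sites.
Second: fix P and a in {1,2}. If the digits X of x' P are regular: a=1: the sites with dgt 0=0, dgt 1 in [0,h-1], dgt m in [1,h-1] for m != 0,1 form a box on which wvis holds; a=2: dgt 0=1, dgt 1 in [1,h], dgt m in [1,h-1]. On it w is some (wd, J24a) and constant: steps in direction 1 start at a site with dgt 0 != h, dgt 1 != h, where
c 0 1=same (E.c0), wA; other steps wM. Let sh P a be the value at one site of the box. Where wvis fails w is none (wd, J24a).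
-/
theorem w_blocks {n : ℕ} (h : ℤ) (hh : 3 ≤ h) (o o' : Pos n) (x : Pos n → Cell n)
    (hx : Rule h x) (E : ExSk h o x (coarse h o o' x)) :
    (∀ s, dgt h o s 0 = h → (x s).w = (coarse h o o' x (par h o s)).w) ∧
    ∃ sh : Pos n → ℤ → Val,
      (∀ s, dgt h o s 0 ≠ h → wvis h (dgt h o s) (coarse h o o' x (par h o s)).dig →
        (x s).w = some (sh (par h o s) (dgt h o s 0 + 1))) ∧
      (∀ s, dgt h o s 0 ≠ h → ¬ wvis h (dgt h o s) (coarse h o o' x (par h o s)).dig →
        (x s).w = none) := by
  obtain ⟨f1, f2, f3, f4, f5, f6, f7, f8⟩ := J19.sit_facts h hh o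
  have h01 : (0 : Fin (n + 2)) ≠ 1 := by
    intro h
    have := congrArg Fin.val h
    simp at this
  have h10 : (1 : Fin (n + 2)) ≠ 0 := fun h => h01 h.symm
  have hdig : ∀ P i, 0 ≤ (coarse h o o' x P).dig i ∧ (coarse h o o' x P).dig i ≤ 6 * h + 1 := by
    intro P i
    simp only [coarse]
    constructor
    · apply Int.emod_nonneg
      omega
    · have := Int.emod_lt_of_pos (P i + o' i) (show (0 : ℤ) < 6 * h + 1 + 1 by omega)
      omega
  have RL := fun s => J24a.read_labels h hh o x (coarse h o o' x) E s (hdig (par h o s))
  refine ⟨?_, fun P a => ((x (sit h o P (fun i => if i = 0 then a - 1 else 1))).w).getD Val.one,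
    ?_, ?_⟩
  · intro s hs
    have hcor := f3 (par h o s) (fun _ => h) (fun i => ⟨by omega, le_refl _⟩)
    show (x s).w = (x (corner h o (par h o s))).w
    rw [f4]
    refine w_box h hh o (par h o s) x hx (wdom (coarse h o o' x (par h o s)))
      (fun i => if i = 0 then h else 0) (fun _ => h) ?_ ?_ ?_ ?_ ?_ s _ rfl hcor.1 ?_ ?_
    · intro i
      try dsimp only
      split_ifs <;> omega
    · intro i
      exact le_refl _
    · simp
    · intro t ht hb
      have hb0 := hb 0
      simp only [if_true] at hb0
      have := ((RL t).2.2.2 (by omega)).1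
      rw [ht] at this
      exact this
    · intro t ht hb hlt
      have hb0 := hb 0
      simp only [if_true] at hb0
      try dsimp only at hlt
      rw [E.c1 t 0 1 h01 (by omega) (by omega)]
      simp
    · intro i
      have := f1 s i
      try dsimp only
      split_ifs with hi
      · subst hi
        omega
      · omega
    · intro i
      rw [hcor.2]
      try dsimp only
      split_ifs <;> omega
  · intro s hs hv
    have hdom : wdom (x s) := by
      have := ((RL s).2.2.1 hs).2.2.2.2.2.2.2
      exact this.2 hv
    have hsome := (hx s).dat.wd.2 hdom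
    rw [Option.isSome_iff_exists] at hsome
    obtain ⟨v, hvv⟩ := hsome
    have hw := hv
    unfold wvis at hw
    obtain ⟨hw1, hw2, hw3⟩ := hw
    -- the two cases are treated together
    have main : ∀ a : ℤ, (a = 0 ∨ a = 1) → dgt h o s 0 = a → (a = 0 → dgt h o s 1 ≠ h) →
        (a = 1 → dgt h o s 1 ≠ 0) →
        (x s).w = (x (sit h o (par h o s) (fun i => if i = 0 then a else 1))).w := by
      intro a ha h0 ha0 ha1
      have hsit := f3 (par h o s) (fun i => if i = 0 then a else 1) (fun i => by
        try dsimp only
        split_ifs <;> omega)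
      refine w_box h hh o (par h o s) x hx True
        (fun i => if i = 0 then a else if i = 1 then a else 1)
        (fun i => if i = 0 then a else if i = 1 then h - 1 + a else h - 1)
        ?_ ?_ ?_ ?_ ?_ s _ rfl hsit.1 ?_ ?_
      · intro i
        try dsimp only
        split_ifs <;> omega
      · intro i
        try dsimp only
        split_ifs <;> omega
      · simp
      · intro t ht hb
        have hb0 := hb 0
        have hb1 := hb 1
        simp only [if_true, h10, if_false] at hb0 hb1
        have hne : dgt h o t 0 ≠ h := by omega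
        have := ((RL t).2.2.1 hne).2.2.2.2.2.2.2
        rw [ht] at this
        refine ⟨fun _ => trivial, fun _ => this.2 ?_⟩
        unfold wvis
        refine ⟨?_, hw2, ?_⟩
        · intro m hm0 hm1
          have := hb m
          simp only [hm0, hm1, if_false] at this
          constructor <;> omega
        · rcases ha with rfl | rfl
          · left
            constructor <;> omega
          · right
            constructor <;> omega
      · intro t ht hb hlt
        have hb0 := hb 0
        simp only [if_true, h10, if_false] at hb0 hlt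
        rw [E.c0 t 0 1 h01 (by omega) (by omega)]
        simp
      · intro i
        have := f1 s i
        try dsimp only
        split_ifs with hi hi
        · subst hi
          omega
        · subst hi
          rcases ha with rfl | rfl
          · have := ha0 rfl
            omega
          · have := ha1 rfl
            omega
        · have := hw1 i (by assumption) (by assumption)
          omega
      · intro i
        rw [hsit.2]
        try dsimp only
        split_ifs <;> omega
    have hfin : (x s).w = (x (sit h o (par h o s)
        (fun i => if i = 0 then dgt h o s 0 else 1))).w := by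
      rcases hw3 with ⟨a1, a2⟩ | ⟨a1, a2⟩
      · have := main 0 (Or.inl rfl) a1 (fun _ => a2) (fun h => by omega)
        rw [a1]
        exact this
      · have := main 1 (Or.inr rfl) a1 (fun h => by omega) (fun _ => a2)
        rw [a1]
        exact this
    have e1 : dgt h o s 0 + 1 - 1 = dgt h o s 0 := by ring
    show (x s).w = some ((x (sit h o (par h o s)
      (fun i => if i = 0 then dgt h o s 0 + 1 - 1 else 1))).w.getD Val.one)
    rw [e1, ← hfin, hvv]
    rfl
  · intro s hs hv
    have := ((RL s).2.2.1 hs).2.2.2.2.2.2.2
    have hnd : ¬ wdom (x s) := fun hd => hv (this.1 hd)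
    have hns : ¬ (x s).w.isSome := fun hd => hnd ((hx s).dat.wd.1 hd)
    simpa using hns

end J24c
end Helper536
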