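import Mathlib
import Pool.Agent.helper536_SFT.Defs
import Pool.Agent.helper536_SFT.J19
import Pool.Agent.helper536_SFT.J24a

namespace Helper536
namespace J24d

/- TARGET. Proof in words:
Let x' = coarse h o o' x, X=(x' P).dig (between 0 and 6h+1). tau (ty t)=tau t for t>=1. a=1: s=sit h o P D with D 0=0, D 1=t-1, D m=1 (m != 0,1). c 0 1=same (E.c0), zc, (lab 0 1).ty=1, (lab 1 0).ty=ty t (J24a). up s 0 has digits D with D 0=1: vvis, so v=some (rv P t) (v2). shareIs (x s) (eff h X (sh P 1)): if extr: isZ; if not extr and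
mark h (X 0)=h: isN, phc=phase; otherwise isR and w2 gives w = some (sh P 1). Apply the rule field al1. a=2: D 0=1, D 1=t-1, D m=1: v (s)=some (rv P t); up s 1 has D 1=t>=1 in the same block: shareIs (x (up s 1)) (eff h X (sh P 2)) (w2 with D 0=1, D 1=t != 0). Apply al2.
rd1: Q=up P 1, s=sit h o Q D with D 0=0, D 1=0, D m=1: w=some (sh Q 1). s=up s0 1 with s0=sit h o P D0, D0 = D with D0 1=h. At s0: c 0 1=lo (E.c2), (lab 0 1).ty=1; wB gives (x s0).v=some (sh Q 1), and v1. rd2: s=sit h o P D, D 0=1, D 1=h, D m=1: w=some (sh P 2), c 0 1=lo, ty=2: wC, v1.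
-/

/-- a place of a block: a on the axis 0, b on the axis 1, and 1 on the other axes -/
def al_pl {n : ℕ} (a b : ℤ) : Fin (n + 2) → ℤ := fun m => if m = 0 then a else if m = 1 then b else 1

theorem al_10 {n : ℕ} : (1 : Fin (n + 2)) ≠ 0 := by
  intro h
  have := congrArg Fin.val h
  simp at this

theorem al_pl0 {n : ℕ} (a b : ℤ) : (al_pl a b : Fin (n + 2) → ℤ) 0 = a := by simp [al_pl]

theorem al_pl1 {n : ℕ} (a b : ℤ) : (al_pl a b : Fin (n + 2) → ℤ) 1 = b := by
  simp [al_pl, al_10]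

theorem al_plm {n : ℕ} (a b : ℤ) (m : Fin (n + 2)) (h0 : m ≠ 0) (h1 : m ≠ 1) :
    (al_pl a b : Fin (n + 2) → ℤ) m = 1 := by
  simp [al_pl, h0, h1]

theorem al_up0 {n : ℕ} (a b c : ℤ) :
    Function.update (al_pl a b : Fin (n + 2) → ℤ) 0 c = al_pl c b := by
  funext m
  by_cases h0 : m = 0
  · subst h0; simp [al_pl]
  · rw [Function.update_of_ne h0]
    simp [al_pl, h0]

theorem al_up1 {n : ℕ} (a b c : ℤ) :
    Function.update (al_pl a b : Fin (n + 2) → ℤ) 1 c = al_pl a c := by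
  funext m
  by_cases h1 : m = 1
  · subst h1; simp [al_pl, al_10]
  · rw [Function.update_of_ne h1]
    simp [al_pl, h1]

theorem al_tau (t : ℤ) (ht : 1 ≤ t) : tau (Helper536.ty t) = tau t := by
  unfold tau Helper536.ty
  split_ifs with h1 h2
  · rfl
  · simp [h2]
  · simp [h2]

theorem al_blocks {n : ℕ} (h : ℤ) (hh : 3 ≤ h) (o o' : Pos n) (x : Pos n → Cell n)
    (hx : Rule h x) (E : ExSk h o x (coarse h o o' x)) (rv sh : Pos n → ℤ → Val)
    (v1 : ∀ s, dgt h o s 1 = h → (x s).v = (coarse h o o' x (par h o s)).v)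
    (v2 : ∀ s, dgt h o s 1 ≠ h → vvis h (dgt h o s) →
        (x s).v = some (rv (par h o s) (dgt h o s 1 + 1)))
    (w2 : ∀ s, dgt h o s 0 ≠ h → wvis h (dgt h o s) (coarse h o o' x (par h o s)).dig →
        (x s).w = some (sh (par h o s) (dgt h o s 0 + 1))) :
    (∀ P t, 1 ≤ t → t ≤ h → ∀ a, (a = 1 ∨ a = 2) →
      allowed (eff h (coarse h o o' x P).dig (sh P a)) (tau t) (rv P t)) ∧
    (∀ P, reg h (coarse h o o' x (up P 1)).dig →
      (coarse h o o' x P).v = some (sh (up P 1) 1)) ∧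
    (∀ P, reg h (coarse h o o' x P).dig → (coarse h o o' x P).v = some (sh P 2)) := by
  have hx'dig : ∀ P i, 0 ≤ (coarse h o o' x P).dig i ∧
      (coarse h o o' x P).dig i ≤ 6 * h + 1 := by
    intro P i
    change 0 ≤ (P i + o' i) % (6 * h + 1 + 1) ∧ (P i + o' i) % (6 * h + 1 + 1) ≤ 6 * h + 1
    have h1 := Int.emod_nonneg (P i + o' i) (show (6 * h + 1 + 1 : ℤ) ≠ 0 by omega)
    have h2 := Int.emod_lt_of_pos (P i + o' i) (show (0 : ℤ) < 6 * h + 1 + 1 by omega)
    constructor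
    · exact h1
    · omega
  obtain ⟨-, -, Ssit, -, Sup, Sup', -, -⟩ := J19.sit_facts h hh o
  have R : ∀ s, _ := fun s => J24a.read_labels h hh o x (coarse h o o' x) E s
    (hx'dig (par h o s))
  have h10 : (1 : Fin (n + 2)) ≠ 0 := al_10
  have h01 : (0 : Fin (n + 2)) ≠ 1 := al_10.symm
  have hrange : ∀ a b : ℤ, 0 ≤ a → a ≤ h → 0 ≤ b → b ≤ h → ∀ i : Fin (n + 2),
      0 ≤ (al_pl a b : Fin (n + 2) → ℤ) i ∧ (al_pl a b : Fin (n + 2) → ℤ) i ≤ h := by
    intro a b ha ha' hb hb' i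
    unfold al_pl
    split_ifs <;> constructor <;> omega
  -- shares
  have share : ∀ P a b, 0 ≤ a → a < h → 0 ≤ b → b ≤ h → ((a = 0 ∧ b ≠ h) ∨ (a = 1 ∧ b ≠ 0)) →
      shareIs (x (sit h o P (al_pl a b)))
        (eff h (coarse h o o' x P).dig (sh P (a + 1))) := by
    intro P a b ha ha' hb hb' hab
    obtain ⟨hp, hd⟩ := Ssit P (al_pl a b) (hrange a b ha ha'.le hb hb')
    have R1 := (R (sit h o P (al_pl a b))).2.2.1
    rw [hp, hd, al_pl0] at R1
    obtain ⟨-, rZ, rN, rR, rph, -⟩ := R1 (by omega)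
    unfold eff
    split_ifs with h1 h2
    · exact Or.inl ⟨rZ.2 h1, rfl⟩
    · refine Or.inr (Or.inl ⟨rN.2 ⟨h1, h2⟩, ?_⟩)
      rw [rph]
    · refine Or.inr (Or.inr ⟨rR.2 ⟨h1, h2⟩, sh P (a + 1), ?_, rfl⟩)
      have := w2 (sit h o P (al_pl a b)) (by rw [hd, al_pl0]; omega) (by
        rw [hp, hd]
        refine ⟨?_, ⟨h1, h2⟩, ?_⟩
        · intro m hm0 hm1
          rw [al_plm _ _ _ hm0 hm1]
          constructor <;> omega
        · rw [al_pl0, al_pl1]
          exact hab)
      rw [this, hp, hd, al_pl0]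
  have value : ∀ P b, 0 ≤ b → b < h →
      (x (sit h o P (al_pl 1 b))).v = some (rv P (b + 1)) := by
    intro P b hb hb'
    obtain ⟨hp, hd⟩ := Ssit P (al_pl 1 b) (hrange 1 b (by omega) (by omega) hb hb'.le)
    have := v2 (sit h o P (al_pl 1 b)) (by rw [hd, al_pl1]; omega) (by
      rw [hd]
      intro m hm
      by_cases hm0 : m = 0
      · rw [hm0, al_pl0]; constructor <;> omega
      · rw [al_plm _ _ _ hm0 hm]; constructor <;> omega)
    rw [this, hp, hd, al_pl1]
  have step0 : ∀ P a b, 0 ≤ a → a < h → 0 ≤ b → b ≤ h →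
      up (sit h o P (al_pl a b)) 0 = sit h o P (al_pl (a + 1) b) := by
    intro P a b ha ha' hb hb'
    obtain ⟨hp, hd⟩ := Ssit P (al_pl a b) (hrange a b ha ha'.le hb hb')
    have h1 := Sup (sit h o P (al_pl a b)) 0 (by rw [hd, al_pl0]; omega)
    rw [hp, hd, al_up0, al_pl0] at h1
    have h2 := (J19.sit_facts h hh o).2.1 (up (sit h o P (al_pl a b)) 0)
    rw [h1.1, h1.2] at h2
    exact h2.symm
  have step1 : ∀ P a b, 0 ≤ a → a ≤ h → 0 ≤ b → b < h →
      up (sit h o P (al_pl a b)) 1 = sit h o P (al_pl a (b + 1)) := by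
    intro P a b ha ha' hb hb'
    obtain ⟨hp, hd⟩ := Ssit P (al_pl a b) (hrange a b ha ha' hb hb'.le)
    have h1 := Sup (sit h o P (al_pl a b)) 1 (by rw [hd, al_pl1]; omega)
    rw [hp, hd, al_up1, al_pl1] at h1
    have h2 := (J19.sit_facts h hh o).2.1 (up (sit h o P (al_pl a b)) 1)
    rw [h1.1, h1.2] at h2
    exact h2.symm
  have step1' : ∀ P a, 0 ≤ a → a ≤ h →
      up (sit h o P (al_pl a h)) 1 = sit h o (up P 1) (al_pl a 0) := by
    intro P a ha ha'
    obtain ⟨hp, hd⟩ := Ssit P (al_pl a h) (hrange a h ha ha' (by omega) le_rfl)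
    have h1 := Sup' (sit h o P (al_pl a h)) 1 (by rw [hd, al_pl1])
    rw [hp, hd, al_up1] at h1
    have h2 := (J19.sit_facts h hh o).2.1 (up (sit h o P (al_pl a h)) 1)
    rw [h1.1, h1.2] at h2
    exact h2.symm
  have labs : ∀ P a b, 0 ≤ a → a < h → 0 ≤ b → b ≤ h →
      zc (x (sit h o P (al_pl a b))) ∧
      (((x (sit h o P (al_pl a b))).lab 0 1).ty = 1 ↔ a = 0) ∧
      (((x (sit h o P (al_pl a b))).lab 0 1).ty = 2 ↔ a = 1) := by
    intro P a b ha ha' hb hb'
    obtain ⟨hp, hd⟩ := Ssit P (al_pl a b) (hrange a b ha ha'.le hb hb')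
    have R1 := (R (sit h o P (al_pl a b))).2.2.1
    rw [hp, hd, al_pl0] at R1
    obtain ⟨rz, -, -, -, -, rt1, rt2, -⟩ := R1 (by omega)
    refine ⟨rz.2 ?_, rt1, rt2⟩
    intro m hm0 hm1
    rw [al_plm _ _ _ hm0 hm1]
    constructor <;> omega
  have parity : ∀ P a b, 0 ≤ a → a ≤ h → 0 ≤ b → b < h →
      tau ((x (sit h o P (al_pl a b))).lab 1 0).ty = tau (b + 1) := by
    intro P a b ha ha' hb hb'
    obtain ⟨hp, hd⟩ := Ssit P (al_pl a b) (hrange a b ha ha' hb hb'.le)
    have R1 := (R (sit h o P (al_pl a b))).1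
    rw [hp, hd, al_pl1] at R1
    rw [(R1 (by omega)).2]
    change tau (Helper536.ty (b + 1)) = _
    exact al_tau _ (by omega)
  have same : ∀ P a b, 0 ≤ a → a < h → 0 ≤ b → b < h →
      (x (sit h o P (al_pl a b))).c 0 1 = K3.same := by
    intro P a b ha ha' hb hb'
    obtain ⟨hp, hd⟩ := Ssit P (al_pl a b) (hrange a b ha ha'.le hb hb'.le)
    exact E.c0 _ 0 1 h01 (by rw [hd, al_pl0]; omega) (by rw [hd, al_pl1]; omega)
  have low : ∀ P a, 0 ≤ a → a < h →
      (x (sit h o P (al_pl a h))).c 0 1 = K3.lo := by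
    intro P a ha ha'
    obtain ⟨hp, hd⟩ := Ssit P (al_pl a h) (hrange a h ha ha'.le (by omega) le_rfl)
    exact E.c2 _ 0 1 h01 (by rw [hd, al_pl0]; omega) (by rw [hd, al_pl1])
  have showw : ∀ P a b, 0 ≤ a → a < h → 0 ≤ b → b ≤ h → ((a = 0 ∧ b ≠ h) ∨ (a = 1 ∧ b ≠ 0)) →
      reg h (coarse h o o' x P).dig →
      (x (sit h o P (al_pl a b))).w = some (sh P (a + 1)) := by
    intro P a b ha ha' hb hb' hab hreg
    obtain ⟨hp, hd⟩ := Ssit P (al_pl a b) (hrange a b ha ha'.le hb hb')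
    have := w2 (sit h o P (al_pl a b)) (by rw [hd, al_pl0]; omega) (by
      rw [hp, hd]
      refine ⟨?_, hreg, ?_⟩
      · intro m hm0 hm1
        rw [al_plm _ _ _ hm0 hm1]
        constructor <;> omega
      · rw [al_pl0, al_pl1]
        exact hab)
    rw [this, hp, hd, al_pl0]
  have cornerv : ∀ P a, 0 ≤ a → a ≤ h →
      (x (sit h o P (al_pl a h))).v = (coarse h o o' x P).v := by
    intro P a ha ha'
    obtain ⟨hp, hd⟩ := Ssit P (al_pl a h) (hrange a h ha ha' (by omega) le_rfl)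
    have := v1 (sit h o P (al_pl a h)) (by rw [hd, al_pl1])
    rw [this, hp]
  refine ⟨?_, ?_, ?_⟩
  · intro P t ht ht' a ha
    rcases ha with ha | ha
    · subst ha
      have hr := (hx (sit h o P (al_pl 0 (t - 1)))).dat.al1
        (same P 0 (t - 1) le_rfl (by omega) (by omega) (by omega))
        (labs P 0 (t - 1) le_rfl (by omega) (by omega) (by omega)).1
        ((labs P 0 (t - 1) le_rfl (by omega) (by omega) (by omega)).2.1.2 rfl)
        (eff h (coarse h o o' x P).dig (sh P (0 + 1))) (rv P (t - 1 + 1))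
        (share P 0 (t - 1) le_rfl (by omega) (by omega) (by omega) (Or.inl ⟨rfl, by omega⟩))
        (by
          change (x (up (sit h o P (al_pl 0 (t - 1))) 0)).v = _
          rw [step0 P 0 (t - 1) le_rfl (by omega) (by omega) (by omega)]
          exact value P (t - 1) (by omega) (by omega))
      rw [parity P 0 (t - 1) le_rfl (by omega) (by omega) (by omega)] at hr
      rw [sub_add_cancel, zero_add] at hr
      exact hr
    · subst ha
      have hr := (hx (sit h o P (al_pl 1 (t - 1)))).dat.al2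
        (same P 1 (t - 1) (by omega) (by omega) (by omega) (by omega))
        (labs P 1 (t - 1) (by omega) (by omega) (by omega) (by omega)).1
        ((labs P 1 (t - 1) (by omega) (by omega) (by omega) (by omega)).2.2.2 rfl)
        (eff h (coarse h o o' x P).dig (sh P (1 + 1))) (rv P (t - 1 + 1))
        (by
          change shareIs (x (up (sit h o P (al_pl 1 (t - 1))) 1)) _
          rw [step1 P 1 (t - 1) (by omega) (by omega) (by omega) (by omega)]
          exact share P 1 (t - 1 + 1) (by omega) (by omega) (by omega) (by omega)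
            (Or.inr ⟨rfl, by omega⟩))
        (value P (t - 1) (by omega) (by omega))
      rw [parity P 1 (t - 1) (by omega) (by omega) (by omega) (by omega)] at hr
      rw [sub_add_cancel] at hr
      exact hr
  · intro P hreg
    have hr := (hx (sit h o P (al_pl 0 h))).dat.wB (low P 0 le_rfl (by omega))
      ((labs P 0 h le_rfl (by omega) (by omega) le_rfl).2.1.2 rfl) (sh (up P 1) (0 + 1)) (by
        change (x (up (sit h o P (al_pl 0 h)) 1)).w = _
        rw [step1' P 0 le_rfl (by omega)]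
        exact showw (up P 1) 0 0 le_rfl (by omega) le_rfl (by omega)
          (Or.inl ⟨rfl, by omega⟩) hreg)
    rw [cornerv P 0 le_rfl (by omega), zero_add] at hr
    exact hr
  · intro P hreg
    have hr := (hx (sit h o P (al_pl 1 h))).dat.wC (low P 1 (by omega) (by omega))
      ((labs P 1 h (by omega) (by omega) (by omega) le_rfl).2.2.2 rfl) (sh P (1 + 1))
      (showw P 1 h (by omega) (by omega) (by omega) le_rfl (Or.inr ⟨rfl, by omega⟩) hreg)
    rw [cornerv P 1 (by omega) (by omega)] at hr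
    exact hr


end J24d
end Helper536
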