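import Mathlib
import Pool.Agent.helper536_SFT.Defs
import Pool.Agent.helper536_SFT.J19
import Pool.Agent.helper536_SFT.J24a

namespace Helper536
namespace J24e

/- TARGET. Proof in words:
Let s=corner h o P; all fields of coarse P except dig are those of x s; vdom, wdom, zc, isZ, shareIs only use lab, w, v, so vd, wd hold by the rule at s. The site up s m lies in the block up P m, with digit 0 in direction m and h in the others (J19). So for m != 1: (x (up s m)).v = (coarse (up P m)).v by v1; for m != 0:
(x (up s m)).w = (coarse (up P m)).w by w1. So vM, wM, wA, wB, wC, al1 are the fields of the rule at s. al2: shareIs (coarse (up P 1)) σ implies shareIs (x (up s 1)) σ by J24a last part (digit 0 of up s 1 is h).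
-/
theorem dat_blocks {n : ℕ} (h : ℤ) (hh : 3 ≤ h) (o o' : Pos n) (x : Pos n → Cell n)
    (hx : Rule h x) (E : ExSk h o x (coarse h o o' x))
    (v1 : ∀ s, dgt h o s 1 = h → (x s).v = (coarse h o o' x (par h o s)).v)
    (w1 : ∀ s, dgt h o s 0 = h → (x s).w = (coarse h o o' x (par h o s)).w) (P : Pos n) :
    LDat (coarse h o o' x P) (fun i => coarse h o o' x (up P i)) := by
  obtain ⟨f1, f2, f3, f4, f5, f6, f7, f8⟩ := J19.sit_facts (n := n) h hh o
  have hP := f3 P (fun _ => h) (fun _ => ⟨by omega, le_rfl⟩)
  rw [← f4 P] at hP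
  have hpar : ∀ m, par h o (up (corner h o P) m) = up P m := by
    intro m
    have h1 := (f6 (corner h o P) m (by rw [hP.2])).1
    rw [h1, hP.1]
  have hdgt : ∀ m, dgt h o (up (corner h o P) m) = Function.update (fun _ => h) m 0 := by
    intro m
    have h1 := (f6 (corner h o P) m (by rw [hP.2])).2
    rw [h1, hP.2]
  have hv : ∀ m, m ≠ 1 → (x (up (corner h o P) m)).v = (coarse h o o' x (up P m)).v := by
    intro m hm
    have h1 := v1 (up (corner h o P) m) (by
      rw [hdgt, Function.update_of_ne (Ne.symm hm)])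
    rw [h1, hpar]
  have hw : ∀ m, m ≠ 0 → (x (up (corner h o P) m)).w = (coarse h o o' x (up P m)).w := by
    intro m hm
    have h1 := w1 (up (corner h o P) m) (by
      rw [hdgt, Function.update_of_ne (Ne.symm hm)])
    rw [h1, hpar]
  have h10 : (1 : Fin (n + 2)) ≠ 0 := by
    intro h0
    have := congrArg Fin.val h0
    simp at this
  have hsh : ∀ σ, shareIs (coarse h o o' x (up P 1)) σ → shareIs (x (up (corner h o P) 1)) σ := by
    intro σ hσ
    have h1 := J24a.read_labels h hh o x (coarse h o o' x) E (up (corner h o P) 1) (by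
      intro i
      have h2 := Int.emod_nonneg (par h o (up (corner h o P) 1) i + o' i)
        (show (6 * h + 1 + 1 : ℤ) ≠ 0 by omega)
      have h3 := Int.emod_lt_of_pos (par h o (up (corner h o P) 1) i + o' i)
        (show (0 : ℤ) < 6 * h + 1 + 1 by omega)
      exact ⟨h2, by
        have h4 : (coarse h o o' x (par h o (up (corner h o P) 1))).dig i =
          (par h o (up (corner h o P) 1) i + o' i) % (6 * h + 1 + 1) := rfl
        omega⟩)
    have h2 := (h1.2.2.2 (by rw [hdgt, Function.update_of_ne (Ne.symm h10)])).2 σ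
    rw [hpar] at h2
    exact (h2 (hw 1 h10)).2 hσ
  have D := (hx (corner h o P)).dat
  constructor
  · exact D.vd
  · exact D.wd
  · intro m hm a b ha hb
    exact D.vM m hm a b ha ((hv m hm).trans hb)
  · intro m hm hm1 a b ha hb
    exact D.wM m hm hm1 a b ha ((hw m hm).trans hb)
  · intro hc a b ha hb
    exact D.wA hc a b ha ((hw 1 h10).trans hb)
  · intro hc ht a ha
    exact D.wB hc ht a ((hw 1 h10).trans ha)
  · exact D.wC
  · intro hc hz ht σ b hσ hb
    exact D.al1 hc hz ht σ b hσ ((hv 0 (Ne.symm h10)).trans hb)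
  · intro hc hz ht σ b hσ hb
    exact D.al2 hc hz ht σ b (hsh σ hσ) hb

end J24e
end Helper536
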