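import Mathlib
import Pool.Agent.helper536_SFT.Defs
import Pool.Agent.helper536_SFT.Forms
import Pool.Agent.helper536_SFT.J23
import Pool.Agent.helper536_SFT.J24b
import Pool.Agent.helper536_SFT.J24c
import Pool.Agent.helper536_SFT.J24d
import Pool.Agent.helper536_SFT.J24e

namespace Helper536
namespace J25

/- TARGET. Proof in words:
One step: if 3<=h and Rule h x, then J23 gives o, o'; with J24b, J24c, J24d, J24e we get x'=coarse h o o' x with Rule (6h+1) x', ExSk h o x x', ExDat h o x x' rv sh. Define the X k by recursion with choice on the subtype of configurations obeying Rule (hh k) (hh (k+1)=6*hh k+1 definitionally, hh 0=3), and choose o k, rv k, sh k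
for every k from the step.
-/
theorem step_aux {n : ℕ} (h : ℤ) (h3 : 3 ≤ h) (x : Pos n → Cell n) (hx : Rule h x) :
    ∃ (o : Pos n) (x' : Pos n → Cell n) (rv sh : Pos n → ℤ → Val),
      Rule (6 * h + 1) x' ∧ ExSk h o x x' ∧ ExDat h o x x' rv sh := by
  obtain ⟨o, o', E, hL⟩ := J23.sk_coarse h h3 x (fun s => (hx s).sk)
  obtain ⟨v1, rv, v2, v3⟩ := J24b.v_blocks h h3 o o' x hx E
  obtain ⟨w1, sh, w2, w3⟩ := J24c.w_blocks h h3 o o' x hx E
  obtain ⟨al, rd1, rd2⟩ := J24d.al_blocks h h3 o o' x hx E rv sh v1 v2 w2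
  refine ⟨o, coarse h o o' x, rv, sh, ?_, E, ?_⟩
  · intro P
    exact ⟨hL P, J24e.dat_blocks h h3 o o' x hx E v1 w1 P⟩
  · exact ⟨v1, v2, v3, w1, w2, w3, al, rd1, rd2⟩

theorem hh_ge (k : ℕ) : 3 ≤ hh k := by
  induction k with
  | zero => exact le_refl _
  | succ k ih =>
    show 3 ≤ 6 * hh k + 1
    omega

/-- the configurations of the tower -/
noncomputable def XX {n : ℕ} (x : Pos n → Cell n) (hx : Rule 3 x) :
    (k : ℕ) → {y : Pos n → Cell n // Rule (hh k) y}
  | 0 => ⟨x, hx⟩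
  | k + 1 =>
    ⟨(step_aux (hh k) (hh_ge k) (XX x hx k).1 (XX x hx k).2).choose_spec.choose,
      (step_aux (hh k) (hh_ge k) (XX x hx k).1 (XX x hx k).2).choose_spec.choose_spec.choose_spec.choose_spec.1⟩

theorem tower_exists {n : ℕ} (x : Pos n → Cell n) (hx : Rule 3 x) :
    ∃ (o : ℕ → Pos n) (X : ℕ → Pos n → Cell n) (rv sh : ℕ → Pos n → ℤ → Val),
      X 0 = x ∧ Tower hh o X rv sh := by
  have hst : ∀ k, ∃ (o : Pos n) (rv sh : Pos n → ℤ → Val),
      ExSk (hh k) o (XX x hx k).1 (XX x hx (k + 1)).1 ∧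
      ExDat (hh k) o (XX x hx k).1 (XX x hx (k + 1)).1 rv sh := by
    intro k
    have hs := (step_aux (hh k) (hh_ge k) (XX x hx k).1 (XX x hx k).2).choose_spec.choose_spec
    obtain ⟨rv, sh, h1, h2, h3⟩ := hs
    exact ⟨_, rv, sh, h2, h3⟩
  choose o rv sh h1 h2 using hst
  exact ⟨o, fun k => (XX x hx k).1, rv, sh, rfl, fun k => (XX x hx k).2, h1, h2⟩

end J25
end Helper536
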