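import Mathlib
import Pool.Agent.helper536_SFT.Defs
import Pool.Agent.helper536_SFT.Forms
import Pool.Agent.helper536_SFT.J02
import Pool.Agent.helper536_SFT.J19

namespace Helper536
namespace J32

/- TARGET. Proof in words:
D=(X (j+1) P).dig = dgt (hh (j+1)) (o (j+1)) P (ExSk.dig). reg: D i != 0 and D i != 6*hh j+1 = hh (j+1) for all i. T.dat j: rd2 gives (X (j+1) P).v = some (sh j P 2); T.dat (j+1): v2 at P (D 1 != hh (j+1), vvis since D m != 0, hh (j+1)) gives (X (j+1) P).v = some (rv (j+1) (par P) (D 1+1)). So the second claim.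
First: P0 = P - Pi.single 1 1, so up P0 1 = P. rd1 at P0: (X (j+1) P0).v = some (sh j P 1). The digits of P0: D 1-1 in direction 1 (D 1>=1) and D m in the others, same block as P (J19: up P0 1=P; if the digit 1 of P0 were hh (j+1), the digit of P would be 0). v2 at P0: (X (j+1) P0).v = some (rv (j+1) (par P) (D 1-1+1)).
-/
theorem tower_share {n : ℕ} (o : ℕ → Pos n) (X : ℕ → Pos n → Cell n)
    (rv sh : ℕ → Pos n → ℤ → Val) (T : Tower hh o X rv sh) (j : ℕ) (P : Pos n)
    (hreg : reg (hh j) (X (j + 1) P).dig) :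
    sh j P 1 = rv (j + 1) (par (hh (j + 1)) (o (j + 1)) P) ((X (j + 1) P).dig 1) ∧
    sh j P 2 = rv (j + 1) (par (hh (j + 1)) (o (j + 1)) P) ((X (j + 1) P).dig 1 + 1) := by
  have hD : (X (j + 1) P).dig = dgt (hh (j + 1)) (o (j + 1)) P := (T.sk (j + 1)).dig P
  have hH : hh (j + 1) = 6 * hh j + 1 := rfl
  have hne : ∀ i, (X (j + 1) P).dig i ≠ 0 ∧ (X (j + 1) P).dig i ≠ hh (j + 1) := by
    intro i
    have h1 := hreg.1
    constructor
    · intro h2
      exact h1 ⟨i, Or.inl h2⟩
    · intro h2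
      exact h1 ⟨i, Or.inr (by rw [h2, hH])⟩
  obtain ⟨-, -, -, -, F5, F6, -, -⟩ :=
    J19.sit_facts (hh (j + 1)) (J02.digit_facts.1 (j + 1)) (o (j + 1))
  constructor
  · have hup : up (P - Pi.single 1 1) 1 = P := by
      unfold up
      simp
    have h0 : dgt (hh (j + 1)) (o (j + 1)) (P - Pi.single 1 1) 1 ≠ hh (j + 1) := by
      intro h2
      have h3 := (F6 _ 1 h2).2
      rw [hup, ← hD] at h3
      have h4 := congrFun h3 1
      rw [Function.update_self] at h4
      exact (hne 1).1 h4
    have h5 := F5 _ 1 h0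
    rw [hup, ← hD] at h5
    have h6 : (X (j + 1) P).dig 1 = dgt (hh (j + 1)) (o (j + 1)) (P - Pi.single 1 1) 1 + 1 := by
      have h7 := congrFun h5.2 1
      rw [Function.update_self] at h7
      exact h7
    have h8 : ∀ m, m ≠ 1 →
        (X (j + 1) P).dig m = dgt (hh (j + 1)) (o (j + 1)) (P - Pi.single 1 1) m := by
      intro m hm
      have h7 := congrFun h5.2 m
      rw [Function.update_of_ne hm] at h7
      exact h7
    have hv : vvis (hh (j + 1)) (dgt (hh (j + 1)) (o (j + 1)) (P - Pi.single 1 1)) := by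
      intro m hm
      rw [← h8 m hm]
      exact hne m
    have e1 := (T.dat (j + 1)).v2 _ h0 hv
    have e2 := (T.dat j).rd1 (P - Pi.single 1 1) (by rw [hup]; exact hreg)
    rw [hup] at e2
    rw [e2, ← h6, ← h5.1] at e1
    exact Option.some.inj e1
  · have hv : vvis (hh (j + 1)) (dgt (hh (j + 1)) (o (j + 1)) P) := by
      intro m _
      rw [← hD]
      exact hne m
    have e1 := (T.dat (j + 1)).v2 P (by rw [← hD]; exact (hne 1).2) hv
    have e2 := (T.dat j).rd2 P hreg
    rw [e2, ← hD] at e1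
    exact Option.some.inj e1

end J32
end Helper536
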