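import Mathlib
import Pool.Agent.helper536_SFT.Defs
import Pool.Agent.helper536_SFT.Forms
import Pool.Agent.helper536_SFT.J01
import Pool.Agent.helper536_SFT.J02
import Pool.Agent.helper536_SFT.J19
import Pool.Agent.helper536_SFT.J32

namespace Helper536
namespace J34

theorem nurs_ex (rho : Bool) (u : Option Bool) :
    ∃ p : ℤ, 0 ≤ p ∧ p ≤ 5 ∧ nurs p = Share.nur rho u := by
  rcases rho with _ | _ <;> rcases u with _ | _ | _
  · exact ⟨0, by norm_num, by norm_num, by simp [nurs]⟩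
  · exact ⟨4, by norm_num, by norm_num, by simp [nurs]⟩
  · exact ⟨2, by norm_num, by norm_num, by simp [nurs]⟩
  · exact ⟨1, by norm_num, by norm_num, by simp [nurs]⟩
  · exact ⟨5, by norm_num, by norm_num, by simp [nurs]⟩
  · exact ⟨3, by norm_num, by norm_num, by simp [nurs]⟩

theorem tau_succ_ne (Y : ℤ) : tau (Y + 1) ≠ tau Y := by
  unfold tau
  intro h
  rw [decide_eq_decide] at h
  omega

/- TARGET. Proof in words:
Y=Dc 1, 1<=Y<=hh (e+1)-1 (hh (e+1)=6*hh e+1; regular). rho=tau (Y+a-1). There is p in {0..5} with nurs p = nur rho u: p = (if rho then 1 else 0)+2*c with c=0,1,2 for u=none, some true, some false. Let h=hh (e+1), and Q2 : Pos with digits of level e+2: dgt (hh (e+2)) (o (e+2)) Q2 = fun i => if i=0 then (p+1)*h else 1 (take Q2 i = that minus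
o (e+2) i; (p+1)*h<=6h<hh (e+2)+1). By J01 (fourth part, p*h+h) mark h (X 0)=h, phase h (X 0)=p; no coordinate is 0 or 6h+1. So eff h (X (e+2) Q2).dig _ = nurs p and T.dat (e+1) field al: rv (e+1) Q2 t = if tau t=rho then one else nu u for 1<=t<=h. Q = sit h (o (e+1)) Q2 Dc: par = Q2, digits Dc (J19), (X (e+1) Q).dig=Dc.
J32: sh e Q 1 = rv (e+1) Q2 Y, sh e Q 2 = rv (e+1) Q2 (Y+1). So sh e Q a = one (parity rho) and the other one is nu u (other parity). Q is regular: eff (hh e) Dc (sh e Q a') = val (sh e Q a'), and al for the other share nu u gives the last claim.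
-/
theorem twin_box {n : ℕ} (o : ℕ → Pos n) (X : ℕ → Pos n → Cell n)
    (rv sh : ℕ → Pos n → ℤ → Val) (T : Tower hh o X rv sh) (e : ℕ) (Dc : Fin (n + 2) → ℤ)
    (h0 : ∀ i, 0 ≤ Dc i ∧ Dc i ≤ hh (e + 1)) (hreg : reg (hh e) Dc) (a : ℤ) (ha : a = 1 ∨ a = 2)
    (u : Option Bool) :
    ∃ Q : Pos n, dgt (hh (e + 1)) (o (e + 1)) Q = Dc ∧ sh e Q a = Val.one ∧
      ∀ t, 1 ≤ t → t ≤ hh e → rv e Q t = if u = some (tau t) then Val.one else Val.nu none := by
  classical
  obtain ⟨h3, -, -, -, -, -⟩ := J02.digit_facts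
  have h3e := h3 e
  have h3e1 := h3 (e + 1)
  have hs1 : hh (e + 1) = 6 * hh e + 1 := rfl
  have hs2 : hh (e + 2) = 6 * hh (e + 1) + 1 := rfl
  obtain ⟨p, hp0, hp5, hpn⟩ := nurs_ex (tau (Dc 1 + a - 1)) u
  obtain ⟨-, -, -, hms⟩ := J01.mark_step (hh (e + 1)) 0 h3e1 le_rfl (by omega)
  obtain ⟨hm1, hm2, hm3, hm4⟩ := hms p (hh (e + 1)) hp0 hp5 (by omega) le_rfl
  set Q2 : Pos n := fun i =>
    (if i = 0 then p * hh (e + 1) + hh (e + 1) else 1) - o (e + 2) i with hQ2
  have hd2 : dgt (hh (e + 2)) (o (e + 2)) Q2 =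
      fun i => if i = 0 then p * hh (e + 1) + hh (e + 1) else 1 := by
    funext i
    unfold dgt
    rw [hQ2]
    simp only [sub_add_cancel]
    apply Int.emod_eq_of_lt
    · split_ifs
      · exact hm3.le
      · norm_num
    · split_ifs
      · omega
      · omega
  have hdig2 : (X (e + 2) Q2).dig = dgt (hh (e + 2)) (o (e + 2)) Q2 := (T.sk (e + 2)).dig Q2
  have heff : ∀ v : Val, eff (hh (e + 1)) (X (e + 1 + 1) Q2).dig v =
      Share.nur (tau (Dc 1 + a - 1)) u := by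
    intro v
    have hdig2' : (X (e + 1 + 1) Q2).dig =
      fun i => if i = 0 then p * hh (e + 1) + hh (e + 1) else 1 := hdig2.trans hd2
    have hne : ¬ extr (hh (e + 1)) (X (e + 1 + 1) Q2).dig := by
      rw [hdig2']
      rintro ⟨i, hi⟩
      simp only at hi
      split_ifs at hi
      · omega
      · omega
    have hmk : mark (hh (e + 1)) ((X (e + 1 + 1) Q2).dig 0) = hh (e + 1) := by
      rw [hdig2']
      simp only [if_true]
      exact hm1
    have hph : phase (hh (e + 1)) ((X (e + 1 + 1) Q2).dig 0) = p := by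
      rw [hdig2']
      simp only [if_true]
      exact hm2
    unfold eff
    rw [if_neg hne, if_pos hmk, hph, hpn]
  have hrv : ∀ t, 1 ≤ t → t ≤ hh (e + 1) → rv (e + 1) Q2 t =
      if tau t = tau (Dc 1 + a - 1) then Val.one else Val.nu u := by
    intro t ht1 ht2
    have h := (T.dat (e + 1)).al Q2 t ht1 ht2 1 (Or.inl rfl)
    rw [heff] at h
    exact h
  obtain ⟨-, -, hsit, -, -, -, -, -⟩ := J19.sit_facts (hh (e + 1)) h3e1 (o (e + 1))
  obtain ⟨hpar, hdgt⟩ := hsit Q2 Dc h0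
  set Q := sit (hh (e + 1)) (o (e + 1)) Q2 Dc with hQ
  have hdigQ : (X (e + 1) Q).dig = Dc := ((T.sk (e + 1)).dig Q).trans hdgt
  have hregQ : reg (hh e) (X (e + 1) Q).dig := by rw [hdigQ]; exact hreg
  obtain ⟨hs, hs'⟩ := J32.tower_share o X rv sh T e Q hregQ
  rw [hpar, hdigQ] at hs hs'
  have hY : 1 ≤ Dc 1 ∧ Dc 1 + 1 ≤ hh (e + 1) := by
    have h1 := h0 1
    have h2 : Dc 1 ≠ 0 := fun h => hreg.1 ⟨1, Or.inl h⟩
    have h3 : Dc 1 ≠ 6 * hh e + 1 := fun h => hreg.1 ⟨1, Or.inr h⟩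
    omega
  have hal : ∀ a', (a' = 1 ∨ a' = 2) → sh e Q a' = Val.nu u → ∀ t, 1 ≤ t → t ≤ hh e →
      rv e Q t = if u = some (tau t) then Val.one else Val.nu none := by
    intro a' ha' hsh t ht1 ht2
    have h := (T.dat e).al Q t ht1 ht2 a' ha'
    have he : eff (hh e) (X (e + 1) Q).dig (sh e Q a') = Share.val (Val.nu u) := by
      unfold eff
      rw [if_neg hregQ.1, if_neg hregQ.2, hsh]
    rw [he] at h
    exact h
  refine ⟨Q, hdgt, ?_, ?_⟩
  · rcases ha with rfl | rfl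
    · rw [hs, hrv _ hY.1 (by omega), if_pos (by rw [add_sub_cancel_right])]
    · rw [hs', hrv _ (by omega) hY.2, if_pos (by congr 1; ring)]
  · rcases ha with rfl | rfl
    · apply hal 2 (Or.inr rfl)
      rw [hs', hrv _ (by omega) hY.2, if_neg (by rw [add_sub_cancel_right]; exact tau_succ_ne _)]
    · apply hal 1 (Or.inl rfl)
      rw [hs, hrv _ hY.1 (by omega), if_neg]
      rw [show Dc 1 + 2 - 1 = Dc 1 + 1 by ring]
      exact (tau_succ_ne _).symm

end J34
end Helper536
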