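import Mathlib
import Pool.Agent.helper536_SFT.Defs
import Pool.Agent.helper536_SFT.Forms
import Pool.Agent.helper536_SFT.J02
import Pool.Agent.helper536_SFT.J05

namespace Helper536
namespace J30

theorem ordF_self (D : ℕ → ℤ) (k : ℕ) (h : D k ≠ hh k) : ordF D k = k :=
  (J05.ordF_spec D k ⟨k, le_rfl, h⟩).2.2.2.2 k le_rfl h (fun m h1 h2 => absurd h2 (by omega))

theorem ordF_step (D : ℕ → ℤ) (k l : ℕ) (hkl : k < l) (hl : D l ≠ hh l) (h : D k = hh k) :
    ordF D k = ordF D (k + 1) := by
  obtain ⟨a1, a2, a3, _, _⟩ := J05.ordF_spec D (k + 1) ⟨l, hkl, hl⟩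
  refine (J05.ordF_spec D k ⟨l, hkl.le, hl⟩).2.2.2.2 _ (by omega) a2 ?_
  intro m h1 h2
  rcases Nat.eq_or_lt_of_le h1 with h3 | h3
  · rw [← h3]; exact h
  · exact a3 m h3 h2

theorem ordF_gt (D : ℕ → ℤ) (k l : ℕ) (hkl : k < l) (hl : D l ≠ hh l) (h : D k = hh k) :
    k < ordF D k := by
  rw [ordF_step D k l hkl hl h]
  exact (J05.ordF_spec D (k + 1) ⟨l, hkl, hl⟩).1

theorem par_anc {n : ℕ} (o : ℕ → Pos n) (s : Pos n) (k : ℕ) :
    par (hh k) (o k) (anc o k s) = anc o (k + 1) s := by
  funext i; rfl

theorem dgt_anc {n : ℕ} (o : ℕ → Pos n) (s : Pos n) (k : ℕ) :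
    dgt (hh k) (o k) (anc o k s) = dd o k s := by
  funext i; rfl

/- TARGET. Proof in words:
anc o (k+1) s = par (hh k) (o k) (anc o k s) and dgt (hh k) (o k) (anc o k s) = dd o k s hold by definition (funext; rfl). First claim: T.sk k field dig. Second: downward induction on k from l (e.g. induction on l-k). For k=l both digits differ from hh l, so c=same (ExSk.c0) and both ordF are l (J05 last part).
For k<l: if both digits k are hh k: ExSk.c3 and ordF k = ordF (k+1) for both (digit k is the last one; J05: since an m with digit != hh m exists at m=l, ordF D k is characterized by J05 last part). If exactly one is hh k: c1, c2 and the ordF of the other one is k, the ordF of this one is >k: cmp3=hi or lo. If none: c0.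
Third: let q=ordF of axis i from 0, q<l by J05. For m<q digits are hh m, so by ExSk.lab2 repeatedly (X 0 s).lab i j = (X q (anc o q s)).lab i j (induction), and at level q ExSk.lab1 gives lineLab (hh q) (D q i+1) (D q j) (X (q+1) P).dig i .. with P=anc o (q+1) s, whose dig = dd o (q+1) s and whose c i j is
given by the second claim (q+1<=l). This is labF.
-/
theorem tower_lab {n : ℕ} (o : ℕ → Pos n) (X : ℕ → Pos n → Cell n) (rv sh : ℕ → Pos n → ℤ → Val)
    (T : Tower hh o X rv sh) (s : Pos n) (l : ℕ) (hl : ∀ i, dd o l s i ≠ hh l) :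
    (∀ k, (X k (anc o k s)).dig = dd o k s) ∧
    (∀ k, k ≤ l → ∀ i j, i ≠ j → (X k (anc o k s)).c i j =
      cmp3 (ordF (fun m => dd o m s i) k) (ordF (fun m => dd o m s j) k)) ∧
    (∀ i j, i ≠ j → (∃ m < l, dd o m s i ≠ hh m) →
      (X 0 s).lab i j = labF (fun m => dd o m s) i j) := by
  have e1 : ∀ k, (X k (anc o k s)).dig = dd o k s := by
    intro k
    rw [(T.sk k).dig, dgt_anc]
  have e2 : ∀ d k, k + d = l → ∀ i j, i ≠ j → (X k (anc o k s)).c i j =
      cmp3 (ordF (fun m => dd o m s i) k) (ordF (fun m => dd o m s j) k) := by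
    intro d
    induction d with
    | zero =>
      intro k hk i j hij
      have hk' : k = l := by omega
      subst hk'
      rw [ordF_self (fun m => dd o m s i) k (hl i), ordF_self (fun m => dd o m s j) k (hl j)]
      rw [(T.sk k).c0 (anc o k s) i j hij (by rw [dgt_anc]; exact hl i) (by rw [dgt_anc]; exact hl j)]
      simp [cmp3]
    | succ d ih =>
      intro k hk i j hij
      have ihk := ih (k + 1) (by omega) i j hij
      have hkl : k < l := by omega
      by_cases hi : dd o k s i = hh k
      · by_cases hj : dd o k s j = hh k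
        · rw [(T.sk k).c3 (anc o k s) i j hij (by rw [dgt_anc]; exact hi) (by rw [dgt_anc]; exact hj), par_anc, ihk,
            ordF_step (fun m => dd o m s i) k l hkl (hl i) hi, ordF_step (fun m => dd o m s j) k l hkl (hl j) hj]
        · rw [(T.sk k).c1 (anc o k s) i j hij (by rw [dgt_anc]; exact hi) (by rw [dgt_anc]; exact hj)]
          have g := ordF_gt (fun m => dd o m s i) k l hkl (hl i) hi
          rw [ordF_self (fun m => dd o m s j) k hj]
          unfold cmp3
          rw [if_neg (by omega), if_pos g]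
      · by_cases hj : dd o k s j = hh k
        · rw [(T.sk k).c2 (anc o k s) i j hij (by rw [dgt_anc]; exact hi) (by rw [dgt_anc]; exact hj)]
          have g := ordF_gt (fun m => dd o m s j) k l hkl (hl j) hj
          rw [ordF_self (fun m => dd o m s i) k hi]
          unfold cmp3
          rw [if_neg (by omega), if_neg (by omega)]
        · rw [(T.sk k).c0 (anc o k s) i j hij (by rw [dgt_anc]; exact hi) (by rw [dgt_anc]; exact hj)]
          rw [ordF_self (fun m => dd o m s i) k hi, ordF_self (fun m => dd o m s j) k hj]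
          simp [cmp3]
  have e2' : ∀ k, k ≤ l → ∀ i j, i ≠ j → (X k (anc o k s)).c i j =
      cmp3 (ordF (fun m => dd o m s i) k) (ordF (fun m => dd o m s j) k) := by
    intro k hk i j hij
    exact e2 (l - k) k (by omega) i j hij
  refine ⟨e1, e2', ?_⟩
  intro i j hij hex
  obtain ⟨m0, hm0, hm0'⟩ := hex
  obtain ⟨a1, a2, a3, a4, _⟩ := J05.ordF_spec (fun m => dd o m s i) 0 ⟨m0, Nat.zero_le _, hm0'⟩
  have hq : ordF (fun m => dd o m s i) 0 < l := lt_of_le_of_lt (a4 m0 (Nat.zero_le _) hm0') hm0
  have e3 : ∀ m, m ≤ ordF (fun m => dd o m s i) 0 → (X 0 s).lab i j = (X m (anc o m s)).lab i j := by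
    intro m
    induction m with
    | zero => intro _; rfl
    | succ m ih =>
      intro hm
      rw [ih (by omega), (T.sk m).lab2 (anc o m s) i j hij (by rw [dgt_anc]; exact a3 m (Nat.zero_le _) (by omega)),
        par_anc]
  rw [e3 _ le_rfl]
  unfold labF
  generalize hqq : ordF (fun m => dd o m s i) 0 = q at *
  rw [(T.sk q).lab1 (anc o q s) i j hij (by rw [dgt_anc]; exact a2), par_anc, dgt_anc, e1,
    e2' (q + 1) (by omega) i j hij]

end J30
end Helper536
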