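import Pool.Agent.helper536_SFT.Forms

/-!
The situation of the twin lemma.
-/

namespace Helper536

open Classical in
/-- row values of a box of level j+1 all of whose ancestors up to a certain one are not flexible -/
noncomputable def rvN {n : ℕ} (j : ℕ) (D : ℕ → Fin (n + 2) → ℤ) (t : Bool) : Val :=
  if ¬ regL D j then srv (eff (hh j) (D (j + 1)) Val.one) t
  else if ¬ regL D (j + 1) then crv (eff (hh (j + 1)) (D (j + 2)) Val.one) t
  else Val.nu none

/-- the window with lower corner p and side r -/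
def InW {n : ℕ} (p : Pos n) (r : ℤ) (s : Pos n) : Prop := ∀ i, p i ≤ s i ∧ s i < p i + r

/-- the window (p,r) lies in a flexible box of level e+1 of the explicit configuration, least
possible; the translation Tr carries it into the box Q of the tower, whose share number a is one
and whose row values are given by u -/
structure Twin {n : ℕ} (o : ℕ → Pos n) (X : ℕ → Pos n → Cell n) (rv sh : ℕ → Pos n → ℤ → Val)
    (k e : ℕ) (r : ℤ) (p Tr Q : Pos n) (b : Pos n → Prop) (a : ℤ) (u : Option Bool) : Prop where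
  T : Tower hh o X rv sh
  ke : k ≤ e
  r1 : 1 ≤ r
  rL : r ≤ LL k
  flex : ∀ s, InW p r s → ∀ m, e ≤ m → regL (fun j => dd (oz n) j s) m
  mini : ∀ m, k ≤ m → m < e → ∀ s, InW p r s →
    (∀ m', m ≤ m' → regL (fun j => dd (oz n) j s) m') →
    ∃ i, anc1 (fun _ => 2) (m + 1) (p i) ≠ anc1 (fun _ => 2) (m + 1) (p i + r)
  tr : ∀ s, InW p r s → ∀ m, m ≤ e + 1 → dd o m (s + Tr) = dd (oz n) m s
  ancQ : ∀ s, InW p r s → anc o (e + 1) (s + Tr) = Q
  inn : ∀ s, InW p r s → ∀ i, ∃ m, m ≤ e ∧ dd (oz n) m s i ≠ hh m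
  a12 : a = 1 ∨ a = 2
  shQ : sh e Q a = Val.one
  rvQ : ∀ t, 1 ≤ t → t ≤ hh e → rv e Q t = if u = some (tau t) then Val.one else Val.nu none
  aW : ∀ s, InW p r s → (∀ m < e, dd (oz n) m s 0 = hh m) →
    (dd (oz n) e s 0 = 0 ∨ dd (oz n) e s 0 = 1) → dd (oz n) e s 0 + 1 = a
  u0 : e = k → ∀ s, InW p r s → (u = some true ∧ b (anc (oz n) (k + 1) s)) ∨
    (u = none ∧ ¬ b (anc (oz n) (k + 1) s))
  u1 : k < e → ∀ s, InW p r s → (∀ m < e, dd (oz n) m s 1 = hh m) →
    dd (oz n) e s 1 ≠ hh e → u = some (tau (dd (oz n) e s 1 + 1))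

end Helper536
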