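import Mathlib
import Pool.Agent.helper536_SFT.Defs
import Pool.Agent.helper536_SFT.Forms
import Pool.Agent.helper536_SFT.TwinDef
import Pool.Agent.helper536_SFT.J05
import Pool.Agent.helper536_SFT.J30

namespace Helper536
namespace J35

lemma ordF_congr (D D' : ℕ → ℤ) (N k : ℕ) (h : ∀ m ≤ N, D m = D' m) (hN : D N ≠ hh N)
    (hk : k ≤ N) : ordF D k = ordF D' k := by
  obtain ⟨h1, h2, h3, h4, _⟩ := J05.ordF_spec D k ⟨N, hk, hN⟩
  have h6 : ordF D k ≤ N := h4 N hk hN
  have hN' : D' N ≠ hh N := by rw [← h N le_rfl]; exact hN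
  obtain ⟨_, _, _, _, h5⟩ := J05.ordF_spec D' k ⟨N, hk, hN'⟩
  symm
  apply h5 _ h1
  · rw [← h _ h6]
    exact h2
  · intro m hm hm'
    rw [← h m (hm'.le.trans h6)]
    exact h3 m hm hm'

lemma labF_congr {n : ℕ} (D D' : ℕ → Fin (n + 2) → ℤ) (e : ℕ) (h : ∀ m ≤ e + 1, D m = D' m)
    (hN : ∀ i, D (e + 1) i ≠ hh (e + 1)) (hin : ∀ i, ∃ m, m ≤ e ∧ D m i ≠ hh m)
    (i j : Fin (n + 2)) : labF D i j = labF D' i j := by
  have h0 : ∀ i k, k ≤ e + 1 → ordF (fun m => D m i) k = ordF (fun m => D' m i) k := by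
    intro i k hk
    exact ordF_congr _ _ (e + 1) k (fun m hm => by rw [h m hm]) (hN i) hk
  obtain ⟨m, hm, hmi⟩ := hin i
  have h1 : ordF (fun m => D m i) 0 ≤ m :=
    (J05.ordF_spec (fun m => D m i) 0 ⟨m, Nat.zero_le m, hmi⟩).2.2.2.1 m (Nat.zero_le m) hmi
  have h2 : ordF (fun m => D m i) 0 ≤ e := h1.trans hm
  unfold labF
  rw [← h0 i 0 (Nat.zero_le _)]
  rw [← h0 i (ordF (fun m => D m i) 0 + 1) (by omega),
    ← h0 j (ordF (fun m => D m i) 0 + 1) (by omega),
    ← h (ordF (fun m => D m i) 0) (by omega), ← h (ordF (fun m => D m i) 0 + 1) (by omega)]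

/- TARGET. Proof in words:
D m = dd (oz n) m s, D' m = dd o m (s+Tr); D m = D' m for m<=e+1 (W.tr). W.flex with m=e: the coordinates D (e+1) are regular, so D (e+1) i != 6*hh e+1 = hh (e+1) for all i. Use J30 with l=e+1 at the site s+Tr: dig = D' 0 = D 0; for i != j c i j = cmp3 (ordF of D' i from 0) (ordF of D' j from 0), lab i j = labF D' i j
(W.inn gives m<=e with digit != hh m). ordF from any level k'<=e+1 is <= e+1 and by J05 last part it is the same for D and D' (it only depends on the digits up to e+1, the first level where the digit is not the last one). q=ordF (D i) 0<=e by W.inn, so all digits used in labF are of level <=e+1, hence labF D' i j = labF D i j. Diagonal: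
lab i i = dfl (ExSk.labD), c i i = same = cmp3 x x (ExSk.cD). zz k b s = cellF k D (b ..): unfold.
-/
theorem twin_sk {n : ℕ} (o : ℕ → Pos n) (X : ℕ → Pos n → Cell n) (rv sh : ℕ → Pos n → ℤ → Val)
    (k e : ℕ) (r : ℤ) (p Tr Q : Pos n) (b : Pos n → Prop) (a : ℤ) (u : Option Bool)
    (W : Twin o X rv sh k e r p Tr Q b a u) (s : Pos n) (hs : InW p r s) :
    (X 0 (s + Tr)).dig = (zz k b s).dig ∧ (X 0 (s + Tr)).lab = (zz k b s).lab ∧
      (X 0 (s + Tr)).c = (zz k b s).c := by
  have hD : ∀ m ≤ e + 1, dd o m (s + Tr) = dd (oz n) m s := fun m hm => W.tr s hs m hm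
  have hreg : regL (fun j => dd (oz n) j s) e := W.flex s hs e le_rfl
  have hext : ∀ i, dd (oz n) (e + 1) s i ≠ hh (e + 1) := by
    intro i hi
    apply hreg.1
    exact ⟨i, Or.inr hi⟩
  have hl : ∀ i, dd o (e + 1) (s + Tr) i ≠ hh (e + 1) := by
    intro i
    rw [hD (e + 1) le_rfl]
    exact hext i
  obtain ⟨h1, h2, h3⟩ := J30.tower_lab o X rv sh W.T (s + Tr) (e + 1) hl
  have hanc : anc o 0 (s + Tr) = s + Tr := rfl
  have hsk := W.T.sk 0
  refine ⟨?_, ?_, ?_⟩
  · have h4 := h1 0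
    rw [hanc, hD 0 (Nat.zero_le _)] at h4
    exact h4
  · funext i j
    change _ = if i = j then dfl else labF (fun m => dd (oz n) m s) i j
    by_cases hij : i = j
    · subst hij
      rw [if_pos rfl]
      exact hsk.labD _ _
    · rw [if_neg hij]
      obtain ⟨m, hm, hmi⟩ := W.inn s hs i
      rw [h3 i j hij ⟨m, by omega, by rw [hD m (by omega)]; exact hmi⟩]
      exact (labF_congr (fun m => dd (oz n) m s) (fun m => dd o m (s + Tr)) e
        (fun m hm => (hD m hm).symm) hext (fun i => W.inn s hs i) i j).symm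
  · funext i j
    change _ = cmp3 (ordF (fun m => dd (oz n) m s i) 0) (ordF (fun m => dd (oz n) m s j) 0)
    by_cases hij : i = j
    · subst hij
      rw [hsk.cD]
      simp [cmp3]
    · have h4 := h2 0 (Nat.zero_le _) i j hij
      rw [hanc] at h4
      rw [h4]
      have h5 : ∀ i, ordF (fun m => dd (oz n) m s i) 0 = ordF (fun m => dd o m (s + Tr) i) 0 := by
        intro i
        exact ordF_congr _ _ (e + 1) 0 (fun m hm => by rw [hD m hm]) (hext i) (Nat.zero_le _)
      rw [h5 i, h5 j]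

end J35
end Helper536
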