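import Mathlib
import Pool.Agent.helper536_SFT.Defs
import Pool.Agent.helper536_SFT.Forms
import Pool.Agent.helper536_SFT.J02

namespace Helper536
namespace J31

/- TARGET. Proof in words:
anc o (k+1) s = par (hh k) (o k) (anc o k s), dgt (hh k) (o k) (anc o k s) = dd o k s, (X k (anc o k s)).dig = dd o k s (ExSk.dig). By ExDat.v1 repeatedly: (X 0 s).v = (X k (anc o k s)).v as long as the digits m<k of axis 1 are the last ones (induction on k<=q). At level q: ExDat.v2, v3. The same for w with axis 0, w1, w2, w3.
-/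
open Classical in
theorem tower_vw {n : ℕ} (o : ℕ → Pos n) (X : ℕ → Pos n → Cell n) (rv sh : ℕ → Pos n → ℤ → Val)
    (T : Tower hh o X rv sh) (s : Pos n) (q : ℕ) :
    ((∀ m < q, dd o m s 1 = hh m) → dd o q s 1 ≠ hh q →
      (X 0 s).v = if vvis (hh q) (dd o q s) then
        some (rv q (anc o (q + 1) s) (dd o q s 1 + 1)) else none) ∧
    ((∀ m < q, dd o m s 0 = hh m) → dd o q s 0 ≠ hh q →
      (X 0 s).w = if wvis (hh q) (dd o q s) (dd o (q + 1) s) then
        some (sh q (anc o (q + 1) s) (dd o q s 0 + 1)) else none) := by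
  have hanc : ∀ k, par (hh k) (o k) (anc o k s) = anc o (k + 1) s := fun k => rfl
  have hdgt : ∀ k, dgt (hh k) (o k) (anc o k s) = dd o k s := fun k => rfl
  have hdig : ∀ k, (X k (anc o k s)).dig = dd o k s := fun k =>
    ((T.sk k).dig (anc o k s)).trans (hdgt k)
  constructor
  · intro hlast hq
    have key : ∀ k, k ≤ q → (X 0 s).v = (X k (anc o k s)).v := by
      intro k
      induction k with
      | zero => intro _; rfl
      | succ k ih =>
        intro hk
        rw [ih (by omega), (T.dat k).v1 (anc o k s) (hlast k (by omega)), hanc]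
    rw [key q le_rfl]
    by_cases hv : vvis (hh q) (dd o q s)
    · rw [if_pos hv, (T.dat q).v2 (anc o q s) hq hv, hanc, hdgt]
    · rw [if_neg hv, (T.dat q).v3 (anc o q s) hq hv]
  · intro hlast hq
    have key : ∀ k, k ≤ q → (X 0 s).w = (X k (anc o k s)).w := by
      intro k
      induction k with
      | zero => intro _; rfl
      | succ k ih =>
        intro hk
        rw [ih (by omega), (T.dat k).w1 (anc o k s) (hlast k (by omega)), hanc]
    rw [key q le_rfl]
    have hd1 : (X (q + 1) (par (hh q) (o q) (anc o q s))).dig = dd o (q + 1) s := by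
      rw [hanc]
      exact hdig (q + 1)
    by_cases hw : wvis (hh q) (dd o q s) (dd o (q + 1) s)
    · rw [if_pos hw, (T.dat q).w2 (anc o q s) hq (by rw [hd1]; exact hw), hanc, hdgt]
    · rw [if_neg hw, (T.dat q).w3 (anc o q s) hq (by rw [hd1]; exact hw)]

end J31
end Helper536
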