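import Mathlib
import Pool.Agent.helper536_SFT.Defs
import Pool.Agent.helper536_SFT.Forms
import Pool.Agent.helper536_SFT.TwinDef
import Pool.Agent.helper536_SFT.J02
import Pool.Agent.helper536_SFT.J32

namespace Helper536
namespace J33

/-- the digits of the next level -/
theorem dig_eq {n : ℕ} {o : ℕ → Pos n} {X : ℕ → Pos n → Cell n}
    {rv sh : ℕ → Pos n → ℤ → Val} (T : Tower hh o X rv sh) (s : Pos n) (m : ℕ) :
    (X m (anc o m s)).dig = dd o m s := (T.sk m).dig (anc o m s)

theorem tau_succ (Y : ℤ) : tau (Y + 1) = !tau Y := by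
  unfold tau
  rcases Int.emod_two_eq_zero_or_one Y with h | h
  · have h1 : (Y + 1) % 2 = 1 := by omega
    simp [h, h1]
  · have h1 : (Y + 1) % 2 = 0 := by omega
    simp [h, h1]

theorem eff_reg {n : ℕ} {h : ℤ} {X : Fin (n + 2) → ℤ} (hX : reg h X) (a : Val) :
    eff h X a = Share.val a := by
  unfold eff
  rw [if_neg hX.1, if_neg hX.2]

/-- the shapes of the shares of boxes that are not regular -/
theorem eff_shape {n : ℕ} {h : ℤ} {X : Fin (n + 2) → ℤ} (hX : ¬ reg h X) :
    ∃ σ : Share, (∀ a, eff h X a = σ) ∧ (σ = Share.val (Val.nu none) ∨ ∃ rho u, σ = Share.nur rho u) := by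
  by_cases h1 : extr h X
  · exact ⟨_, fun a => by unfold eff; rw [if_pos h1], Or.inl rfl⟩
  · have h2 : mark h (X 0) = h := by
      by_contra h3
      exact hX ⟨h1, h3⟩
    exact ⟨nurs (phase h (X 0)), fun a => by unfold eff; rw [if_neg h1, if_pos h2], Or.inr ⟨_, _, rfl⟩⟩

theorem al_eq {n : ℕ} {o : ℕ → Pos n} {X : ℕ → Pos n → Cell n}
    {rv sh : ℕ → Pos n → ℤ → Val} (T : Tower hh o X rv sh) (s : Pos n) (j : ℕ) (t : ℤ)
    (h1 : 1 ≤ t) (h2 : t ≤ hh j) (a : ℤ) (ha : a = 1 ∨ a = 2) :
    allowed (eff (hh j) (dd o (j + 1) s) (sh j (anc o (j + 1) s) a)) (tau t)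
      (rv j (anc o (j + 1) s) t) := by
  have h := (T.dat j).al (anc o (j + 1) s) t h1 h2 a ha
  rwa [dig_eq T s (j + 1)] at h

/-- rows of boxes that are not regular -/
theorem rows_nonreg {n : ℕ} {o : ℕ → Pos n} {X : ℕ → Pos n → Cell n}
    {rv sh : ℕ → Pos n → ℤ → Val} (T : Tower hh o X rv sh) (s : Pos n) (j : ℕ)
    (hr : ¬ regL (fun m => dd o m s) j) (t : ℤ) (h1 : 1 ≤ t) (h2 : t ≤ hh j) :
    rv j (anc o (j + 1) s) t = srv (eff (hh j) (dd o (j + 1) s) Val.one) (tau t) := by
  obtain ⟨σ, hσ, hσ2⟩ := eff_shape (h := hh j) (X := dd o (j + 1) s) hr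
  have h := al_eq T s j t h1 h2 1 (Or.inl rfl)
  rw [hσ] at h ⊢
  rcases hσ2 with rfl | ⟨rho, u, rfl⟩
  · exact h
  · exact h

/-- the shares of a regular box -/
theorem share_reg {n : ℕ} {o : ℕ → Pos n} {X : ℕ → Pos n → Cell n}
    {rv sh : ℕ → Pos n → ℤ → Val} (T : Tower hh o X rv sh) (s : Pos n) (j : ℕ)
    (hr : regL (fun m => dd o m s) j) :
    ∃ Y : ℤ, 1 ≤ Y ∧ Y + 1 ≤ hh (j + 1) ∧ ∀ t, 1 ≤ t → t ≤ hh j →
      allowed (Share.val (rv (j + 1) (anc o (j + 2) s) Y)) (tau t) (rv j (anc o (j + 1) s) t) ∧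
      allowed (Share.val (rv (j + 1) (anc o (j + 2) s) (Y + 1))) (tau t)
        (rv j (anc o (j + 1) s) t) := by
  have hr' : reg (hh j) (dd o (j + 1) s) := hr
  have hreg : reg (hh j) (X (j + 1) (anc o (j + 1) s)).dig := by rw [dig_eq T s (j + 1)]; exact hr'
  obtain ⟨e1, e2⟩ := J32.tower_share o X rv sh T j (anc o (j + 1) s) hreg
  rw [dig_eq T s (j + 1)] at e1 e2
  have e3 : par (hh (j + 1)) (o (j + 1)) (anc o (j + 1) s) = anc o (j + 2) s := rfl
  rw [e3] at e1 e2
  have hd := (J02.digit_facts.2.2.2.1 (fun m => o m 1) (j + 1) (s 1))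
  have hY0 : dd o (j + 1) s 1 ≠ 0 := fun h => hr'.1 ⟨1, Or.inl h⟩
  have hY1 : dd o (j + 1) s 1 ≠ 6 * hh j + 1 := fun h => hr'.1 ⟨1, Or.inr h⟩
  have hY2 : hh (j + 1) = 6 * hh j + 1 := rfl
  have hY3 : 0 ≤ dd o (j + 1) s 1 := hd.1
  have hY4 : dd o (j + 1) s 1 ≤ hh (j + 1) := hd.2.1
  refine ⟨dd o (j + 1) s 1, by omega, by omega, fun t h1 h2 => ⟨?_, ?_⟩⟩
  · have h := al_eq T s j t h1 h2 1 (Or.inl rfl)
    rwa [eff_reg hr', e1] at h
  · have h := al_eq T s j t h1 h2 2 (Or.inr rfl)
    rwa [eff_reg hr', e2] at h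

/-- the case of two regular boxes -/
theorem rows_reg {n : ℕ} {o : ℕ → Pos n} {X : ℕ → Pos n → Cell n}
    {rv sh : ℕ → Pos n → ℤ → Val} (T : Tower hh o X rv sh) (s : Pos n) (j : ℕ)
    (hr : regL (fun m => dd o m s) j) (u : Option Bool)
    (hu : ∀ t, 1 ≤ t → t ≤ hh (j + 1) → rv (j + 1) (anc o (j + 2) s) t =
      if u = some (tau t) then Val.one else Val.nu none) (t : ℤ) (h1 : 1 ≤ t) (h2 : t ≤ hh j) :
    rv j (anc o (j + 1) s) t = Val.nu none := by
  obtain ⟨Y, hY1, hY2, hY⟩ := share_reg T s j hr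
  obtain ⟨a1, a2⟩ := hY t h1 h2
  rw [hu Y hY1 (by omega)] at a1
  rw [hu (Y + 1) (by omega) hY2, tau_succ] at a2
  by_cases h3 : u = some (tau Y)
  · have h4 : ¬ u = some (!tau Y) := by
      rw [h3]
      intro h5
      have h6 := Option.some.inj h5
      revert h6
      cases tau Y <;> simp
    rw [if_neg h4] at a2
    simpa [allowed] using a2
  · rw [if_neg h3] at a1
    simpa [allowed] using a1

theorem crv_form {n : ℕ} {h : ℤ} {X : Fin (n + 2) → ℤ} (hX : ¬ reg h X) :
    ∃ u : Option Bool, ∀ t, crv (eff h X Val.one) t = if u = some t then Val.one else Val.nu none := by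
  obtain ⟨σ, hσ, hσ2⟩ := eff_shape hX
  rw [hσ]
  rcases hσ2 with rfl | ⟨rho, u, rfl⟩
  · exact ⟨none, fun t => by simp [crv]⟩
  · exact ⟨u, fun t => rfl⟩

theorem tower_rows {n : ℕ} (o : ℕ → Pos n) (X : ℕ → Pos n → Cell n)
    (rv sh : ℕ → Pos n → ℤ → Val) (T : Tower hh o X rv sh) (s : Pos n) (e : ℕ) (u : Option Bool)
    (hreg : regL (fun m => dd o m s) e)
    (hu : ∀ t, 1 ≤ t → t ≤ hh e → rv e (anc o (e + 1) s) t =
      if u = some (tau t) then Val.one else Val.nu none) :
    ∀ j < e, ∀ t, 1 ≤ t → t ≤ hh j →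
      rv j (anc o (j + 1) s) t = rvN j (fun m => dd o m s) (tau t) := by
  have key : ∀ k j, j + k + 1 = e → ∀ t, 1 ≤ t → t ≤ hh j →
      rv j (anc o (j + 1) s) t = rvN j (fun m => dd o m s) (tau t) := by
    intro k
    induction k with
    | zero =>
      intro j hj t h1 h2
      by_cases hr : regL (fun m => dd o m s) j
      · have hr2 : regL (fun m => dd o m s) (j + 1) := by
          have h3 : j + 1 = e := by omega
          rw [h3]
          exact hreg
        have h3 : j + 1 = e := by omega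
        subst h3
        rw [rows_reg T s j hr u hu t h1 h2]
        unfold rvN
        rw [if_neg (not_not.2 hr), if_neg (not_not.2 hr2)]
      · rw [rows_nonreg T s j hr t h1 h2]
        unfold rvN
        rw [if_pos hr]
    | succ k ih =>
      intro j hj t h1 h2
      have ih1 := ih (j + 1) (by omega)
      by_cases hr : regL (fun m => dd o m s) j
      · by_cases hr2 : regL (fun m => dd o m s) (j + 1)
        · obtain ⟨u', hu'⟩ : ∃ u' : Option Bool, ∀ t, 1 ≤ t → t ≤ hh (j + 1) →
              rv (j + 1) (anc o (j + 2) s) t = if u' = some (tau t) then Val.one else Val.nu none := by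
            by_cases hr3 : regL (fun m => dd o m s) (j + 2)
            · refine ⟨none, fun t h3 h4 => ?_⟩
              rw [ih1 t h3 h4]
              unfold rvN
              rw [if_neg (not_not.2 hr2), if_neg (not_not.2 hr3)]
              simp
            · obtain ⟨u', hu'⟩ := crv_form (h := hh (j + 2)) (X := dd o (j + 3) s) hr3
              refine ⟨u', fun t h3 h4 => ?_⟩
              rw [ih1 t h3 h4]
              unfold rvN
              rw [if_neg (not_not.2 hr2), if_pos hr3]
              exact hu' _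
          rw [rows_reg T s j hr u' hu' t h1 h2]
          unfold rvN
          rw [if_neg (not_not.2 hr), if_neg (not_not.2 hr2)]
        · unfold rvN
          rw [if_neg (not_not.2 hr), if_pos hr2]
          obtain ⟨Y, hY1, hY2, hY⟩ := share_reg T s j hr
          obtain ⟨a1, a2⟩ := hY t h1 h2
          rw [rows_nonreg T s (j + 1) hr2 Y hY1 (by omega)] at a1
          rw [rows_nonreg T s (j + 1) hr2 (Y + 1) (by omega) hY2, tau_succ] at a2
          obtain ⟨σ, hσ, hσ2⟩ := eff_shape (h := hh (j + 1)) (X := dd o (j + 2) s) hr2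
          change allowed (Share.val (srv (eff (hh (j + 1)) (dd o (j + 2) s) Val.one) (tau Y)))
            (tau t) _ at a1
          change allowed (Share.val (srv (eff (hh (j + 1)) (dd o (j + 2) s) Val.one) (!tau Y)))
            (tau t) _ at a2
          change _ = crv (eff (hh (j + 1)) (dd o (j + 2) s) Val.one) (tau t)
          rw [hσ] at a1 a2 ⊢
          rcases hσ2 with rfl | ⟨rho, u', rfl⟩
          · simpa [allowed, srv, crv] using a1
          · by_cases h3 : tau Y = rho
            · have h4 : ¬ (!tau Y) = rho := by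
                rw [← h3]
                cases tau Y <;> simp
              simp only [srv, if_neg h4] at a2
              exact a2
            · simp only [srv, if_neg h3] at a1
              exact a1
      · rw [rows_nonreg T s j hr t h1 h2]
        unfold rvN
        rw [if_pos hr]
  intro j hj
  exact key (e - j - 1) j (by omega)

end J33
end Helper536
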