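import Mathlib
import Pool.Agent.helper536_SFT.Defs
import Pool.Agent.helper536_SFT.Forms
import Pool.Agent.helper536_SFT.TwinDef
import Pool.Agent.helper536_SFT.J02
import Pool.Agent.helper536_SFT.J04
import Pool.Agent.helper536_SFT.J05
import Pool.Agent.helper536_SFT.J31
import Pool.Agent.helper536_SFT.J33

namespace Helper536
namespace J36

/- TARGET. Proof in words:
D m = dd (oz n) m s, D' m = dd o m (s+Tr), equal for m<=e+1 (W.tr). q = ordF of axis 1 from 0 for D: by W.inn and J05 q<=e; the digits m<q of axis 1 are hh m, D q 1 != hh q. (zz k b s).v = vF k D B with B = b (anc (oz n) (k+1) s): if vvis (hh q) (D q) then some (rvF k q D B (tau (D q 1+1))) else none. J31 at s+Tr: (X 0 (s+Tr)).v =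
if vvis (hh q) (D q) then some (rv q (anc o (q+1) (s+Tr)) (D q 1+1)) else none. Assume vvis; t=D q 1+1 in [1,hh q].
q=e: anc o (e+1) (s+Tr)=Q, rv e Q t = if u=some (tau t) then one else nu none. rvF k e D B: by W.flex all regL D m, m>=e: = if k+1<=e then one else if e=k and tau t=true and B then one else nu none. k<e: W.u1: u=some (tau t), both one. e=k: W.u0.
q<e: J33 (with s+Tr; hreg: regL D' e from W.flex and D=D' up to e+1; hu from W.rvQ, W.ancQ): rv q .. t = rvN q D' (tau t) = rvN q D (tau t) (uses digits q+1, q+2 <= e+1). rvF k q D B (tau t) = rvN q D (tau t) unless regL D m for all m>=q; in that case rvN = nu none, and rvF is nu none too if q<k. If q>=k: W.mini (m=q) gives i with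
anc1 (q+1) (p i) != anc1 (q+1) (p i+r). r<=LL k<=LL q (LL is monotone). J04 first part (m=q, a=s i): the digit D q i is 0 or hh q. If i != 1 this contradicts vvis. If i=1: J04, the last clause: all digits j<q of s 1 are the last ones, so D q 1=hh q, contradiction.
-/
theorem LL_mono_aux {a b : ℕ} (h : a ≤ b) : LL a ≤ LL b := by
  have hm : Monotone LL := by
    refine monotone_nat_of_le_succ (fun m => ?_)
    show LL m ≤ LL m * (hh m + 1)
    have h1 := J02.digit_facts.2.1 m
    have h2 := J02.digit_facts.1 m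
    nlinarith
  exact hm h

open Classical in
theorem rvN_congr_aux {n : ℕ} (j : ℕ) (D D' : ℕ → Fin (n + 2) → ℤ) (t : Bool)
    (h1 : D (j + 1) = D' (j + 1)) (h2 : D (j + 2) = D' (j + 2)) : rvN j D t = rvN j D' t := by
  have e1 : regL D j = regL D' j := by
    unfold regL
    rw [h1]
  have e2 : regL D (j + 1) = regL D' (j + 1) := by
    show reg (hh (j + 1)) (D (j + 2)) = reg (hh (j + 1)) (D' (j + 2))
    rw [h2]
  unfold rvN
  rw [h1, h2]
  simp only [e1, e2]

theorem twin_v {n : ℕ} (o : ℕ → Pos n) (X : ℕ → Pos n → Cell n) (rv sh : ℕ → Pos n → ℤ → Val)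
    (k e : ℕ) (r : ℤ) (p Tr Q : Pos n) (b : Pos n → Prop) (a : ℤ) (u : Option Bool)
    (W : Twin o X rv sh k e r p Tr Q b a u) (s : Pos n) (hs : InW p r s) :
    (X 0 (s + Tr)).v = (zz k b s).v := by
  classical
  obtain ⟨hq0, hq1, hq2, hq3, -⟩ := J05.ordF_spec (fun m => dd (oz n) m s 1) 0
    (by
      obtain ⟨m, -, hm2⟩ := W.inn s hs 1
      exact ⟨m, Nat.zero_le m, hm2⟩)
  generalize hqdef : ordF (fun m => dd (oz n) m s 1) 0 = q at hq0 hq1 hq2 hq3
  have hqe : q ≤ e := by
    obtain ⟨m, hm1, hm2⟩ := W.inn s hs 1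
    exact (hq3 m (Nat.zero_le m) hm2).trans hm1
  have hlow : ∀ m < q, dd (oz n) m s 1 = hh m := fun m hm => hq2 m (Nat.zero_le m) hm
  have hz : (zz k b s).v = if vvis (hh q) (dd (oz n) q s) then
      some (rvF k q (fun m => dd (oz n) m s) (b (anc (oz n) (k + 1) s))
        (tau (dd (oz n) q s 1 + 1))) else none := by
    show vF k (fun m => dd (oz n) m s) (b (anc (oz n) (k + 1) s)) = _
    unfold vF
    rw [hqdef]
  have hx := (J31.tower_vw o X rv sh W.T (s + Tr) q).1
    (fun m hm => by rw [W.tr s hs m (by omega)]; exact hlow m hm)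
    (by rw [W.tr s hs q (by omega)]; exact hq1)
  rw [W.tr s hs q (by omega)] at hx
  rw [hx, hz]
  by_cases hv : vvis (hh q) (dd (oz n) q s)
  swap
  · rw [if_neg hv, if_neg hv]
  rw [if_pos hv, if_pos hv]
  congr 1
  have hb := J02.digit_facts.2.2.2.1 (fun m => oz n m 1) q (s 1)
  have hb0 : 0 ≤ dd (oz n) q s 1 := hb.1
  have hb1 : dd (oz n) q s 1 ≤ hh q := hb.2.1
  have ht1 : 1 ≤ dd (oz n) q s 1 + 1 := by omega
  have ht2 : dd (oz n) q s 1 + 1 ≤ hh q := by
    rcases lt_or_eq_of_le hb1 with h | h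
    · omega
    · exact absurd h hq1
  rcases Nat.lt_or_ge q e with hlt | hge
  · have hreg : regL (fun m => dd o m (s + Tr)) e := by
      show reg (hh e) (dd o (e + 1) (s + Tr))
      rw [W.tr s hs (e + 1) le_rfl]
      exact W.flex s hs e le_rfl
    have hu : ∀ t, 1 ≤ t → t ≤ hh e → rv e (anc o (e + 1) (s + Tr)) t =
        if u = some (tau t) then Val.one else Val.nu none := by
      intro t h1 h2
      rw [W.ancQ s hs]
      exact W.rvQ t h1 h2
    rw [J33.tower_rows o X rv sh W.T (s + Tr) e u hreg hu q hlt _ ht1 ht2]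
    rw [rvN_congr_aux q (fun m => dd o m (s + Tr)) (fun m => dd (oz n) m s) _
      (W.tr s hs (q + 1) (by omega)) (W.tr s hs (q + 2) (by omega))]
    unfold rvN rvF
    by_cases r1 : regL (fun m => dd (oz n) m s) q
    swap
    · rw [if_pos r1, if_pos r1]
    rw [if_neg (not_not.2 r1), if_neg (not_not.2 r1)]
    by_cases r2 : regL (fun m => dd (oz n) m s) (q + 1)
    swap
    · rw [if_pos r2, if_pos r2]
    rw [if_neg (not_not.2 r2), if_neg (not_not.2 r2)]
    by_cases r3 : ∀ m, q ≤ m → regL (fun m => dd (oz n) m s) m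
    swap
    · rw [if_neg r3]
    rw [if_pos r3]
    have hqk : q < k := by
      by_contra hkq
      push Not at hkq
      obtain ⟨i, hi⟩ := W.mini q hkq hlt s hs r3
      obtain ⟨g1, g2⟩ := (J04.window_geo (fun _ => 2) q r (p i) W.r1
        (W.rL.trans (LL_mono_aux hkq))).1 hi (s i) (hs i).1 (hs i).2
      by_cases hi1 : i = 1
      · subst hi1
        exact hq1 (g2 hlow)
      · have hvi := hv i hi1
        rcases g1 with ⟨g, -⟩ | ⟨g, -⟩
        · exact hvi.1 g
        · exact hvi.2 g
    rw [if_neg (by omega), if_neg (by omega)]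
  · have hqe' : q = e := le_antisymm hqe hge
    subst hqe'
    rw [W.ancQ s hs, W.rvQ _ ht1 ht2]
    unfold rvF
    rw [if_neg (not_not.2 (W.flex s hs q le_rfl)),
      if_neg (not_not.2 (W.flex s hs (q + 1) (Nat.le_succ q))),
      if_pos (fun m hm => W.flex s hs m hm)]
    rcases Nat.lt_or_ge k q with hkq | hkq
    · rw [if_pos (show k + 1 ≤ q by omega), if_pos (W.u1 hkq s hs hlow hq1)]
    · have hk : q = k := le_antisymm hkq W.ke
      rw [if_neg (show ¬ k + 1 ≤ q by omega)]
      rcases W.u0 hk s hs with ⟨h1, h2⟩ | ⟨h1, h2⟩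
      · rw [h1]
        by_cases ht : tau (dd (oz n) q s 1 + 1) = true
        · rw [if_pos (by rw [ht]), if_pos ⟨hk, ht, h2⟩]
        · rw [if_neg (fun h => ht (Option.some.inj h).symm), if_neg (fun h => ht h.2.1)]
      · rw [h1, if_neg (by simp), if_neg (fun h => h2 h.2.2)]

end J36
end Helper536
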