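import Mathlib
import Pool.Agent.helper536_SFT.Defs
import Pool.Agent.helper536_SFT.Forms
import Pool.Agent.helper536_SFT.TwinDef
import Pool.Agent.helper536_SFT.J02
import Pool.Agent.helper536_SFT.J04
import Pool.Agent.helper536_SFT.J05
import Pool.Agent.helper536_SFT.J31
import Pool.Agent.helper536_SFT.J32
import Pool.Agent.helper536_SFT.J33

namespace Helper536
namespace J37


theorem LL_le_succ (m : ℕ) : LL m ≤ LL (m + 1) := by
  obtain ⟨h1, h2, -, -, -, -⟩ := J02.digit_facts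
  have e : LL (m + 1) = LL m * (hh m + 1) := rfl
  rw [e]
  nlinarith [h1 m, h2 m]

theorem LL_mono (m m' : ℕ) (h : m ≤ m') : LL m ≤ LL m' := by
  induction m', h using Nat.le_induction with
  | base => exact le_refl _
  | succ m' _ ih => exact ih.trans (LL_le_succ m')

theorem digit_lo (m : ℕ) (a : ℤ) : 0 ≤ dd1 (fun _ => 2) m a ∧ dd1 (fun _ => 2) m a ≤ hh m := by
  obtain ⟨-, -, -, h, -, -⟩ := J02.digit_facts
  exact ⟨(h (fun _ => 2) m a).1, (h (fun _ => 2) m a).2.1⟩

/-- the digit after a decrease of the ancestor -/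
theorem digit_pred (m : ℕ) (a a' : ℤ) (h : anc1 (fun _ => 2) m a' = anc1 (fun _ => 2) m a - 1)
    (h1 : 1 ≤ dd1 (fun _ => 2) m a) : dd1 (fun _ => 2) m a' = dd1 (fun _ => 2) m a - 1 := by
  obtain ⟨h3, -, -, h4, -, -⟩ := J02.digit_facts
  have hh3 := h3 m
  have e1 : dd1 (fun _ => 2) m a' = (anc1 (fun _ => 2) m a' + 2) % (hh m + 1) := rfl
  have e2 : dd1 (fun _ => 2) m a = (anc1 (fun _ => 2) m a + 2) % (hh m + 1) := rfl
  rw [e2] at h1 ⊢
  rw [e1, h]
  obtain ⟨z, hz⟩ : ∃ z, z = anc1 (fun _ => 2) m a + 2 := ⟨_, rfl⟩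
  rw [← hz] at h1 ⊢
  have e3 : anc1 (fun _ => 2) m a - 1 + 2 = z - 1 := by rw [hz]; ring
  rw [e3]
  have h5 := Int.emod_lt_of_pos z (show (0 : ℤ) < hh m + 1 by linarith)
  have h6 := Int.emod_add_mul_ediv z (hh m + 1)
  have e4 : z - 1 = (z % (hh m + 1) - 1) + (hh m + 1) * (z / (hh m + 1)) := by linarith
  rw [e4, Int.add_mul_emod_self_left]
  exact Int.emod_eq_of_lt (by linarith) (by linarith)

theorem digit_same (m : ℕ) (a a' : ℤ) (h : anc1 (fun _ => 2) m a' = anc1 (fun _ => 2) m a) :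
    dd1 (fun _ => 2) m a' = dd1 (fun _ => 2) m a := by
  have e1 : dd1 (fun _ => 2) m a' = (anc1 (fun _ => 2) m a' + 2) % (hh m + 1) := rfl
  have e2 : dd1 (fun _ => 2) m a = (anc1 (fun _ => 2) m a + 2) % (hh m + 1) := rfl
  rw [e1, e2, h]

theorem dig_ne {n : ℕ} {q : ℕ} {X : Fin (n + 2) → ℤ} (h : reg (hh q) X) (i : Fin (n + 2)) :
    X i ≠ 0 ∧ X i ≠ hh (q + 1) := by
  have h1 := h.1
  unfold extr at h1
  push Not at h1
  exact h1 i

section Main

variable {n : ℕ} {o : ℕ → Pos n} {X : ℕ → Pos n → Cell n} {rv sh : ℕ → Pos n → ℤ → Val}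
    {k e : ℕ} {r : ℤ} {p Tr Q : Pos n} {b : Pos n → Prop} {a : ℤ} {u : Option Bool}

/-- the value when the level is the one below that of the box -/
theorem u_eq (W : Twin o X rv sh k e r p Tr Q b a u) (s : Pos n) (hs : InW p r s) (q : ℕ)
    (hqe : q + 1 = e) (hk : k ≤ q)
    (hlast : ∀ m < q, dd (oz n) m s 0 = hh m) (hne : dd (oz n) q s 0 ≠ hh q)
    (hv : wvis (hh q) (dd (oz n) q s) (dd (oz n) (q + 1) s)) :
    u = some (tau (dd (oz n) (q + 1) s 1 + (dd (oz n) q s 0 + 1) - 1)) := by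
  have hreg : ∀ m', q ≤ m' → regL (fun j => dd (oz n) j s) m' := by
    intro m' hm'
    rcases Nat.lt_or_ge q m' with h | h
    · exact W.flex s hs m' (by omega)
    · have : m' = q := by omega
      rw [this]
      exact hv.2.1
  obtain ⟨i, hi⟩ := W.mini q hk (by omega) s hs hreg
  have hgeo := (J04.window_geo (fun _ => 2) q r (p i) W.r1 (W.rL.trans (LL_mono k q hk))).1 hi
    (s i) (hs i).1 (hs i).2
  have hi0 : i ≠ 0 := by
    rintro rfl
    exact hne (hgeo.2 hlast)
  by_cases hi1 : i = 1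
  swap
  · exfalso
    have h1 := hv.1 i hi0 hi1
    rcases hgeo.1 with h | h
    · exact h1.1 h.1
    · exact h1.2 h.1
  subst hi1
  have hY := dig_ne hv.2.1 1
  have hY0 := digit_lo (q + 1) (s 1)
  have hYd : dd (oz n) (q + 1) s 1 = dd1 (fun _ => 2) (q + 1) (s 1) := rfl
  have hqd : dd (oz n) q s 1 = dd1 (fun _ => 2) q (s 1) := rfl
  have hInW : ∀ a', p 1 ≤ a' → a' < p 1 + r → InW p r (Function.update s 1 a') := by
    intro a' h1 h2 j
    by_cases hj : j = 1
    · subst hj
      rw [Function.update_self]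
      exact ⟨h1, h2⟩
    · rw [Function.update_of_ne hj]
      exact hs j
  have hdd : ∀ a' m, dd (oz n) m (Function.update s 1 a') 1 = dd1 (fun _ => 2) m a' := by
    intro a' m
    have : dd (oz n) m (Function.update s 1 a') 1 =
      dd1 (fun _ => 2) m ((Function.update s 1 a' : Pos n) 1) := rfl
    rw [this, Function.update_self]
  rcases hv.2.2 with ⟨hc, hd⟩ | ⟨hc, hd⟩
  · rcases hgeo.1 with ⟨-, a', ha1, ha2, ha3, ha4⟩ | h
    swap
    · exact absurd h.1 hd
    have hpr := digit_pred (q + 1) (s 1) a' ha4 (by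
      rw [← hYd]
      have := hY.1
      rw [← hYd] at hY0
      omega)
    have h1 := W.u1 (by omega) (Function.update s 1 a') (hInW a' ha1 ha2)
      (by
        intro m hm
        rw [hdd]
        exact ha3 m (by omega))
      (by
        rw [hdd, ← hqe, hpr]
        have := hY0.2
        omega)
    rw [h1, hdd, ← hqe, hpr, hc, hYd]
    congr 2
    ring
  · rcases hgeo.1 with h | ⟨-, a', ha1, ha2, ha3, ha4⟩
    · exact absurd h.1 hd
    have hpr := digit_same (q + 1) (s 1) a' ha4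
    have h1 := W.u1 (by omega) (Function.update s 1 a') (hInW a' ha1 ha2)
      (by
        intro m hm
        rw [hdd]
        exact ha3 m (by omega))
      (by
        rw [hdd, ← hqe, hpr, ← hYd]
        exact hY.2)
    rw [h1, hdd, ← hqe, hpr, hc, hYd]
    congr 2
    ring

open Classical in
/-- comparison of the row values -/
theorem rvN_eq (W : Twin o X rv sh k e r p Tr Q b a u) (s : Pos n) (hs : InW p r s) (q : ℕ)
    (hqe : q + 1 < e) (hreg : reg (hh q) (dd (oz n) (q + 1) s)) (B : Prop) (t : Bool) :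
    rvN (q + 1) (fun m => dd (oz n) m s) t = rvF k (q + 1) (fun m => dd (oz n) m s) B t := by
  unfold rvN rvF
  by_cases h1 : regL (fun m => dd (oz n) m s) (q + 1)
  swap
  · rw [if_pos h1, if_pos h1]
  rw [if_neg (not_not.mpr h1), if_neg (not_not.mpr h1)]
  by_cases h2 : regL (fun m => dd (oz n) m s) (q + 1 + 1)
  swap
  · rw [if_pos h2, if_pos h2]
  rw [if_neg (not_not.mpr h2), if_neg (not_not.mpr h2)]
  by_cases h3 : ∀ m, q + 1 ≤ m → regL (fun m => dd (oz n) m s) m
  swap
  · rw [if_neg h3]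
  rw [if_pos h3]
  rcases Nat.lt_or_ge (q + 1) k with h4 | h4
  · rw [if_neg (by omega), if_neg]
    rintro ⟨h5, -, -⟩
    omega
  · exfalso
    obtain ⟨i, hi⟩ := W.mini (q + 1) h4 hqe s hs h3
    have hgeo := (J04.window_geo (fun _ => 2) (q + 1) r (p i) W.r1
      (W.rL.trans (LL_mono k (q + 1) h4))).1 hi (s i) (hs i).1 (hs i).2
    have h5 := dig_ne hreg i
    rcases hgeo.1 with h | h
    · exact h5.1 h.1
    · exact h5.2 h.1

open Classical in
theorem sh_eq (W : Twin o X rv sh k e r p Tr Q b a u) (s : Pos n) (hs : InW p r s) (q : ℕ)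
    (hqe : q ≤ e)
    (hlast : ∀ m < q, dd (oz n) m s 0 = hh m) (hne : dd (oz n) q s 0 ≠ hh q)
    (hv : wvis (hh q) (dd (oz n) q s) (dd (oz n) (q + 1) s)) :
    sh q (anc o (q + 1) (s + Tr)) (dd (oz n) q s 0 + 1) =
      rvF k (q + 1) (fun m => dd (oz n) m s) (b (anc (oz n) (k + 1) s))
        (tau (dd (oz n) (q + 1) s 1 + (dd (oz n) q s 0 + 1) - 1)) := by
  have hc : dd (oz n) q s 0 = 0 ∨ dd (oz n) q s 0 = 1 := by
    rcases hv.2.2 with h | h
    · exact Or.inl h.1
    · exact Or.inr h.1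
  rcases Nat.lt_or_ge q e with hlt | hge
  swap
  · have hqe' : q = e := by omega
    subst hqe'
    rw [W.ancQ s hs, W.aW s hs hlast hc, W.shQ]
    unfold rvF
    rw [if_neg (not_not.mpr (W.flex s hs _ (by omega))),
      if_neg (not_not.mpr (W.flex s hs _ (by omega))),
      if_pos (fun m hm => W.flex s hs m (by omega)), if_pos (by have := W.ke; omega)]
  -- the level below
  have hdig : (X (q + 1) (anc o (q + 1) (s + Tr))).dig = dd (oz n) (q + 1) s := by
    rw [(W.T.sk (q + 1)).dig]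
    rw [← W.tr s hs (q + 1) (by omega)]
    rfl
  have hshare := J32.tower_share o X rv sh W.T q (anc o (q + 1) (s + Tr)) (by
    rw [hdig]
    exact hv.2.1)
  rw [hdig] at hshare
  have hpar : par (hh (q + 1)) (o (q + 1)) (anc o (q + 1) (s + Tr)) = anc o (q + 2) (s + Tr) := rfl
  rw [hpar] at hshare
  obtain ⟨t, ht⟩ : ∃ t, t = dd (oz n) (q + 1) s 1 + (dd (oz n) q s 0 + 1) - 1 := ⟨_, rfl⟩
  have hsh : sh q (anc o (q + 1) (s + Tr)) (dd (oz n) q s 0 + 1) =
      rv (q + 1) (anc o (q + 2) (s + Tr)) t := by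
    rcases hc with h | h
    · rw [ht, h]
      have e1 : dd (oz n) (q + 1) s 1 + (0 + 1) - 1 = dd (oz n) (q + 1) s 1 := by ring
      rw [e1]
      exact hshare.1
    · rw [ht, h]
      have e1 : dd (oz n) (q + 1) s 1 + (1 + 1) - 1 = dd (oz n) (q + 1) s 1 + 1 := by ring
      rw [e1]
      exact hshare.2
  have hY := dig_ne hv.2.1 1
  have hY0 := digit_lo (q + 1) (s 1)
  have hYd : dd (oz n) (q + 1) s 1 = dd1 (fun _ => 2) (q + 1) (s 1) := rfl
  rw [← hYd] at hY0
  have ht1 : 1 ≤ t := by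
    have := hY.1
    rcases hc with h | h <;> rw [ht, h] <;> omega
  have ht2 : t ≤ hh (q + 1) := by
    have := hY.2
    rcases hc with h | h <;> rw [ht, h] <;> omega
  rw [hsh, ← ht]
  rcases Nat.lt_or_ge (q + 1) e with hlt' | hge'
  · have h1 := J33.tower_rows o X rv sh W.T (s + Tr) e u
      (by
        have := W.flex s hs e le_rfl
        unfold regL at this ⊢
        change reg (hh e) (dd o (e + 1) (s + Tr))
        rw [W.tr s hs (e + 1) le_rfl]
        exact this)
      (by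
        intro t h1 h2
        rw [W.ancQ s hs]
        exact W.rvQ t h1 h2) (q + 1) hlt' t ht1 ht2
    have h2 : rv (q + 1) (anc o (q + 2) (s + Tr)) t =
        rv (q + 1) (anc o (q + 1 + 1) (s + Tr)) t := rfl
    rw [h2, h1, ← rvN_eq W s hs q hlt' hv.2.1]
    unfold rvN regL
    simp only [W.tr s hs (q + 1 + 1) (by omega), W.tr s hs (q + 1 + 1 + 1) (by omega)]
  · have hqe' : q + 1 = e := by omega
    have h2 : rv (q + 1) (anc o (q + 2) (s + Tr)) t = rv e Q t := by
      have h3 : rv (q + 1) (anc o (q + 2) (s + Tr)) t =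
        rv (q + 1) (anc o (q + 1 + 1) (s + Tr)) t := rfl
      rw [h3, hqe', W.ancQ s hs]
    rw [h2, W.rvQ t ht1 (by rw [← hqe']; exact ht2)]
    unfold rvF
    rw [if_neg (not_not.mpr (W.flex s hs _ (by omega))),
      if_neg (not_not.mpr (W.flex s hs _ (by omega))),
      if_pos (fun m hm => W.flex s hs m (by omega))]
    rcases Nat.lt_or_ge q k with h4 | h4
    · have hek : e = k := by have := W.ke; omega
      rw [if_neg (show ¬ (k + 1 ≤ q + 1) by omega)]
      rcases W.u0 hek s hs with ⟨h5, h6⟩ | ⟨h5, h6⟩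
      · rw [h5]
        by_cases h7 : tau t = true
        · rw [h7, if_pos rfl, if_pos ⟨by omega, rfl, h6⟩]
        · rw [if_neg, if_neg]
          · rintro ⟨-, h8, -⟩
            exact h7 h8
          · intro h8
            exact h7 (Option.some.inj h8).symm
      · rw [h5, if_neg (by simp), if_neg]
        rintro ⟨-, -, h8⟩
        exact h6 h8
    · rw [if_pos (show k + 1 ≤ q + 1 by omega), if_pos]
      rw [ht]
      exact u_eq W s hs q hqe' h4 hlast hne hv

end Main

/- TARGET. Proof in words: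
D m = dd (oz n) m s, D' m = dd o m (s+Tr), equal for m<=e+1 (W.tr). q = ordF of axis 0 from 0 for D: q<=e (W.inn, J05). (zz k b s).w = if wvis (hh q) (D q) (D (q+1)) then some (shF k q D B (D q 0+1)) else none, B=b (anc (oz n) (k+1) s), shF k q D B c = rvF k (q+1) D B (tau (D (q+1) 1+c-1)). J31 at s+Tr: (X 0 (s+Tr)).w = if wvis .. then
some (sh q (anc o (q+1) (s+Tr)) (D q 0+1)) else none. Assume wvis: reg (hh q) (D (q+1)), D q m not 0, hh q for m != 0,1, and (D q 0=0 and D q 1 != hh q) or (D q 0=1 and D q 1 != 0). c=D q 0+1 in {1,2}, Y=D (q+1) 1, 1<=Y<=hh (q+1)-1, t=Y+c-1 in [1,hh (q+1)].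
q=e: the box is Q: W.aW: c=a, sh e Q a=one. rvF k (e+1) D B _ = one since all regL D m for m>=e+1 and k+1<=e+1.
q<e: P=anc o (q+1) (s+Tr), (X (q+1) P).dig = D' (q+1) regular: J32: sh q P c = rv (q+1) (anc o (q+2) (s+Tr)) t.
 q+1=e: anc o (e+1) (s+Tr)=Q: rv e Q t = if u=some (tau t) then one else nu none; rvF k e D B (tau t) = if k+1<=e then one else if e=k and tau t=true and B then one else nu none (W.flex). e=k: W.u0. k<e, i.e. k<=q: to show u=some (tau t). regL D m holds for m=q (P regular) and m>=e, so for all m>=q; W.mini (m=q): i with anc1 (q+1) (p i) != anc1 (q+1) (p i+r), r<=LL q.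
 J04 at a=s i, m=q: D q i is 0 or hh q. i>=2: contradicts wvis. i=0: last clause of J04 (digits j<q of s 0 are last): D q 0=hh q>=3, contradiction. i=1: if c=1 then D q 1 != hh q so J04 gives the first alternative: a' in the window of axis 1 with all digits j<=q last and anc1 (q+1) a' = anc1 (q+1) (s 1)-1. Let s'' = s with coordinate 1 replaced by a' (InW). Its digit e=q+1 in
 direction 1: anc1+2 is one less, and D e 1=Y>=1, so the digit is Y-1 != hh e. W.u1 for s'': u=some (tau (Y-1+1)) = some (tau t). If c=2 then D q 1 != 0, second alternative: a' with all digits j<=q last, anc1 (q+1) a'=anc1 (q+1) (s 1): the digit e of s'' is Y != hh e, W.u1: u=some (tau (Y+1)).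
 q+1<e: J33: rv (q+1) .. t = rvN (q+1) D (tau t). rvF k (q+1) D B (tau t) is the same unless regL D m for all m>=q+1; then rvN=nu none and rvF=nu none if q+1<k. If q+1>=k: W.mini (m=q+1): i with anc1 (q+2) (p i) != anc1 (q+2) (p i+r), r<=LL (q+1); J04 (m=q+1): D (q+1) i is 0 or hh (q+1)=6*hh q+1, contradicting reg (hh q) (D (q+1)).
-/
theorem twin_w {n : ℕ} (o : ℕ → Pos n) (X : ℕ → Pos n → Cell n) (rv sh : ℕ → Pos n → ℤ → Val)
    (k e : ℕ) (r : ℤ) (p Tr Q : Pos n) (b : Pos n → Prop) (a : ℤ) (u : Option Bool)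
    (W : Twin o X rv sh k e r p Tr Q b a u) (s : Pos n) (hs : InW p r s) :
    (X 0 (s + Tr)).w = (zz k b s).w := by
  classical
  obtain ⟨m, hme, hm⟩ := W.inn s hs 0
  obtain ⟨q, hq⟩ : ∃ q, q = ordF (fun m => dd (oz n) m s 0) 0 := ⟨_, rfl⟩
  obtain ⟨-, hne, hlast, hmin, -⟩ := J05.ordF_spec (fun m => dd (oz n) m s 0) 0 ⟨m, Nat.zero_le _, hm⟩
  rw [← hq] at hne hlast hmin
  have hqe : q ≤ e := (hmin m (Nat.zero_le _) hm).trans hme
  have hlast' : ∀ m < q, dd (oz n) m s 0 = hh m := fun m hm => hlast m (Nat.zero_le _) hm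
  have h1 := (J31.tower_vw o X rv sh W.T (s + Tr) q).2
    (by
      intro m hm
      rw [W.tr s hs m (by omega)]
      exact hlast' m hm)
    (by
      rw [W.tr s hs q (by omega)]
      exact hne)
  rw [W.tr s hs q (by omega), W.tr s hs (q + 1) (by omega)] at h1
  rw [h1]
  change _ = wF k (fun m => dd (oz n) m s) (b (anc (oz n) (k + 1) s))
  unfold wF shF
  rw [← hq]
  by_cases hv : wvis (hh q) (dd (oz n) q s) (dd (oz n) (q + 1) s)
  · rw [if_pos hv, if_pos hv, sh_eq W s hs q hqe hlast' hne hv]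
  · rw [if_neg hv, if_neg hv]

end J37
end Helper536
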