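import Mathlib
import Pool.Agent.helper536_SFT.Defs
import Pool.Agent.helper536_SFT.Forms
import Pool.Agent.helper536_SFT.TwinDef
import Pool.Agent.helper536_SFT.J02
import Pool.Agent.helper536_SFT.J03
import Pool.Agent.helper536_SFT.J04
import Pool.Agent.helper536_SFT.J05
import Pool.Agent.helper536_SFT.J06
import Pool.Agent.helper536_SFT.J25
import Pool.Agent.helper536_SFT.J34
import Pool.Agent.helper536_SFT.J35
import Pool.Agent.helper536_SFT.J36
import Pool.Agent.helper536_SFT.J37

namespace Helper536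
namespace J39

theorem mono1 (o : ℕ → ℤ) (k : ℕ) {a a' : ℤ} (h : a ≤ a') : anc1 o k a ≤ anc1 o k a' := by
  obtain ⟨_, hL, _, _, h5, _⟩ := J02.digit_facts
  rw [h5 o k a, h5 o k a']
  exact Int.ediv_le_ediv (by have := hL k; omega) (by omega)

theorem same1 (o : ℕ → ℤ) {m : ℕ} {a a' : ℤ} (h : anc1 o m a = anc1 o m a') :
    ∀ m', m ≤ m' → anc1 o m' a = anc1 o m' a' ∧ dd1 o m' a = dd1 o m' a' := by
  intro m' hm
  induction m', hm using Nat.le_induction with
  | base => exact ⟨h, by unfold dd1; rw [h]⟩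
  | succ j hj ih =>
    have h1 : anc1 o (j + 1) a = anc1 o (j + 1) a' := by
      change (anc1 o j a + o j) / (hh j + 1) = (anc1 o j a' + o j) / (hh j + 1)
      rw [ih.1]
    exact ⟨h1, by unfold dd1; rw [h1]⟩

theorem LL_mono {k e : ℕ} (h : k ≤ e) : LL k ≤ LL e := by
  obtain ⟨h3, hL, _⟩ := J02.digit_facts
  induction e, h using Nat.le_induction with
  | base => exact le_rfl
  | succ j hj ih =>
    have h1 : LL (j + 1) = LL j * (hh j + 1) := rfl
    have h2 := h3 j
    have h4 := hL j
    nlinarith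

theorem win1 {n : ℕ} {p : Pos n} {r : ℤ} {m : ℕ}
    (h : ∀ i, anc1 (fun _ => 2) (m + 1) (p i) = anc1 (fun _ => 2) (m + 1) (p i + r))
    {s : Pos n} (hs : InW p r s) (i : Fin (n + 2)) :
    anc1 (fun _ => 2) (m + 1) (s i) = anc1 (fun _ => 2) (m + 1) (p i) := by
  have h1 := mono1 (fun _ => 2) (m + 1) (hs i).1
  have h2 := mono1 (fun _ => 2) (m + 1) (hs i).2.le
  rw [← h i] at h2
  exact le_antisymm h2 h1

theorem dd_same {n : ℕ} {s s' : Pos n} {m : ℕ}
    (h : ∀ i, anc1 (fun _ => 2) (m + 1) (s i) = anc1 (fun _ => 2) (m + 1) (s' i)) (m' : ℕ)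
    (hm : m ≤ m') : dd (oz n) (m' + 1) s = dd (oz n) (m' + 1) s' := by
  funext i
  exact (same1 (fun _ => 2) (h i) (m' + 1) (by omega)).2

theorem regL_same {n : ℕ} {s s' : Pos n} {m : ℕ}
    (h : ∀ i, anc1 (fun _ => 2) (m + 1) (s i) = anc1 (fun _ => 2) (m + 1) (s' i)) (m' : ℕ)
    (hm : m ≤ m') (hr : regL (fun j => dd (oz n) j s') m') : regL (fun j => dd (oz n) j s) m' := by
  change reg (hh m') (dd (oz n) (m' + 1) s)
  rw [dd_same h m' hm]
  exact hr

/- TARGET. Proof in words:
Tower o X rv sh with X 0=x from J25. Say G m: k<=m and (for all i, anc1 (fun _ => 2) (m+1) (p i) = anc1 (fun _ => 2) (m+1) (p i+r)) and for all s in the window, for all m'>=m, regL (digits of s) m'. G holds for large m: J06 for the two corner sites p and p+r (fun i => p i+r): indices 0 for large m; anc1 is monotone in the site, so all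
sites of the window have index 0 at large levels (or apply J06 to each of the finitely many sites of the window), digits 2, regular (regL only depends on the digits, which for index 0 at level m are 2). Let e be the least m with G m (Nat.find). All sites of the window have the same index at level e+1 (anc1 monotone, sandwiched between p i and p i+r),
hence the same digits at levels >=e+1. W.inn: if all digits m<=e of s i were the last ones, then anc1 (e+1) (s i+1) = anc1 (e+1) (s i)+1 (J02, carry with q=e+1), but s i+1<=p i+r and monotonicity give equality, contradiction. W.mini: if k<=m<e, s in the window with regL for all m'>=m, and all anc1 (m+1) (p i)=anc1 (m+1) (p i+r), then all sites of the window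
have the same index at level m+1, so the same digits at levels >=m+1 (regL .. m' uses the digits m'+1), so G m, contradiction.
a := 2 if some s in the window has all digits m<e of axis 0 last and digit e of axis 0 equal to 1, else 1. aW: by J04 second part (m=e, r<=LL k<=LL e) two sites of the window with all digits m<e of axis 0 last have the same coordinate 0. u: if e=k: some true if b (anc (oz n) (k+1) p) else none (all sites of the window have the same index at level k+1=e+1);
if k<e: if some s in the window has digits m<e of axis 1 last and digit e of axis 1 != hh e, u=some (tau (that digit+1)) (well defined by J04 second part), else none.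
Q from J34 with Dc=dd (oz n) (e+1) p (regular by G e). For each axis i, J03 with l=e+1, q=anc1 (fun _ => 2) (e+1) (p i), q'=Q i gives Tr i. tr: for m<=e from J03; for m=e+1: anc o (e+1) (s+Tr)=Q, so the digit is dgt (hh (e+1)) (o (e+1)) Q = Dc = the digit of s. Then J35, J36, J37 give all fields (Cell.ext).
-/
theorem twin_main {n : ℕ} (x : Pos n → Cell n) (hx : Rule 3 x) (k : ℕ) (r : ℤ) (hr : 1 ≤ r)
    (hrk : r ≤ LL k) (b : Pos n → Prop) (p : Pos n) :
    ∃ Tr : Pos n, ∀ s, InW p r s → zz k b s = x (s + Tr) := by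
  classical
  obtain ⟨f3, fL, _, f4, _, f6⟩ := J02.digit_facts
  obtain ⟨o, X, rv, sh, hX0, T⟩ := J25.tower_exists x hx
  have hpW : InW p r p := fun i => ⟨le_rfl, by omega⟩
  have hG : ∃ m, k ≤ m ∧ (∀ i, anc1 (fun _ => 2) (m + 1) (p i) =
      anc1 (fun _ => 2) (m + 1) (p i + r)) ∧
      ∀ s, InW p r s → ∀ m', m ≤ m' → regL (fun j => dd (oz n) j s) m' := by
    obtain ⟨M1, hM1⟩ := J06.oz_event n p
    obtain ⟨M2, hM2⟩ := J06.oz_event n (fun i => p i + r)
    have hz1 : ∀ m, M1 ≤ m → ∀ i, anc1 (fun _ => 2) m (p i) = 0 :=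
      fun m hm i => congrFun (hM1 m hm).1 i
    have hz2 : ∀ m, M2 ≤ m → ∀ i, anc1 (fun _ => 2) m (p i + r) = 0 :=
      fun m hm i => congrFun (hM2 m hm).1 i
    have hw : ∀ i, anc1 (fun _ => 2) (max k (max M1 M2) + 1) (p i) =
        anc1 (fun _ => 2) (max k (max M1 M2) + 1) (p i + r) := by
      intro i
      rw [hz1 _ (by omega) i, hz2 _ (by omega) i]
    refine ⟨max k (max M1 M2), by omega, hw, ?_⟩
    intro s hs m' hm'
    exact regL_same (fun i => win1 hw hs i) m' hm' (hM1 m' (by omega)).2.2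
  obtain ⟨hke, hwe, hrege⟩ := Nat.find_spec hG
  have hmin : ∀ m, m < Nat.find hG → ¬ (k ≤ m ∧ (∀ i, anc1 (fun _ => 2) (m + 1) (p i) =
      anc1 (fun _ => 2) (m + 1) (p i + r)) ∧
      ∀ s, InW p r s → ∀ m', m ≤ m' → regL (fun j => dd (oz n) j s) m') :=
    fun m hm => Nat.find_min hG hm
  generalize Nat.find hG = e at hke hwe hrege hmin
  have hrL : r ≤ LL e := hrk.trans (LL_mono hke)
  -- the number a
  obtain ⟨a, ha, haW⟩ : ∃ a : ℤ, (a = 1 ∨ a = 2) ∧ ∀ s, InW p r s →
      (∀ m < e, dd (oz n) m s 0 = hh m) → (dd (oz n) e s 0 = 0 ∨ dd (oz n) e s 0 = 1) →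
      dd (oz n) e s 0 + 1 = a := by
    by_cases hc : ∃ s, InW p r s ∧ (∀ m < e, dd (oz n) m s 0 = hh m) ∧ dd (oz n) e s 0 = 1
    · obtain ⟨s', hs', hs1, hs2⟩ := hc
      refine ⟨2, Or.inr rfl, fun s hs h1 _ => ?_⟩
      have h2 : s 0 = s' 0 := (J04.window_geo (fun _ => 2) e r (p 0) hr hrL).2 (s 0) (s' 0)
        (hs 0).1 (hs 0).2 (hs' 0).1 (hs' 0).2 h1 hs1
      have h3 : dd (oz n) e s 0 = dd (oz n) e s' 0 := by
        change dd1 (fun _ => 2) e (s 0) = dd1 (fun _ => 2) e (s' 0)
        rw [h2]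
      rw [h3, hs2]
      norm_num
    · refine ⟨1, Or.inl rfl, fun s hs h1 h2 => ?_⟩
      rcases h2 with h2 | h2
      · rw [h2]
        norm_num
      · exact absurd ⟨s, hs, h1, h2⟩ hc
  -- the row values
  obtain ⟨u, hu0, hu1⟩ : ∃ u : Option Bool, (e = k → ∀ s, InW p r s →
      (u = some true ∧ b (anc (oz n) (k + 1) s)) ∨ (u = none ∧ ¬ b (anc (oz n) (k + 1) s))) ∧
      (k < e → ∀ s, InW p r s → (∀ m < e, dd (oz n) m s 1 = hh m) →
        dd (oz n) e s 1 ≠ hh e → u = some (tau (dd (oz n) e s 1 + 1))) := by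
    by_cases hek : e = k
    · have hanc : ∀ s, InW p r s → anc (oz n) (k + 1) s = anc (oz n) (k + 1) p := by
        intro s hs
        funext i
        have := win1 hwe hs i
        rw [hek] at this
        exact this
      by_cases hb : b (anc (oz n) (k + 1) p)
      · refine ⟨some true, fun _ s hs => Or.inl ⟨rfl, ?_⟩, fun h => by omega⟩
        rw [hanc s hs]
        exact hb
      · refine ⟨none, fun _ s hs => Or.inr ⟨rfl, ?_⟩, fun h => by omega⟩
        rw [hanc s hs]
        exact hb
    · by_cases hc : ∃ s, InW p r s ∧ (∀ m < e, dd (oz n) m s 1 = hh m) ∧ dd (oz n) e s 1 ≠ hh e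
      · obtain ⟨s', hs', hs1, hs2⟩ := hc
        refine ⟨some (tau (dd (oz n) e s' 1 + 1)), fun h => absurd h hek, fun _ s hs h1 _ => ?_⟩
        have h2 : s 1 = s' 1 := (J04.window_geo (fun _ => 2) e r (p 1) hr hrL).2 (s 1) (s' 1)
          (hs 1).1 (hs 1).2 (hs' 1).1 (hs' 1).2 h1 hs1
        have h3 : dd (oz n) e s 1 = dd (oz n) e s' 1 := by
          change dd1 (fun _ => 2) e (s 1) = dd1 (fun _ => 2) e (s' 1)
          rw [h2]
        rw [h3]
      · exact ⟨none, fun h => absurd h hek, fun _ s hs h1 h2 => absurd ⟨s, hs, h1, h2⟩ hc⟩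
  -- the box
  obtain ⟨Q, hQ1, hQ2, hQ3⟩ := J34.twin_box o X rv sh T e (dd (oz n) (e + 1) p)
    (fun i => ⟨(f4 (fun _ => 2) (e + 1) (p i)).1, (f4 (fun _ => 2) (e + 1) (p i)).2.1⟩)
    (hrege p hpW e le_rfl) a ha u
  choose Tr hTr using fun i : Fin (n + 2) =>
    J03.shift_exists (fun _ => 2) (fun m => o m i) (e + 1) (anc1 (fun _ => 2) (e + 1) (p i)) (Q i)
  have hTs : ∀ s, InW p r s → ∀ i, anc1 (fun m => o m i) (e + 1) (s i + Tr i) = Q i ∧
      ∀ m < e + 1, dd1 (fun m => o m i) m (s i + Tr i) = dd1 (fun _ => 2) m (s i) :=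
    fun s hs i => hTr i (s i) (win1 hwe hs i)
  have W : Twin o X rv sh k e r p Tr Q b a u := by
    refine ⟨T, hke, hr, hrk, hrege, ?_, ?_, ?_, ?_, ha, hQ2, hQ3, haW, hu0, hu1⟩
    · intro m hkm hme s hs hreg
      by_contra hcon
      push Not at hcon
      refine hmin m hme ⟨hkm, hcon, fun s' hs' m' hm' => ?_⟩
      exact regL_same (fun i => (win1 hcon hs' i).trans (win1 hcon hs i).symm) m' hm' (hreg m' hm')
    · intro s hs m hm
      funext i
      rcases Nat.lt_or_ge m (e + 1) with hlt | hge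
      · exact (hTs s hs i).2 m hlt
      · have hme : m = e + 1 := by omega
        subst hme
        have h1 : dd o (e + 1) (s + Tr) i =
            (anc1 (fun m => o m i) (e + 1) (s i + Tr i) + o (e + 1) i) % (hh (e + 1) + 1) := rfl
        have h2 : dgt (hh (e + 1)) (o (e + 1)) Q i =
            (Q i + o (e + 1) i) % (hh (e + 1) + 1) := rfl
        rw [h1, (hTs s hs i).1, ← h2, hQ1]
        exact (same1 (fun _ => 2) (win1 hwe hs i) (e + 1) le_rfl).2.symm
    · intro s hs
      funext i
      exact (hTs s hs i).1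
    · intro s hs i
      by_contra hcon
      push Not at hcon
      have h1 := (f6 (fun _ => 2) (e + 1) (s i) (fun m hm => hcon m (by omega))).1 (e + 1) le_rfl
      have h2 := mono1 (fun _ => 2) (e + 1) (show s i + 1 ≤ p i + r by have := (hs i).2; omega)
      have h3 := win1 hwe hs i
      have h4 := hwe i
      omega
  refine ⟨Tr, fun s hs => ?_⟩
  rw [← hX0]
  obtain ⟨g1, g2, g3⟩ := J35.twin_sk o X rv sh k e r p Tr Q b a u W s hs
  have g4 := J36.twin_v o X rv sh k e r p Tr Q b a u W s hs
  have g5 := J37.twin_w o X rv sh k e r p Tr Q b a u W s hs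
  exact Cell.ext g1.symm g2.symm g3.symm g4.symm g5.symm

end J39
end Helper536
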