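import Mathlib
import Pool.Agent.helper536_SFT.Defs
import Pool.Agent.helper536_SFT.J01

namespace Helper536
namespace J40a

theorem swap_swap (K : K3) : K.swap.swap = K := by cases K <;> rfl

theorem mark_bd (h X : ℤ) (hh : 3 ≤ h) (h0 : 0 ≤ X) (h1 : X ≤ 6 * h + 1) :
    0 ≤ mark h X ∧ mark h X ≤ h ∧ (mark h X = 0 ↔ (X = 0 ∨ X = 6 * h + 1)) ∧
    0 ≤ phase h X ∧ phase h X ≤ 5 := by
  obtain ⟨s1, s2, s3, -⟩ := J01.mark_step h X hh h0 h1
  by_cases e0 : X = 0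
  · obtain ⟨a, b, -, -⟩ := s1 e0
    refine ⟨by omega, by omega, ?_, by omega, by omega⟩
    constructor
    · intro _; exact Or.inl e0
    · intro _; exact a
  · by_cases e1 : X = 6 * h + 1
    · obtain ⟨a, b⟩ := s2 e1
      refine ⟨by omega, by omega, ?_, by omega, by omega⟩
      constructor
      · intro _; exact Or.inr e1
      · intro _; exact a
    · obtain ⟨a, b, c, d, -⟩ := s3 e0 e1
      refine ⟨by omega, by omega, ?_, by omega, by omega⟩
      constructor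
      · intro _; omega
      · intro _; omega

theorem scan_U (m arm : ℤ) : scan m arm = St.U ↔ (m = 0 ∨ arm < m) := by
  unfold scan
  split_ifs with h1 h2 <;> simp [h1]

theorem scan_J (m arm : ℤ) : scan m arm = St.J ↔ (m ≠ 0 ∧ arm = m) := by
  unfold scan
  split_ifs with h1 h2
  · constructor
    · intro h; cases h
    · intro h; omega
  · constructor
    · intro _; omega
    · intro _; rfl
  · constructor
    · intro h; cases h
    · intro h; omega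

theorem scan_S (m arm : ℤ) : scan m arm = St.S ↔ (m ≠ 0 ∧ m < arm) := by
  unfold scan
  split_ifs with h1 h2
  · constructor
    · intro h; cases h
    · intro h; omega
  · constructor
    · intro h; cases h
    · intro h; omega
  · constructor
    · intro _; omega
    · intro _; rfl

theorem ty_one (α : ℤ) (h : 0 ≤ α) : ty (α + 1) = 1 ↔ α = 0 := by
  unfold ty
  split_ifs <;> omega

theorem ty_nxt (Y : ℤ) (h : 1 ≤ Y) : ty (Y + 1) = nxt (ty Y) := by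
  unfold nxt ty
  split_ifs <;> omega

theorem ty_bd (Y : ℤ) (h : 1 ≤ Y) : 1 ≤ ty Y ∧ ty Y ≤ 4 := by
  unfold ty
  split_ifs <;> omega

theorem part1 (h : ℤ) (hh : 3 ≤ h) (α β X Y : ℤ) (K : K3) (h0 : 0 ≤ α) (h1 : α < h) (h2 : 0 ≤ β)
    (h3 : β < h) (h4 : 0 ≤ X) (h5 : X ≤ 6 * h + 1) (h6 : 0 ≤ Y) (h7 : Y ≤ 6 * h + 1) :
      NodeRule (lineLab h (α + 1) β X Y K) (lineLab h (α + 1) (β + 1) X Y K)
        (lineLab h (β + 1) α Y X K.swap) where
  ty := rfl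
  i := Iff.rfl
  o := Iff.rfl
  fa := Iff.rfl
  la := Iff.rfl
  fc := Iff.rfl
  lc := Iff.rfl
  K := rfl
  g := rfl
  G := rfl
  ph := rfl
  phc := rfl
  kap := rfl
  xfc := Iff.rfl
  xlc := Iff.rfl
  xK := (swap_swap K).symm
  xo := by
    change (2 ≤ α + 1 ∧ α + 1 = mark h Y + 1) ↔ scan (mark h Y) α = St.J
    rw [scan_J]
    omega
  xG := rfl
  xph := rfl
  scanU := by
    change β + 1 = mark h X → scan (mark h X) β = St.U
    rw [scan_U]
    omega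
  scanJ := by
    change β + 1 = mark h X → scan (mark h X) (β + 1) = St.J
    rw [scan_J]
    omega
  scanN := by
    change ¬ (β + 1 = mark h X) → scan (mark h X) β = St.U → scan (mark h X) (β + 1) = St.U
    rw [scan_U, scan_U]
    omega
  scanS := by
    change ¬ (β + 1 = mark h X) → scan (mark h X) β ≠ St.U → scan (mark h X) (β + 1) = St.S
    rw [scan_S, Ne, scan_U]
    omega

/-- the successor of a coordinate -/
theorem succ_case (h Y : ℤ) (hh : 3 ≤ h) (h0 : 0 ≤ Y) (h1 : Y < 6 * h + 1) :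
    (Y = 0 ∧ mark h Y = 0 ∧ phase h Y = 0 ∧ mark h (Y + 1) = 1 ∧ phase h (Y + 1) = 0) ∨
    (Y ≠ 0 ∧ 1 ≤ mark h Y ∧ mark h Y < h ∧ mark h (Y + 1) = mark h Y + 1 ∧
      phase h (Y + 1) = phase h Y) ∨
    (Y ≠ 0 ∧ mark h Y = h ∧ phase h Y ≠ 5 ∧ mark h (Y + 1) = 1 ∧
      phase h (Y + 1) = phase h Y + 1) ∨
    (Y ≠ 0 ∧ mark h Y = h ∧ phase h Y = 5 ∧ mark h (Y + 1) = 0 ∧ phase h (Y + 1) = 5) := by
  obtain ⟨s1, -, s3, -⟩ := J01.mark_step h Y hh h0 h1.le
  by_cases e0 : Y = 0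
  · obtain ⟨a, b, c, d⟩ := s1 e0
    exact Or.inl ⟨e0, a, b, c, d⟩
  · obtain ⟨a1, a2, a3, a4, a5, a6, a7, a8⟩ := s3 e0 h1.ne
    by_cases e1 : mark h Y = h
    · by_cases e2 : phase h Y = 5
      · have e3 := a8 e1 e2
        obtain ⟨-, t2, -, -⟩ := J01.mark_step h (Y + 1) hh (by omega) (by omega)
        obtain ⟨b1, b2⟩ := t2 e3
        exact Or.inr (Or.inr (Or.inr ⟨e0, e1, e2, b1, b2⟩))
      · obtain ⟨-, b1, b2⟩ := a7 e1 e2
        exact Or.inr (Or.inr (Or.inl ⟨e0, e1, e2, b1, b2⟩))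
    · obtain ⟨-, b1, b2⟩ := a6 e1
      exact Or.inr (Or.inl ⟨e0, a1, by omega, b1, b2⟩)

theorem part2 (h : ℤ) (hh : 3 ≤ h) (α X Y : ℤ) (K K' : K3) (l : Lab) (h0 : 0 ≤ α) (h1 : α < h)
    (h2 : 0 ≤ X) (h3 : X ≤ 6 * h + 1) (h4 : 0 ≤ Y) (h5 : Y < 6 * h + 1) (lt : l.ty = ty (Y + 1))
    (lf : l.first ↔ X = 0) (ll : l.last ↔ X = 6 * h + 1)
    (lk : Y + 1 = 6 * h + 1 → X = 6 * h + 1 → K' = l.K.swap) :
    EndRule (lineLab h (α + 1) h X Y K) (lineLab h (α + 1) 0 X (Y + 1) K') l where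
  ty := rfl
  fc := Iff.rfl
  lc := Iff.rfl
  g := rfl
  st := by
    change scan (mark h X) 0 = St.U
    rw [scan_U]
    have := mark_bd h X hh h2 h3
    omega
  fala := by
    change Y + 1 = 0 ↔ Y = 6 * h + 1
    omega
  i := by
    intro _
    change α + 1 = mark h (Y + 1) ↔ ((2 ≤ α + 1 ∧ α + 1 = mark h Y + 1) ∨
      (ty (α + 1) = 1 ∧ (Y = 0 ∨ (scan (mark h Y) h = St.J ∧ phase h Y ≠ 5))))
    rw [scan_J, ty_one α h0]
    have := succ_case h Y hh h4 h5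
    omega
  ph := by
    intro _
    change phase h (Y + 1) = if scan (mark h Y) h = St.J ∧ phase h Y ≠ 5 then phase h Y + 1
      else phase h Y
    have := succ_case h Y hh h4 h5
    split_ifs with h6
    · rw [scan_J] at h6
      omega
    · rw [scan_J] at h6
      omega
  lty1 := by
    intro _ h6
    have h6 : Y = 0 := h6
    rw [lt, h6]
    rfl
  lty2 := by
    intro _ h6
    have h6 : ¬ Y = 0 := h6
    change l.ty = nxt (if Y = 0 then 1 else ty Y)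
    rw [if_neg h6, lt]
    exact ty_nxt Y (by omega)
  kap := by
    intro _
    change (if Y + 1 = 0 then 1 else ty (Y + 1)) = l.ty
    rw [if_neg (by omega), lt]
  lfirst := fun _ => lf
  llast := fun _ => ll
  i' := by
    intro h6
    exact absurd h6 h5.ne
  ph' := by
    intro h6
    exact absurd h6 h5.ne
  kap' := by
    intro h6
    exact absurd h6 h5.ne
  K := fun h6 h7 => lk h6 h7

theorem part3 (h : ℤ) (hh : 3 ≤ h) (α X : ℤ) (K K' : K3) (l : Lab) (h0 : 0 ≤ α) (h1 : α < h)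
    (h2 : 0 ≤ X) (h3 : X ≤ 6 * h + 1) :
    EndRule (lineLab h (α + 1) h X (6 * h + 1) K) (lineLab h (α + 1) 0 X 0 K') l where
  ty := rfl
  fc := Iff.rfl
  lc := Iff.rfl
  g := rfl
  st := by
    change scan (mark h X) 0 = St.U
    rw [scan_U]
    have := mark_bd h X hh h2 h3
    omega
  fala := ⟨fun _ => rfl, fun _ => rfl⟩
  i := fun h6 => absurd rfl h6
  ph := fun h6 => absurd rfl h6
  lty1 := fun h6 => absurd rfl h6
  lty2 := fun h6 => absurd rfl h6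
  kap := fun h6 => absurd rfl h6
  lfirst := fun h6 => absurd rfl h6
  llast := fun h6 => absurd rfl h6
  i' := by
    intro _
    change ¬ (α + 1 = mark h 0)
    have := (mark_bd h 0 hh le_rfl (by omega)).2.2.1.2 (Or.inl rfl)
    omega
  ph' := by
    intro _
    change phase h 0 = 0
    exact ((J01.mark_step h 0 hh le_rfl (by omega)).1 rfl).2.1
  kap' := by
    intro _
    change (if (0 : ℤ) = 0 then 1 else ty 0) = 1
    rw [if_pos rfl]
  K := by
    intro h6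
    have h6 : (0 : ℤ) = 6 * h + 1 := h6
    omega

theorem part4 (h : ℤ) (hh : 3 ≤ h) (idx arm X Y : ℤ) (K : K3) (hi : 1 ≤ idx) (h0 : 0 ≤ X)
    (h1 : X ≤ 6 * h + 1) (h2 : 0 ≤ Y) (h3 : Y ≤ 6 * h + 1)
    (k0 : X ≠ 6 * h + 1 → Y ≠ 6 * h + 1 → K = K3.same)
    (k1 : X ≠ 6 * h + 1 → Y = 6 * h + 1 → K = K3.lo)
    (k2 : X = 6 * h + 1 → Y ≠ 6 * h + 1 → K = K3.hi) : Wf (lineLab h idx arm X Y K) where
  la := by
    change Y = 6 * h + 1 ↔ (¬ Y = 0 ∧ scan (mark h Y) h = St.U)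
    rw [scan_U]
    have := mark_bd h Y hh h2 h3
    omega
  K0 := fun h4 h5 => k0 h5 h4
  K1 := fun h4 h5 => k1 h5 h4
  K2 := fun h4 h5 => k2 h5 h4
  ty1 := (ty_bd idx hi).1
  ty4 := (ty_bd idx hi).2
  ph0 := (mark_bd h Y hh h2 h3).2.2.2.1
  ph5 := (mark_bd h Y hh h2 h3).2.2.2.2
  phc0 := (mark_bd h X hh h0 h1).2.2.2.1
  phc5 := (mark_bd h X hh h0 h1).2.2.2.2
  kap1 := by
    change 1 ≤ if Y = 0 then 1 else ty Y
    split_ifs with h4
    · exact le_rfl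
    · exact (ty_bd Y (by omega)).1
  kap4 := by
    change (if Y = 0 then 1 else ty Y) ≤ 4
    split_ifs with h4
    · norm_num
    · exact (ty_bd Y (by omega)).2

/- TARGET. Proof in words:
In lineLab h idx arm Xc Xa K the fields fc, lc, st, g, phc use Xc, and i, o, fa, la, G, ph, kap use Xa. scan m arm=J iff m != 0 and arm=m; scan m h=U iff m=0 (0<=m<=h); mark is between 0 and h, and 0 exactly for the coordinates 0 and 6h+1 (J01).
NodeRule: fields are read off; xo: (2<=α+1 and α+1=mark Y+1) iff scan (mark Y) α=J iff (mark Y != 0 and α=mark Y). scanU etc: l.i iff β+1=mark X; b.st=scan (mark X) β, a.st=scan (mark X) (β+1).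
EndRule (exact): a.i: α+1=mark (Y+1), with J01: Y=0: mark 1; mark Y<h: mark Y+1; mark Y=h and phase != 5: 1; mark Y=h, phase 5: Y+1=6h+1, mark 0. b.o: 2<=α+1 and α+1=mark Y+1. b.ty=ty (α+1)=1 iff α=0. b.G=J iff mark Y=h. la: Y=6h+1 false. a.fa: Y+1=0 false.
lty: kap = if Y=0 then 1 else ty Y; nxt (ty Y)=ty (Y+1) for Y>=1. a.kap = ty (Y+1). EndRule (high): b.la true; a.fa: 0=0; mark 0=0 so a.i false; phase 0=0; a.la is 0=6h+1, false. Wf: la iff (not fa and scan (mark Y) h=U); ty between 1 and 4; phases between 0 and 5 (J01).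
-/
theorem line_rules (h : ℤ) (hh : 3 ≤ h) :
    (∀ (α β X Y : ℤ) (K : K3), 0 ≤ α → α < h → 0 ≤ β → β < h → 0 ≤ X → X ≤ 6 * h + 1 →
      0 ≤ Y → Y ≤ 6 * h + 1 →
      NodeRule (lineLab h (α + 1) β X Y K) (lineLab h (α + 1) (β + 1) X Y K)
        (lineLab h (β + 1) α Y X K.swap)) ∧
    (∀ (α X Y : ℤ) (K K' : K3) (l : Lab), 0 ≤ α → α < h → 0 ≤ X → X ≤ 6 * h + 1 →
      0 ≤ Y → Y < 6 * h + 1 → l.ty = ty (Y + 1) → (l.first ↔ X = 0) →
      (l.last ↔ X = 6 * h + 1) → (Y + 1 = 6 * h + 1 → X = 6 * h + 1 → K' = l.K.swap) →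
      EndRule (lineLab h (α + 1) h X Y K) (lineLab h (α + 1) 0 X (Y + 1) K') l) ∧
    (∀ (α X : ℤ) (K K' : K3) (l : Lab), 0 ≤ α → α < h → 0 ≤ X → X ≤ 6 * h + 1 →
      EndRule (lineLab h (α + 1) h X (6 * h + 1) K) (lineLab h (α + 1) 0 X 0 K') l) ∧
    (∀ (idx arm X Y : ℤ) (K : K3), 1 ≤ idx → 0 ≤ X → X ≤ 6 * h + 1 → 0 ≤ Y → Y ≤ 6 * h + 1 →
      (X ≠ 6 * h + 1 → Y ≠ 6 * h + 1 → K = K3.same) →
      (X ≠ 6 * h + 1 → Y = 6 * h + 1 → K = K3.lo) →
      (X = 6 * h + 1 → Y ≠ 6 * h + 1 → K = K3.hi) → Wf (lineLab h idx arm X Y K)) := by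
  exact ⟨part1 h hh, part2 h hh, part3 h hh, part4 h hh⟩

end J40a
end Helper536
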