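import Mathlib
import Pool.Agent.helper536_SFT.Defs
import Pool.Agent.helper536_SFT.Forms
import Pool.Agent.helper536_SFT.J02
import Pool.Agent.helper536_SFT.J05
import Pool.Agent.helper536_SFT.J06

namespace Helper536
namespace J40b

/- TARGET. Proof in words:
First: J06: digits are 2 from some level on, and hh m>=3. Second: J05 for the first two; up s j j = s j+1, up s j i = s i for i != j (up s j = s + Pi.single j 1). J02 last part (carry) with o = fun _ => 2, a = s j. dd (oz n) m s i = dd1 (fun _ => 2) m (s i) and anc similarly, by definition.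
-/
theorem zz_step {n : ℕ} (s : Pos n) :
    (∀ (k : ℕ) (i : Fin (n + 2)), ∃ m, k ≤ m ∧ dd (oz n) m s i ≠ hh m) ∧
    ∀ (j : Fin (n + 2)) (q : ℕ), q = ordF (fun m => dd (oz n) m s j) 0 →
      (∀ m < q, dd (oz n) m s j = hh m) ∧ dd (oz n) q s j ≠ hh q ∧
      (∀ m < q, dd (oz n) m (up s j) j = 0) ∧ dd (oz n) q (up s j) j = dd (oz n) q s j + 1 ∧
      (∀ m, q < m → dd (oz n) m (up s j) = dd (oz n) m s ∧
        anc (oz n) m (up s j) = anc (oz n) m s) ∧
      (∀ m i, i ≠ j → dd (oz n) m (up s j) i = dd (oz n) m s i) ∧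
      (∀ i, 0 ≤ dd (oz n) q s i ∧ dd (oz n) q s i ≤ hh q) := by
  obtain ⟨hh3, _, _, hdig, _, hcarry⟩ := J02.digit_facts
  have hex : ∀ (k : ℕ) (i : Fin (n+2)), ∃ m, k ≤ m ∧ dd (oz n) m s i ≠ hh m := by
    intro k i
    obtain ⟨M, hM⟩ := J06.oz_event n s
    refine ⟨max k M, le_max_left _ _, ?_⟩
    have h1 := (hM (max k M) (le_max_right _ _)).2.1
    rw [h1]
    have := hh3 (max k M)
    show (2:ℤ) ≠ _
    omega
  refine ⟨hex, ?_⟩
  intro j q hq
  have hs := J05.ordF_spec (fun m => dd (oz n) m s j) 0 (hex 0 j)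
  rw [← hq] at hs
  obtain ⟨_, h2, h3, _, _⟩ := hs
  have h3' : ∀ m < q, dd (oz n) m s j = hh m := fun m hm => h3 m (Nat.zero_le _) hm
  have hup : up s j j = s j + 1 := by simp [up]
  have hupi : ∀ i, i ≠ j → up s j i = s i := by intro i hi; simp [up, hi]
  obtain ⟨c1, c2, c3⟩ := hcarry (fun _ => 2) q (s j) h3'
  obtain ⟨c4, c5⟩ := c3 h2
  refine ⟨h3', h2, ?_, ?_, ?_, ?_, ?_⟩
  · intro m hm
    show dd1 (fun _ => 2) m (up s j j) = 0
    rw [hup]; exact c2 m hm
  · show dd1 (fun _ => 2) q (up s j j) = dd1 (fun _ => 2) q (s j) + 1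
    rw [hup]; exact c4
  · intro m hm
    constructor
    · funext i
      by_cases hi : i = j
      · subst hi
        show dd1 (fun _ => 2) m (up s i i) = dd1 (fun _ => 2) m (s i)
        rw [hup]; exact (c5 m hm).2
      · show dd1 (fun _ => 2) m (up s j i) = dd1 (fun _ => 2) m (s i)
        rw [hupi i hi]
    · funext i
      by_cases hi : i = j
      · subst hi
        show anc1 (fun _ => 2) m (up s i i) = anc1 (fun _ => 2) m (s i)
        rw [hup]; exact (c5 m hm).1
      · show anc1 (fun _ => 2) m (up s j i) = anc1 (fun _ => 2) m (s i)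
        rw [hupi i hi]
  · intro m i hi
    show dd1 (fun _ => 2) m (up s j i) = dd1 (fun _ => 2) m (s i)
    rw [hupi i hi]
  · intro i
    have := hdig (fun _ => 2) q (s i)
    exact ⟨this.1, this.2.1⟩

end J40b
end Helper536
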