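import Mathlib
import Pool.Agent.helper536_SFT.Defs
import Pool.Agent.helper536_SFT.Forms
import Pool.Agent.helper536_SFT.J02
import Pool.Agent.helper536_SFT.J05
import Pool.Agent.helper536_SFT.J40a
import Pool.Agent.helper536_SFT.J40b

namespace Helper536
namespace J40c

theorem ordF_congr {D D' : ℕ → ℤ} {k : ℕ} (h : ∀ m, k ≤ m → D m = D' m) :
    ordF D k = ordF D' k := by
  unfold ordF
  congr 1
  ext m
  constructor
  · rintro ⟨h1, h2⟩
    exact ⟨h1, by rwa [← h m h1]⟩
  · rintro ⟨h1, h2⟩
    exact ⟨h1, by rwa [h m h1]⟩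

theorem ordF_next {D : ℕ → ℤ} {k : ℕ} (h : D k = hh k) : ordF D k = ordF D (k + 1) := by
  unfold ordF
  congr 1
  ext m
  constructor
  · rintro ⟨h1, h2⟩
    refine ⟨?_, h2⟩
    rcases Nat.lt_or_ge k m with h3 | h3
    · exact h3
    · exfalso
      have : m = k := le_antisymm h3 h1
      subst this
      exact h2 h
  · rintro ⟨h1, h2⟩
    exact ⟨by omega, h2⟩

theorem cmp3_swap (a b : ℕ) : (cmp3 a b).swap = cmp3 b a := by
  unfold cmp3
  rcases lt_trichotomy a b with h | h | h
  · rw [if_neg (by omega), if_neg (by omega), if_neg (by omega), if_pos h]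
    rfl
  · rw [if_pos h, if_pos h.symm]
    rfl
  · rw [if_neg (by omega), if_pos h, if_neg (by omega), if_neg (by omega)]
    rfl

theorem dd_bounds {n : ℕ} (o : ℕ → Pos n) (m : ℕ) (s : Pos n) (i : Fin (n + 2)) :
    0 ≤ dd o m s i ∧ dd o m s i ≤ hh m :=
  ⟨(J02.digit_facts.2.2.2.1 (fun m => o m i) m (s i)).1,
    (J02.digit_facts.2.2.2.1 (fun m => o m i) m (s i)).2.1⟩

/- TARGET. Proof in words:
D m = dd (oz n) m s, D' m = dd (oz n) m (up s j). qi, qj = ordF from 0 of the digits of axes i, j of s; (zz k b s).c i j = cmp3 qi qj; lab i j = labF D i j. The axis i digits are unchanged by the step (J40b), so ordF of axis i is the same at all levels. Axis j: digits m<qj become 0 (from hh m), digit qj grows by one, the others are unchanged;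
so for a level m>qj ordF of axis j from m is unchanged. All digits are between 0 and hh m, hh m>=3, hh (m+1)=6*hh m+1.
qi=qj=q: NodeRule, J40a first part with h=hh q, α=D q i, β=D q j, X=D (q+1) i, Y=D (q+1) j, K=cmp3 of the ordF from q+1, and cmp3 y x = (cmp3 x y).swap. lab i j at up s j: arm β+1.
qi>qj: hi: lab i j at up s j equals lab i j at s: all digits used (levels qi and above) are unchanged.
qi<qj, q=qi: lo: D q j=hh q, D' q j=0. b=lineLab (hh q) (D q i+1) (hh q) X Y K with X=D (q+1) i, Y=D (q+1) j. If qj=q+1: Y != hh (q+1)=6*hh q+1, D' (q+1) j=Y+1: J40a second part with l=lab j i at s=lineLab (hh (q+1)) (Y+1) (D (q+1) i) ..; the K condition: Y+1=X=6*hh q+1=hh (q+1): K' = cmp3 of the ordF from q+1 at up s j; there both digits q+1 are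
hh (q+1), so these are the ordF from q+2, which are those of s; and l.K = cmp3 (ordF axis j from q+2) (ordF axis i from q+2) of s. If qj>q+1: Y=hh (q+1)=6*hh q+1 and D' (q+1) j=0: J40a third part.
-/
theorem zz_half {n : ℕ} (k : ℕ) (b : Pos n → Prop) (s : Pos n) (i j : Fin (n + 2))
    (hij : i ≠ j) :
    HalfRule ((zz k b s).c i j) ((zz k b s).lab i j) ((zz k b (up s j)).lab i j)
      ((zz k b s).lab j i) := by
  have h3 : ∀ k, 3 ≤ hh k := J02.digit_facts.1
  obtain ⟨-, hstep⟩ := J40b.zz_step s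
  obtain ⟨ha, hb, hc, hd, he, hf, -⟩ := hstep j _ rfl
  obtain ⟨hai, hbi, -, -, -, -, -⟩ := hstep i _ rfl
  have hbd := fun m a => dd_bounds (oz n) m s a
  have hlab : ∀ (t : Pos n) (i j : Fin (n + 2)), i ≠ j →
      (zz k b t).lab i j = labF (fun m => dd (oz n) m t) i j := by
    intro t i j hij
    change (if i = j then dfl else _) = _
    rw [if_neg hij]
  have hcc : (zz k b s).c i j = cmp3 (ordF (fun m => dd (oz n) m s i) 0)
      (ordF (fun m => dd (oz n) m s j) 0) := rfl
  rw [hlab s i j hij, hlab (up s j) i j hij, hlab s j i hij.symm, hcc]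
  unfold labF
  have hi' : (fun m => dd (oz n) m (up s j) i) = fun m => dd (oz n) m s i := by
    funext m
    exact hf m i hij
  rw [hi']
  generalize hqi : ordF (fun m => dd (oz n) m s i) 0 = qi at *
  generalize hqj : ordF (fun m => dd (oz n) m s j) 0 = qj at *
  simp only [hf _ i hij]
  have hbi1 := hbd qi i
  have hbi2 := hbd (qi + 1) i
  have hbj1 := hbd qj j
  have hbj2 := hbd (qi + 1) j
  have hh1 : hh (qi + 1) = 6 * hh qi + 1 := rfl
  have hαi : dd (oz n) qi s i < hh qi := lt_of_le_of_ne hbi1.2 hbi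
  have hβj : dd (oz n) qj s j < hh qj := lt_of_le_of_ne hbj1.2 hb
  rcases lt_trichotomy qi qj with hlt | heq | hgt
  · -- the line ends
    have hc1 : cmp3 qi qj = K3.lo := by
      unfold cmp3
      rw [if_neg (by omega), if_neg (by omega)]
    rw [hc1]
    change EndRule _ _ _
    rw [ha qi hlt, hc qi hlt]
    rcases Nat.lt_or_ge (qi + 1) qj with h1 | h1
    · rw [ha (qi + 1) h1, hc (qi + 1) h1, hh1]
      exact (J40a.line_rules (hh qi) (h3 qi)).2.2.1 _ _ _ _ _ hbi1.1 hαi hbi2.1 (by omega)
    · have h2 : qj = qi + 1 := by omega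
      subst h2
      rw [hd]
      refine (J40a.line_rules (hh qi) (h3 qi)).2.1 _ _ _ _ _ _ hbi1.1 hαi hbi2.1 (by omega)
        hbj1.1 (by omega) rfl Iff.rfl Iff.rfl ?_
      intro hY hX
      change _ = (cmp3 _ _).swap
      rw [cmp3_swap]
      have e1 : ordF (fun m => dd (oz n) m s i) (qi + 1) =
          ordF (fun m => dd (oz n) m s i) (qi + 1 + 1) := ordF_next (by omega)
      have e2 : ordF (fun m => dd (oz n) m (up s j) j) (qi + 1) =
          ordF (fun m => dd (oz n) m (up s j) j) (qi + 1 + 1) := ordF_next (by rw [hd]; omega)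
      have e3 : ordF (fun m => dd (oz n) m (up s j) j) (qi + 1 + 1) =
          ordF (fun m => dd (oz n) m s j) (qi + 1 + 1) :=
        ordF_congr fun m hm => by rw [(he m (by omega)).1]
      rw [e1, e2, e3]
  · subst heq
    have hc1 : cmp3 qi qi = K3.same := by
      unfold cmp3
      rw [if_pos rfl]
    rw [hc1]
    change NodeRule _ _ _
    have e3 : ordF (fun m => dd (oz n) m (up s j) j) (qi + 1) =
        ordF (fun m => dd (oz n) m s j) (qi + 1) :=
      ordF_congr fun m hm => by rw [(he m (by omega)).1]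
    rw [e3, hd, (he (qi + 1) (by omega)).1, ← cmp3_swap (ordF (fun m => dd (oz n) m s i) (qi + 1))]
    exact (J40a.line_rules (hh qi) (h3 qi)).1 _ _ _ _ _ hbi1.1 hαi hbj1.1 hβj hbi2.1 (by omega)
      hbj2.1 (by omega)
  · have hc1 : cmp3 qi qj = K3.hi := by
      unfold cmp3
      rw [if_neg (by omega), if_pos hgt]
    rw [hc1]
    change _ = _
    have e3 : ordF (fun m => dd (oz n) m (up s j) j) (qi + 1) =
        ordF (fun m => dd (oz n) m s j) (qi + 1) :=
      ordF_congr fun m hm => by rw [(he m (by omega)).1]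
    rw [e3, (he qi hgt).1, (he (qi + 1) (by omega)).1]

end J40c
end Helper536
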