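import Mathlib
import Pool.Agent.helper536_SFT.Defs
import Pool.Agent.helper536_SFT.Forms
import Pool.Agent.helper536_SFT.J02
import Pool.Agent.helper536_SFT.J05
import Pool.Agent.helper536_SFT.J40a
import Pool.Agent.helper536_SFT.J40b
import Pool.Agent.helper536_SFT.J40c

namespace Helper536
namespace J40d

lemma ord_ex {n : ℕ} (s : Pos n) (i : Fin (n + 2)) (k : ℕ) :
    ∃ m, k ≤ m ∧ (fun m => dd (oz n) m s i) m ≠ hh m := (J40b.zz_step s).1 k i

lemma ord_unique {n : ℕ} (s : Pos n) (i : Fin (n + 2)) (k q : ℕ) (h1 : k ≤ q)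
    (h2 : dd (oz n) q s i ≠ hh q) (h3 : ∀ m, k ≤ m → m < q → dd (oz n) m s i = hh m) :
    ordF (fun m => dd (oz n) m s i) k = q :=
  (J05.ordF_spec (fun m => dd (oz n) m s i) k (ord_ex s i k)).2.2.2.2 q h1 h2 h3

lemma dig_bd {n : ℕ} (s : Pos n) (i : Fin (n + 2)) (k : ℕ) :
    0 ≤ dd (oz n) k s i ∧ dd (oz n) k s i ≤ hh k := by
  have h := J02.digit_facts.2.2.2.1 (fun m => oz n m i) k (s i)
  exact ⟨h.1, h.2.1⟩

lemma labF_congr {n : ℕ} {D D' : ℕ → Fin (n + 2) → ℤ} (i j : Fin (n + 2))
    (hi : ∀ m, D m i = D' m i) (hj : ∀ m, D m j = D' m j) : labF D i j = labF D' i j := by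
  have h1 : (fun m => D m i) = (fun m => D' m i) := funext hi
  have h2 : (fun m => D m j) = (fun m => D' m j) := funext hj
  unfold labF
  rw [h1, h2, hi, hj, hi, hj]

lemma zz_lab {n : ℕ} (k : ℕ) (b : Pos n → Prop) (s : Pos n) (i j : Fin (n + 2)) (hij : i ≠ j) :
    (zz k b s).lab i j = labF (fun m => dd (oz n) m s) i j := if_neg hij

lemma zz_c {n : ℕ} (k : ℕ) (b : Pos n → Prop) (s : Pos n) (i j : Fin (n + 2)) :
    (zz k b s).c i j =
      cmp3 (ordF (fun m => dd (oz n) m s i) 0) (ordF (fun m => dd (oz n) m s j) 0) := rfl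

lemma zz_dig {n : ℕ} (k : ℕ) (b : Pos n → Prop) (s : Pos n) (i : Fin (n + 2)) :
    (zz k b s).dig i = dd (oz n) 0 s i := rfl

lemma ord_zero {n : ℕ} (s : Pos n) (i : Fin (n + 2)) (h : dd (oz n) 0 s i ≠ 3) :
    ordF (fun m => dd (oz n) m s i) 0 = 0 :=
  ord_unique s i 0 0 le_rfl h (fun m _ hm => absurd hm (Nat.not_lt_zero m))

lemma ord_pos {n : ℕ} (s : Pos n) (i : Fin (n + 2)) (h : dd (oz n) 0 s i = 3) :
    0 < ordF (fun m => dd (oz n) m s i) 0 := by
  rcases Nat.eq_zero_or_pos (ordF (fun m => dd (oz n) m s i) 0) with h0 | h0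
  · have h1 := (J05.ordF_spec (fun m => dd (oz n) m s i) 0 (ord_ex s i 0)).2.1
    rw [h0] at h1
    exact absurd h h1
  · exact h0

lemma cmp3_self (a : ℕ) : cmp3 a a = K3.same := if_pos rfl

lemma cmp3_swap (a b : ℕ) : cmp3 b a = (cmp3 a b).swap := by
  unfold cmp3
  rcases lt_trichotomy a b with h | h | h
  · rw [if_neg (by omega), if_pos h, if_neg (by omega), if_neg (by omega)]; rfl
  · subst h; rw [if_pos rfl]; rfl
  · rw [if_neg (by omega), if_neg (by omega), if_neg (by omega), if_pos h]; rfl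

lemma cmp3_hi {a b : ℕ} (h : b < a) : cmp3 a b = K3.hi := by
  unfold cmp3
  rw [if_neg (by omega), if_pos h]

lemma cmp3_lo {a b : ℕ} (h : a < b) : cmp3 a b = K3.lo := by
  unfold cmp3
  rw [if_neg (by omega), if_neg (by omega)]

/-- the order at a level whose digit is not the last one -/
lemma ord_self {n : ℕ} (s : Pos n) (i : Fin (n + 2)) (q : ℕ) (h : dd (oz n) q s i ≠ hh q) :
    ordF (fun m => dd (oz n) m s i) q = q :=
  ord_unique s i q q le_rfl h (fun m h1 h2 => absurd h2 (by omega))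

lemma ord_gt {n : ℕ} (s : Pos n) (i : Fin (n + 2)) (q : ℕ) (h : dd (oz n) q s i = hh q) :
    q < ordF (fun m => dd (oz n) m s i) q := by
  have h1 := J05.ordF_spec (fun m => dd (oz n) m s i) q (ord_ex s i q)
  rcases Nat.eq_or_lt_of_le h1.1 with h0 | h0
  · have h2 := h1.2.1
    rw [← h0] at h2
    exact absurd h h2
  · exact h0

/- TARGET. Proof in words:
D m = dd (oz n) m s. hh 0 = 3, hh (m+1)=6*hh m+1. dig0, dig1: digits between 0 and hh 0. digS: D 0 i=3: ordF of axis i is >0 so the digit 0 of up s i is 0 (J40b); otherwise ordF=0 and it grows by one. digN, labP, cP: a step in direction m does not change the digits of the other axes, and lab i j, c i j only use the digits of axes i and j.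
labD, cD: cmp3 x x=same. csw: cmp3 y x=(cmp3 x y).swap. fcF: (lab i j).fc is D (q+1) i=0 with q=ordF of axis i, whatever j. wf: J40a fourth part: idx=D q i+1>=1, X=D (q+1) i, Y=D (q+1) j; K=cmp3 (ordF i (q+1)) (ordF j (q+1)): if X != hh (q+1)=6*hh q+1 then ordF i (q+1)=q+1, if X=hh (q+1) it is >q+1; same for Y.
cty, cfirst, clast: D 0 i != 3 means ordF=0: labF uses level 0. c0, c1: ordF=0 iff the digit 0 is not 3. c3: D 0 i=2, D 0 j=3: at up s i both digits 0 are 3, the digits of levels >=1 are unchanged, so c i j there = cmp3 (ordF i 0) (ordF j 0) = cmp3 (ordF i 1) (ordF j 1) at up s i = the same at s = K of labF D i j (ordF i 0=0 at s). half: J40c.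
-/
theorem zz_sk {n : ℕ} (k : ℕ) (b : Pos n → Prop) (s : Pos n) :
    LSk 3 (zz k b s) (fun i => zz k b (up s i)) := by
  have step := (J40b.zz_step s).2
  have other : ∀ (m : ℕ) (i j : Fin (n + 2)), i ≠ j →
      dd (oz n) m (up s j) i = dd (oz n) m s i := fun m i j hij =>
    (step j _ rfl).2.2.2.2.2.1 m i hij
  have hlab : ∀ i j, i ≠ j → (zz k b s).lab i j = labF (fun m => dd (oz n) m s) i j :=
    fun i j h => zz_lab k b s i j h
  constructor
  · intro i; exact (dig_bd s i 0).1
  · intro i; exact (dig_bd s i 0).2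
  · intro i
    show dd (oz n) 0 (up s i) i = if dd (oz n) 0 s i = 3 then 0 else dd (oz n) 0 s i + 1
    obtain ⟨h1, h2, h3, h4, -⟩ := step i _ rfl
    by_cases h : dd (oz n) 0 s i = 3
    · rw [if_pos h]
      exact h3 0 (ord_pos s i h)
    · rw [if_neg h]
      rw [ord_zero s i h] at h4
      exact h4
  · intro i j hij; exact other 0 i j hij
  · intro i; exact if_pos rfl
  · intro i; exact cmp3_self _
  · intro i j m hij hmi hmj
    show (zz k b (up s m)).lab i j = (zz k b s).lab i j
    rw [zz_lab _ _ _ _ _ hij, zz_lab _ _ _ _ _ hij]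
    exact labF_congr i j (fun q => other q i m hmi.symm) (fun q => other q j m hmj.symm)
  · intro i j m hij hmi hmj
    show (zz k b (up s m)).c i j = (zz k b s).c i j
    rw [zz_c, zz_c]
    have h1 : (fun q => dd (oz n) q (up s m) i) = fun q => dd (oz n) q s i :=
      funext fun q => other q i m hmi.symm
    have h2 : (fun q => dd (oz n) q (up s m) j) = fun q => dd (oz n) q s j :=
      funext fun q => other q j m hmj.symm
    rw [h1, h2]
  · intro i j
    exact cmp3_swap _ _
  · intro i j j' hj hj'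
    rw [hlab i j hj.symm, hlab i j' hj'.symm]
    exact Iff.rfl
  · intro i j hij
    rw [hlab i j hij]
    set q := ordF (fun m => dd (oz n) m s i) 0 with hq
    have hd := J02.digit_facts
    have hqs : hh (q + 1) = 6 * hh q + 1 := rfl
    refine (J40a.line_rules (hh q) (hd.1 q)).2.2.2 _ _ _ _ _ ?_ ?_ ?_ ?_ ?_ ?_ ?_ ?_
    · have := (dig_bd s i q).1
      show 1 ≤ dd (oz n) q s i + 1
      omega
    · exact (dig_bd s i (q + 1)).1
    · exact (dig_bd s i (q + 1)).2
    · exact (dig_bd s j (q + 1)).1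
    · exact (dig_bd s j (q + 1)).2
    · intro hX hY
      rw [ord_self s i (q + 1) hX, ord_self s j (q + 1) hY, cmp3_self]
    · intro hX hY
      rw [ord_self s i (q + 1) hX]
      exact cmp3_lo (ord_gt s j (q + 1) hY)
    · intro hX hY
      rw [ord_self s j (q + 1) hY]
      exact cmp3_hi (ord_gt s i (q + 1) hX)
  · intro i j hij hi
    rw [hlab i j hij]
    show ty (dd (oz n) (ordF (fun m => dd (oz n) m s i) 0) s i + 1) = _
    rw [ord_zero s i hi]
    rfl
  · intro i j hij hi
    rw [hlab i j hij]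
    show dd (oz n) (ordF (fun m => dd (oz n) m s i) 0) s j = 0 ↔ _
    rw [ord_zero s i hi]
    exact Iff.rfl
  · intro i j hij hi
    rw [hlab i j hij]
    show dd (oz n) (ordF (fun m => dd (oz n) m s i) 0) s j =
      hh (ordF (fun m => dd (oz n) m s i) 0) ↔ _
    rw [ord_zero s i hi]
    exact Iff.rfl
  · intro i j hij hi hj
    rw [zz_c, ord_zero s i hi, ord_zero s j hj, cmp3_self]
  · intro i j hij hi hj
    rw [zz_c, ord_zero s j hj]
    exact cmp3_hi (ord_pos s i hi)
  · intro i j hij hi hj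
    show (zz k b (up s i)).c i j = _
    rw [zz_c, hlab i j hij]
    have hi' : dd (oz n) 0 s i = 2 := hi
    have hj' : dd (oz n) 0 s j = 3 := hj
    have hi0 : ordF (fun m => dd (oz n) m s i) 0 = 0 := ord_zero s i (by rw [hi']; norm_num)
    show _ = cmp3 (ordF (fun m => dd (oz n) m s i) (ordF (fun m => dd (oz n) m s i) 0 + 1))
      (ordF (fun m => dd (oz n) m s j) (ordF (fun m => dd (oz n) m s i) 0 + 1))
    obtain ⟨-, -, -, h4, h5, -⟩ := step i _ rfl
    rw [hi0] at h4 h5 ⊢
    have hup : ∀ l : Fin (n + 2), dd (oz n) 0 (up s i) l = 3 →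
        ordF (fun m => dd (oz n) m (up s i) l) 0 = ordF (fun m => dd (oz n) m s l) (0 + 1) := by
      intro l hl
      have hs := J05.ordF_spec (fun m => dd (oz n) m s l) (0 + 1) (ord_ex s l (0 + 1))
      have hge := hs.1
      apply ord_unique
      · exact Nat.zero_le _
      · rw [(h5 _ (by omega)).1]
        exact hs.2.1
      · intro m _ hm
        rcases Nat.eq_zero_or_pos m with h0 | h0
        · subst h0; exact hl
        · rw [(h5 m h0).1]
          exact hs.2.2.1 m h0 hm
    rw [hup i (by rw [h4, hi']; norm_num), hup j (by rw [other 0 j i hij.symm, hj'])]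
  · intro i j hij
    exact J40c.zz_half k b s i j hij

end J40d
end Helper536
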