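import Mathlib
import Pool.Agent.helper536_SFT.Defs
import Pool.Agent.helper536_SFT.Forms
import Pool.Agent.helper536_SFT.J01
import Pool.Agent.helper536_SFT.J02
import Pool.Agent.helper536_SFT.J05
import Pool.Agent.helper536_SFT.J40b

namespace Helper536
namespace J41a

theorem ty1 (x : ℤ) : Helper536.ty (x + 1) = 1 ↔ x = 0 := by
  unfold Helper536.ty
  split_ifs <;> omega

theorem ty2 (x : ℤ) : Helper536.ty (x + 1) = 2 ↔ x = 1 := by
  unfold Helper536.ty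
  split_ifs <;> omega

theorem scanJ (h m : ℤ) (hh : 3 ≤ h) : scan m h = St.J ↔ m = h := by
  unfold scan
  split_ifs with h1 h2
  · constructor
    · intro h; exact absurd h (by decide)
    · intro h2; omega
  · simp [h2]
  · constructor
    · intro h; exact absurd h (by decide)
    · intro h3; exact absurd h3.symm h2

theorem lab_ne {n : ℕ} (k : ℕ) (D : ℕ → Fin (n + 2) → ℤ) (b : Prop) {i j : Fin (n + 2)}
    (h : i ≠ j) : (cellF k D b).lab i j = labF D i j := by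
  show (if i = j then dfl else labF D i j) = labF D i j
  rw [if_neg h]

theorem read {n : ℕ} (k : ℕ) (D : ℕ → Fin (n + 2) → ℤ) (b : Prop) (q0 q1 : ℕ)
    (h0 : q0 = ordF (fun m => D m 0) 0) (h1 : q1 = ordF (fun m => D m 1) 0) :
    (vdom (cellF k D b) ↔ vvis (hh q1) (D q1)) ∧
    (zc (cellF k D b) ↔ ∀ m, m ≠ 0 → m ≠ 1 → D q0 m ≠ 0 ∧ D q0 m ≠ hh q0) ∧
    (isZ (cellF k D b) ↔ extr (hh q0) (D (q0 + 1))) ∧
    (isN (cellF k D b) ↔ (¬ extr (hh q0) (D (q0 + 1)) ∧ mark (hh q0) (D (q0 + 1) 0) = hh q0)) ∧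
    (isR (cellF k D b) ↔ reg (hh q0) (D (q0 + 1))) ∧
    ((cellF k D b).lab 0 1).phc = phase (hh q0) (D (q0 + 1) 0) ∧
    (((cellF k D b).lab 0 1).ty = 1 ↔ D q0 0 = 0) ∧
    (((cellF k D b).lab 0 1).ty = 2 ↔ D q0 0 = 1) ∧
    (wdom (cellF k D b) ↔ wvis (hh q0) (D q0) (D (q0 + 1))) ∧
    ((cellF k D b).lab 1 0).ty = Helper536.ty (D q1 1 + 1) := by
  have h01 : (0 : Fin (n + 2)) ≠ 1 := by
    intro h
    have := congrArg Fin.val h
    simp at this
  have L0 : ∀ m, m ≠ 0 → (cellF k D b).lab 0 m = lineLab (hh q0) (D q0 0 + 1) (D q0 m)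
      (D (q0 + 1) 0) (D (q0 + 1) m) (cmp3 (ordF (fun m => D m 0) (q0 + 1))
        (ordF (fun m' => D m' m) (q0 + 1))) := by
    intro m hm
    rw [lab_ne k D b (Ne.symm hm), h0]
    rfl
  have L1 : ∀ m, m ≠ 1 → (cellF k D b).lab 1 m = lineLab (hh q1) (D q1 1 + 1) (D q1 m)
      (D (q1 + 1) 1) (D (q1 + 1) m) (cmp3 (ordF (fun m => D m 1) (q1 + 1))
        (ordF (fun m' => D m' m) (q1 + 1))) := by
    intro m hm
    rw [lab_ne k D b (Ne.symm hm), h1]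
    rfl
  have hq0 := J02.digit_facts.1 q0
  have cv : vdom (cellF k D b) ↔ vvis (hh q1) (D q1) := by
    unfold vdom vvis
    constructor
    · intro h m hm
      have h2 := h m hm
      rw [L1 m hm] at h2
      exact h2
    · intro h m hm
      rw [L1 m hm]
      exact h m hm
  have cz : zc (cellF k D b) ↔ ∀ m, m ≠ 0 → m ≠ 1 → D q0 m ≠ 0 ∧ D q0 m ≠ hh q0 := by
    unfold zc
    constructor
    · intro h m hm hm1
      have h2 := h m hm hm1
      rw [L0 m hm] at h2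
      exact h2
    · intro h m hm hm1
      rw [L0 m hm]
      exact h m hm hm1
  have cZ : isZ (cellF k D b) ↔ extr (hh q0) (D (q0 + 1)) := by
    unfold isZ extr
    rw [L0 1 h01.symm]
    constructor
    · rintro (h | h | ⟨m, hm, h⟩)
      · exact ⟨0, Or.inl h⟩
      · exact ⟨0, Or.inr h⟩
      · rw [L0 m hm] at h
        exact ⟨m, h⟩
    · rintro ⟨m, h⟩
      by_cases hm : m = 0
      · subst hm
        rcases h with h | h
        · exact Or.inl h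
        · exact Or.inr (Or.inl h)
      · refine Or.inr (Or.inr ⟨m, hm, ?_⟩)
        rw [L0 m hm]
        exact h
  have cg : ((cellF k D b).lab 0 1).g = St.J ↔ mark (hh q0) (D (q0 + 1) 0) = hh q0 := by
    rw [L0 1 h01.symm]
    exact scanJ _ _ hq0
  have cN : isN (cellF k D b) ↔
      (¬ extr (hh q0) (D (q0 + 1)) ∧ mark (hh q0) (D (q0 + 1) 0) = hh q0) := by
    unfold isN
    rw [cZ, cg]
  have cR : isR (cellF k D b) ↔ reg (hh q0) (D (q0 + 1)) := by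
    unfold isR reg
    rw [cZ, Ne, Ne, cg]
  have c1 : ((cellF k D b).lab 0 1).ty = 1 ↔ D q0 0 = 0 := by
    rw [L0 1 h01.symm]
    exact ty1 _
  have c2 : ((cellF k D b).lab 0 1).ty = 2 ↔ D q0 0 = 1 := by
    rw [L0 1 h01.symm]
    exact ty2 _
  have cf : ((cellF k D b).lab 0 1).first ↔ D q0 1 = 0 := by
    rw [L0 1 h01.symm]
    exact Iff.rfl
  have cl : ((cellF k D b).lab 0 1).last ↔ D q0 1 = hh q0 := by
    rw [L0 1 h01.symm]
    exact Iff.rfl
  refine ⟨cv, cz, cZ, cN, cR, ?_, c1, c2, ?_, ?_⟩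
  · rw [L0 1 h01.symm]
    rfl
  · unfold wdom wvis
    rw [cz, cR, c1, c2, cf, cl]
  · rw [L1 0 h01]
    rfl

/- TARGET. Proof in words:
zz k b s = cellF k D (b ..), lab i j = labF D i j for i != j (0 != 1 in Fin (n+2)); labF D 0 m = lineLab (hh q0) (D q0 0+1) (D q0 m) (D (q0+1) 0) (D (q0+1) m) .., labF D 1 m similarly with q1. Unfold vdom, zc, isZ, isN, isR, wdom, wvis, extr, reg. lineLab fields: first iff arm=0, last iff arm=h, fc iff Xc=0, lc iff Xc=6h+1, fa iff Xa=0, la iff Xa=6h+1,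
g=scan (mark h Xc) h, which is J iff mark h Xc=h (0<=mark<=h by J01, h>=3). All digits are between 0 and hh (J02), hh (q+1)=6*hh q+1. ty idx=1 iff idx=1, =2 iff idx=2, for idx>=1. The last two claims are the definitions vF, wF.
-/
open Classical in
theorem zz_read {n : ℕ} (k : ℕ) (b : Pos n → Prop) (s : Pos n) (q0 q1 : ℕ)
    (h0 : q0 = ordF (fun m => dd (oz n) m s 0) 0) (h1 : q1 = ordF (fun m => dd (oz n) m s 1) 0) :
    (vdom (zz k b s) ↔ vvis (hh q1) (dd (oz n) q1 s)) ∧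
    (zc (zz k b s) ↔ ∀ m, m ≠ 0 → m ≠ 1 → dd (oz n) q0 s m ≠ 0 ∧ dd (oz n) q0 s m ≠ hh q0) ∧
    (isZ (zz k b s) ↔ extr (hh q0) (dd (oz n) (q0 + 1) s)) ∧
    (isN (zz k b s) ↔ (¬ extr (hh q0) (dd (oz n) (q0 + 1) s) ∧
      mark (hh q0) (dd (oz n) (q0 + 1) s 0) = hh q0)) ∧
    (isR (zz k b s) ↔ reg (hh q0) (dd (oz n) (q0 + 1) s)) ∧
    ((zz k b s).lab 0 1).phc = phase (hh q0) (dd (oz n) (q0 + 1) s 0) ∧
    (((zz k b s).lab 0 1).ty = 1 ↔ dd (oz n) q0 s 0 = 0) ∧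
    (((zz k b s).lab 0 1).ty = 2 ↔ dd (oz n) q0 s 0 = 1) ∧
    (wdom (zz k b s) ↔ wvis (hh q0) (dd (oz n) q0 s) (dd (oz n) (q0 + 1) s)) ∧
    ((zz k b s).lab 1 0).ty = ty (dd (oz n) q1 s 1 + 1) ∧
    ((zz k b s).v = if vvis (hh q1) (dd (oz n) q1 s) then some (rvF k q1
      (fun m => dd (oz n) m s) (b (anc (oz n) (k + 1) s)) (tau (dd (oz n) q1 s 1 + 1))) else none) ∧
    ((zz k b s).w = if wvis (hh q0) (dd (oz n) q0 s) (dd (oz n) (q0 + 1) s) then some (shF k q0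
      (fun m => dd (oz n) m s) (b (anc (oz n) (k + 1) s)) (dd (oz n) q0 s 0 + 1)) else none) := by
  have h := read k (fun m => dd (oz n) m s) (b (anc (oz n) (k + 1) s)) q0 q1 h0 h1
  refine ⟨h.1, h.2.1, h.2.2.1, h.2.2.2.1, h.2.2.2.2.1, h.2.2.2.2.2.1, h.2.2.2.2.2.2.1,
    h.2.2.2.2.2.2.2.1, h.2.2.2.2.2.2.2.2.1, h.2.2.2.2.2.2.2.2.2, ?_, ?_⟩
  · rw [h1]; rfl
  · rw [h0]; rfl

end J41a
end Helper536
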