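import Mathlib
import Pool.Agent.helper536_SFT.Defs
import Pool.Agent.helper536_SFT.Forms
import Pool.Agent.helper536_SFT.J01
import Pool.Agent.helper536_SFT.J02

namespace Helper536
namespace J41b

theorem eff_special {n : ℕ} (h : ℤ) (X : Fin (n + 2) → ℤ) (hr : ¬ reg h X) :
    (∀ c, eff h X c = eff h X Val.one) ∧
      (eff h X Val.one = Share.val (Val.nu none) ∨
        ∃ rho u, eff h X Val.one = Share.nur rho u) := by
  by_cases he : extr h X
  · refine ⟨fun c => by simp [eff, he], Or.inl (by simp [eff, he])⟩
  · have hm : mark h (X 0) = h := by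
      by_contra hm
      exact hr ⟨he, hm⟩
    refine ⟨fun c => by simp [eff, he, hm], Or.inr ?_⟩
    refine ⟨decide (phase h (X 0) % 2 = 1),
      (if phase h (X 0) / 2 = 0 then none else if phase h (X 0) / 2 = 1 then some true
        else some false), ?_⟩
    simp [eff, he, hm, nurs]

theorem eff_reg {n : ℕ} (h : ℤ) (X : Fin (n + 2) → ℤ) (hr : reg h X) (c : Val) :
    eff h X c = Share.val c := by
  obtain ⟨he, hm⟩ := hr
  simp [eff, he, hm]

theorem allowed_aux {n : ℕ} (k q : ℕ) (D : ℕ → Fin (n + 2) → ℤ) (B : Prop)
    (hq : regL D q) (t1 t : Bool) :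
    allowed (Share.val (rvF k (q + 1) D B t1)) t (rvF k q D B t) := by
  classical
  by_cases h1 : regL D (q + 1)
  · by_cases h2 : regL D (q + 1 + 1)
    · by_cases h3 : ∀ m, q + 1 ≤ m → regL D m
      · have h4 : ∀ m, q ≤ m → regL D m := by
          intro m hm
          rcases Nat.eq_or_lt_of_le hm with he | hl
          · exact he ▸ hq
          · exact h3 m hl
        have e1 : rvF k (q + 1) D B t1 = if k + 1 ≤ q + 1 then Val.one
            else if q + 1 = k ∧ t1 = true ∧ B then Val.one else Val.nu none := by
          unfold rvF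
          rw [if_neg (not_not.2 h1), if_neg (not_not.2 h2), if_pos h3]
        have e2 : rvF k q D B t = if k + 1 ≤ q then Val.one
            else if q = k ∧ t = true ∧ B then Val.one else Val.nu none := by
          unfold rvF
          rw [if_neg (not_not.2 hq), if_neg (not_not.2 h1), if_pos h4]
        rw [e1, e2]
        by_cases h5 : k ≤ q
        · rw [if_pos (by omega : k + 1 ≤ q + 1)]
          show _ = Val.one ∨ _ = Val.nu none
          split_ifs <;> simp
        · rw [if_neg (by omega : ¬ k + 1 ≤ q + 1), if_neg (by omega : ¬ k + 1 ≤ q),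
            if_neg (by rintro ⟨h6, _⟩; omega : ¬ (q = k ∧ t = true ∧ B))]
          by_cases h7 : q + 1 = k ∧ t1 = true ∧ B
          · rw [if_pos h7]
            exact Or.inr rfl
          · rw [if_neg h7]
            show _ = if (none : Option Bool) = some t then Val.one else Val.nu none
            simp
      · have h4 : ¬ ∀ m, q ≤ m → regL D m := fun h => h3 fun m hm => h m (by omega)
        have e1 : rvF k (q + 1) D B t1 = Val.nu none := by
          unfold rvF
          rw [if_neg (not_not.2 h1), if_neg (not_not.2 h2), if_neg h3]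
        have e2 : rvF k q D B t = Val.nu none := by
          unfold rvF
          rw [if_neg (not_not.2 hq), if_neg (not_not.2 h1), if_neg h4]
        rw [e1, e2]
        show _ = if (none : Option Bool) = some t then Val.one else Val.nu none
        simp
    · have h4 : ¬ ∀ m, q ≤ m → regL D m := fun h => h2 (h _ (by omega))
      have e1 : rvF k (q + 1) D B t1 =
          crv (eff (hh (q + 1 + 1)) (D (q + 1 + 2)) Val.one) t1 := by
        unfold rvF
        rw [if_neg (not_not.2 h1), if_pos h2]
      have e2 : rvF k q D B t = Val.nu none := by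
        unfold rvF
        rw [if_neg (not_not.2 hq), if_neg (not_not.2 h1), if_neg h4]
      rw [e1, e2]
      have e3 : ∀ σ : Share, crv σ t1 = Val.one ∨ crv σ t1 = Val.nu none := by
        intro σ
        cases σ with
        | val a => exact Or.inr rfl
        | nur rho u =>
          show (if u = some t1 then Val.one else Val.nu none) = Val.one ∨
            (if u = some t1 then Val.one else Val.nu none) = Val.nu none
          split_ifs <;> simp
      rcases e3 (eff (hh (q + 1 + 1)) (D (q + 1 + 2)) Val.one) with h | h
      · rw [h]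
        exact Or.inr rfl
      · rw [h]
        show _ = if (none : Option Bool) = some t then Val.one else Val.nu none
        simp
  · have e1 : rvF k (q + 1) D B t1 = srv (eff (hh (q + 1)) (D (q + 2)) Val.one) t1 := by
      unfold rvF
      rw [if_pos h1]
    have e2 : rvF k q D B t = crv (eff (hh (q + 1)) (D (q + 2)) Val.one) t := by
      unfold rvF
      rw [if_neg (not_not.2 hq), if_pos h1]
    rw [e1, e2]
    rcases (eff_special (hh (q + 1)) (D (q + 2)) h1).2 with h | ⟨rho, u, h⟩
    · rw [h]
      have e3 : srv (Share.val (Val.nu none)) t1 = Val.nu none := by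
        show (if (none : Option Bool) = some t1 then Val.one else Val.nu none) = Val.nu none
        simp
      rw [e3]
      show Val.nu none = if (none : Option Bool) = some t then Val.one else Val.nu none
      simp
    · rw [h]
      have e3 : srv (Share.nur rho u) t1 = if t1 = rho then Val.one else Val.nu u := rfl
      have e4 : crv (Share.nur rho u) t = if u = some t then Val.one else Val.nu none := rfl
      rw [e3, e4]
      by_cases h5 : t1 = rho
      · rw [if_pos h5]
        show _ = Val.one ∨ _ = Val.nu none
        split_ifs <;> simp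
      · rw [if_neg h5]
        rfl

theorem rvF_allowed {n : ℕ} (k q : ℕ) (D : ℕ → Fin (n + 2) → ℤ) (B : Prop) :
    (¬ regL D q → ∀ c t, allowed (eff (hh q) (D (q + 1)) c) t (rvF k q D B t)) ∧
    (regL D q → ∀ a t, (a = 1 ∨ a = 2) →
      allowed (eff (hh q) (D (q + 1)) (shF k q D B a)) t (rvF k q D B t)) ∧
    (∀ (D' : ℕ → Fin (n + 2) → ℤ) (B' : Prop), (∀ m, q < m → D m = D' m) → (q = k → (B ↔ B')) →
      ∀ t, rvF k q D B t = rvF k q D' B' t) := by
  classical
  refine ⟨?_, ?_, ?_⟩
  · intro hr c t
    obtain ⟨h1, h2⟩ := eff_special (hh q) (D (q + 1)) hr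
    have e1 : rvF k q D B t = srv (eff (hh q) (D (q + 1)) Val.one) t := by
      unfold rvF
      rw [if_pos hr]
    rw [h1 c, e1]
    rcases h2 with h | ⟨rho, u, h⟩
    · rw [h]
      rfl
    · rw [h]
      rfl
  · intro hr a t _
    rw [eff_reg _ _ hr]
    exact allowed_aux k q D B hr _ t
  · intro D' B' hD hB t
    have r1 : ∀ m, q ≤ m → (regL D m ↔ regL D' m) := by
      intro m hm
      unfold regL
      rw [hD (m + 1) (by omega)]
    have r2 : (∀ m, q ≤ m → regL D m) ↔ (∀ m, q ≤ m → regL D' m) :=
      ⟨fun h m hm => (r1 m hm).1 (h m hm), fun h m hm => (r1 m hm).2 (h m hm)⟩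
    unfold rvF
    rw [hD (q + 1) (by omega), hD (q + 2) (by omega)]
    by_cases c1 : regL D q
    · have c1' := (r1 q le_rfl).1 c1
      rw [if_neg (not_not.2 c1), if_neg (not_not.2 c1')]
      by_cases c2 : regL D (q + 1)
      · have c2' := (r1 (q + 1) (by omega)).1 c2
        rw [if_neg (not_not.2 c2), if_neg (not_not.2 c2')]
        by_cases c3 : ∀ m, q ≤ m → regL D m
        · have c3' := r2.1 c3
          rw [if_pos c3, if_pos c3']
          by_cases c4 : k + 1 ≤ q
          · rw [if_pos c4, if_pos c4]
          · rw [if_neg c4, if_neg c4]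
            by_cases c5 : q = k
            · have hBB := hB c5
              by_cases c6 : q = k ∧ t = true ∧ B
              · rw [if_pos c6, if_pos ⟨c6.1, c6.2.1, hBB.1 c6.2.2⟩]
              · rw [if_neg c6, if_neg fun h => c6 ⟨h.1, h.2.1, hBB.2 h.2.2⟩]
            · rw [if_neg fun h => c5 h.1, if_neg fun h => c5 h.1]
        · have c3' : ¬ ∀ m, q ≤ m → regL D' m := fun h => c3 (r2.2 h)
          rw [if_neg c3, if_neg c3']
      · have c2' : ¬ regL D' (q + 1) := fun h => c2 ((r1 (q + 1) (by omega)).2 h)
        rw [if_pos c2, if_pos c2']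
    · have c1' : ¬ regL D' q := fun h => c1 ((r1 q le_rfl).2 h)
      rw [if_pos c1, if_pos c1']

end J41b
end Helper536
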