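import Mathlib
import Pool.Agent.helper536_SFT.Defs
import Pool.Agent.helper536_SFT.Forms
import Pool.Agent.helper536_SFT.J02
import Pool.Agent.helper536_SFT.J05
import Pool.Agent.helper536_SFT.J40b
import Pool.Agent.helper536_SFT.J41a
import Pool.Agent.helper536_SFT.J41b

namespace Helper536
namespace J41c

theorem ord_keep {n : ℕ} (s : Pos n) (i j : Fin (n + 2)) (hij : i ≠ j) :
    ordF (fun m => dd (oz n) m (up s j) i) 0 = ordF (fun m => dd (oz n) m s i) 0 := by
  have h := (J40b.zz_step s).2 j _ rfl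
  obtain ⟨-, -, -, -, -, h6, -⟩ := h
  congr 1
  funext m
  exact h6 m i hij

theorem rv_keep {n : ℕ} (k : ℕ) (b : Pos n → Prop) (s : Pos n) (j : Fin (n + 2)) (q : ℕ)
    (hq : ordF (fun m => dd (oz n) m s j) 0 ≤ q) (t : Bool) :
    rvF k q (fun m => dd (oz n) m s) (b (anc (oz n) (k + 1) s)) t =
      rvF k q (fun m => dd (oz n) m (up s j)) (b (anc (oz n) (k + 1) (up s j))) t := by
  have h := (J40b.zz_step s).2 j _ rfl
  obtain ⟨-, -, -, -, h5, -, -⟩ := h
  refine (J41b.rvF_allowed k q (fun m => dd (oz n) m s) _).2.2 _ _ ?_ ?_ t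
  · intro m hm
    exact ((h5 m (by omega)).1).symm
  · intro hqk
    have e := (h5 (k + 1) (by omega)).2
    rw [e]

theorem ord_le {n : ℕ} (s : Pos n) (i : Fin (n + 2)) (q : ℕ) (h : dd (oz n) q s i ≠ hh q) :
    ordF (fun m => dd (oz n) m s i) 0 ≤ q :=
  (J05.ordF_spec (fun m => dd (oz n) m s i) 0 ((J40b.zz_step s).1 0 i)).2.2.2.1 q (by omega) h


/- TARGET. Proof in words:
D m = dd (oz n) m s; q0,q1,qm: ordF from 0 of axes 0,1,m. c 0 1 = cmp3 q0 q1. First two: J41a. A step in direction m keeps the digits and indices of levels >qm and of the other axes (J40b).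
v: m != 1, v(s)=some: vvis (hh q1) (D q1): D q1 m is not hh q1, so qm<=q1 (J05), so all digits of levels >q1 are kept, ordF of axis 1 and the digits of axis 1 are kept, and if q1=k then anc (k+1) is kept; J41b third part. w with m>=2: same with q0 (D q0 m != hh q0 by wvis), shF k q0 D B c = rvF k (q0+1) D B (tau (D (q0+1) 1+c-1)); if q0+1=k then k+1>qm.
wA: not lo: q1<=q0 (cmp3), the step in direction 1 keeps digits of levels >q1, in particular >q0, and axis 0. So w(s)=some (shF k q0 D B (D q0 0+1)) and w(up s 1) has the same value (J41b third part at level q0+1).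
wB: lo: q0<q1, ty=1: D q0 0=0. s'=up s 1, w(s')=some a: ordF axis 0 of s' is q0, wvis at s': reg (hh q0) (D' (q0+1)): D' (q0+1) 1 != 0, so q1=q0+1 (if q1>q0+1 then the digit q0+1 of axis 1 of s' is 0) and D' (q0+1) 1 = D (q0+1) 1+1. a = shF k q0 D' B' 1 = rvF k (q0+1) D' B' (tau (D (q0+1) 1+1)). v(s): q1=q0+1, vvis: D (q0+1) m for m != 1 equals D' (q0+1) m,
which is not 0 nor 6*hh q0+1=hh (q0+1). v(s) = some (rvF k (q0+1) D B (tau (D (q0+1) 1+1))); J41b third part (levels >q0+1=q1 kept; anc (k+1) kept if q0+1=k).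
wC: lo, ty=2: D q0 0=1, w(s)=some a: reg (hh q0) (D (q0+1)), D (q0+1) 1 != hh (q0+1), so q1=q0+1 (q1>q0 and digit q0+1 not last). a=shF k q0 D B 2=rvF k (q0+1) D B (tau (D (q0+1) 1+2-1)) and v(s)=some of the same (vvis from reg).
-/
theorem zz_dat1 {n : ℕ} (k : ℕ) (b : Pos n → Prop) (s : Pos n) :
    ((zz k b s).v.isSome ↔ vdom (zz k b s)) ∧ ((zz k b s).w.isSome ↔ wdom (zz k b s)) ∧
    (∀ m, m ≠ 1 → ∀ a c, (zz k b s).v = some a → (zz k b (up s m)).v = some c → a = c) ∧
    (∀ m, m ≠ 0 → m ≠ 1 → ∀ a c, (zz k b s).w = some a → (zz k b (up s m)).w = some c → a = c) ∧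
    ((zz k b s).c 0 1 ≠ K3.lo → ∀ a c, (zz k b s).w = some a → (zz k b (up s 1)).w = some c →
      a = c) ∧
    ((zz k b s).c 0 1 = K3.lo → ((zz k b s).lab 0 1).ty = 1 → ∀ a, (zz k b (up s 1)).w = some a →
      (zz k b s).v = some a) ∧
    ((zz k b s).c 0 1 = K3.lo → ((zz k b s).lab 0 1).ty = 2 → ∀ a, (zz k b s).w = some a →
      (zz k b s).v = some a) := by
  have one0 : (1 : Fin (n + 2)) ≠ 0 := by
    intro h
    have := congrArg Fin.val h
    simp at this
  have zero1 : (0 : Fin (n + 2)) ≠ 1 := fun h => one0 h.symm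
  obtain ⟨r1, r2, r3, r4, r5, r6, r7, r8, r9, r10, r11, r12⟩ := J41a.zz_read k b s _ _ rfl rfl
  set q0 := ordF (fun m => dd (oz n) m s 0) 0 with hq0
  set q1 := ordF (fun m => dd (oz n) m s 1) 0 with hq1
  have hc : (zz k b s).c 0 1 = cmp3 q0 q1 := rfl
  refine ⟨?_, ?_, ?_, ?_, ?_, ?_, ?_⟩
  · rw [r11, r1]
    by_cases h : vvis (hh q1) (dd (oz n) q1 s) <;> simp [h]
  · rw [r12, r9]
    by_cases h : wvis (hh q0) (dd (oz n) q0 s) (dd (oz n) (q0 + 1) s) <;> simp [h]
  · intro m hm a c ha hcc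
    have k1 : ordF (fun m' => dd (oz n) m' (up s m) 1) 0 = q1 := ord_keep s 1 m (Ne.symm hm)
    obtain ⟨-, -, -, -, -, -, -, -, -, -, t11, -⟩ := J41a.zz_read k b (up s m) _ _ rfl rfl
    rw [k1] at t11
    have hst := (J40b.zz_step s).2 m _ rfl
    obtain ⟨-, -, -, -, h5, h6, -⟩ := hst
    rw [r11] at ha
    rw [t11] at hcc
    split_ifs at ha with hv
    split_ifs at hcc with hv'
    have hqm : ordF (fun m' => dd (oz n) m' s m) 0 ≤ q1 := ord_le s m q1 (hv m hm).2
    have e1 : dd (oz n) q1 (up s m) 1 = dd (oz n) q1 s 1 := h6 q1 1 (Ne.symm hm)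
    rw [e1, ← rv_keep k b s m q1 hqm] at hcc
    exact (Option.some.inj ha).symm.trans (Option.some.inj hcc)
  · intro m hm0 hm1 a c ha hcc
    have k0 : ordF (fun m' => dd (oz n) m' (up s m) 0) 0 = q0 := ord_keep s 0 m (Ne.symm hm0)
    obtain ⟨-, -, -, -, -, -, -, -, -, -, -, t12⟩ := J41a.zz_read k b (up s m) _ _ rfl rfl
    rw [k0] at t12
    have hst := (J40b.zz_step s).2 m _ rfl
    obtain ⟨-, -, -, -, h5, h6, -⟩ := hst
    rw [r12] at ha
    rw [t12] at hcc
    split_ifs at ha with hv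
    split_ifs at hcc with hv'
    have hqm : ordF (fun m' => dd (oz n) m' s m) 0 ≤ q0 := ord_le s m q0 (hv.1 m hm0 hm1).2
    have e1 : dd (oz n) (q0 + 1) (up s m) 1 = dd (oz n) (q0 + 1) s 1 := h6 _ 1 (Ne.symm hm1)
    have e0 : dd (oz n) q0 (up s m) 0 = dd (oz n) q0 s 0 := h6 _ 0 (Ne.symm hm0)
    unfold shF at ha hcc
    simp only [] at ha hcc
    rw [e0, e1, ← rv_keep k b s m (q0 + 1) (by omega)] at hcc
    exact (Option.some.inj ha).symm.trans (Option.some.inj hcc)
  · intro hlo a c ha hcc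
    have hle : q1 ≤ q0 := by
      by_contra hcon
      apply hlo
      rw [hc]
      unfold cmp3
      rw [if_neg (by omega), if_neg (by omega)]
    have k0 : ordF (fun m' => dd (oz n) m' (up s 1) 0) 0 = q0 := ord_keep s 0 1 zero1
    obtain ⟨-, -, -, -, -, -, -, -, -, -, -, t12⟩ := J41a.zz_read k b (up s 1) _ _ rfl rfl
    rw [k0] at t12
    have hst := (J40b.zz_step s).2 1 _ rfl
    obtain ⟨-, -, -, -, h5, h6, -⟩ := hst
    rw [r12] at ha
    rw [t12] at hcc
    split_ifs at ha with hv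
    split_ifs at hcc with hv'
    have e1 : dd (oz n) (q0 + 1) (up s 1) = dd (oz n) (q0 + 1) s := (h5 (q0 + 1) (by omega)).1
    have e0 : dd (oz n) q0 (up s 1) 0 = dd (oz n) q0 s 0 := h6 _ 0 zero1
    unfold shF at ha hcc
    simp only [] at ha hcc
    rw [e0, e1, ← rv_keep k b s 1 (q0 + 1) (by omega)] at hcc
    exact (Option.some.inj ha).symm.trans (Option.some.inj hcc)
  · intro hlo hty a ha
    have hlt : q0 < q1 := by
      rw [hc] at hlo
      unfold cmp3 at hlo
      split_ifs at hlo with h1 h2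
      omega
    have d0 : dd (oz n) q0 s 0 = 0 := r7.1 hty
    have k0 : ordF (fun m' => dd (oz n) m' (up s 1) 0) 0 = q0 := ord_keep s 0 1 zero1
    obtain ⟨-, -, -, -, -, -, -, -, -, -, -, t12⟩ := J41a.zz_read k b (up s 1) _ _ rfl rfl
    rw [k0] at t12
    have hst := (J40b.zz_step s).2 1 _ rfl
    obtain ⟨-, -, h3, h4, h5, h6, -⟩ := hst
    rw [t12] at ha
    split_ifs at ha with hv
    obtain ⟨hw1, ⟨hw2, hw3⟩, hw4⟩ := hv
    have hne : ∀ i, dd (oz n) (q0 + 1) (up s 1) i ≠ 0 ∧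
        dd (oz n) (q0 + 1) (up s 1) i ≠ 6 * hh q0 + 1 := by
      intro i
      constructor
      · intro hh0
        exact hw2 ⟨i, Or.inl hh0⟩
      · intro hh0
        exact hw2 ⟨i, Or.inr hh0⟩
    have hq : q1 = q0 + 1 := by
      by_contra hcon
      exact (hne 1).1 (h3 (q0 + 1) (by omega))
    have e0 : dd (oz n) q0 (up s 1) 0 = dd (oz n) q0 s 0 := h6 _ 0 zero1
    have e1 : dd (oz n) (q0 + 1) (up s 1) 1 = dd (oz n) (q0 + 1) s 1 + 1 := by
      rw [← hq]
      exact h4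
    have hvv : vvis (hh q1) (dd (oz n) q1 s) := by
      intro m hm
      have em : dd (oz n) (q0 + 1) (up s 1) m = dd (oz n) (q0 + 1) s m := h6 _ m hm
      have := hne m
      rw [em] at this
      rw [hq]
      exact this
    rw [r11, if_pos hvv]
    unfold shF at ha
    simp only [] at ha
    rw [e0, e1, d0, ← rv_keep k b s 1 (q0 + 1) (by omega)] at ha
    rw [← ha, hq]
    congr 3
    ring
  · intro hlo hty a ha
    have hlt : q0 < q1 := by
      rw [hc] at hlo
      unfold cmp3 at hlo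
      split_ifs at hlo with h1 h2
      omega
    have d0 : dd (oz n) q0 s 0 = 1 := r8.1 hty
    rw [r12] at ha
    split_ifs at ha with hv
    obtain ⟨hw1, ⟨hw2, hw3⟩, hw4⟩ := hv
    have hne : ∀ i, dd (oz n) (q0 + 1) s i ≠ 0 ∧
        dd (oz n) (q0 + 1) s i ≠ 6 * hh q0 + 1 := by
      intro i
      constructor
      · intro hh0
        exact hw2 ⟨i, Or.inl hh0⟩
      · intro hh0
        exact hw2 ⟨i, Or.inr hh0⟩
    have hq : q1 = q0 + 1 := by
      have := ord_le s 1 (q0 + 1) (hne 1).2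
      omega
    have hvv : vvis (hh q1) (dd (oz n) q1 s) := by
      intro m hm
      rw [hq]
      exact hne m
    rw [r11, if_pos hvv]
    unfold shF at ha
    simp only [] at ha
    rw [d0] at ha
    rw [← ha, hq]
    congr 3
    ring

end J41c
end Helper536
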