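import Mathlib
import Pool.Agent.helper536_SFT.Defs
import Pool.Agent.helper536_SFT.Forms
import Pool.Agent.helper536_SFT.J02
import Pool.Agent.helper536_SFT.J05
import Pool.Agent.helper536_SFT.J40b
import Pool.Agent.helper536_SFT.J41a
import Pool.Agent.helper536_SFT.J41b

namespace Helper536
namespace J41d

theorem tau_ty (t : ℤ) (_ht : 1 ≤ t) : tau (ty t) = tau t := by
  unfold tau ty
  by_cases h2 : t ≤ 2
  · rw [if_pos h2]
  · rw [if_neg h2]
    by_cases h3 : t % 2 = 1
    · rw [if_pos h3]
      simp [h3]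
    · rw [if_neg h3]
      simp [h3]

theorem cmp3_same {a b : ℕ} (h : cmp3 a b = K3.same) : a = b := by
  unfold cmp3 at h
  by_cases h1 : a = b
  · exact h1
  · rw [if_neg h1] at h
    by_cases h2 : b < a
    · rw [if_pos h2] at h
      cases h
    · rw [if_neg h2] at h
      cases h

open Classical in
/-- the share shown by a face, in terms of the digits -/
theorem share_core {n : ℕ} (k q : ℕ) (D : ℕ → Fin (n + 2) → ℤ) (B : Prop) (u : Cell n) (σ : Share)
    (t : Bool) (j : ℤ) (hj : j = 1 ∨ j = 2)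
    (hZ : isZ u ↔ extr (hh q) (D (q + 1)))
    (hN : isN u ↔ (¬ extr (hh q) (D (q + 1)) ∧ mark (hh q) (D (q + 1) 0) = hh q))
    (hR : isR u ↔ reg (hh q) (D (q + 1)))
    (hp : (u.lab 0 1).phc = phase (hh q) (D (q + 1) 0))
    (hw : ∀ a, u.w = some a → a = shF k q D B j)
    (hσ : shareIs u σ) : allowed σ t (rvF k q D B t) := by
  obtain ⟨f1, f2, -⟩ := J41b.rvF_allowed k q D B
  rcases hσ with ⟨h1, rfl⟩ | ⟨h1, rfl⟩ | ⟨h1, a, ha, rfl⟩
  · have hx := hZ.1 h1
    have hr : ¬ regL D q := fun h => h.1 hx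
    have := f1 hr Val.one t
    unfold eff at this
    rw [if_pos hx] at this
    exact this
  · have hx := hN.1 h1
    have hr : ¬ regL D q := fun h => h.2 hx.2
    have := f1 hr Val.one t
    unfold eff at this
    rw [if_neg hx.1, if_pos hx.2, ← hp] at this
    exact this
  · have hx := hR.1 h1
    have := f2 hx j t hj
    unfold eff at this
    rw [if_neg hx.1, if_neg hx.2, ← hw a ha] at this
    exact this

/- TARGET. Proof in words:
D m = dd (oz n) m s; q0=q1=q (cmp3 = same) the ordF of axes 0 and 1. tau (ty t)=tau t for t>=1. Let t=tau (D q 1+1), B=b (anc (oz n) (k+1) s).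
A step in direction 0 or 1 keeps all digits and indices of levels >q (J40b). v(up s 0)=some c: the ordF of axis 1 of up s 0 is q, so c=rvF k q D' B' t = rvF k q D B t (J41b third part). v(s)=some c: c=rvF k q D B t.
shareIs u σ for u=zz k b s with ty=1 (J41a): isZ: extr (hh q) (D (q+1)), σ=val (nu none)=eff (hh q) (D (q+1)) _; isN: σ=nurs (phase ..)=eff ..; these are the cases not regL D q, use J41b first part. isR: regL D q, w(s)=some a, σ=val a: a=shF k q D B (D q 0+1)=shF k q D B 1 (from the formula of w in J41a), eff=val a; J41b second part.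
For ty=2, u=zz k b (up s 1): the ordF of axis 0 of up s 1 is q, D' (q+1)=D (q+1), D' q 0=D q 0=1: isZ, isN, isR the same conditions; w(up s 1)=some a with a=shF k q D' B' 2=shF k q D B 2 (J41b third part at level q+1: digits >q+1 kept, index k+1 kept if q+1=k). J41b.
-/
theorem zz_dat2 {n : ℕ} (k : ℕ) (b : Pos n → Prop) (s : Pos n) :
    ((zz k b s).c 0 1 = K3.same → zc (zz k b s) → ((zz k b s).lab 0 1).ty = 1 →
      ∀ σ c, shareIs (zz k b s) σ → (zz k b (up s 0)).v = some c →
      allowed σ (tau ((zz k b s).lab 1 0).ty) c) ∧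
    ((zz k b s).c 0 1 = K3.same → zc (zz k b s) → ((zz k b s).lab 0 1).ty = 2 →
      ∀ σ c, shareIs (zz k b (up s 1)) σ → (zz k b s).v = some c →
      allowed σ (tau ((zz k b s).lab 1 0).ty) c) := by
  classical
  constructor
  · intro hc _ hty σ c hσ hv
    have hq : ordF (fun m => dd (oz n) m s 0) 0 = ordF (fun m => dd (oz n) m s 1) 0 := cmp3_same hc
    set q := ordF (fun m => dd (oz n) m s 0) 0 with hq0
    obtain ⟨-, -, rZ, rN, rR, rp, r1, -, -, rty, -, rw_⟩ := J41a.zz_read k b s q q hq0 hq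
    obtain ⟨-, hstep⟩ := J40b.zz_step s
    obtain ⟨-, -, -, -, hup, hoth, -⟩ := hstep 0 q hq0
    have hpos := ((hstep 1 q hq).2.2.2.2.2.2 1).1
    have h10 : (1 : Fin (n + 2)) ≠ 0 := by
      intro h
      have := congrArg Fin.val h
      simp at this
    have hq1' : q = ordF (fun m => dd (oz n) m (up s 0) 1) 0 := by
      have : (fun m => dd (oz n) m (up s 0) 1) = fun m => dd (oz n) m s 1 := by
        funext m
        exact hoth m 1 h10
      rw [this]
      exact hq
    obtain ⟨-, -, -, -, -, -, -, -, -, -, rv', -⟩ := J41a.zz_read k b (up s 0) _ q rfl hq1'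
    rw [hv] at rv'
    have hd0 : dd (oz n) q s 0 = 0 := r1.1 hty
    obtain ⟨-, -, f3⟩ := J41b.rvF_allowed k q (fun m => dd (oz n) m s)
      (b (anc (oz n) (k + 1) s))
    have hcv : c = rvF k q (fun m => dd (oz n) m s) (b (anc (oz n) (k + 1) s))
        (tau (dd (oz n) q s 1 + 1)) := by
      split_ifs at rv' with hvv
      have e := Option.some.inj rv'
      rw [e, hoth q 1 h10]
      refine (f3 (fun m => dd (oz n) m (up s 0)) (b (anc (oz n) (k + 1) (up s 0))) ?_ ?_ _).symm
      · intro m hm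
        exact ((hup m hm).1).symm
      · intro hk
        rw [(hup (k + 1) (by omega)).2]
    rw [rty, tau_ty _ (by linarith), hcv]
    refine share_core k q (fun m => dd (oz n) m s) (b (anc (oz n) (k + 1) s)) (zz k b s) σ _ 1
      (Or.inl rfl) rZ rN rR rp ?_ hσ
    intro a ha
    rw [ha] at rw_
    split_ifs at rw_ with hvv
    have e := Option.some.inj rw_
    rw [e, hd0]
    norm_num
  · intro hc _ hty σ c hσ hv
    have hq : ordF (fun m => dd (oz n) m s 0) 0 = ordF (fun m => dd (oz n) m s 1) 0 := cmp3_same hc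
    set q := ordF (fun m => dd (oz n) m s 0) 0 with hq0
    obtain ⟨-, -, -, -, -, -, -, r2, -, rty, rv, -⟩ := J41a.zz_read k b s q q hq0 hq
    obtain ⟨-, hstep⟩ := J40b.zz_step s
    obtain ⟨-, -, -, -, hup, hoth, hpos'⟩ := hstep 1 q hq
    have hpos := (hpos' 1).1
    have h10 : (0 : Fin (n + 2)) ≠ 1 := by
      intro h
      have := congrArg Fin.val h
      simp at this
    have hq1' : q = ordF (fun m => dd (oz n) m (up s 1) 0) 0 := by
      have : (fun m => dd (oz n) m (up s 1) 0) = fun m => dd (oz n) m s 0 := by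
        funext m
        exact hoth m 0 h10
      rw [this]
    obtain ⟨-, -, rZ, rN, rR, rp, -, -, -, -, -, rw_⟩ := J41a.zz_read k b (up s 1) q _ hq1' rfl
    have hd0 : dd (oz n) q s 0 = 1 := r2.1 hty
    have hcv : c = rvF k q (fun m => dd (oz n) m s) (b (anc (oz n) (k + 1) s))
        (tau (dd (oz n) q s 1 + 1)) := by
      rw [hv] at rv
      split_ifs at rv with hvv
      exact Option.some.inj rv
    have hD1 : dd (oz n) (q + 1) (up s 1) = dd (oz n) (q + 1) s := (hup (q + 1) (by omega)).1
    rw [rty, tau_ty _ (by linarith), hcv]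
    refine share_core k q (fun m => dd (oz n) m s) (b (anc (oz n) (k + 1) s)) (zz k b (up s 1)) σ _ 2
      (Or.inr rfl) (by rw [rZ, hD1]) (by rw [rN, hD1]) (by rw [rR, hD1]) (by rw [rp, hD1]) ?_ hσ
    intro a ha
    rw [ha] at rw_
    split_ifs at rw_ with hvv
    have e := Option.some.inj rw_
    rw [e, hoth q 0 h10, hd0]
    obtain ⟨-, -, f3⟩ := J41b.rvF_allowed k (q + 1) (fun m => dd (oz n) m (up s 1))
      (b (anc (oz n) (k + 1) (up s 1)))
    unfold shF
    have e2 := f3 (fun m => dd (oz n) m s) (b (anc (oz n) (k + 1) s)) (fun m hm =>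
      (hup m (by omega)).1) (fun hk => by rw [(hup (k + 1) (by omega)).2])
      (tau (dd (oz n) (q + 1) (up s 1) 1 + (1 + 1) - 1))
    rw [e2, hD1]
    norm_num

end J41d
end Helper536
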