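import Mathlib
import Pool.Agent.helper536_SFT.Defs
import Pool.Agent.helper536_SFT.Forms
import Pool.Agent.helper536_SFT.J40d
import Pool.Agent.helper536_SFT.J41c
import Pool.Agent.helper536_SFT.J41d

namespace Helper536
namespace J41e

/- TARGET. Proof in words:
Collect J40d, J41c, J41d.
-/
theorem zz_rule {n : ℕ} (k : ℕ) (b : Pos n → Prop) : Rule 3 (zz k b) := by
  intro s
  obtain ⟨h1, h2, h3, h4, h5, h6, h7⟩ := J41c.zz_dat1 k b s
  obtain ⟨h8, h9⟩ := J41d.zz_dat2 k b s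
  exact ⟨J40d.zz_sk k b s, ⟨h1, h2, h3, h4, h5, h6, h7, h8, h9⟩⟩

end J41e
end Helper536
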