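import Mathlib
import Pool.Agent.helper536_SFT.Defs
import Pool.Agent.helper536_SFT.J01

namespace Helper536
namespace J50a

/- TARGET. Proof in words:
The box has (6h+2)^(n+2) vectors. A vector that is not regular has a coordinate i with value 0 or 6h+1 (for each i: 2*(6h+2)^(n+1) vectors) or mark h (D 0)=h, which forces D 0 in {h,2h,..,6h} (J01: D 0 = phase*h+h, phase in 0..5): at most 6*(6h+2)^(n+1) vectors. So the number of non regular ones is at most (2(n+2)+6)*(6h+2)^(n+1).
(A set {D in box : D i in S} has card S * (6h+2)^(n+1); e.g. it is the piFinset of (Function.update (fun _ => Icc) i S).)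
-/
theorem card_coord (n : ℕ) (M : ℤ) (S : Finset ℤ) (hS : S ⊆ Finset.Icc 0 M) (i : Fin (n + 2)) :
    ((Fintype.piFinset (fun _ : Fin (n + 2) => Finset.Icc (0 : ℤ) M)).filter
      (fun D => D i ∈ S)).card = S.card * (Finset.Icc (0 : ℤ) M).card ^ (n + 1) := by
  have h1 : (Fintype.piFinset (fun _ : Fin (n + 2) => Finset.Icc (0 : ℤ) M)).filter
      (fun D => D i ∈ S) =
      Fintype.piFinset (Function.update (fun _ : Fin (n + 2) => Finset.Icc (0 : ℤ) M) i S) := by
    ext D
    simp only [Finset.mem_filter, Fintype.mem_piFinset]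
    constructor
    · rintro ⟨h2, h3⟩ j
      by_cases hj : j = i
      · subst hj
        simpa using h3
      · simpa [Function.update_of_ne hj] using h2 j
    · intro h2
      have h3 : D i ∈ S := by simpa using h2 i
      refine ⟨fun j => ?_, h3⟩
      by_cases hj : j = i
      · subst hj
        exact hS h3
      · simpa [Function.update_of_ne hj] using h2 j
  rw [h1, Fintype.card_piFinset, ← Finset.mul_prod_erase Finset.univ _ (Finset.mem_univ i)]
  have h4 : ∏ j ∈ Finset.univ.erase i,
      (Function.update (fun _ : Fin (n + 2) => Finset.Icc (0 : ℤ) M) i S j).card =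
      ∏ j ∈ Finset.univ.erase i, (Finset.Icc (0 : ℤ) M).card := by
    refine Finset.prod_congr rfl fun j hj => ?_
    rw [Function.update_of_ne (Finset.ne_of_mem_erase hj)]
  rw [h4, Finset.prod_const, Finset.card_erase_of_mem (Finset.mem_univ i)]
  simp

open Classical in
theorem reg_count (n : ℕ) (h : ℤ) (hh : 3 ≤ h) :
    (((6 * h + 2 : ℤ) : ℝ)) ^ (n + 2) * (1 - (2 * (n : ℝ) + 10) / ((6 * h + 2 : ℤ) : ℝ)) ≤
      (((Fintype.piFinset (fun _ : Fin (n + 2) => Finset.Icc (0 : ℤ) (6 * h + 1))).filter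
        (fun D => reg h D)).card : ℝ) := by
  set B := Fintype.piFinset (fun _ : Fin (n + 2) => Finset.Icc (0 : ℤ) (6 * h + 1)) with hB
  set K := (Finset.Icc (0 : ℤ) (6 * h + 1)).card with hK
  have hKz : (K : ℤ) = 6 * h + 2 := by
    rw [hK, Int.card_Icc]
    rw [Int.toNat_of_nonneg (by omega)]
    ring
  have hKr : ((6 * h + 2 : ℤ) : ℝ) = (K : ℝ) := by
    rw [← hKz]; simp
  have hKpos : (0 : ℝ) < (K : ℝ) := by
    rw [← hKr]
    have : (0 : ℤ) < 6 * h + 2 := by omega
    exact_mod_cast this
  have hBc : B.card = K ^ (n + 2) := by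
    rw [hB, Fintype.card_piFinset]
    simp [hK]
  -- the sets of exceptional values
  set S2 : Finset ℤ := {0, 6 * h + 1} with hS2
  set S6 : Finset ℤ := {h, 2 * h, 3 * h, 4 * h, 5 * h, 6 * h} with hS6
  have s2 : S2 ⊆ Finset.Icc 0 (6 * h + 1) := by
    intro x hx
    simp only [hS2, Finset.mem_insert, Finset.mem_singleton] at hx
    rw [Finset.mem_Icc]
    omega
  have s6 : S6 ⊆ Finset.Icc 0 (6 * h + 1) := by
    intro x hx
    simp only [hS6, Finset.mem_insert, Finset.mem_singleton] at hx
    rw [Finset.mem_Icc]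
    omega
  have c2 : S2.card ≤ 2 := Finset.card_le_two
  have c6 : S6.card ≤ 6 := Finset.card_le_six
  have hsub : B.filter (fun D => ¬ reg h D) ⊆
      (Finset.univ.biUnion fun i : Fin (n + 2) => B.filter (fun D => D i ∈ S2)) ∪
        B.filter (fun D => D 0 ∈ S6) := by
    intro D hD
    rw [Finset.mem_filter] at hD
    obtain ⟨hD1, hD2⟩ := hD
    rw [Finset.mem_union]
    by_cases he : extr h D
    · left
      obtain ⟨i, hi⟩ := he
      rw [Finset.mem_biUnion]
      refine ⟨i, Finset.mem_univ _, ?_⟩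
      rw [Finset.mem_filter]
      refine ⟨hD1, ?_⟩
      simp only [hS2, Finset.mem_insert, Finset.mem_singleton]
      exact hi
    · right
      rw [Finset.mem_filter]
      refine ⟨hD1, ?_⟩
      have hm : mark h (D 0) = h := by
        by_contra hne
        exact hD2 ⟨he, hne⟩
      have hD0 : D 0 ∈ Finset.Icc (0 : ℤ) (6 * h + 1) := by
        rw [hB, Fintype.mem_piFinset] at hD1
        exact hD1 0
      rw [Finset.mem_Icc] at hD0
      have hn : ¬ (D 0 = 0 ∨ D 0 = 6 * h + 1) := fun hc => he ⟨0, hc⟩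
      push Not at hn
      have hJ := (J01.mark_step h (D 0) hh hD0.1 hD0.2).2.2.1 hn.1 hn.2
      obtain ⟨-, -, hp0, hp5, hX, -⟩ := hJ
      rw [hm] at hX
      simp only [hS6, Finset.mem_insert, Finset.mem_singleton]
      generalize phase h (D 0) = p at *
      have hp : p = 0 ∨ p = 1 ∨ p = 2 ∨ p = 3 ∨ p = 4 ∨ p = 5 := by omega
      rcases hp with rfl | rfl | rfl | rfl | rfl | rfl <;> omega
  have hcard : (B.filter (fun D => ¬ reg h D)).card ≤ (2 * n + 10) * K ^ (n + 1) := by
    refine (Finset.card_le_card hsub).trans ((Finset.card_union_le _ _).trans ?_)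
    have h1 : (Finset.univ.biUnion fun i : Fin (n + 2) => B.filter (fun D => D i ∈ S2)).card ≤
        (n + 2) * (2 * K ^ (n + 1)) := by
      refine Finset.card_biUnion_le.trans ?_
      calc ∑ i : Fin (n + 2), (B.filter (fun D => D i ∈ S2)).card
          ≤ ∑ _i : Fin (n + 2), 2 * K ^ (n + 1) := by
            refine Finset.sum_le_sum fun i _ => ?_
            rw [hB, card_coord n (6 * h + 1) S2 s2 i]
            exact Nat.mul_le_mul_right _ c2
        _ = (n + 2) * (2 * K ^ (n + 1)) := by simp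
    have h2 : (B.filter (fun D => D 0 ∈ S6)).card ≤ 6 * K ^ (n + 1) := by
      rw [hB, card_coord n (6 * h + 1) S6 s6 0]
      exact Nat.mul_le_mul_right _ c6
    calc _ ≤ (n + 2) * (2 * K ^ (n + 1)) + 6 * K ^ (n + 1) := Nat.add_le_add h1 h2
      _ = (2 * n + 10) * K ^ (n + 1) := by ring
  have hsum : (B.filter (fun D => reg h D)).card + (B.filter (fun D => ¬ reg h D)).card =
      B.card := Finset.card_filter_add_card_filter_not _
  have hr : (K : ℝ) ^ (n + 2) ≤ ((B.filter (fun D => reg h D)).card : ℝ) +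
      (2 * (n : ℝ) + 10) * (K : ℝ) ^ (n + 1) := by
    have h3 : K ^ (n + 2) ≤ (B.filter (fun D => reg h D)).card + (2 * n + 10) * K ^ (n + 1) := by
      rw [← hBc, ← hsum]
      exact Nat.add_le_add_left hcard _
    exact_mod_cast h3
  have he : (K : ℝ) ^ (n + 2) * (1 - (2 * (n : ℝ) + 10) / (K : ℝ)) =
      (K : ℝ) ^ (n + 2) - (2 * (n : ℝ) + 10) * (K : ℝ) ^ (n + 1) := by
    have : (K : ℝ) ≠ 0 := hKpos.ne'
    field_simp
    ring
  rw [hKr, he]
  linarith

end J50a
end Helper536
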