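import Mathlib
import Pool.Agent.helper536_SFT.Defs
import Pool.Agent.helper536_SFT.Forms
import Pool.Agent.helper536_SFT.J02

namespace Helper536
namespace J50b

/- TARGET. Proof in words:
hh j >= 3*6^j. With c=2n+10, x_j = c/(6 hh j+2) <= c/6^j. Choose k0 with c/6^k0 <= 1/4. For k>=k0: x_(k+j) <= (1/4)*6^(-j) <= (1/4) (1/2)^j. By induction on m: product of (1-x_j) >= 1 - sum x_j (all x_j in [0,1]), sum over j of (1/4)(1/2)^j <= 1/2.
-/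
theorem prod_half (n : ℕ) : ∃ k0 : ℕ, ∀ k, k0 ≤ k → ∀ m : ℕ,
    (∀ j, k ≤ j → 0 ≤ 1 - (2 * (n : ℝ) + 10) / ((6 * hh j + 2 : ℤ) : ℝ)) ∧
    (1 / 2 : ℝ) ≤ ∏ j ∈ Finset.range m, (1 - (2 * (n : ℝ) + 10) / ((6 * hh (k + j) + 2 : ℤ) : ℝ)) := by
  have hhk : ∀ k : ℕ, (3 : ℝ) * 6 ^ k ≤ (hh k : ℝ) := by
    intro k
    induction k with
    | zero => simp [hh]
    | succ k ih =>
      have : (hh (k + 1) : ℝ) = 6 * (hh k : ℝ) + 1 := by
        simp only [hh]; push_cast; ring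
      rw [this, pow_succ]
      linarith
  set c : ℝ := 2 * (n : ℝ) + 10 with hc
  have hc0 : 0 < c := by positivity
  obtain ⟨k0, hk0⟩ := pow_unbounded_of_one_lt (4 * c) (by norm_num : (1 : ℝ) < 6)
  have hx : ∀ k, k0 ≤ k → ∀ j : ℕ,
      0 ≤ c / ((6 * hh (k + j) + 2 : ℤ) : ℝ) ∧
      c / ((6 * hh (k + j) + 2 : ℤ) : ℝ) ≤ (1 / 4) * (1 / 2) ^ j := by
    intro k hk j
    have h1 : (6 : ℝ) ^ k0 * 2 ^ j ≤ ((6 * hh (k + j) + 2 : ℤ) : ℝ) := by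
      have h2 := hhk (k + j)
      have h3 : (6 : ℝ) ^ k0 ≤ 6 ^ k := pow_le_pow_right₀ (by norm_num) hk
      have h4 : (2 : ℝ) ^ j ≤ 6 ^ j := pow_le_pow_left₀ (by norm_num) (by norm_num) j
      have h5 : (6 : ℝ) ^ k0 * 2 ^ j ≤ 6 ^ k * 6 ^ j :=
        mul_le_mul h3 h4 (by positivity) (by positivity)
      rw [← pow_add] at h5
      push_cast
      have h6 : (0 : ℝ) ≤ 6 ^ (k + j) := by positivity
      linarith
    have h7 : (0 : ℝ) < 6 ^ k0 * 2 ^ j := by positivity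
    refine ⟨div_nonneg hc0.le (h7.le.trans h1), ?_⟩
    rw [div_le_iff₀ (lt_of_lt_of_le h7 h1)]
    have h8 : (1 / 4 : ℝ) * (1 / 2) ^ j * (6 ^ k0 * 2 ^ j) ≤
        (1 / 4 : ℝ) * (1 / 2) ^ j * ((6 * hh (k + j) + 2 : ℤ) : ℝ) :=
      mul_le_mul_of_nonneg_left h1 (by positivity)
    refine le_trans ?_ h8
    have h9 : (1 / 2 : ℝ) ^ j * 2 ^ j = 1 := by
      rw [← mul_pow]; norm_num
    have h10 : (1 / 4 : ℝ) * (1 / 2) ^ j * (6 ^ k0 * 2 ^ j) = (1 / 4) * 6 ^ k0 := by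
      calc (1 / 4 : ℝ) * (1 / 2) ^ j * (6 ^ k0 * 2 ^ j) = (1 / 4) * 6 ^ k0 * ((1 / 2 : ℝ) ^ j * 2 ^ j) := by ring
        _ = (1 / 4) * 6 ^ k0 := by rw [h9, mul_one]
    rw [h10]
    linarith
  refine ⟨k0, fun k hk m => ⟨?_, ?_⟩⟩
  · intro j hj
    obtain ⟨d, rfl⟩ := Nat.exists_eq_add_of_le hj
    have h1 := (hx k hk d).2
    have h2 : ((1 : ℝ) / 2) ^ d ≤ 1 := pow_le_one₀ (by norm_num) (by norm_num)
    linarith
  · have key : ∀ m : ℕ, (1 / 2 : ℝ) + (1 / 2) ^ (m + 1) ≤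
        ∏ j ∈ Finset.range m, (1 - c / ((6 * hh (k + j) + 2 : ℤ) : ℝ)) := by
      intro m
      induction m with
      | zero => norm_num
      | succ m ih =>
        rw [Finset.prod_range_succ]
        have h1 := (hx k hk m).2
        have h2 : ((1 : ℝ) / 2) ^ m ≤ 1 := pow_le_one₀ (by norm_num) (by norm_num)
        have h3 : (0 : ℝ) ≤ (1 / 2) ^ m := by positivity
        have h4 : (0 : ℝ) ≤ 1 - c / ((6 * hh (k + m) + 2 : ℤ) : ℝ) := by linarith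
        calc (1 / 2 : ℝ) + (1 / 2) ^ (m + 1 + 1)
            ≤ ((1 / 2 : ℝ) + (1 / 2) ^ (m + 1)) * (1 - (1 / 4) * (1 / 2) ^ m) := by
              rw [pow_succ, pow_succ]
              nlinarith
          _ ≤ ((1 / 2 : ℝ) + (1 / 2) ^ (m + 1)) * (1 - c / ((6 * hh (k + m) + 2 : ℤ) : ℝ)) :=
              mul_le_mul_of_nonneg_left (by linarith) (by positivity)
          _ ≤ _ := mul_le_mul_of_nonneg_right ih h4
    have h5 := key m
    have h6 : (0 : ℝ) ≤ (1 / 2) ^ (m + 1) := by positivity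
    linarith

end J50b
end Helper536
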