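import Mathlib
import Pool.Agent.helper536_SFT.Defs
import Pool.Agent.helper536_SFT.Forms
import Pool.Agent.helper536_SFT.J02
import Pool.Agent.helper536_SFT.J06
import Pool.Agent.helper536_SFT.J50a
import Pool.Agent.helper536_SFT.J50b

namespace Helper536
namespace J50c

theorem hh3 (k : ℕ) : 3 ≤ hh k := J02.digit_facts.1 k

theorem anc_succ (n k : ℕ) (s : Pos n) (i : Fin (n + 2)) :
    anc (oz n) (k + 1) s i = (anc (oz n) k s i + 2) / (hh k + 1) := rfl

theorem dd_eq (n k : ℕ) (s : Pos n) (i : Fin (n + 2)) :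
    dd (oz n) k s i = (anc (oz n) k s i + 2) % (hh k + 1) := rfl

theorem anc_zero_up (n k : ℕ) (s : Pos n) (h : anc (oz n) k s = 0) (l : ℕ) :
    anc (oz n) (k + l) s = 0 := by
  induction l with
  | zero => exact h
  | succ l ih =>
    funext i
    have h3 := hh3 (k + l)
    have e : anc (oz n) (k + (l + 1)) s i = (anc (oz n) (k + l) s i + 2) / (hh (k + l) + 1) := rfl
    rw [e, ih]
    show ((0 : ℤ) + 2) / (hh (k + l) + 1) = 0
    exact Int.ediv_eq_zero_of_lt (by norm_num) (by omega)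

theorem reg_two (n : ℕ) (h : ℤ) (h3 : 3 ≤ h) : reg h (fun _ : Fin (n + 2) => (2 : ℤ)) := by
  refine ⟨?_, ?_⟩
  · rintro ⟨i, hi | hi⟩ <;> dsimp only at hi <;> omega
  · have e : mark h 2 = 2 := by
      unfold mark
      rw [if_neg (by omega)]
      have : (2 - 1 : ℤ) % h = 1 := Int.emod_eq_of_lt (by norm_num) (by omega)
      omega
    show mark h 2 ≠ h
    rw [e]
    omega

theorem base (n k : ℕ) (s : Pos n) (h : anc (oz n) (k + 1) s = 0) (j : ℕ) (hj : k ≤ j) :
    regL (fun l => dd (oz n) l s) j := by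
  obtain ⟨l, rfl⟩ := Nat.exists_eq_add_of_le hj
  have h1 := anc_zero_up n (k + 1) s h l
  have h3 := hh3 (k + 1 + l)
  have h4 := hh3 (k + l)
  have e : dd (oz n) (k + l + 1) s = fun _ => 2 := by
    funext i
    have e1 : k + l + 1 = k + 1 + l := by omega
    rw [e1, dd_eq, h1]
    show ((0 : ℤ) + 2) % (hh (k + 1 + l) + 1) = 2
    rw [zero_add]
    exact Int.emod_eq_of_lt (by norm_num) (by omega)
  show reg (hh (k + l)) (dd (oz n) (k + l + 1) s)
  rw [e]
  exact reg_two n _ h4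

open Classical in
/-- the regular vectors -/
noncomputable def RV (n k : ℕ) : Finset (Fin (n + 2) → ℤ) :=
  (Fintype.piFinset (fun _ : Fin (n + 2) => Finset.Icc (0 : ℤ) (6 * hh k + 1))).filter
    (fun D => reg (hh k) D)

theorem div_mod {H P D : ℤ} (h0 : 0 ≤ D) (h1 : D ≤ H) : (P * (H + 1) + D - 2 + 2) / (H + 1) = P ∧
    (P * (H + 1) + D - 2 + 2) % (H + 1) = D := by
  have hpos : (0 : ℤ) < H + 1 := by omega
  have e : P * (H + 1) + D - 2 + 2 = D + (H + 1) * P := by ring
  rw [e]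
  constructor
  · rw [Int.add_mul_ediv_left _ _ hpos.ne', Int.ediv_eq_zero_of_lt h0 (by omega), zero_add]
  · rw [Int.add_mul_emod_self_left, Int.emod_eq_of_lt h0 (by omega)]

theorem flex (n m : ℕ) : ∀ k : ℕ, ∃ F : Finset (Pos n),
    ∏ j ∈ Finset.range m, (RV n (k + j)).card ≤ F.card ∧
    ∀ q ∈ F, ∀ s : Pos n, anc (oz n) (k + 1) s = q →
      anc (oz n) (k + 1 + m) s = 0 ∧ ∀ j, k ≤ j → regL (fun l => dd (oz n) l s) j := by
  classical
  induction m with
  | zero =>
    intro k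
    refine ⟨{0}, by simp, ?_⟩
    intro q hq s hs
    rw [Finset.mem_singleton] at hq
    rw [hq] at hs
    exact ⟨hs, fun j hj => base n k s hs j hj⟩
  | succ m ih =>
    intro k
    obtain ⟨F, hF, hF2⟩ := ih (k + 1)
    have hhk : hh (k + 1) = 6 * hh k + 1 := rfl
    let f : Pos n × (Fin (n + 2) → ℤ) → Pos n := fun z i => z.1 i * (hh (k + 1) + 1) + z.2 i - 2
    have hmem : ∀ D ∈ RV n k, ∀ i, 0 ≤ D i ∧ D i ≤ hh (k + 1) := by
      intro D hD i
      have h1 := (Finset.mem_filter.1 hD).1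
      rw [Fintype.mem_piFinset] at h1
      have h2 := Finset.mem_Icc.1 (h1 i)
      rw [hhk]
      exact h2
    have hinj : Set.InjOn f ((F ×ˢ RV n k : Finset (Pos n × (Fin (n + 2) → ℤ))) : Set _) := by
      rintro ⟨P, D⟩ hz ⟨P', D'⟩ hz' he
      have hz1 := Finset.mem_product.1 (Finset.mem_coe.1 hz)
      have hz2 := Finset.mem_product.1 (Finset.mem_coe.1 hz')
      have key : ∀ i, P i = P' i ∧ D i = D' i := by
        intro i
        have e1 := div_mod (P := P i) (hmem D hz1.2 i).1 (hmem D hz1.2 i).2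
        have e2 := div_mod (P := P' i) (hmem D' hz2.2 i).1 (hmem D' hz2.2 i).2
        have e3 : P i * (hh (k + 1) + 1) + D i - 2 = P' i * (hh (k + 1) + 1) + D' i - 2 := congrFun he i
        rw [e3] at e1
        exact ⟨e1.1.symm.trans e2.1, e1.2.symm.trans e2.2⟩
      have e4 : P = P' := funext fun i => (key i).1
      have e5 : D = D' := funext fun i => (key i).2
      rw [e4, e5]
    refine ⟨(F ×ˢ RV n k).image f, ?_, ?_⟩
    · rw [Finset.card_image_of_injOn hinj, Finset.card_product, Finset.prod_range_succ']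
      have e : ∏ j ∈ Finset.range m, (RV n (k + (j + 1))).card = ∏ j ∈ Finset.range m, (RV n (k + 1 + j)).card := by
        refine Finset.prod_congr rfl fun j _ => ?_
        have : k + (j + 1) = k + 1 + j := by omega
        rw [this]
      rw [e]
      exact Nat.mul_le_mul hF le_rfl
    · intro q hq s hs
      obtain ⟨⟨P, D⟩, hz, hfq⟩ := Finset.mem_image.1 hq
      have hz1 := Finset.mem_product.1 hz
      have hqi : ∀ i, anc (oz n) (k + 1) s i = P i * (hh (k + 1) + 1) + D i - 2 := by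
        intro i
        rw [hs, ← hfq]
      have h1 : anc (oz n) (k + 1 + 1) s = P := by
        funext i
        rw [anc_succ, hqi]
        exact (div_mod (hmem D hz1.2 i).1 (hmem D hz1.2 i).2).1
      have h2 : dd (oz n) (k + 1) s = D := by
        funext i
        rw [dd_eq, hqi]
        exact (div_mod (hmem D hz1.2 i).1 (hmem D hz1.2 i).2).2
      obtain ⟨h3, h4⟩ := hF2 P hz1.1 s h1
      refine ⟨?_, ?_⟩
      · have e : k + 1 + (m + 1) = k + 1 + 1 + m := by omega
        rw [e]; exact h3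
      · intro j hj
        rcases Nat.eq_or_lt_of_le hj with h5 | h5
        · subst h5
          show reg (hh k) (dd (oz n) (k + 1) s)
          rw [h2]
          exact (Finset.mem_filter.1 hz1.2).2
        · exact h4 j h5

theorem LL_prod (k m : ℕ) : (LL (k + 1 + m) : ℝ) = (LL (k + 1) : ℝ) *
    ∏ j ∈ Finset.range m, ((6 * hh (k + j) + 2 : ℤ) : ℝ) := by
  induction m with
  | zero => simp
  | succ m ih =>
    rw [Finset.prod_range_succ, ← mul_assoc, ← ih]
    have e : LL (k + 1 + (m + 1)) = LL (k + 1 + m) * (6 * hh (k + m) + 2) := by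
      have e1 : LL (k + 1 + (m + 1)) = LL (k + 1 + m) * (hh (k + 1 + m) + 1) := rfl
      have e2 : hh (k + 1 + m) = 6 * hh (k + m) + 1 := by
        have : k + 1 + m = k + m + 1 := by omega
        rw [this]; rfl
      rw [e1, e2]; ring
    rw [e]
    push_cast
    ring

/- TARGET. Proof in words:
Show by induction on m, for all k (general k): there is a finite set F(k,m) of positions with card F(k,m) >= prod_{j<m} R (k+j), R j = card of the regular vectors of J50a for h=hh j, and with the stated property. m=0: F={0}: anc (k+1) s=0; then all higher indices are 0 and all digits of levels >=k+1 are 2, which is regular for all j>=k (mark (hh j) 2=2 != hh j since hh j>=3... see J06;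
prove directly: (0+2)/(hh l+1)=0, (0+2)%(hh l+1)=2, mark h 2=(2-1)%h+1=2).
Step: F(k,m+1) = the set of q with par (hh (k+1)) (oz n (k+1)) q in F(k+1,m) and dgt (hh (k+1)) (oz n (k+1)) q a regular vector for hh k (digits of level k+1 lie in [0,hh (k+1)]=[0,6*hh k+1]); it is the image of F(k+1,m) x (regular vectors) under the injective map (P,D) -> (fun i => P i*(hh (k+1)+1)+D i-2), so card = card F(k+1,m)*R k. For s with anc (k+1) s=q: anc (k+2) s=par q,
so the property for F(k+1,m) gives anc (k+2+m) s=0 and regL at j>=k+1; regL at k says that dd (k+1) s = dgt q is regular for hh k.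
Then card >= prod_{j<m} (6 hh (k+j)+2)^(n+2)*(1-c/(6 hh (k+j)+2)) (J50a) and LL (k+1+m) = LL (k+1)*prod_{j<m} (hh (k+1+j)+1), hh (k+1+j)+1=6 hh (k+j)+2. With J50b (k>=k0) the product of the factors 1-c/.. is >=1/2.
-/
theorem many_flexible (n : ℕ) : ∃ k0 : ℕ, ∀ k, k0 ≤ k → ∀ m : ℕ, ∃ F : Finset (Pos n),
    (1 / 2 : ℝ) * ((LL (k + 1 + m) : ℝ) / (LL (k + 1) : ℝ)) ^ (n + 2) ≤ (F.card : ℝ) ∧
    ∀ q ∈ F, ∀ s : Pos n, anc (oz n) (k + 1) s = q →
      anc (oz n) (k + 1 + m) s = 0 ∧ ∀ j, k ≤ j → regL (fun l => dd (oz n) l s) j := by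
  obtain ⟨k0, hk0⟩ := J50b.prod_half n
  refine ⟨k0, fun k hk m => ?_⟩
  obtain ⟨F, hF, hF2⟩ := flex n m k
  refine ⟨F, ?_, hF2⟩
  obtain ⟨hnn, hhalf⟩ := hk0 k hk m
  have hLL : (0 : ℝ) < (LL (k + 1) : ℝ) := by
    have := J02.digit_facts.2.1 (k + 1)
    exact_mod_cast (by omega : (0 : ℤ) < LL (k + 1))
  have h1 : (LL (k + 1 + m) : ℝ) / (LL (k + 1) : ℝ) = ∏ j ∈ Finset.range m, ((6 * hh (k + j) + 2 : ℤ) : ℝ) := by
    rw [LL_prod, mul_div_cancel_left₀ _ hLL.ne']
  have hpos : ∀ j, (0 : ℝ) < ((6 * hh (k + j) + 2 : ℤ) : ℝ) := by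
    intro j
    have := hh3 (k + j)
    exact_mod_cast (by omega : (0 : ℤ) < 6 * hh (k + j) + 2)
  have hR : ∀ j, ((6 * hh (k + j) + 2 : ℤ) : ℝ) ^ (n + 2) *
      (1 - (2 * (n : ℝ) + 10) / ((6 * hh (k + j) + 2 : ℤ) : ℝ)) ≤ ((RV n (k + j)).card : ℝ) := by
    intro j
    exact J50a.reg_count n (hh (k + j)) (hh3 (k + j))
  have h2 : ∏ j ∈ Finset.range m, (((6 * hh (k + j) + 2 : ℤ) : ℝ) ^ (n + 2) *
      (1 - (2 * (n : ℝ) + 10) / ((6 * hh (k + j) + 2 : ℤ) : ℝ))) ≤
      ∏ j ∈ Finset.range m, ((RV n (k + j)).card : ℝ) := by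
    refine Finset.prod_le_prod (fun j _ => ?_) (fun j _ => hR j)
    exact mul_nonneg (pow_nonneg (hpos j).le _) (hnn (k + j) (Nat.le_add_right _ _))
  have h3 : (∏ j ∈ Finset.range m, ((RV n (k + j)).card : ℝ)) ≤ (F.card : ℝ) := by
    exact_mod_cast hF
  refine le_trans ?_ (h2.trans h3)
  rw [Finset.prod_mul_distrib, Finset.prod_pow, h1, mul_comm]
  exact mul_le_mul_of_nonneg_left hhalf (pow_nonneg (Finset.prod_nonneg fun j _ => (hpos j).le) _)

end J50c
end Helper536
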