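import Mathlib
import Pool.Agent.helper536_SFT.Defs
import Pool.Agent.helper536_SFT.Forms
import Pool.Agent.helper536_SFT.J02
import Pool.Agent.helper536_SFT.J05
import Pool.Agent.helper536_SFT.J41a
import Pool.Agent.helper536_SFT.J50c

namespace Helper536
namespace J50d

theorem down1 (K : ℕ) : ∀ (c : ℤ) (δ : ℕ → ℤ), (∀ m, 0 ≤ δ m ∧ δ m ≤ hh m) →
    ∃ a : ℤ, anc1 (fun _ => 2) K a = c ∧ ∀ m, m < K → dd1 (fun _ => 2) m a = δ m := by
  induction K with
  | zero =>
    intro c δ _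
    exact ⟨c, rfl, fun m hm => absurd hm (Nat.not_lt_zero m)⟩
  | succ K ih =>
    intro c δ hδ
    obtain ⟨a, ha, hd⟩ := ih (c * (hh K + 1) + δ K - 2) δ hδ
    have h3 : 3 ≤ hh K := J02.digit_facts.1 K
    obtain ⟨h0, h1⟩ := hδ K
    have e : anc1 (fun _ => 2) K a + 2 = δ K + c * (hh K + 1) := by
      rw [ha]; ring
    refine ⟨a, ?_, ?_⟩
    · show (anc1 (fun _ => 2) K a + 2) / (hh K + 1) = c
      rw [e, Int.add_mul_ediv_right _ _ (by omega), Int.ediv_eq_zero_of_lt h0 (by omega)]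
      ring
    · intro m hm
      rcases Nat.lt_succ_iff_lt_or_eq.mp hm with h | h
      · exact hd m h
      · subst h
        show (anc1 (fun _ => 2) m a + 2) % (hh m + 1) = δ m
        rw [e, Int.add_mul_emod_self_right, Int.emod_eq_of_lt h0 (by omega)]

theorem site_exists {n : ℕ} (k : ℕ) (q : Pos n) : ∃ s : Pos n, anc (oz n) (k + 1) s = q ∧
    (∀ m, m < k → dd (oz n) m s 1 = hh m) ∧ dd (oz n) k s 1 = 0 ∧
    ∀ i, i ≠ 1 → dd (oz n) k s i = 1 := by
  have h3 : ∀ m, 3 ≤ hh m := J02.digit_facts.1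
  have key : ∀ i : Fin (n + 2), ∃ a : ℤ, anc1 (fun _ => 2) (k + 1) a = q i ∧
      ∀ m, m < k + 1 → dd1 (fun _ => 2) m a =
        (if i = 1 then (if m < k then hh m else 0) else 1) := by
    intro i
    refine down1 (k + 1) (q i) (fun m => if i = 1 then (if m < k then hh m else 0) else 1) ?_
    intro m
    have := h3 m
    split_ifs <;> constructor <;> omega
  choose s hs hd using key
  refine ⟨s, ?_, ?_, ?_, ?_⟩
  · funext i
    exact hs i
  · intro m hm
    have := hd 1 m (by omega)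
    rw [if_pos rfl, if_pos hm] at this
    exact this
  · have := hd 1 k (by omega)
    rw [if_pos rfl, if_neg (lt_irrefl k)] at this
    exact this
  · intro i hi
    have := hd i k (by omega)
    rw [if_neg hi] at this
    exact this

/- TARGET. -/
theorem bits_visible (n : ℕ) : ∃ k0 : ℕ, ∀ k, k0 ≤ k → ∀ m : ℕ,
    ∃ (p : Pos n) (F : Finset (Pos n)) (σ : Pos n → Pos n),
    (1 / 2 : ℝ) * ((LL (k + 1 + m) : ℝ) / (LL (k + 1) : ℝ)) ^ (n + 2) ≤ (F.card : ℝ) ∧
    (∀ q ∈ F, ∀ i, p i ≤ σ q i ∧ σ q i < p i + LL (k + 1 + m)) ∧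
    ∀ (b : Pos n → Prop), ∀ q ∈ F, ((zz k b (σ q)).v = some Val.one ↔ b q) := by
  obtain ⟨k0, hk0⟩ := J50c.many_flexible n
  obtain ⟨h3, hL, -, -, hanc, -⟩ := J02.digit_facts
  refine ⟨k0, fun k hk m => ?_⟩
  obtain ⟨F, hF, hFq⟩ := hk0 k hk m
  have hσ : ∀ q : Pos n, ∃ s : Pos n, anc (oz n) (k + 1) s = q ∧
    (∀ m, m < k → dd (oz n) m s 1 = hh m) ∧ dd (oz n) k s 1 = 0 ∧
    ∀ i, i ≠ 1 → dd (oz n) k s i = 1 := fun q => site_exists k q
  choose σ hσ1 hσ2 hσ3 hσ4 using hσ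
  refine ⟨fun _ => -(∑ l ∈ Finset.range (k + 1 + m), 2 * LL l), F, σ, hF, ?_, ?_⟩
  · intro q hq i
    obtain ⟨h0, -⟩ := hFq q hq (σ q) (hσ1 q)
    have h1 : anc1 (fun _ => 2) (k + 1 + m) (σ q i) = 0 := congrFun h0 i
    have hLp : 0 < LL (k + 1 + m) := by have := hL (k + 1 + m); omega
    rw [hanc] at h1
    have h2 := Int.ediv_mul_le (σ q i + ∑ l ∈ Finset.range (k + 1 + m), 2 * LL l) (ne_of_gt hLp)
    have h4 := Int.lt_ediv_add_one_mul_self
      (σ q i + ∑ l ∈ Finset.range (k + 1 + m), 2 * LL l) hLp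
    rw [h1] at h2 h4
    constructor
    · dsimp only
      linarith
    · dsimp only
      linarith
  · intro b q hq
    obtain ⟨-, hreg⟩ := hFq q hq (σ q) (hσ1 q)
    have hD : (fun m => dd (oz n) m (σ q) 1) k ≠ hh k := by
      show dd (oz n) k (σ q) 1 ≠ hh k
      rw [hσ3 q]
      have := h3 k
      omega
    have hord : ordF (fun m => dd (oz n) m (σ q) 1) 0 = k := by
      obtain ⟨-, -, -, -, h⟩ := J05.ordF_spec (fun m => dd (oz n) m (σ q) 1) 0
        ⟨k, Nat.zero_le k, hD⟩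
      exact h k (Nat.zero_le k) hD (fun m _ hm => hσ2 q m hm)
    obtain ⟨-, -, -, -, -, -, -, -, -, -, hv, -⟩ := J41a.zz_read k b (σ q)
      (ordF (fun m => dd (oz n) m (σ q) 0) 0) k rfl hord.symm
    have hvv : vvis (hh k) (dd (oz n) k (σ q)) := by
      intro i hi
      rw [hσ4 q i hi]
      have := h3 k
      constructor <;> omega
    rw [hv, if_pos hvv, hσ1 q, hσ3 q]
    have hr1 : regL (fun m => dd (oz n) m (σ q)) k := hreg k (le_refl k)
    have hr2 : regL (fun m => dd (oz n) m (σ q)) (k + 1) := hreg (k + 1) (Nat.le_succ k)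
    have hr3 : ∀ j, k ≤ j → regL (fun m => dd (oz n) m (σ q)) j := hreg
    have ht : tau (0 + 1) = true := by decide
    rw [ht]
    unfold rvF
    rw [if_neg (not_not.mpr hr1), if_neg (not_not.mpr hr2), if_pos hr3,
      if_neg (by omega : ¬ k + 1 ≤ k)]
    by_cases hb : b q
    · rw [if_pos ⟨rfl, rfl, hb⟩]
      exact ⟨fun _ => hb, fun _ => rfl⟩
    · rw [if_neg (fun h => hb h.2.2)]
      constructor
      · intro h
        cases h
      · intro h
        exact absurd h hb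

end J50d
end Helper536
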