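import Mathlib

/-!
Subshifts of finite type on Z^d and their entropy.
-/

open Filter Topology

namespace Helper536

/-- configurations on Z^d over the alphabet S -/
abbrev Conf (d : ℕ) (S : Type) := (Fin d → ℤ) → S

/-- a pattern: a map from a finite set of positions to the alphabet -/
structure Pattern (d : ℕ) (S : Type) where
  supp : Finset (Fin d → ℤ)
  val : supp → S

/-- the translate by t of the pattern p occurs in x -/
def OccursAt {d : ℕ} {S : Type} (p : Pattern d S) (x : Conf d S) (t : Fin d → ℤ) : Prop :=
  ∀ u : p.supp, x (t + u) = p.val u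

/-- the configurations in which no translate of a pattern of F occurs -/
def avoid {d : ℕ} {S : Type} (F : Set (Pattern d S)) : Set (Conf d S) :=
  {x | ∀ p ∈ F, ∀ t, ¬ OccursAt p x t}

/-- subshifts of finite type -/
def IsSFT {d : ℕ} {S : Type} (X : Set (Conf d S)) : Prop :=
  ∃ F : Set (Pattern d S), F.Finite ∧ X = avoid F

/-- the number of patterns on the cube with coordinates 0, ..., n-1 that occur in elements of X -/
noncomputable def numPatterns {d : ℕ} {S : Type} (X : Set (Conf d S)) (n : ℕ) : ℕ :=
  ((fun x : Conf d S => fun u : Fin d → Fin n => x (fun i => ((u i : ℕ) : ℤ))) '' X).ncard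

/-- the entropy of X exists and equals η -/
def HasEntropy {d : ℕ} {S : Type} (X : Set (Conf d S)) (η : ℝ) : Prop :=
  Tendsto (fun n : ℕ => Real.log (numPatterns X n) / (n : ℝ) ^ d) atTop (𝓝 η)

end Helper536
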