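import Mathlib
import Pool.Agent.helper536_SFT.Sft

open Filter Topology

namespace Helper536
namespace J60a

/-- the patterns on the cube of side `n` -/
def pat {d : ℕ} {S : Type} (X : Set (Conf d S)) (n : ℕ) : Set ((Fin d → Fin n) → S) :=
  (fun x : Conf d S => fun u : Fin d → Fin n => x (fun i => ((u i : ℕ) : ℤ))) '' X

theorem numPatterns_eq {d : ℕ} {S : Type} (X : Set (Conf d S)) (n : ℕ) :
    numPatterns X n = (pat X n).ncard := rfl

theorem numPatterns_pos {d : ℕ} {S : Type} [Finite S] {X : Set (Conf d S)} (hne : X.Nonempty)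
    (n : ℕ) : 1 ≤ numPatterns X n := by
  rw [numPatterns_eq, Nat.succ_le_iff, Set.ncard_pos (Set.toFinite _)]
  exact hne.image _

theorem numPatterns_mono {d : ℕ} {S : Type} [Finite S] (X : Set (Conf d S)) {m n : ℕ}
    (h : m ≤ n) : numPatterns X m ≤ numPatterns X n := by
  rw [numPatterns_eq, numPatterns_eq]
  have h1 : pat X m = (fun w : (Fin d → Fin n) → S => fun u : Fin d → Fin m =>
      w (fun i => Fin.castLE h (u i))) '' pat X n := by
    unfold pat
    rw [Set.image_image]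
    rfl
  rw [h1]
  exact Set.ncard_image_le (Set.toFinite _)

theorem numPatterns_mul {d : ℕ} {S : Type} [Finite S] {X : Set (Conf d S)}
    (hinv : ∀ x ∈ X, ∀ t : Fin d → ℤ, (fun s => x (s + t)) ∈ X) (q m : ℕ) (hm : 1 ≤ m) :
    numPatterns X (q * m) ≤ numPatterns X m ^ (q ^ d) := by
  rw [numPatterns_eq, numPatterns_eq, ← Nat.card_coe_set_eq, ← Nat.card_coe_set_eq]
  have hlt : ∀ (j : Fin q) (u : Fin m), (j : ℕ) * m + u < q * m := by
    intro j u
    calc (j : ℕ) * m + u < j * m + m := Nat.add_lt_add_left u.2 _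
      _ = (j + 1) * m := by ring
      _ ≤ q * m := Nat.mul_le_mul_right _ j.2
  have hmem : ∀ (w : pat X (q * m)) (j : Fin d → Fin q),
      (fun u : Fin d → Fin m => w.1 (fun i => ⟨(j i : ℕ) * m + u i, hlt (j i) (u i)⟩)) ∈ pat X m := by
    rintro ⟨w, x, hx, rfl⟩ j
    refine ⟨fun s => x (s + fun i => ((j i : ℕ) * m : ℤ)), hinv x hx _, ?_⟩
    funext u
    simp only
    congr 1
    funext i
    simp only [Pi.add_apply]
    push_cast
    ring
  have hinj : Function.Injective (fun (w : pat X (q * m)) => fun (j : Fin d → Fin q) =>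
      (⟨fun u : Fin d → Fin m => w.1 (fun i => ⟨(j i : ℕ) * m + u i, hlt (j i) (u i)⟩),
        hmem w j⟩ : pat X m)) := by
    intro w w' h
    apply Subtype.ext
    funext v
    have hq : ∀ i, (v i : ℕ) / m < q := by
      intro i
      exact Nat.div_lt_of_lt_mul (lt_of_lt_of_eq (v i).2 (mul_comm q m))
    have hr : ∀ i, (v i : ℕ) % m < m := fun i => Nat.mod_lt _ hm
    have h1 := congrFun h (fun i => ⟨(v i : ℕ) / m, hq i⟩)
    have h2 := congrFun (congrArg Subtype.val h1) (fun i => ⟨(v i : ℕ) % m, hr i⟩)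
    simp only at h2
    have h3 : (fun i => (⟨(v i : ℕ) / m * m + (v i : ℕ) % m,
        hlt ⟨(v i : ℕ) / m, hq i⟩ ⟨(v i : ℕ) % m, hr i⟩⟩ : Fin (q * m))) = v := by
      funext i
      apply Fin.ext
      simp only
      rw [mul_comm]
      exact Nat.div_add_mod _ _
    rw [h3] at h2
    exact h2
  have hcard := Nat.card_le_card_of_injective _ hinj
  rw [Nat.card_fun] at hcard
  have h4 : Nat.card (Fin d → Fin q) = q ^ d := by
    rw [Nat.card_fun, Nat.card_fin, Nat.card_fin]
  rwa [h4] at hcard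


theorem entropy_exists {d : ℕ} {S : Type} [Finite S] (X : Set (Conf d S))
    (hinv : ∀ x ∈ X, ∀ t : Fin d → ℤ, (fun s => x (s + t)) ∈ X) (hne : X.Nonempty) :
    ∃ η, HasEntropy X η := by
  set a : ℕ → ℝ := fun n => Real.log (numPatterns X n) with ha
  have ha0 : ∀ n, 0 ≤ a n := fun n => Real.log_nonneg (by exact_mod_cast numPatterns_pos hne n)
  have hmono : ∀ m n, m ≤ n → a m ≤ a n := fun m n h => Real.log_le_log
    (by exact_mod_cast numPatterns_pos hne m) (by exact_mod_cast numPatterns_mono X h)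
  have hmul : ∀ q m, 1 ≤ m → a (q * m) ≤ (q : ℝ) ^ d * a m := by
    intro q m hm
    have h1 : (numPatterns X (q * m) : ℝ) ≤ (numPatterns X m : ℝ) ^ (q ^ d) := by
      exact_mod_cast numPatterns_mul hinv q m hm
    have h2 := Real.log_le_log (by exact_mod_cast numPatterns_pos hne (q * m)) h1
    rw [Real.log_pow] at h2
    simp only [ha]
    push_cast at h2
    exact h2
  set b : ℕ → ℝ := fun n => a n / (n : ℝ) ^ d with hb
  have hb0 : ∀ n, 0 ≤ b n := fun n => div_nonneg (ha0 n) (by positivity)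
  set T : Set ℝ := b '' Set.Ici 1 with hT
  have hTne : T.Nonempty := ⟨b 1, 1, by simp, rfl⟩
  have hTbdd : BddBelow T := ⟨0, by rintro _ ⟨n, _, rfl⟩; exact hb0 n⟩
  refine ⟨sInf T, tendsto_order.2 ⟨fun c hc => ?_, fun c hc => ?_⟩⟩
  · filter_upwards [eventually_ge_atTop 1] with n hn
    exact lt_of_lt_of_le hc (csInf_le hTbdd ⟨n, hn, rfl⟩)
  · obtain ⟨_, ⟨m, hm, rfl⟩, hmc⟩ := exists_lt_of_csInf_lt hTne hc
    have hm1 : 1 ≤ m := hm
    have hm0 : (0 : ℝ) < m := by exact_mod_cast hm1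
    have hlim : Tendsto (fun n : ℕ => (1 + (m : ℝ) / n) ^ d * b m) atTop (𝓝 (b m)) := by
      have h1 : Tendsto (fun n : ℕ => (m : ℝ) / n) atTop (𝓝 0) :=
        tendsto_const_div_atTop_nhds_zero_nat _
      have h2 := ((h1.const_add 1).pow d).mul_const (b m)
      simpa using h2
    filter_upwards [(tendsto_order.1 hlim).2 c hmc, eventually_ge_atTop 1] with n hn hn1
    refine lt_of_le_of_lt ?_ hn
    have hn0 : (0 : ℝ) < n := by exact_mod_cast hn1
    have h3 : n ≤ (n / m + 1) * m := by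
      have := Nat.div_add_mod n m
      have h4 := Nat.mod_lt n hm1
      nlinarith
    have h5 : a n ≤ ((n / m + 1 : ℕ) : ℝ) ^ d * a m := (hmono _ _ h3).trans (hmul _ _ hm1)
    have h6 : ((n / m + 1 : ℕ) : ℝ) * m ≤ n + m := by
      have h7 : (n / m + 1) * m ≤ n + m := by
        have := Nat.div_mul_le_self n m
        nlinarith
      exact_mod_cast h7
    have h8 : ((n / m + 1 : ℕ) : ℝ) ≤ (1 + (m : ℝ) / n) * n / m := by
      rw [le_div_iff₀ hm0]
      have h9 : (1 + (m : ℝ) / n) * n = n + m := by field_simp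
      rw [h9]
      exact h6
    show a n / (n : ℝ) ^ d ≤ (1 + (m : ℝ) / n) ^ d * (a m / (m : ℝ) ^ d)
    rw [div_le_iff₀ (by positivity)]
    calc a n ≤ ((n / m + 1 : ℕ) : ℝ) ^ d * a m := h5
      _ ≤ ((1 + (m : ℝ) / n) * n / m) ^ d * a m := by
        have := ha0 m
        gcongr
      _ = (1 + (m : ℝ) / n) ^ d * (a m / (m : ℝ) ^ d) * (n : ℝ) ^ d := by
        rw [div_pow, mul_pow]
        field_simp

end J60a
end Helper536
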