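import Mathlib
import Pool.Agent.helper536_SFT.Sft

namespace Helper536
namespace J60b

/- TARGET. Proof in words:
X = avoid F with F finite. The supports of the patterns of F are finitely many finite sets, so there is M>=0 with |u i| <= M for all i, all u in supports. r=2M+1. Let z be as in the hypothesis; suppose a translate by t0 of pattern f in F occurs in z: z (t0+u)=f.val u. Take p i=t0 i-M, x, t. For u in the support p i <= (t0+u) i < p i+r, so x (t0+u+t) = z (t0+u) = f.val u:
the translate by t0+t of f occurs in x, contradiction with x in avoid F.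
-/
theorem sft_window {d : ℕ} {S : Type} (X : Set (Conf d S)) (hX : IsSFT X) :
    ∃ r : ℤ, 1 ≤ r ∧ ∀ z : Conf d S,
      (∀ p : Fin d → ℤ, ∃ x ∈ X, ∃ t : Fin d → ℤ, ∀ s : Fin d → ℤ,
        (∀ i, p i ≤ s i ∧ s i < p i + r) → z s = x (s + t)) → z ∈ X := by
  obtain ⟨F, hF, rfl⟩ := hX
  have hfin : (⋃ p ∈ F, (p.supp : Set (Fin d → ℤ))).Finite :=
    hF.biUnion (fun p _ => p.supp.finite_toSet)
  obtain ⟨M, hM⟩ := (hfin.image (fun u : Fin d → ℤ => ∑ i, |u i|)).bddAbove
  have hM2 : ∀ p ∈ F, ∀ u ∈ p.supp, ∀ i, |u i| ≤ max M 0 := by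
    intro p hp u hu i
    have h1 : (∑ i, |u i|) ≤ M := hM ⟨u, Set.mem_biUnion hp hu, rfl⟩
    have h2 : |u i| ≤ ∑ i, |u i| :=
      Finset.single_le_sum (f := fun i => |u i|) (fun _ _ => abs_nonneg _) (Finset.mem_univ i)
    exact (h2.trans h1).trans (le_max_left _ _)
  refine ⟨2 * max M 0 + 1, by have := le_max_right M 0; omega, fun z hz f hf t0 hocc => ?_⟩
  obtain ⟨x, hx, t, hxt⟩ := hz (fun i => t0 i - max M 0)
  refine hx f hf (t0 + t) (fun u => ?_)
  have h1 := hxt (t0 + u) (fun i => by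
    have h2 := abs_le.1 (hM2 f hf u u.2 i)
    have h3 : (t0 + (u : Fin d → ℤ)) i = t0 i + (u : Fin d → ℤ) i := rfl
    rw [h3]
    constructor <;> omega)
  have h4 := hocc u
  rw [h1] at h4
  rw [← h4]
  congr 1
  abel

end J60b
end Helper536
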