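import Mathlib
import Pool.Agent.helper536_SFT.Sft

namespace Helper536
namespace J60c

/- TARGET. Proof in words:
First: let supp = {0} union {Pi.single i 1 : i} (Finset), and F = the set of all patterns with this support whose values g satisfy: not R (g 0) (fun i => g (Pi.single i 1)). F is finite since there are finitely many functions supp -> S (Set.Finite.subset of the image of all functions under Pattern.mk supp). x avoids F iff R holds at all sites (t + 0 = t, given a violation at s build the pattern read in x at s).
Second: a translate by t' of p occurs in the shifted configuration iff the translate by t'+t occurs in x (t'+u+t = (t'+t)+u).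
-/
theorem sft_local {d : ℕ} {S : Type} [Finite S] :
    (∀ R : S → (Fin d → S) → Prop,
      IsSFT {x : Conf d S | ∀ s, R (x s) (fun i => x (s + Pi.single i 1))}) ∧
    (∀ X : Set (Conf d S), IsSFT X → ∀ x ∈ X, ∀ t : Fin d → ℤ, (fun s => x (s + t)) ∈ X) := by
  classical
  refine ⟨fun R => ?_, ?_⟩
  · set K : Finset (Fin d → ℤ) := insert 0 (Finset.univ.image fun i : Fin d => (Pi.single i 1 : Fin d → ℤ)) with hK
    have h0 : (0 : Fin d → ℤ) ∈ K := Finset.mem_insert_self _ _
    have h1 : ∀ i : Fin d, (Pi.single i 1 : Fin d → ℤ) ∈ K := fun i =>
      Finset.mem_insert_of_mem (Finset.mem_image_of_mem _ (Finset.mem_univ i))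
    refine ⟨{p | ∃ g : (Fin d → ℤ) → S, p = Pattern.mk K (fun u => g u) ∧
      ¬ R (g 0) (fun i => g (Pi.single i 1))}, ?_, ?_⟩
    · refine (Set.finite_range (fun v : K → S => Pattern.mk K v)).subset ?_
      rintro p ⟨g, rfl, -⟩
      exact ⟨fun u => g u, rfl⟩
    · ext x
      constructor
      · rintro hx p ⟨g, rfl, hg⟩ t hocc
        have h2 := hocc ⟨0, h0⟩
        have h3 : ∀ i, x (t + Pi.single i 1) = g (Pi.single i 1) := fun i => hocc ⟨_, h1 i⟩
        have h4 := hx t
        have h5 : x t = g 0 := by
          have h6 : x (t + 0) = g 0 := h2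
          rwa [add_zero] at h6
        rw [h5, funext h3] at h4
        exact hg h4
      · intro hx s
        by_contra hcon
        refine hx (Pattern.mk K (fun u => x (s + u))) ⟨fun v => x (s + v), rfl, ?_⟩ s ?_
        · dsimp only
          rwa [add_zero]
        · intro u
          rfl
  · rintro X ⟨F, -, rfl⟩ x hx t p hp t' hocc
    refine hx p hp (t' + t) fun u => ?_
    have h := hocc u
    dsimp only at h
    rw [show t' + t + (u : Fin d → ℤ) = t' + u + t by abel]
    exact h

end J60c
end Helper536
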