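import Mathlib
import Pool.Agent.helper536_SFT.Sft

namespace Helper536
namespace J60d

/- TARGET. Proof in words:
Map a subset T of F to the pattern u -> z (fun q => q in T) (u + p) on the cube of side n (the pattern at 0 of the shifted configuration s -> z b (s+p), which is in X). It is injective: for q in F, the position σ q - p lies in the cube, and f of the value there tells whether q is in T. So Set.ncard of the image set >= card of the powerset = 2^card F (the set of patterns is finite).
-/
theorem bits_patterns {d : ℕ} {S : Type} [Finite S] (X : Set (Conf d S))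
    (hinv : ∀ x ∈ X, ∀ t : Fin d → ℤ, (fun s => x (s + t)) ∈ X) (n : ℕ) {α : Type}
    (p : Fin d → ℤ) (F : Finset α) (σ : α → (Fin d → ℤ))
    (hσ : ∀ q ∈ F, ∀ i, p i ≤ σ q i ∧ σ q i < p i + n) (f : S → Prop)
    (z : (α → Prop) → Conf d S) (hz : ∀ b, z b ∈ X) (hf : ∀ b, ∀ q ∈ F, (f (z b (σ q)) ↔ b q)) :
    2 ^ F.card ≤ numPatterns X n := by
  classical
  unfold numPatterns
  let Φ : Finset α → ((Fin d → Fin n) → S) :=
    fun T u => z (fun q => q ∈ T) ((fun i => ((u i : ℕ) : ℤ)) + p)
  have hinj : Set.InjOn Φ (F.powerset : Set (Finset α)) := by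
    intro T hT T' hT' h
    have hT1 : T ⊆ F := Finset.mem_powerset.mp (Finset.mem_coe.mp hT)
    have hT1' : T' ⊆ F := Finset.mem_powerset.mp (Finset.mem_coe.mp hT')
    have key : ∀ q ∈ F, (q ∈ T ↔ q ∈ T') := by
      intro q hq
      have hlt : ∀ i, (σ q i - p i).toNat < n := by
        intro i
        have := hσ q hq i
        omega
      have hval : ((fun i => (((⟨(σ q i - p i).toNat, hlt i⟩ : Fin n) : ℕ) : ℤ)) + p) = σ q := by
        funext i
        have := hσ q hq i
        simp only [Pi.add_apply]
        omega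
      have h1 := congrFun h (fun i => (⟨(σ q i - p i).toNat, hlt i⟩ : Fin n))
      have h2 : z (fun q => q ∈ T) (σ q) = z (fun q => q ∈ T') (σ q) := by
        have h3 : z (fun q => q ∈ T) ((fun i => (((⟨(σ q i - p i).toNat, hlt i⟩ : Fin n) : ℕ) : ℤ)) + p)
            = z (fun q => q ∈ T') ((fun i => (((⟨(σ q i - p i).toNat, hlt i⟩ : Fin n) : ℕ) : ℤ)) + p) := h1
        rwa [hval] at h3
      rw [← hf (fun q => q ∈ T) q hq, ← hf (fun q => q ∈ T') q hq, h2]
    ext q
    constructor
    · intro hq
      exact (key q (hT1 hq)).1 hq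
    · intro hq
      exact (key q (hT1' hq)).2 hq
  calc 2 ^ F.card = F.powerset.card := (Finset.card_powerset F).symm
    _ = (Φ '' (F.powerset : Set (Finset α))).ncard := by
        rw [Set.InjOn.ncard_image hinj, Set.ncard_coe_finset]
    _ ≤ _ := by
        apply Set.ncard_le_ncard _ (Set.toFinite _)
        rintro _ ⟨T, _, rfl⟩
        exact ⟨fun s => z (fun q => q ∈ T) (s + p), hinv _ (hz _) p, rfl⟩

end J60d
end Helper536
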