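import Mathlib
import Pool.Agent.helper536_SFT.Defs
import Pool.Agent.helper536_SFT.J01

namespace Helper536
namespace J70

/- TARGET. Proof in words:
Finite: map u to the tuple of its fields: digits as functions to the finite set [0,3], labels as functions Fin (n+2) → Fin (n+2) → (ints in bounded ranges, Props, K3, St values), c, v, w; the map into a product of finite types is injective (Cell.ext, Lab.ext). Types: Prop is finite, K3 and St are finite (three constructors), Val is finite (one or nu of an Option Bool), Set.Icc a b of integers is finite. Finite.of_injective.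
Second: dig0, dig1 with h=3; for i=j the label is dfl = lineLab 3 1 0 0 0 same: ty 1=1, phase 3 0=0, kap=1; for i != j the field wf.
-/
/-- symbols with bounded entries -/
def OkCell {n : ℕ} (u : Cell n) : Prop :=
  (∀ i, 0 ≤ u.dig i ∧ u.dig i ≤ 3) ∧ ∀ i j,
    (1 ≤ (u.lab i j).ty ∧ (u.lab i j).ty ≤ 4) ∧ (0 ≤ (u.lab i j).ph ∧ (u.lab i j).ph ≤ 5) ∧
    (0 ≤ (u.lab i j).phc ∧ (u.lab i j).phc ≤ 5) ∧ (1 ≤ (u.lab i j).kap ∧ (u.lab i j).kap ≤ 4)

instance finSt : Finite St := by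
  apply Finite.of_surjective (fun k : Fin 3 => if k = 0 then St.U else if k = 1 then St.J else St.S)
  intro x
  cases x
  · exact ⟨0, rfl⟩
  · exact ⟨1, rfl⟩
  · exact ⟨2, rfl⟩

instance finK3 : Finite K3 := by
  apply Finite.of_surjective
    (fun k : Fin 3 => if k = 0 then K3.same else if k = 1 then K3.hi else K3.lo)
  intro x
  cases x
  · exact ⟨0, rfl⟩
  · exact ⟨1, rfl⟩
  · exact ⟨2, rfl⟩

instance finVal : Finite Val := by
  apply Finite.of_surjective (fun k : Option (Option Bool) =>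
    match k with
    | none => Val.one
    | some u => Val.nu u)
  intro x
  cases x with
  | one => exact ⟨none, rfl⟩
  | nu u => exact ⟨some u, rfl⟩

/-- labels with bounded entries -/
def OkLab (b : Lab) : Prop :=
  (1 ≤ b.ty ∧ b.ty ≤ 4) ∧ (0 ≤ b.ph ∧ b.ph ≤ 5) ∧ (0 ≤ b.phc ∧ b.phc ≤ 5) ∧
    (1 ≤ b.kap ∧ b.kap ≤ 4)

instance finLab : Finite {b : Lab // OkLab b} := by
  let f : {b : Lab // OkLab b} → (Set.Icc (1 : ℤ) 4 × Prop × Prop × Prop × Prop) ×
      (Prop × Prop × Prop × Prop) × (K3 × St × St × St) ×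
      (Set.Icc (0 : ℤ) 5 × Set.Icc (0 : ℤ) 5 × Set.Icc (1 : ℤ) 4) := fun b =>
    ((⟨b.1.ty, b.2.1⟩, b.1.i, b.1.o, b.1.first, b.1.last), (b.1.fa, b.1.la, b.1.fc, b.1.lc),
      (b.1.K, b.1.st, b.1.g, b.1.G),
      (⟨b.1.ph, b.2.2.1⟩, ⟨b.1.phc, b.2.2.2.1⟩, ⟨b.1.kap, b.2.2.2.2⟩))
  apply Finite.of_injective f
  rintro ⟨b, hb⟩ ⟨b', hb'⟩ h
  simp only [f, Prod.mk.injEq] at h
  obtain ⟨⟨h1, h2, h3, h4, h5⟩, ⟨h6, h7, h8, h9⟩, ⟨h10, h11, h12, h13⟩, h14, h15, h16⟩ := h
  apply Subtype.ext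
  exact Lab.ext (congrArg Subtype.val h1) h2 h3 h4 h5 h6 h7 h8 h9 h10 h11 h12 h13
    (congrArg Subtype.val h14) (congrArg Subtype.val h15) (congrArg Subtype.val h16)

theorem ok_cells (n : ℕ) :
    Finite {u : Cell n // OkCell u} ∧
    ∀ (u : Cell n) (N : Fin (n + 2) → Cell n), LSk 3 u N → OkCell u := by
  constructor
  · let f : {u : Cell n // OkCell u} → (Fin (n + 2) → Set.Icc (0 : ℤ) 3) ×
        (Fin (n + 2) → Fin (n + 2) → {b : Lab // OkLab b}) ×
        (Fin (n + 2) → Fin (n + 2) → K3) × Option Val × Option Val := fun u =>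
      (fun i => ⟨u.1.dig i, u.2.1 i⟩, fun i j => ⟨u.1.lab i j, u.2.2 i j⟩, u.1.c, u.1.v, u.1.w)
    apply Finite.of_injective f
    rintro ⟨u, hu⟩ ⟨u', hu'⟩ h
    simp only [f, Prod.mk.injEq] at h
    obtain ⟨h1, h2, h3, h4, h5⟩ := h
    apply Subtype.ext
    apply Cell.ext
    · funext i
      exact congrArg Subtype.val (congrFun h1 i)
    · funext i j
      exact congrArg Subtype.val (congrFun (congrFun h2 i) j)
    · exact h3
    · exact h4
    · exact h5
  · intro u N S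
    refine ⟨fun i => ⟨S.dig0 i, S.dig1 i⟩, fun i j => ?_⟩
    by_cases hij : i = j
    · subst hij
      rw [S.labD i]
      simp [dfl, lineLab, ty, phase]
    · have w := S.wf i j hij
      exact ⟨⟨w.ty1, w.ty4⟩, ⟨w.ph0, w.ph5⟩, ⟨w.phc0, w.phc5⟩, ⟨w.kap1, w.kap4⟩⟩

end J70
end Helper536
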