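import Mathlib
import Pool.Agent.helper536_SFT.Sft
import Pool.Agent.helper536_SFT.TwinDef
import Pool.Agent.helper536_SFT.J02
import Pool.Agent.helper536_SFT.J39
import Pool.Agent.helper536_SFT.J41e
import Pool.Agent.helper536_SFT.J50d
import Pool.Agent.helper536_SFT.J60a
import Pool.Agent.helper536_SFT.J60b
import Pool.Agent.helper536_SFT.J60c
import Pool.Agent.helper536_SFT.J60d
import Pool.Agent.helper536_SFT.J70

open Filter Topology

namespace Helper536
namespace Final

/-- the alphabet -/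
abbrev Alph (n : ℕ) := {u : Cell n // J70.OkCell u}

/-- the subshift -/
def subA (n : ℕ) : Set (Conf (n + 2) (Alph n)) :=
  {x | ∀ s, LRule 3 (x s).1 (fun i => (x (s + Pi.single i 1)).1)}

theorem subA_sft (n : ℕ) : IsSFT (subA n) := by
  haveI : Finite (Alph n) := (J70.ok_cells n).1
  exact (J60c.sft_local (d := n + 2) (S := Alph n)).1
    (fun u N => LRule 3 u.1 (fun i => (N i).1))

/-- the explicit configurations over the alphabet -/
noncomputable def zs {n : ℕ} (k : ℕ) (b : Pos n → Prop) : Conf (n + 2) (Alph n) :=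
  fun s => ⟨zz k b s, (J70.ok_cells n).2 _ _ (J41e.zz_rule k b s).sk⟩

theorem zs_mem {n : ℕ} (k : ℕ) (b : Pos n → Prop) : zs k b ∈ subA n := by
  intro s
  exact J41e.zz_rule k b s

theorem main {n : ℕ} (B : Set (Conf (n + 2) (Alph n))) (hB : B ⊆ subA n) (hs : IsSFT B)
    (hne : B.Nonempty) : ∃ η : ℝ, 0 < η ∧ HasEntropy B η := by
  haveI : Finite (Alph n) := (J70.ok_cells n).1
  obtain ⟨r, hr1, hr⟩ := J60b.sft_window B hs
  obtain ⟨x, hx⟩ := hne
  have hinv := (J60c.sft_local (d := n + 2) (S := Alph n)).2 B hs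
  obtain ⟨η, hη⟩ := J60a.entropy_exists B hinv ⟨x, hx⟩
  obtain ⟨k0, hk0⟩ := J50d.bits_visible n
  obtain ⟨hh3, hL1, hLk, -⟩ := J02.digit_facts
  -- the parameter
  set k : ℕ := max k0 (r.toNat + 1) with hk
  have hkr : r ≤ LL k := by
    have h1 : r.toNat + 1 ≤ k := le_max_right _ _
    obtain ⟨j, hj⟩ : ∃ j, k = j + 1 := ⟨k - 1, by omega⟩
    have h2 := hLk j
    rw [hj]
    have h3 : r ≤ (j : ℤ) := by omega
    omega
  have hzB : ∀ b, zs k b ∈ B := by
    intro b
    apply hr
    intro p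
    have hxr : Rule 3 (fun s => (x s).1) := fun s => hB hx s
    obtain ⟨Tr, hTr⟩ := J39.twin_main (fun s => (x s).1) hxr k r hr1 hkr b p
    refine ⟨x, hx, Tr, ?_⟩
    intro s hsp
    exact Subtype.ext (hTr s hsp)
  refine ⟨η, ?_, hη⟩
  -- lower bound along a subsequence
  have hlow : ∀ m : ℕ, Real.log 2 / (2 * (LL (k + 1) : ℝ) ^ (n + 2)) ≤
      Real.log (numPatterns B (LL (k + 1 + m)).toNat) /
        (((LL (k + 1 + m)).toNat : ℕ) : ℝ) ^ (n + 2) := by
    intro m
    obtain ⟨p, F, σ, hc, hσ, hb⟩ := hk0 k (le_max_left _ _) m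
    have hLpos : (0 : ℤ) < LL (k + 1 + m) := by have := hL1 (k + 1 + m); omega
    have hLpos' : (0 : ℤ) < LL (k + 1) := by have := hL1 (k + 1); omega
    have hcast : (((LL (k + 1 + m)).toNat : ℕ) : ℤ) = LL (k + 1 + m) :=
      Int.toNat_of_nonneg hLpos.le
    have hcastR : (((LL (k + 1 + m)).toNat : ℕ) : ℝ) = (LL (k + 1 + m) : ℝ) := by
      exact_mod_cast congrArg (fun t : ℤ => (t : ℝ)) hcast
    have h1 := J60d.bits_patterns B hinv (LL (k + 1 + m)).toNat p F σ
      (by
        intro q hq i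
        rw [hcast]
        exact hσ q hq i)
      (fun u => u.1.v = some Val.one) (fun b => zs k b) hzB
      (fun b q hq => hb b q hq)
    have h2 : (F.card : ℝ) * Real.log 2 ≤ Real.log (numPatterns B (LL (k + 1 + m)).toNat) := by
      rw [← Real.log_pow]
      apply Real.log_le_log (by positivity)
      exact_mod_cast h1
    have hA : (0 : ℝ) < (LL (k + 1 + m) : ℝ) := by exact_mod_cast hLpos
    have hA' : (0 : ℝ) < (LL (k + 1) : ℝ) := by exact_mod_cast hLpos'
    have hlog : 0 < Real.log 2 := Real.log_pos (by norm_num)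
    rw [hcastR, le_div_iff₀ (by positivity)]
    calc Real.log 2 / (2 * (LL (k + 1) : ℝ) ^ (n + 2)) * (LL (k + 1 + m) : ℝ) ^ (n + 2)
        = (1 / 2 : ℝ) * ((LL (k + 1 + m) : ℝ) / (LL (k + 1) : ℝ)) ^ (n + 2) * Real.log 2 := by
          rw [div_pow]; field_simp
      _ ≤ (F.card : ℝ) * Real.log 2 := by
          exact mul_le_mul_of_nonneg_right hc hlog.le
      _ ≤ _ := h2
  have htend : Tendsto (fun m : ℕ => (LL (k + 1 + m)).toNat) atTop atTop := by
    apply tendsto_atTop_mono (f := fun m : ℕ => m) _ tendsto_id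
    intro m
    have h2 := hLk (k + m)
    have h3 : k + 1 + m = k + m + 1 := by omega
    rw [h3]
    omega
  have hlim := hη.comp htend
  have hge : Real.log 2 / (2 * (LL (k + 1) : ℝ) ^ (n + 2)) ≤ η :=
    ge_of_tendsto' hlim hlow
  have hLpos' : (0 : ℤ) < LL (k + 1) := by have := hL1 (k + 1); omega
  have hA' : (0 : ℝ) < (LL (k + 1) : ℝ) := by exact_mod_cast hLpos'
  have hlog : 0 < Real.log 2 := Real.log_pos (by norm_num)
  exact lt_of_lt_of_le (by positivity) hge

end Final
end Helper536
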